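import Pool.Agent.Work.MP_b44cb1_al.Zel.GrLin

/-!
# Zel/GrH (M) : the Lie ring of adjoint maps

`gH Λ` = additive subgroup of `AddMonoid.End (Vs Λ)` generated by all `φ` with `IsAd Λ b y φ` for some `b`
and `y ∈ Λ b`.
* `gH_lie` : bilinearity (`AddSubgroup.closure_induction₂`) and `isAd_lie`.
* `gH_lin` : `x ↦ sum_σ x (σ 0) * ... * x (σ (r-1))` is additive in every slot, so it suffices to check
  `x i = φ i` with `IsAd Λ (b i) (y i) (φ i)` (closure induction slot by slot with `Function.update`, or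
  expand). By `end_ext` apply both sides to `ofc Λ a g`: the product `φ (σ 0) * ... * φ (σ (r-1))` maps
  it to `ofc Λ (a + sum (b i + 1)) (itc g [y (σ (r-1)), ..., y (σ 0)])` (induction on lists; reorder
  the sum of the degrees, `ofc_congr`); reversing is a bijection of `Perm (Fin r)`, and `lin_elt` gives 0.
-/

set_option autoImplicit false

namespace Zel60

/-- The additive group generated by all adjoint maps. -/
def gH {G : Type} [Group G] (Λ : ℕ → Subgroup G) : AddSubgroup (AddMonoid.End (Vs Λ)) :=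
  AddSubgroup.closure {φ | ∃ b, ∃ y ∈ Λ b, IsAd Λ b y φ}

theorem gH_lie {G : Type} [Group G] {Λ : ℕ → Subgroup G} (h : NS Λ) :
    ∀ x ∈ gH Λ, ∀ y ∈ gH Λ, x * y - y * x ∈ gH Λ := by
  have h1 : ∀ x ∈ gH Λ, ∀ ψ, (∃ c, ∃ z ∈ Λ c, IsAd Λ c z ψ) → x * ψ - ψ * x ∈ gH Λ := by
    intro x hx ψ hψ
    obtain ⟨c, z, hz, hψ⟩ := hψ
    refine AddSubgroup.closure_induction (p := fun x _ => x * ψ - ψ * x ∈ gH Λ) ?_ ?_ ?_ ?_ hx
    · rintro φ ⟨b, y, hy, hφ⟩
      refine AddSubgroup.subset_closure ⟨b + c + 1, com z y, ?_, isAd_lie h b c hy hz hφ hψ⟩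
      have := h.comm c b z hz y hy
      rwa [show c + b + 1 = b + c + 1 by omega] at this
    · rw [zero_mul, mul_zero, sub_zero]
      exact AddSubgroup.zero_mem _
    · intro a b _ _ ha hb
      have h2 : (a + b) * ψ - ψ * (a + b) = (a * ψ - ψ * a) + (b * ψ - ψ * b) := by noncomm_ring
      rw [h2]
      exact AddSubgroup.add_mem _ ha hb
    · intro a _ ha
      have h2 : (-a) * ψ - ψ * (-a) = -(a * ψ - ψ * a) := by noncomm_ring
      rw [h2]
      exact AddSubgroup.neg_mem _ ha
  intro x hx y hy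
  refine AddSubgroup.closure_induction (p := fun y _ => x * y - y * x ∈ gH Λ) ?_ ?_ ?_ ?_ hy
  · intro ψ hψ
    exact h1 x hx ψ hψ
  · rw [zero_mul, mul_zero, sub_zero]
    exact AddSubgroup.zero_mem _
  · intro a b _ _ ha hb
    have h2 : x * (a + b) - (a + b) * x = (x * a - a * x) + (x * b - b * x) := by noncomm_ring
    rw [h2]
    exact AddSubgroup.add_mem _ ha hb
  · intro a _ ha
    have h2 : x * (-a) - (-a) * x = -(x * a - a * x) := by noncomm_ring
    rw [h2]
    exact AddSubgroup.neg_mem _ ha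

private theorem GrH_multi {E : Type*} [Ring E] {r : ℕ}
    (F : MultilinearMap ℤ (fun _ : Fin r => E) E) (S : Set E)
    (hF : ∀ x : Fin r → E, (∀ i, x i ∈ S) → F x = 0) (A : Finset (Fin r)) :
    ∀ x : Fin r → E, (∀ i, i ∉ A → x i ∈ S) → (∀ i, x i ∈ AddSubgroup.closure S) → F x = 0 := by
  classical
  induction A using Finset.induction_on with
  | empty =>
    intro x hx _
    exact hF x (fun i => hx i (Finset.notMem_empty i))
  | insert i0 A hi0 ih =>
    intro x hx hx2
    have key : ∀ a ∈ AddSubgroup.closure S, F (Function.update x i0 a) = 0 := by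
      intro a ha
      refine AddSubgroup.closure_induction (p := fun a _ => F (Function.update x i0 a) = 0)
        ?_ ?_ ?_ ?_ ha
      · intro a ha
        apply ih
        · intro i hi
          by_cases hii : i = i0
          · subst hii
            rw [Function.update_self]
            exact ha
          · rw [Function.update_of_ne hii]
            apply hx
            rw [Finset.mem_insert]
            rintro (h1 | h1)
            · exact hii h1
            · exact hi h1
        · intro i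
          by_cases hii : i = i0
          · subst hii
            rw [Function.update_self]
            exact AddSubgroup.subset_closure ha
          · rw [Function.update_of_ne hii]
            exact hx2 i
      · exact F.map_update_zero x i0
      · intro a b _ _ ha hb
        rw [F.map_update_add, ha, hb, add_zero]
      · intro a _ ha
        rw [F.map_update_neg, ha, neg_zero]
    have h1 := key (x i0) (hx2 i0)
    rwa [Function.update_eq_self] at h1

private theorem GrH_app {G : Type} [Group G] {Λ : ℕ → Subgroup G} (h : NS Λ) (a : ℕ) {g : G}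
    (hg : g ∈ Λ a) (L : List (AddMonoid.End (Vs Λ) × ℕ × G)) :
    (∀ t ∈ L, t.2.2 ∈ Λ t.2.1 ∧ IsAd Λ t.2.1 t.2.2 t.1) →
    itc g (L.map (fun t => t.2.2)).reverse ∈ Λ (a + (L.map (fun t => t.2.1 + 1)).sum) ∧
      (L.map (fun t => t.1)).prod (ofc Λ a g) =
        ofc Λ (a + (L.map (fun t => t.2.1 + 1)).sum) (itc g (L.map (fun t => t.2.2)).reverse) := by
  induction L with
  | nil =>
    intro _
    exact ⟨hg, rfl⟩
  | cons t L ih =>
    intro ht
    obtain ⟨h1, h2⟩ := ih (fun s hs => ht s (List.mem_cons_of_mem _ hs))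
    obtain ⟨h3, h4⟩ := ht t List.mem_cons_self
    have h5 : itc g ((t :: L).map (fun t => t.2.2)).reverse =
        com (itc g (L.map (fun t => t.2.2)).reverse) t.2.2 := by
      rw [List.map_cons, List.reverse_cons]
      unfold itc
      rw [List.foldl_append]
      rfl
    have h6 : a + ((t :: L).map (fun t => t.2.1 + 1)).sum =
        a + (L.map (fun t => t.2.1 + 1)).sum + t.2.1 + 1 := by
      rw [List.map_cons, List.sum_cons]
      omega
    rw [h5]
    refine ⟨?_, ?_⟩
    · rw [h6]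
      exact h.comm _ _ _ h1 _ h3
    · rw [ofc_congr Λ h6, List.map_cons, List.prod_cons]
      show t.1 ((L.map (fun t => t.1)).prod (ofc Λ a g)) = _
      rw [h2]
      exact h4 _ _ h1

private theorem GrH_rev {α : Type*} {r : ℕ} (f : Fin r → α) :
    (List.ofFn f).reverse = List.ofFn (fun i => f (Fin.rev i)) := by
  apply List.ext_getElem
  · simp
  · intro n h1 h2
    rw [List.getElem_reverse, List.getElem_ofFn, List.getElem_ofFn]
    congr 1
    apply Fin.ext
    rw [Fin.val_rev]
    simp only [List.length_ofFn] at *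
    omega

theorem gH_lin {G : Type} [Group G] {Λ : ℕ → Subgroup G} (h : NS Λ) (r : ℕ)
    (law : ∀ x ∈ Λ 0, ∀ y ∈ Λ 0, (fun z => com z y)^[r] x = 1)
    (x : Fin r → AddMonoid.End (Vs Λ)) (hx : ∀ i, x i ∈ gH Λ) :
    ∑ σ : Equiv.Perm (Fin r), (List.ofFn (fun i => x (σ i))).prod = 0 := by
  classical
  obtain ⟨F, hF⟩ : ∃ F : MultilinearMap ℤ (fun _ : Fin r => AddMonoid.End (Vs Λ))
      (AddMonoid.End (Vs Λ)), ∀ x, F x =
        ∑ σ : Equiv.Perm (Fin r), (List.ofFn (fun i => x (σ i))).prod := by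
    refine ⟨∑ σ : Equiv.Perm (Fin r),
      (MultilinearMap.mkPiAlgebraFin ℤ r (AddMonoid.End (Vs Λ))).domDomCongr σ, ?_⟩
    intro x
    rw [MultilinearMap.sum_apply]
    rfl
  rw [← hF]
  refine GrH_multi F {φ | ∃ b, ∃ y ∈ Λ b, IsAd Λ b y φ} ?_ Finset.univ x
    (fun i hi => absurd (Finset.mem_univ i) hi) hx
  intro x hx
  choose b y hy had using hx
  rw [hF]
  apply end_ext
  intro a g hg
  have h1 : ∀ σ : Equiv.Perm (Fin r), (List.ofFn (fun i => x (σ i))).prod (ofc Λ a g) =
      ofc Λ (a + ∑ i, (b i + 1)) (itc g (List.ofFn (fun i => y ((σ * (Fin.revPerm : Equiv.Perm (Fin r)) : Equiv.Perm (Fin r)) i)))) := by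
    intro σ
    obtain ⟨-, h2⟩ := GrH_app h a hg (List.ofFn (fun i => (x (σ i), b (σ i), y (σ i)))) (by
      intro t ht
      rw [List.mem_ofFn] at ht
      obtain ⟨i, rfl⟩ := ht
      exact ⟨hy (σ i), had (σ i)⟩)
    rw [List.map_ofFn, List.map_ofFn, List.map_ofFn, GrH_rev] at h2
    have h3 : (List.ofFn ((fun t : AddMonoid.End (Vs Λ) × ℕ × G => t.2.1 + 1) ∘
        fun i => (x (σ i), b (σ i), y (σ i)))).sum = ∑ i, (b i + 1) := by
      rw [List.sum_ofFn]
      exact Equiv.sum_comp σ (fun i => b i + 1)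
    rw [h3] at h2
    exact h2
  have h2 : (∑ σ : Equiv.Perm (Fin r), (List.ofFn (fun i => x (σ i))).prod) (ofc Λ a g) =
      ∑ σ : Equiv.Perm (Fin r), (List.ofFn (fun i => x (σ i))).prod (ofc Λ a g) :=
    AddMonoidHom.finsetSum_apply _ _ _
  rw [h2, Finset.sum_congr rfl (fun σ _ => h1 σ)]
  have h3 : ∑ σ : Equiv.Perm (Fin r), ofc Λ (a + ∑ i, (b i + 1))
      (itc g (List.ofFn (fun i => y ((σ * (Fin.revPerm : Equiv.Perm (Fin r)) : Equiv.Perm (Fin r)) i)))) =
      ∑ σ : Equiv.Perm (Fin r), ofc Λ (a + ∑ i, (b i + 1))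
        (itc g (List.ofFn (fun i => y (σ i)))) :=
    Equiv.sum_comp (Equiv.mulRight (Fin.revPerm : Equiv.Perm (Fin r)))
      (fun σ => ofc Λ (a + ∑ i, (b i + 1)) (itc g (List.ofFn (fun i => y (σ i)))))
  rw [h3]
  have h4 := lin_elt r _ G Λ h law b le_rfl y hy a g hg
  have h5 : ∑ σ : Equiv.Perm (Fin r), ofc Λ (a + ∑ i, (b i + 1))
        (itc g (List.ofFn (fun i => y (σ i)))) =
      DirectSum.of (fun a => Vg Λ a) (a + ∑ i, (b i + 1)) (∑ σ : Equiv.Perm (Fin r),
        cl Λ (a + ∑ i, (b i + 1)) (itc g (List.ofFn (fun i => y (σ i))))) := by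
    rw [map_sum]
    rfl
  rw [h5, h4, map_zero]
  rfl

end Zel60
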