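import Pool.Agent.Work.MP_b44cb1_al.Zel.GDefs

/-!
# Zel/GrLcs (M) : the lower central series is an N-series, generated by left normed commutators

Mathlib: `Subgroup.lowerCentralSeries (⊤ : Subgroup G) n`, `lowerCentralSeries_succ`
(`γ (n+1) = ⁅γ n, ⊤⁆`), `lowerCentralSeries_antitone`. Write `γ n` for it. `⁅p, q⁆ = p q p⁻¹ q⁻¹`,
`com x y = ⁅x⁻¹, y⁻¹⁆`.
`lcs_NS` : `⁅γ a, γ b⁆ ≤ γ (a+b+1)` by induction on `b` for all `a`. For `b = 0` : definition.
`⁅γ a, γ (b+1)⁆ = ⁅γ a, ⁅γ b, ⊤⁆⁆`, and by the three subgroups lemma for normal subgroups (pass to the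
quotient by `γ (a+b+2)` and use `Subgroup.commutator_commutator_eq_bot_of_rotate`, or compute with the
Hall-Witt identity) it is contained in `γ (a+b+2)`, because
`⁅⁅γ a, γ b⁆, ⊤⁆ ≤ ⁅γ (a+b+1), ⊤⁆ = γ (a+b+2)` and `⁅⁅⊤, γ a⁆, γ b⁆ ≤ ⁅γ (a+1), γ b⁆ ≤ γ (a+b+2)`.
`lcs_gen` : `γ j ≤ closure {itc x l | l.length = j} ⊔ γ (j+1)`. Induction on `j`, `j = 0` is clear. By
`lcs_NS`, modulo `γ (j+2)` the map `c ↦ com c y` on `γ j` is multiplicative
(`com (c c') y = com c y * com (com c y) c' * com c' y`), kills `γ (j+1)`, and `com c y ∈ γ (j+1)` is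
central modulo `γ (j+2)`. `γ (j+1)` is generated by the elements `⁅c, y⁆`, `c ∈ γ j`; by the induction
hypothesis `c` is modulo `γ (j+1)` a product of elements `(itc x l)^{±1}`, so `com c y` is modulo `γ (j+2)`
a product of elements `(com (itc x l) y)^{±1} = (itc x (l ++ [y]))^{±1}`.
`lcs_bot` : if all `itc x l` with `l.length = N` lie in `γ (N+1)` then `γ N ≤ γ (N+1)` by `lcs_gen`, so
`γ N = γ (N+1) = γ (N+2) = ...` (`lowerCentralSeries_succ`), and `γ m = ⊥` for some `m` in a nilpotent
group (`nilpotent_iff_lowerCentralSeries`).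
-/

set_option autoImplicit false

namespace Zel60

open scoped commutatorElement

private theorem three_le {G : Type} [Group G] (A B C N : Subgroup G) [N.Normal]
    (h1 : ⁅⁅B, C⁆, A⁆ ≤ N) (h2 : ⁅⁅C, A⁆, B⁆ ≤ N) : ⁅⁅A, B⁆, C⁆ ≤ N := by
  have key : ∀ X Y Z : Subgroup G, ⁅⁅X, Y⁆, Z⁆ ≤ N ↔
      ⁅⁅X.map (QuotientGroup.mk' N), Y.map (QuotientGroup.mk' N)⁆,
        Z.map (QuotientGroup.mk' N)⁆ = ⊥ := by
    intro X Y Z
    rw [← Subgroup.map_commutator, ← Subgroup.map_commutator, Subgroup.map_eq_bot_iff,
      QuotientGroup.ker_mk']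
  rw [key] at *
  exact Subgroup.commutator_commutator_eq_bot_of_rotate h1 h2

private theorem com_eq {G : Type} [Group G] (x y : G) : com x y = ⁅x⁻¹, y⁻¹⁆ := by
  rw [commutatorElement_def, inv_inv, inv_inv]
  rfl

private theorem lcs_comm (G : Type) [Group G] (b : ℕ) : ∀ a,
    ⁅Subgroup.lowerCentralSeries (⊤ : Subgroup G) a, Subgroup.lowerCentralSeries (⊤ : Subgroup G) b⁆ ≤
      Subgroup.lowerCentralSeries (⊤ : Subgroup G) (a + b + 1) := by
  induction b with
  | zero =>
    intro a
    rw [Nat.add_zero, Subgroup.lowerCentralSeries_zero, Subgroup.lowerCentralSeries_succ]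
  | succ b ih =>
    intro a
    rw [Subgroup.commutator_comm, Subgroup.lowerCentralSeries_succ ⊤ b]
    have hn : (Subgroup.lowerCentralSeries (⊤ : Subgroup G) (a + (b + 1) + 1)).Normal :=
      inferInstance
    apply three_le
    · rw [Subgroup.commutator_comm ⊤, ← Subgroup.lowerCentralSeries_succ]
      refine (ih (a + 1)).trans ?_
      rw [show a + 1 + b + 1 = a + (b + 1) + 1 by omega]
    · refine (Subgroup.commutator_mono (ih a) le_rfl).trans ?_
      rw [← Subgroup.lowerCentralSeries_succ, show a + b + 1 + 1 = a + (b + 1) + 1 by omega]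

theorem lcs_NS (G : Type) [Group G] :
    NS (fun a => Subgroup.lowerCentralSeries (⊤ : Subgroup G) a) := by
  refine ⟨fun a => Subgroup.lowerCentralSeries_antitone ⊤ (Nat.le_succ a), ?_⟩
  intro a b x hx y hy
  rw [com_eq]
  exact lcs_comm G b a (Subgroup.commutator_mem_commutator (Subgroup.inv_mem _ hx)
    (Subgroup.inv_mem _ hy))

private theorem itc_mem (G : Type) [Group G] (x : G) (l : List G) : ∀ (j : ℕ), l.length = j →
    itc x l ∈ Subgroup.lowerCentralSeries (⊤ : Subgroup G) j := by
  induction l using List.reverseRecOn with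
  | nil =>
    intro j hj
    rw [← hj, List.length_nil, Subgroup.lowerCentralSeries_zero]
    exact Subgroup.mem_top _
  | append_singleton l y ih =>
    intro j hj
    rw [List.length_append, List.length_singleton] at hj
    have h1 : itc x (l ++ [y]) = com (itc x l) y := by
      unfold itc
      rw [List.foldl_append]
      rfl
    rw [h1, ← hj]
    exact (lcs_NS G).comm l.length 0 _ (ih _ rfl) y (Subgroup.mem_top _)

theorem lcs_gen (G : Type) [Group G] (j : ℕ) :
    Subgroup.lowerCentralSeries (⊤ : Subgroup G) j ≤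
      Subgroup.closure {g | ∃ (x : G) (l : List G), l.length = j ∧ g = itc x l} ⊔
        Subgroup.lowerCentralSeries (⊤ : Subgroup G) (j + 1) := by
  induction j with
  | zero =>
    intro g _
    exact Subgroup.mem_sup_left (Subgroup.subset_closure ⟨g, [], rfl, rfl⟩)
  | succ j ih =>
    obtain ⟨K, hK⟩ : ∃ K : Subgroup G, K =
      Subgroup.closure {g | ∃ (x : G) (l : List G), l.length = j + 1 ∧ g = itc x l} ⊔
        Subgroup.lowerCentralSeries (⊤ : Subgroup G) (j + 1 + 1) := ⟨_, rfl⟩
    rw [← hK]
    have hKγ : Subgroup.lowerCentralSeries (⊤ : Subgroup G) (j + 1 + 1) ≤ K := by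
      rw [hK]
      exact le_sup_right
    have hns := lcs_NS G
    have main : ∀ (y : G), ∀ c ∈ Subgroup.lowerCentralSeries (⊤ : Subgroup G) j, com c y ∈ K := by
      intro y
      have hcc : ∀ c ∈ Subgroup.lowerCentralSeries (⊤ : Subgroup G) j,
          ∀ c' ∈ Subgroup.lowerCentralSeries (⊤ : Subgroup G) j, com (com c y) c' ∈ K := by
        intro c hc c' hc'
        apply hKγ
        have h1 : com c y ∈ Subgroup.lowerCentralSeries (⊤ : Subgroup G) (j + 1) :=
          hns.comm j 0 c hc y (Subgroup.mem_top _)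
        exact hns.mono (show j + 1 + 1 ≤ j + 1 + j + 1 by omega) (hns.comm (j + 1) j _ h1 _ hc')
      have hmul : ∀ c c' : G, com (c * c') y = com c y * com (com c y) c' * com c' y := by
        intro c c'
        unfold com
        group
      let T : Subgroup G :=
        { carrier := {c | c ∈ Subgroup.lowerCentralSeries (⊤ : Subgroup G) j ∧ com c y ∈ K}
          mul_mem' := by
            rintro c c' ⟨hc, hc2⟩ ⟨hc', hc2'⟩
            refine ⟨Subgroup.mul_mem _ hc hc', ?_⟩
            rw [hmul]
            exact Subgroup.mul_mem _ (Subgroup.mul_mem _ hc2 (hcc c hc c' hc')) hc2'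
          one_mem' := by
            refine ⟨Subgroup.one_mem _, ?_⟩
            have h1 : com (1 : G) y = 1 := by
              unfold com
              group
            rw [h1]
            exact Subgroup.one_mem _
          inv_mem' := by
            rintro c ⟨hc, hc2⟩
            refine ⟨Subgroup.inv_mem _ hc, ?_⟩
            have h1 : com c⁻¹ y = (com c y)⁻¹ * (com (com c⁻¹ y) c)⁻¹ := by
              unfold com
              group
            rw [h1]
            exact Subgroup.mul_mem _ (Subgroup.inv_mem _ hc2)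
              (Subgroup.inv_mem _ (hcc _ (Subgroup.inv_mem _ hc) _ hc)) }
      have hT : Subgroup.lowerCentralSeries (⊤ : Subgroup G) j ≤ T := by
        refine ih.trans (sup_le ?_ ?_)
        · rw [Subgroup.closure_le]
          rintro g ⟨x, l, hl, rfl⟩
          refine ⟨itc_mem G x l j hl, ?_⟩
          rw [hK]
          refine Subgroup.mem_sup_left (Subgroup.subset_closure ⟨x, l ++ [y], ?_, ?_⟩)
          · rw [List.length_append, hl, List.length_singleton]
          · unfold itc
            rw [List.foldl_append]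
            rfl
        · intro c hc
          refine ⟨hns.anti j hc, hKγ ?_⟩
          exact hns.comm (j + 1) 0 c hc y (Subgroup.mem_top _)
      intro c hc
      exact (hT hc).2
    rw [Subgroup.lowerCentralSeries_succ, Subgroup.commutator_le]
    intro p hp q _
    have h1 := main q⁻¹ p⁻¹ (Subgroup.inv_mem _ hp)
    rwa [com_eq, inv_inv, inv_inv] at h1

theorem lcs_bot (G : Type) [Group G] [Group.IsNilpotent G] (N : ℕ)
    (h : ∀ (x : G) (l : List G), l.length = N →
      itc x l ∈ Subgroup.lowerCentralSeries (⊤ : Subgroup G) (N + 1)) :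
    Subgroup.lowerCentralSeries (⊤ : Subgroup G) N = ⊥ := by
  have h1 : Subgroup.lowerCentralSeries (⊤ : Subgroup G) N ≤
      Subgroup.lowerCentralSeries (⊤ : Subgroup G) (N + 1) := by
    refine (lcs_gen G N).trans (sup_le ?_ le_rfl)
    rw [Subgroup.closure_le]
    rintro g ⟨x, l, hl, rfl⟩
    exact h x l hl
  have h2 : ∀ k, Subgroup.lowerCentralSeries (⊤ : Subgroup G) N ≤
      Subgroup.lowerCentralSeries (⊤ : Subgroup G) (N + k) := by
    intro k
    induction k with
    | zero => exact le_rfl
    | succ k ih =>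
      refine h1.trans ?_
      rw [← Nat.add_assoc, Subgroup.lowerCentralSeries_succ, Subgroup.lowerCentralSeries_succ]
      exact Subgroup.commutator_mono ih le_rfl
  obtain ⟨n, hn⟩ := Subgroup.nilpotent_iff_lowerCentralSeries.1 (inferInstance : Group.IsNilpotent G)
  rw [eq_bot_iff, ← hn]
  exact (h2 n).trans (Subgroup.lowerCentralSeries_antitone ⊤ (Nat.le_add_left n N))

end Zel60
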