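import Pool.Agent.Work.MP_b44cb1_al.Zel.UniA

/-!
# Zel/UniB (M) : the uniform integral version

There are `N, D > 0` such that in EVERY ring `E` with an additive subgroup `H` closed under commutators and
satisfying the linearised identity, `D • (product of N elements of H) = 0`.

Proof. `R = FreeAlgebra ℤ ℕ`, `L` = smallest additive subgroup containing the letters `ι i` and closed
under commutators (`sInf` as for `LX` in Defs), `I` = two-sided ideal generated by all
`sum_σ x (σ 0) ... x (σ (n-1))`, `x i ∈ L` (e.g. `RingCon`/`TwoSidedIdeal.span`, or `Ideal.span` of all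
`u * s * v` with `IsTwoSided`). `B = R ⧸ I` (in `Type`), `H` = image of `L`. `H` is closed under
commutators and satisfies the linearised identity. `uni_a` (with `SN n N`) applied to the list of the
images of the letters `ι 0, ..., ι (N-1)` gives `D > 0` with `D • (ι 0 ... ι (N-1)) ∈ I`.
Now let `E, H, l` be given, `l = [l_0, ..., l_(N-1)]`. The ring homomorphism `θ : R → E`
(`FreeAlgebra.lift ℤ`) with `θ (ι i) = l_i` (`0` for `i ≥ N`) maps `L` into `H` (minimality of `L`) and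
kills `I`. So `D • l.prod = θ (D • ι 0 ... ι (N-1)) = 0`.
-/

set_option autoImplicit false

namespace Zel60

universe u

private def LZ : AddSubgroup (FreeAlgebra ℤ ℕ) :=
  sInf {L : AddSubgroup (FreeAlgebra ℤ ℕ) | (∀ i, FreeAlgebra.ι ℤ i ∈ L) ∧
    ∀ x ∈ L, ∀ y ∈ L, x * y - y * x ∈ L}

private theorem LZ_iota (i : ℕ) : FreeAlgebra.ι ℤ i ∈ LZ := by
  rw [LZ, AddSubgroup.mem_sInf]
  exact fun L hL => hL.1 i

private theorem LZ_lie {x y : FreeAlgebra ℤ ℕ} (hx : x ∈ LZ) (hy : y ∈ LZ) :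
    x * y - y * x ∈ LZ := by
  rw [LZ, AddSubgroup.mem_sInf] at *
  exact fun L hL => hL.2 x (hx L hL) y (hy L hL)

private theorem LZ_le {L : AddSubgroup (FreeAlgebra ℤ ℕ)} (h1 : ∀ i, FreeAlgebra.ι ℤ i ∈ L)
    (h2 : ∀ x ∈ L, ∀ y ∈ L, x * y - y * x ∈ L) : LZ ≤ L := sInf_le ⟨h1, h2⟩

/-- symmetric sums of Lie polynomials -/
private def SS (n : ℕ) : Set (FreeAlgebra ℤ ℕ) :=
  {s | ∃ x : Fin n → FreeAlgebra ℤ ℕ, (∀ i, x i ∈ LZ) ∧
    s = ∑ σ : Equiv.Perm (Fin n), (List.ofFn (fun i => x (σ i))).prod}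

private def II (n : ℕ) : Ideal (FreeAlgebra ℤ ℕ) :=
  Ideal.span {z | ∃ u s v : FreeAlgebra ℤ ℕ, s ∈ SS n ∧ z = u * s * v}

private instance twoII (n : ℕ) : (II n).IsTwoSided := by
  constructor
  intro a b ha
  unfold II at ha ⊢
  induction ha using Submodule.span_induction with
  | mem x hx =>
    obtain ⟨u, s, v, hs, rfl⟩ := hx
    exact Ideal.subset_span ⟨u, s, v * b, hs, by rw [mul_assoc]⟩
  | zero => rw [zero_mul]; exact Submodule.zero_mem _
  | add x y _ _ hx hy => rw [add_mul]; exact Submodule.add_mem _ hx hy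
  | smul r x _ hx => rw [smul_eq_mul, mul_assoc]; exact Ideal.mul_mem_left _ _ hx

theorem zel_uniform {n N : ℕ} (hS : SN n N) : ∃ D : ℕ, 0 < D ∧
    ∀ (E : Type u) [Ring E] (H : AddSubgroup E), (∀ x ∈ H, ∀ y ∈ H, x * y - y * x ∈ H) →
      (∀ x : Fin n → E, (∀ i, x i ∈ H) →
        ∑ σ : Equiv.Perm (Fin n), (List.ofFn (fun i => x (σ i))).prod = 0) →
      ∀ l : List E, l.length = N → (∀ x ∈ l, x ∈ H) → (D : ℤ) • l.prod = 0 := by
  set q : FreeAlgebra ℤ ℕ →+* FreeAlgebra ℤ ℕ ⧸ II n := Ideal.Quotient.mk (II n) with hq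
  set HB : AddSubgroup (FreeAlgebra ℤ ℕ ⧸ II n) := LZ.map q.toAddMonoidHom with hHB
  have hlie : ∀ x ∈ HB, ∀ y ∈ HB, x * y - y * x ∈ HB := by
    rintro _ ⟨x, hx, rfl⟩ _ ⟨y, hy, rfl⟩
    refine ⟨x * y - y * x, LZ_lie hx hy, ?_⟩
    simp
  have hlin : ∀ x : Fin n → FreeAlgebra ℤ ℕ ⧸ II n, (∀ i, x i ∈ HB) →
      ∑ σ : Equiv.Perm (Fin n), (List.ofFn (fun i => x (σ i))).prod = 0 := by
    intro x hx
    choose y hy hxy using hx
    have hxy' : ∀ i, x i = q (y i) := fun i => (hxy i).symm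
    have h1 : q (∑ σ : Equiv.Perm (Fin n), (List.ofFn (fun i => y (σ i))).prod) = 0 := by
      rw [hq, Ideal.Quotient.eq_zero_iff_mem]
      exact Ideal.subset_span ⟨1, _, 1, ⟨y, hy, rfl⟩, by rw [one_mul, mul_one]⟩
    rw [← h1, map_sum]
    apply Finset.sum_congr rfl
    intro σ _
    rw [map_list_prod, List.map_ofFn]
    congr 2
    funext i
    exact hxy' (σ i)
  obtain ⟨D, hD, hD0⟩ := uni_a hS (FreeAlgebra ℤ ℕ ⧸ II n) HB hlie hlin
    (List.ofFn (fun i : Fin N => q (FreeAlgebra.ι ℤ (i : ℕ)))) (by simp) (by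
      intro x hx
      obtain ⟨i, rfl⟩ := (List.mem_ofFn' _ _).mp hx
      exact ⟨_, LZ_iota i, rfl⟩)
  refine ⟨D, hD, ?_⟩
  intro E _ H hHl hHlin l hl hlH
  subst hl
  set θ : FreeAlgebra ℤ ℕ →ₐ[ℤ] E :=
    FreeAlgebra.lift ℤ (fun i : ℕ => if h : i < l.length then l[i] else 0) with hθ
  have hθi : ∀ i : ℕ, θ (FreeAlgebra.ι ℤ i) = if h : i < l.length then l[i] else 0 := by
    intro i
    rw [hθ, FreeAlgebra.lift_ι_apply]
  have hL : LZ ≤ H.comap θ.toRingHom.toAddMonoidHom := by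
    apply LZ_le
    · intro i
      show θ (FreeAlgebra.ι ℤ i) ∈ H
      rw [hθi]
      split_ifs with h
      · exact hlH _ (List.getElem_mem h)
      · exact H.zero_mem
    · intro x hx y hy
      show θ (x * y - y * x) ∈ H
      rw [map_sub, map_mul, map_mul]
      exact hHl _ hx _ hy
  have hI : ∀ z ∈ II n, θ z = 0 := by
    intro z hz
    unfold II at hz
    induction hz using Submodule.span_induction with
    | mem x hx =>
      obtain ⟨u, s, v, ⟨y, hy, rfl⟩, rfl⟩ := hx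
      rw [map_mul, map_mul]
      have h1 : θ (∑ σ : Equiv.Perm (Fin n), (List.ofFn (fun i => y (σ i))).prod) = 0 := by
        rw [map_sum, ← hHlin (fun i => θ (y i)) (fun i => hL (hy i))]
        apply Finset.sum_congr rfl
        intro σ _
        rw [map_list_prod, List.map_ofFn]
        rfl
      rw [h1, mul_zero, zero_mul]
    | zero => exact map_zero θ
    | add x y _ _ hx hy => rw [map_add, hx, hy, add_zero]
    | smul r x _ hx => rw [smul_eq_mul, map_mul, hx, mul_zero]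
  have h2 : (D : ℤ) • (List.ofFn (fun i : Fin l.length => FreeAlgebra.ι ℤ (i : ℕ))).prod ∈
      II n := by
    rw [← Ideal.Quotient.eq_zero_iff_mem, ← hq, map_zsmul, map_list_prod, List.map_ofFn]
    exact hD0
  have h3 := hI _ h2
  rw [map_zsmul, map_list_prod, List.map_ofFn] at h3
  have h4 : List.ofFn (⇑θ ∘ fun i : Fin l.length => FreeAlgebra.ι ℤ (i : ℕ)) = l := by
    apply List.ext_getElem
    · simp
    · intro i h5 h6
      rw [List.getElem_ofFn, Function.comp_apply, hθi, dif_pos h6]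
  rw [h4] at h3
  exact h3

end Zel60
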