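import Pool.Agent.Work.MP_b44cb1_al.Zel.Zelmanov
import Pool.Agent.Work.MP_b44cb1_al.Zel.UniB
import Pool.Agent.Work.MP_b44cb1_al.Zel.GrH
import Pool.Agent.Work.MP_b44cb1_al.Zel.GrLcs

/-!
# Zel/ClassBound (M) : finite `r`-Engel `p`-groups, `p > p0(r)`, have class at most `c(r)`

`zelmanov r` gives `N` with `SN r N`; `zel_uniform` gives `D > 0`; `p0 = D`, `c = N`. Let `P` be a finite
`p`-group, `p > D`, with `[x, y, ..., y] = 1` (`r` times). `Λ a = lowerCentralSeries ⊤ a` (`lcs_NS`).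
By `gH_lie`, `gH_lin` and `zel_uniform` (for `E = AddMonoid.End (Vs Λ)`, `H = gH Λ`):
`D • (φ_1 * ... * φ_N) = 0` for `φ_i ∈ gH Λ`. For `x, y_1, ..., y_N ∈ P = Λ 0` take `φ` with
`IsAd Λ 0 (y_i) φ_i` (`exists_ad`) in reversed order and apply to `ofc Λ 0 x` (`x ∈ Λ 0 = ⊤`):
`D • ofc Λ N (itc x [y_1, ..., y_N]) = 0`. So `g = itc x l ∈ Λ N` satisfies `g^D ∈ Λ (N+1)` (`cl_pow`,
`ofc_eq_zero`), and as the order of `g` is a power of `p` and `p` does not divide `D` (`0 < D < p`),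
`g` is a power of `g^D`, so `g ∈ Λ (N+1)`. `lcs_bot` (`IsPGroup.isNilpotent`).
-/

set_option autoImplicit false

namespace Zel60

private theorem CB_app {P : Type} [Group P] {Λ : ℕ → Subgroup P} (h : NS Λ)
    (h0 : ∀ x : P, x ∈ Λ 0) (φ : P → AddMonoid.End (Vs Λ)) (hφ : ∀ y, IsAd Λ 0 y (φ y)) (x : P)
    (l : List P) : itc x l ∈ Λ l.length ∧
      (l.reverse.map φ).prod (ofc Λ 0 x) = ofc Λ l.length (itc x l) := by
  induction l using List.reverseRecOn with
  | nil => exact ⟨h0 x, rfl⟩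
  | append_singleton l y ih =>
    obtain ⟨h1, h2⟩ := ih
    have h3 : itc x (l ++ [y]) = com (itc x l) y := by
      unfold itc
      rw [List.foldl_append]
      rfl
    have h4 : (l ++ [y]).length = l.length + 0 + 1 := by
      rw [List.length_append, List.length_singleton]
    rw [h3]
    refine ⟨?_, ?_⟩
    · rw [h4]
      exact h.comm _ _ _ h1 _ (h0 y)
    · rw [ofc_congr Λ h4, List.reverse_append, List.reverse_singleton, List.singleton_append,
        List.map_cons, List.prod_cons]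
      show φ y ((l.reverse.map φ).prod (ofc Λ 0 x)) = _
      rw [h2]
      exact hφ y _ _ h1

theorem class_bound (r : ℕ) : ∃ c p0 : ℕ, ∀ (p : ℕ) (P : Type) [Group P] [Finite P],
    p.Prime → p0 < p → IsPGroup p P →
    (∀ x y : P, (fun z : P => z⁻¹ * y⁻¹ * z * y)^[r] x = 1) →
    Subgroup.lowerCentralSeries (⊤ : Subgroup P) c = ⊥ := by
  obtain ⟨N, hN⟩ := zelmanov r
  obtain ⟨D, hD, hU⟩ := zel_uniform hN
  refine ⟨N, D, ?_⟩
  intro p P _ _ hp hpD hP law
  have : Fact p.Prime := ⟨hp⟩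
  have hnil : Group.IsNilpotent P := hP.isNilpotent
  apply lcs_bot
  intro x l hl
  obtain ⟨Λ, hΛ⟩ : ∃ Λ : ℕ → Subgroup P,
    Λ = (fun a => Subgroup.lowerCentralSeries (⊤ : Subgroup P) a) := ⟨_, rfl⟩
  have hns : NS Λ := by
    rw [hΛ]
    exact lcs_NS P
  have h0 : ∀ x : P, x ∈ Λ 0 := by
    intro x
    rw [hΛ]
    exact Subgroup.mem_top x
  have hgoal : itc x l ∈ Λ (N + 1) := by
    choose φ hφ using fun y => exists_ad hns 0 y (h0 y)
    obtain ⟨h1, h2⟩ := CB_app hns h0 φ hφ x l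
    have h3 := hU (AddMonoid.End (Vs Λ)) (gH Λ) (gH_lie hns)
      (gH_lin hns r (fun x _ y _ => law x y)) (l.reverse.map φ)
      (by rw [List.length_map, List.length_reverse, hl]) (by
        intro f hf
        rw [List.mem_map] at hf
        obtain ⟨y, -, rfl⟩ := hf
        exact AddSubgroup.subset_closure ⟨0, y, h0 y, hφ y⟩)
    rw [hl] at h1 h2
    have h4 : (D : ℤ) • ofc Λ N (itc x l) = 0 := by
      rw [← h2]
      have h5 := congrArg (fun f : AddMonoid.End (Vs Λ) => f (ofc Λ 0 x)) h3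
      exact h5
    have h6 : ofc Λ N (itc x l ^ D) = 0 := by
      rw [← h4]
      unfold ofc
      rw [cl_pow N h1, map_zsmul]
    have h7 := (ofc_eq_zero hns N (Subgroup.pow_mem _ h1 D)).1 h6
    obtain ⟨k, hk⟩ := hP (itc x l)
    have hco : Nat.Coprime D (orderOf (itc x l)) := by
      refine Nat.Coprime.coprime_dvd_right (orderOf_dvd_of_pow_eq_one hk) ?_
      refine Nat.Coprime.pow_right k ?_
      exact ((Nat.Prime.coprime_iff_not_dvd hp).2 (fun hd => absurd (Nat.le_of_dvd hD hd) (by omega))).symm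
    obtain ⟨m, hm⟩ := exists_pow_eq_self_of_coprime hco
    rw [← hm]
    exact Subgroup.pow_mem _ h7 m
  rw [hΛ] at hgoal
  exact hgoal

end Zel60
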