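import Pool.Agent.Work.MP_b44cb1_al.Zel.Defs2

/-!
# Zel/AdNil (S) : `Q0^M = 0` implies that `2 M - 1` commutators kill everything

By induction on the length of `l`, `l.foldl (fun z q => z * q - q * z) x` is a combination of
products `u.prod * x * v.prod` with lists `u, v` of elements of `Q0` and
`u.length + v.length = l.length`. If the sum of the lengths is `2 M - 1` (`M ≥ 1`) then one of them
has at least `M` elements and its product is 0 (`Nil.mono`). If `M = 0` then `1 = 0` in `C`.
-/

set_option autoImplicit false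

namespace Zel60

private def adS {C : Type*} [Ring C] [Algebra ℚ C] (Q0 : Submodule ℚ C) (x : C) (k : ℕ) :
    Submodule ℚ C :=
  Submodule.span ℚ {z | ∃ u v : List C, (∀ q ∈ u, q ∈ Q0) ∧ (∀ q ∈ v, q ∈ Q0) ∧
    u.length + v.length = k ∧ u.prod * x * v.prod = z}

private theorem adS_step {C : Type*} [Ring C] [Algebra ℚ C] {Q0 : Submodule ℚ C} {x : C} {k : ℕ}
    {z q : C} (hz : z ∈ adS Q0 x k) (hq : q ∈ Q0) : z * q - q * z ∈ adS Q0 x (k + 1) := by
  refine Submodule.span_induction (p := fun z _ => z * q - q * z ∈ adS Q0 x (k + 1)) ?_ ?_ ?_ ?_ hz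
  · rintro _ ⟨u, v, hu, hv, hk, rfl⟩
    refine Submodule.sub_mem _ (Submodule.subset_span ⟨u, v ++ [q], hu, ?_, ?_, ?_⟩)
      (Submodule.subset_span ⟨q :: u, v, ?_, hv, ?_, ?_⟩)
    · intro z hz
      rcases List.mem_append.1 hz with hz | hz
      · exact hv z hz
      · rw [List.mem_singleton.1 hz]
        exact hq
    · rw [List.length_append, List.length_singleton]
      omega
    · rw [List.prod_append, List.prod_singleton]
      simp only [mul_assoc]
    · intro z hz
      rcases List.mem_cons.1 hz with rfl | hz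
      · exact hq
      · exact hu z hz
    · rw [List.length_cons]
      omega
    · rw [List.prod_cons]
      simp only [mul_assoc]
  · rw [zero_mul, mul_zero, sub_zero]
    exact Submodule.zero_mem _
  · intro a b _ _ ha hb
    have h1 : (a + b) * q - q * (a + b) = (a * q - q * a) + (b * q - q * b) := by noncomm_ring
    rw [h1]
    exact Submodule.add_mem _ ha hb
  · intro c a _ ha
    rw [smul_mul_assoc, mul_smul_comm, ← smul_sub]
    exact Submodule.smul_mem _ _ ha

theorem ad_nil {C : Type*} [Ring C] [Algebra ℚ C] (M : ℕ) (Q0 : Submodule ℚ C)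
    (hM : Nil (Q0 : Set C) M) (x : C) (l : List C) (hl : l.length = 2 * M - 1)
    (hq : ∀ q ∈ l, q ∈ Q0) : l.foldl (fun z q => z * q - q * z) x = 0 := by
  have key : ∀ (l : List C) (k : ℕ) (z : C), z ∈ adS Q0 x k → (∀ q ∈ l, q ∈ Q0) →
      l.foldl (fun z q => z * q - q * z) z ∈ adS Q0 x (k + l.length) := by
    intro l
    induction l with
    | nil =>
      intro k z hz _
      exact hz
    | cons a l ih =>
      intro k z hz hl
      rw [List.foldl_cons, List.length_cons]
      have h1 := ih (k + 1) (z * a - a * z) (adS_step hz (hl a List.mem_cons_self))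
        (fun q hq => hl q (List.mem_cons_of_mem _ hq))
      rw [show k + (l.length + 1) = k + 1 + l.length by omega]
      exact h1
  have h0 : x ∈ adS Q0 x 0 :=
    Submodule.subset_span ⟨[], [], by simp, by simp, rfl, by simp⟩
  have h1 := key l 0 x h0 hq
  rw [zero_add, hl] at h1
  have h2 : adS Q0 x (2 * M - 1) = ⊥ := by
    rw [eq_bot_iff, adS, Submodule.span_le]
    rintro _ ⟨u, v, hu, hv, hk, rfl⟩
    rw [SetLike.mem_coe, Submodule.mem_bot]
    by_cases hM0 : M = 0
    · subst hM0
      have h3 : (1 : C) = 0 := by simpa using hM [] rfl (by simp)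
      rw [← one_mul (u.prod * x * v.prod), h3, zero_mul]
    · by_cases h3 : M ≤ u.length
      · rw [hM.mono h3 u rfl hu, zero_mul, zero_mul]
      · have h4 : M ≤ v.length := by omega
        rw [hM.mono h4 v rfl hv, mul_zero]
  rw [h2, Submodule.mem_bot] at h1
  exact h1

end Zel60
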