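import Pool.Agent.Work.MP_b44cb1_al.Zel.Defs

/-!
# Zel/BC (M) : identities survive extension by central scalars

`f` vanishes on `H`. Then `f` vanishes on all elements of `A ⊗ G` of the form `sum h ⊗ g` with
`h ∈ H` and `g` central in `G`.

Proof. Let `R = Subalgebra.center ℚ G` (commutative), `P = MvPolynomial (ℕ × ℕ) ℚ`. For every `i`
write `q i = sum_{j < m i} h i j ⊗ g i j` (`h i j ∈ H`, `g i j ∈ R`; put `h i j = 0` for `j ≥ m i`)
(span induction gives finite sums of such tensors; scalars can be absorbed in `h`).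
(1) `z ∈ A ⊗ P` and `ψ_c z = 0` for all `c : ℕ × ℕ → ℚ` implies `z = 0`, where
`ψ_c : A ⊗ P → A`, `a ⊗ u ↦ u(c) • a` (an algebra homomorphism, `Algebra.TensorProduct.lift`,
`MvPolynomial.aeval c`). Take a basis `(a_α)` of `A` over `ℚ`; `z = sum a_α ⊗ u_α`
(`Basis.tensorProduct`-like or `TensorProduct.equivFinsuppOfBasisLeft`), `ψ_c z = sum u_α(c) a_α`, so
`u_α(c) = 0` for all `c` and `u_α = 0` (`MvPolynomial.funext`, `ℚ` infinite).
(2) `Z = ev Q f ∈ A ⊗ P` with `Q i = sum_{j < m i} h i j ⊗ t_(i,j)`: `ψ_c Z = ev (fun i =>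
sum_j c (i,j) • h i j) f = 0` (`ev_comp` and `hf`, `H` is a subspace). So `Z = 0`.
(3) `θ : A ⊗ P → A ⊗ G`, `id ⊗ (t_(i,j) ↦ g i j)` (`MvPolynomial.aeval` into `R`, then the
inclusion `R → G`; `Algebra.TensorProduct.map`). `θ Z = ev q f`. So `ev q f = 0`.
-/

set_option autoImplicit false

namespace Zel60

open scoped TensorProduct

private noncomputable def bcPsi {A : Type} [Ring A] [Algebra ℚ A] {σ : Type} (c : σ → ℚ) :
    A ⊗[ℚ] MvPolynomial σ ℚ →ₐ[ℚ] A :=
  Algebra.TensorProduct.lift (AlgHom.id ℚ A)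
    ((Algebra.ofId ℚ A).comp (MvPolynomial.aeval c)) (fun x y => by
      change x * algebraMap ℚ A (MvPolynomial.aeval c y) =
        algebraMap ℚ A (MvPolynomial.aeval c y) * x
      exact (Algebra.commutes _ _).symm)

private theorem bcPsi_tmul {A : Type} [Ring A] [Algebra ℚ A] {σ : Type} (c : σ → ℚ) (a : A)
    (u : MvPolynomial σ ℚ) : bcPsi c (a ⊗ₜ[ℚ] u) = MvPolynomial.eval c u • a := by
  rw [bcPsi, Algebra.TensorProduct.lift_tmul]
  change a * algebraMap ℚ A (MvPolynomial.aeval c u) = _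
  rw [← Algebra.commutes, ← Algebra.smul_def, MvPolynomial.aeval_eq_eval]

private theorem bc_inj {A : Type} [Ring A] [Algebra ℚ A] {σ : Type}
    (z : A ⊗[ℚ] MvPolynomial σ ℚ) (hz : ∀ c : σ → ℚ, bcPsi c z = 0) : z = 0 := by
  classical
  let B := Module.Basis.ofVectorSpace ℚ A
  let E := TensorProduct.equivFinsuppOfBasisLeft (N := MvPolynomial σ ℚ) B
  have h1 : ∀ (c : σ → ℚ) (i) (w : A ⊗[ℚ] MvPolynomial σ ℚ),
      MvPolynomial.eval c (E w i) = B.repr (bcPsi c w) i := by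
    intro c i w
    induction w using TensorProduct.induction_on with
    | zero => simp
    | tmul a u =>
      rw [bcPsi_tmul, TensorProduct.equivFinsuppOfBasisLeft_apply_tmul_apply,
        MvPolynomial.smul_eval, LinearEquiv.map_smul, Finsupp.smul_apply, smul_eq_mul, mul_comm]
    | add x y hx hy =>
      rw [map_add, Finsupp.add_apply, map_add, hx, hy, map_add, map_add, Finsupp.add_apply]
  have h2 : E z = 0 := by
    ext1 i
    apply MvPolynomial.funext
    intro c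
    rw [h1, hz c]
    simp
  exact (LinearEquiv.map_eq_zero_iff E).1 h2

theorem bc {A : Type} [Ring A] [Algebra ℚ A] (H : Submodule ℚ A) (f : F)
    (hf : ∀ h : ℕ → A, (∀ i, h i ∈ H) → ev h f = 0) {G : Type} [Ring G] [Algebra ℚ G]
    (q : ℕ → A ⊗[ℚ] G)
    (hq : ∀ i, q i ∈ Submodule.span ℚ {z : A ⊗[ℚ] G | ∃ h ∈ H, ∃ g : G,
      (∀ c, g * c = c * g) ∧ z = h ⊗ₜ[ℚ] g}) : ev q f = 0 := by
  classical
  have hq' := fun i => Submodule.mem_span_set'.1 (hq i)
  choose n c z hz using hq'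
  have hz' : ∀ i (j : Fin (n i)), ∃ h ∈ H, ∃ g : G, (∀ c, g * c = c * g) ∧
      (z i j : A ⊗[ℚ] G) = h ⊗ₜ[ℚ] g := fun i j => (z i j).2
  choose h hh g hg hzz using hz'
  let σ : Type := Σ i : ℕ, Fin (n i)
  let Q : ℕ → A ⊗[ℚ] MvPolynomial σ ℚ := fun i =>
    ∑ j : Fin (n i), (c i j • h i j) ⊗ₜ[ℚ] MvPolynomial.X (⟨i, j⟩ : σ)
  have hZ : ev Q f = 0 := by
    apply bc_inj
    intro e
    rw [ev_comp]
    apply hf
    intro i
    change bcPsi e (∑ j : Fin (n i), (c i j • h i j) ⊗ₜ[ℚ] MvPolynomial.X (⟨i, j⟩ : σ)) ∈ H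
    rw [map_sum]
    refine Submodule.sum_mem _ (fun j _ => ?_)
    rw [bcPsi_tmul]
    exact Submodule.smul_mem _ _ (Submodule.smul_mem _ _ (hh i j))
  let gc : σ → Subalgebra.center ℚ G := fun s => ⟨g s.1 s.2, by
    rw [Subalgebra.mem_center_iff]
    intro b
    exact (hg s.1 s.2 b).symm⟩
  let θ : A ⊗[ℚ] MvPolynomial σ ℚ →ₐ[ℚ] A ⊗[ℚ] G :=
    Algebra.TensorProduct.map (AlgHom.id ℚ A)
      ((Subalgebra.center ℚ G).val.comp (MvPolynomial.aeval gc))
  have hθ : ∀ i, θ (Q i) = q i := by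
    intro i
    change θ (∑ j : Fin (n i), (c i j • h i j) ⊗ₜ[ℚ] MvPolynomial.X (⟨i, j⟩ : σ)) = q i
    rw [map_sum, ← hz i]
    refine Finset.sum_congr rfl (fun j _ => ?_)
    rw [hzz i j, ← TensorProduct.smul_tmul']
    change Algebra.TensorProduct.map (AlgHom.id ℚ A)
      ((Subalgebra.center ℚ G).val.comp (MvPolynomial.aeval gc))
        ((c i j • h i j ⊗ₜ[ℚ] MvPolynomial.X (⟨i, j⟩ : σ))) = _
    rw [map_smul, Algebra.TensorProduct.map_tmul]
    congr 2
    simp [gc]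
  have hfin := ev_comp θ Q f
  rw [hZ, map_zero] at hfin
  rw [hfin]
  congr 1
  congr 1
  funext i
  exact (hθ i).symm

end Zel60
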