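import Pool.Agent.Work.MP_b44cb1_al.Zel.Defs

/-!
# Zel/Coset (M) : permutations with support in `R` and `insert r R`

`SP R` is the set of permutations which fix everything outside `R`.
* `sum_SP_insert` : `σ ∈ SP (insert r R)`. Either `σ r = r` and `σ ∈ SP R`, or `σ r = x ∈ R` and
  `swap x r * σ ∈ SP R`. So `SP (insert r R)` is the disjoint union of `SP R` and the sets
  `{swap x r * τ | τ ∈ SP R}`, `x ∈ R`. (`Finset.sum_bij'` or `Finset.sum_nbij'`.)
* `SP_mul_left` etc.: `SP R` is a subgroup; sums over `SP R` can be reindexed by left or right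
  multiplication with elements of `SP R`, by inversion, and by conjugation: for `g` a permutation,
  `sum over σ ∈ SP R of f (g⁻¹ * σ * g)` is the sum over `SP (R.image g⁻¹)` of `f`.
-/

set_option autoImplicit false

namespace Zel60

variable {ι : Type*} [Fintype ι] [DecidableEq ι] {M : Type*} [AddCommMonoid M]

theorem sum_SP_insert (R : Finset ι) (r : ι) (hr : r ∉ R) (f : Equiv.Perm ι → M) :
    ∑ σ ∈ SP (insert r R), f σ =
      ∑ σ ∈ SP R, f σ + ∑ x ∈ R, ∑ σ ∈ SP R, f (Equiv.swap x r * σ) := by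
  have h1 : ∑ σ ∈ SP R, f σ + ∑ x ∈ R, ∑ σ ∈ SP R, f (Equiv.swap x r * σ) =
      ∑ x ∈ insert r R, ∑ σ ∈ SP R, f (Equiv.swap x r * σ) := by
    rw [Finset.sum_insert hr, Equiv.swap_self]
    rfl
  rw [h1, ← Finset.sum_product']
  symm
  refine Finset.sum_bij' (fun p _ => Equiv.swap p.1 r * p.2)
    (fun τ _ => (τ r, Equiv.swap (τ r) r * τ)) ?_ ?_ ?_ ?_ ?_
  · rintro ⟨x, σ⟩ hp
    rw [Finset.mem_product] at hp
    obtain ⟨hx, hσ⟩ := hp
    simp only at hx hσ ⊢
    rw [mem_SP] at hσ ⊢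
    intro i hi
    rw [Finset.mem_insert, not_or] at hi
    rw [Equiv.Perm.mul_apply, hσ i hi.2]
    refine Equiv.swap_apply_of_ne_of_ne ?_ hi.1
    rintro rfl
    rw [Finset.mem_insert] at hx
    rcases hx with h | h
    · exact hi.1 h
    · exact hi.2 h
  · intro τ hτ
    rw [mem_SP] at hτ
    have h2 : τ r ∈ insert r R := by
      by_contra hc
      have h3 := hτ _ hc
      have h4 : τ r = r := τ.injective h3
      rw [h4] at hc
      exact hc (Finset.mem_insert_self _ _)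
    rw [Finset.mem_product]
    refine ⟨h2, ?_⟩
    simp only
    rw [mem_SP]
    intro i hi
    rw [Equiv.Perm.mul_apply]
    by_cases hir : i = r
    · rw [hir, Equiv.swap_apply_left]
    · have h3 : τ i = i := hτ i (by rw [Finset.mem_insert, not_or]; exact ⟨hir, hi⟩)
      rw [h3]
      refine Equiv.swap_apply_of_ne_of_ne ?_ hir
      intro h4
      apply hir
      apply τ.injective
      rw [h3, h4]
  · rintro ⟨x, σ⟩ hp
    rw [Finset.mem_product] at hp
    obtain ⟨hx, hσ⟩ := hp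
    simp only at hx hσ ⊢
    rw [mem_SP] at hσ
    have h2 : (Equiv.swap x r * σ) r = x := by
      rw [Equiv.Perm.mul_apply, hσ r hr, Equiv.swap_apply_right]
    rw [h2, ← mul_assoc, Equiv.swap_mul_self, one_mul]
  · intro τ _
    simp only
    rw [← mul_assoc, Equiv.swap_mul_self, one_mul]
  · intro p _
    rfl

theorem SP_mul {R : Finset ι} {σ τ : Equiv.Perm ι} (hσ : σ ∈ SP R) (hτ : τ ∈ SP R) :
    σ * τ ∈ SP R := by
  rw [mem_SP] at *
  intro i hi
  rw [Equiv.Perm.mul_apply, hτ i hi, hσ i hi]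

theorem SP_inv {R : Finset ι} {σ : Equiv.Perm ι} (hσ : σ ∈ SP R) : σ⁻¹ ∈ SP R := by
  rw [mem_SP] at *
  intro i hi
  rw [Equiv.Perm.inv_eq_iff_eq, hσ i hi]

theorem SP_mono {R S : Finset ι} (h : R ⊆ S) : SP R ⊆ SP S := by
  intro σ hσ
  rw [mem_SP] at *
  exact fun i hi => hσ i fun hiR => hi (h hiR)

private theorem SP_maps {R : Finset ι} {σ : Equiv.Perm ι} (hσ : σ ∈ SP R) {i : ι} (hi : i ∈ R) :
    σ i ∈ R := by
  rw [mem_SP] at hσ
  by_contra hc
  have h1 := hσ _ hc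
  have h2 : σ i = i := σ.injective h1
  rw [h2] at hc
  exact hc hi

theorem SP_comm {R S : Finset ι} (h : Disjoint R S) {σ τ : Equiv.Perm ι} (hσ : σ ∈ SP R)
    (hτ : τ ∈ SP S) : σ * τ = τ * σ := by
  ext i
  rw [Equiv.Perm.mul_apply, Equiv.Perm.mul_apply]
  by_cases hR : i ∈ R
  · have h1 : i ∉ S := Finset.disjoint_left.1 h hR
    have h2 : σ i ∉ S := Finset.disjoint_left.1 h (SP_maps hσ hR)
    rw [(mem_SP S τ).1 hτ i h1, (mem_SP S τ).1 hτ _ h2]
  · by_cases hS : i ∈ S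
    · have h2 : τ i ∉ R := Finset.disjoint_right.1 h (SP_maps hτ hS)
      rw [(mem_SP R σ).1 hσ _ h2, (mem_SP R σ).1 hσ i hR]
    · rw [(mem_SP S τ).1 hτ i hS, (mem_SP R σ).1 hσ i hR, (mem_SP S τ).1 hτ i hS]

theorem SP_singleton (r : ι) : SP ({r} : Finset ι) = {1} := by
  ext σ
  rw [mem_SP, Finset.mem_singleton]
  constructor
  · intro h
    ext i
    by_cases hi : i = r
    · by_contra hc
      have h1 : σ i ∉ ({r} : Finset ι) := by
        rw [Finset.mem_singleton]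
        intro h2
        apply hc
        rw [h2, hi]
        rfl
      have h2 := h _ h1
      exact hc (σ.injective h2)
    · exact h i (by rwa [Finset.mem_singleton])
  · rintro rfl i _
    rfl

private theorem conj_mem {R : Finset ι} {g σ : Equiv.Perm ι} (hσ : σ ∈ SP R) :
    g⁻¹ * σ * g ∈ SP (R.image (g⁻¹ : Equiv.Perm ι)) := by
  rw [mem_SP] at hσ ⊢
  intro i hi
  have h1 : g i ∉ R := by
    intro h2
    apply hi
    rw [Finset.mem_image]
    exact ⟨g i, h2, by simp⟩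
  rw [Equiv.Perm.mul_apply, Equiv.Perm.mul_apply, hσ _ h1]
  simp

private theorem conj_mem' {R : Finset ι} {g σ : Equiv.Perm ι}
    (hσ : σ ∈ SP (R.image (g⁻¹ : Equiv.Perm ι))) : g * σ * g⁻¹ ∈ SP R := by
  have h1 := conj_mem (g := g⁻¹) hσ
  rw [inv_inv, Finset.image_image] at h1
  have h2 : R.image ((g : Equiv.Perm ι) ∘ (g⁻¹ : Equiv.Perm ι)) = R := by
    have : ((g : Equiv.Perm ι) ∘ (g⁻¹ : Equiv.Perm ι)) = id := by
      funext i
      simp
    rw [this, Finset.image_id]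
  rwa [h2] at h1

/-- Reindexing by conjugation: `σ * g = g * σ'` with `σ' = g⁻¹ * σ * g`. -/
theorem sum_SP_conj (R : Finset ι) (g : Equiv.Perm ι) (f : Equiv.Perm ι → M) :
    ∑ σ ∈ SP R, f (σ * g) = ∑ σ ∈ SP (R.image (g⁻¹ : Equiv.Perm ι)), f (g * σ) := by
  refine Finset.sum_bij' (fun σ _ => g⁻¹ * σ * g) (fun σ _ => g * σ * g⁻¹) ?_ ?_ ?_ ?_ ?_
  · exact fun σ hσ => conj_mem hσ
  · exact fun σ hσ => conj_mem' hσ
  · intro σ _
    group
  · intro σ _
    group
  · intro σ _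
    congr 1
    group

theorem sum_SP_conj_sign {N : Type*} [AddCommGroup N] (R : Finset ι) (g : Equiv.Perm ι)
    (f : Equiv.Perm ι → N) :
    ∑ σ ∈ SP R, (Equiv.Perm.sign σ : ℤ) • f (σ * g) =
      ∑ σ ∈ SP (R.image (g⁻¹ : Equiv.Perm ι)), (Equiv.Perm.sign σ : ℤ) • f (g * σ) := by
  have h := sum_SP_conj R g (fun τ => (Equiv.Perm.sign (τ * g⁻¹) : ℤ) • f τ)
  have h1 : ∀ σ : Equiv.Perm ι, Equiv.Perm.sign (σ * g * g⁻¹) = Equiv.Perm.sign σ := by
    intro σ
    rw [mul_inv_cancel_right]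
  have h2 : ∀ σ : Equiv.Perm ι, Equiv.Perm.sign (g * σ * g⁻¹) = Equiv.Perm.sign σ := by
    intro σ
    rw [map_mul, map_mul, map_inv, mul_comm (Equiv.Perm.sign g), mul_inv_cancel_right]
  simp only [h1, h2] at h
  exact h

end Zel60
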