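import Pool.Agent.Work.MP_b44cb1_al.Zel.GrassA

/-!
# Zel/HGFacts (M) : homogeneous elements of `A ⊗ G` and the super Lie algebra `H ⊗ G`

All by `Submodule.span_induction` (twice) from pure tensors:
`(a ⊗ g) * (a' ⊗ g') = (a a') ⊗ (g g')`, `g_mul`, `g_central`, `g_anti`.
* `HG_super0` : `(h ⊗ g)(h' ⊗ g') - (h' ⊗ g')(h ⊗ g) = (h h' - h' h) ⊗ g g'` if `g ∈ Gp 0`.
* `HG_super1` : `(h ⊗ g)(h' ⊗ g') + (h' ⊗ g')(h ⊗ g) = (h h' - h' h) ⊗ g g'` if `g, g' ∈ Gp 1`.
* `HG_alt` : the left side is multilinear in `x`, so it suffices to take `x i = h i ⊗ g i` (`HG H 1` is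
  spanned by such; induct over the slots with `Function.update`, or expand all sums). Then
  `x (σ 0) ... x (σ (n-1)) = (h (σ 0) ... h (σ (n-1))) ⊗ (g (σ 0) ... g (σ (n-1)))` and
  `g (σ 0) ... g (σ (n-1)) = sign σ • g 0 ... g (n-1)` (anticommuting elements: prove for adjacent
  transpositions, or a general lemma on lists), so the sum is
  `(sum_σ h (σ 0) ... h (σ (n-1))) ⊗ (g 0 ... g (n-1)) = 0` by the hypothesis `hlin`
  (which is `lin_all`).
* `HG_swap` : `(1 ⊗ g)(a ⊗ g') = a ⊗ g g' = sg i j • a ⊗ g' g`.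
-/

set_option autoImplicit false

namespace Zel60

open scoped TensorProduct

variable {A : Type} [Ring A] [Algebra ℚ A]

theorem HG_mono {H K : Submodule ℚ A} (h : H ≤ K) (i : ZMod 2) : HG H i ≤ HG K i := by
  apply Submodule.span_mono
  rintro z ⟨x, hx, g, hg, rfl⟩
  exact ⟨x, h hx, g, hg, rfl⟩

theorem HG_one : (1 : A ⊗[ℚ] GG) ∈ HG (⊤ : Submodule ℚ A) 0 :=
  Submodule.subset_span ⟨1, trivial, 1, g_one, rfl⟩

theorem HG_tmul {H : Submodule ℚ A} {i : ZMod 2} {h : A} (hh : h ∈ H) {g : GG} (hg : g ∈ Gp i) :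
    h ⊗ₜ[ℚ] g ∈ HG H i :=
  Submodule.subset_span ⟨h, hh, g, hg, rfl⟩

private theorem HG_ind {H : Submodule ℚ A} {i : ZMod 2} {p : A ⊗[ℚ] GG → Prop}
    (hp : ∀ h ∈ H, ∀ g ∈ Gp i, p (h ⊗ₜ[ℚ] g)) (h0 : p 0) (ha : ∀ x y, p x → p y → p (x + y))
    (hs : ∀ (c : ℚ) x, p x → p (c • x)) {x : A ⊗[ℚ] GG} (hx : x ∈ HG H i) : p x := by
  refine Submodule.span_induction (p := fun x _ => p x) ?_ h0 (fun x y _ _ h1 h2 => ha x y h1 h2)
    (fun c x _ h1 => hs c x h1) hx
  rintro z ⟨h, hh, g, hg, rfl⟩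
  exact hp h hh g hg

theorem HG_mul {i j : ZMod 2} {x y : A ⊗[ℚ] GG} (hx : x ∈ HG (⊤ : Submodule ℚ A) i)
    (hy : y ∈ HG (⊤ : Submodule ℚ A) j) : x * y ∈ HG (⊤ : Submodule ℚ A) (i + j) := by
  refine HG_ind (p := fun x => x * y ∈ HG (⊤ : Submodule ℚ A) (i + j)) ?_ ?_ ?_ ?_ hx
  · intro a _ g hg
    refine HG_ind (p := fun y => (a ⊗ₜ[ℚ] g) * y ∈ HG (⊤ : Submodule ℚ A) (i + j)) ?_ ?_ ?_ ?_ hy
    · intro a' _ g' hg'
      rw [Algebra.TensorProduct.tmul_mul_tmul]
      exact HG_tmul Submodule.mem_top (g_mul hg hg')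
    · rw [mul_zero]; exact zero_mem _
    · intro u v hu hv
      rw [mul_add]; exact add_mem hu hv
    · intro c u hu
      rw [mul_smul_comm]; exact Submodule.smul_mem _ _ hu
  · rw [zero_mul]; exact zero_mem _
  · intro u v hu hv
    rw [add_mul]; exact add_mem hu hv
  · intro c u hu
    rw [smul_mul_assoc]; exact Submodule.smul_mem _ _ hu

theorem HG_prod {l : List (A ⊗[ℚ] GG)} (hl : ∀ x ∈ l, ∃ j, x ∈ HG (⊤ : Submodule ℚ A) j) :
    ∃ j, l.prod ∈ HG (⊤ : Submodule ℚ A) j := by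
  induction l with
  | nil => exact ⟨0, HG_one⟩
  | cons x l ih =>
    obtain ⟨i, hi⟩ := hl x (List.mem_cons_self)
    obtain ⟨j, hj⟩ := ih (fun y hy => hl y (List.mem_cons_of_mem _ hy))
    exact ⟨i + j, by rw [List.prod_cons]; exact HG_mul hi hj⟩

theorem HG_swap {i j : ZMod 2} {x : A ⊗[ℚ] GG} (hx : x ∈ HG (⊤ : Submodule ℚ A) i) {g : GG}
    (hg : g ∈ Gp j) : ((1 : A) ⊗ₜ[ℚ] g) * x = sg i j • (x * ((1 : A) ⊗ₜ[ℚ] g)) := by
  refine HG_ind (p := fun x => ((1 : A) ⊗ₜ[ℚ] g) * x = sg i j • (x * ((1 : A) ⊗ₜ[ℚ] g)))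
    ?_ ?_ ?_ ?_ hx
  · intro a _ g' hg'
    rw [Algebra.TensorProduct.tmul_mul_tmul, Algebra.TensorProduct.tmul_mul_tmul, one_mul, mul_one]
    by_cases hi : i = 1 ∧ j = 1
    · obtain ⟨rfl, rfl⟩ := hi
      rw [g_anti hg hg']
      simp [sg, TensorProduct.tmul_neg]
    · have h2 : ∀ k : ZMod 2, k ≠ 1 → k = 0 := by decide
      have h3 : g * g' = g' * g := by
        by_cases hi' : i = 1
        · have hj : j = 0 := h2 j (fun h => hi ⟨hi', h⟩)
          subst hj
          exact g_central hg g'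
        · have := h2 i hi'
          subst this
          exact (g_central hg' g).symm
      rw [h3, sg, if_neg hi, one_smul]
  · rw [mul_zero, zero_mul, smul_zero]
  · intro u v hu hv
    rw [mul_add, add_mul, smul_add, hu, hv]
  · intro c u hu
    rw [mul_smul_comm, smul_mul_assoc, hu, smul_comm]

theorem HG_super0 {H : Submodule ℚ A} (hl : ∀ x ∈ H, ∀ y ∈ H, x * y - y * x ∈ H) {i : ZMod 2}
    {x y : A ⊗[ℚ] GG} (hx : x ∈ HG H 0) (hy : y ∈ HG H i) : x * y - y * x ∈ HG H i := by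
  refine HG_ind (p := fun x => x * y - y * x ∈ HG H i) ?_ ?_ ?_ ?_ hx
  · intro a ha g hg
    refine HG_ind (p := fun y => (a ⊗ₜ[ℚ] g) * y - y * (a ⊗ₜ[ℚ] g) ∈ HG H i) ?_ ?_ ?_ ?_ hy
    · intro a' ha' g' hg'
      rw [Algebra.TensorProduct.tmul_mul_tmul, Algebra.TensorProduct.tmul_mul_tmul,
        ← g_central hg g', ← TensorProduct.sub_tmul]
      have := g_mul hg hg'
      rw [zero_add] at this
      exact HG_tmul (hl a ha a' ha') this
    · rw [mul_zero, zero_mul, sub_zero]; exact zero_mem _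
    · intro u v hu hv
      have : (a ⊗ₜ[ℚ] g) * (u + v) - (u + v) * (a ⊗ₜ[ℚ] g) =
          ((a ⊗ₜ[ℚ] g) * u - u * (a ⊗ₜ[ℚ] g)) + ((a ⊗ₜ[ℚ] g) * v - v * (a ⊗ₜ[ℚ] g)) := by
        rw [mul_add, add_mul]; abel
      rw [this]; exact add_mem hu hv
    · intro c u hu
      rw [mul_smul_comm, smul_mul_assoc, ← smul_sub]; exact Submodule.smul_mem _ _ hu
  · rw [mul_zero, zero_mul, sub_zero]; exact zero_mem _
  · intro u v hu hv
    have : (u + v) * y - y * (u + v) = (u * y - y * u) + (v * y - y * v) := by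
      rw [mul_add, add_mul]; abel
    rw [this]; exact add_mem hu hv
  · intro c u hu
    rw [mul_smul_comm, smul_mul_assoc, ← smul_sub]; exact Submodule.smul_mem _ _ hu

theorem HG_super1 {H : Submodule ℚ A} (hl : ∀ x ∈ H, ∀ y ∈ H, x * y - y * x ∈ H)
    {x y : A ⊗[ℚ] GG} (hx : x ∈ HG H 1) (hy : y ∈ HG H 1) : x * y + y * x ∈ HG H 0 := by
  refine HG_ind (p := fun x => x * y + y * x ∈ HG H 0) ?_ ?_ ?_ ?_ hx
  · intro a ha g hg
    refine HG_ind (p := fun y => (a ⊗ₜ[ℚ] g) * y + y * (a ⊗ₜ[ℚ] g) ∈ HG H 0) ?_ ?_ ?_ ?_ hy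
    · intro a' ha' g' hg'
      rw [Algebra.TensorProduct.tmul_mul_tmul, Algebra.TensorProduct.tmul_mul_tmul,
        g_anti hg' hg, TensorProduct.tmul_neg, ← sub_eq_add_neg, ← TensorProduct.sub_tmul]
      have := g_mul hg hg'
      rw [show (1 : ZMod 2) + 1 = 0 from by decide] at this
      exact HG_tmul (hl a ha a' ha') this
    · rw [mul_zero, zero_mul, add_zero]; exact zero_mem _
    · intro u v hu hv
      have : (a ⊗ₜ[ℚ] g) * (u + v) + (u + v) * (a ⊗ₜ[ℚ] g) =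
          ((a ⊗ₜ[ℚ] g) * u + u * (a ⊗ₜ[ℚ] g)) + ((a ⊗ₜ[ℚ] g) * v + v * (a ⊗ₜ[ℚ] g)) := by
        rw [mul_add, add_mul]; abel
      rw [this]; exact add_mem hu hv
    · intro c u hu
      rw [mul_smul_comm, smul_mul_assoc, ← smul_add]; exact Submodule.smul_mem _ _ hu
  · rw [mul_zero, zero_mul, add_zero]; exact zero_mem _
  · intro u v hu hv
    have : (u + v) * y + y * (u + v) = (u * y + y * u) + (v * y + y * v) := by
      rw [mul_add, add_mul]; abel
    rw [this]; exact add_mem hu hv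
  · intro c u hu
    rw [mul_smul_comm, smul_mul_assoc, ← smul_add]; exact Submodule.smul_mem _ _ hu

/-- Products of odd elements are alternating. -/
private theorem g_alt (n : ℕ) (g : Fin n → GG) (hg : ∀ i, g i ∈ Gp 1) (σ : Equiv.Perm (Fin n)) :
    (List.ofFn (fun i => g (σ i))).prod =
      ((Equiv.Perm.sign σ : ℤ) : ℚ) • (List.ofFn g).prod := by
  have hsq : ∀ m : Gp 1, (Gp 1).subtype m * (Gp 1).subtype m = 0 := by
    intro m
    have h := g_anti m.2 m.2
    have h2 : (2 : ℚ) • ((m : GG) * (m : GG)) = 0 := by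
      rw [two_smul]
      nth_rewrite 1 [h]
      exact neg_add_cancel _
    exact (smul_eq_zero.1 h2).resolve_left (by norm_num)
  let Φ : ExteriorAlgebra ℚ (Gp 1) →ₐ[ℚ] GG := ExteriorAlgebra.lift ℚ ⟨(Gp 1).subtype, hsq⟩
  have hΦ : ∀ m : Gp 1, Φ (ExteriorAlgebra.ι ℚ m) = (m : GG) := by
    intro m
    exact ExteriorAlgebra.lift_ι_apply ℚ (Gp 1).subtype hsq m
  let v : Fin n → Gp 1 := fun i => ⟨g i, hg i⟩
  have hv : ∀ w : Fin n → Gp 1, Φ (ExteriorAlgebra.ιMulti ℚ n w) =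
      (List.ofFn (fun i => (w i : GG))).prod := by
    intro w
    rw [ExteriorAlgebra.ιMulti_apply, map_list_prod, List.map_ofFn]
    congr 2
    funext i
    exact hΦ (w i)
  have h1 := (ExteriorAlgebra.ιMulti ℚ n (M := Gp 1)).map_perm v σ
  have h2 := congrArg Φ h1
  rw [hv, Units.smul_def, map_zsmul, hv, ← Int.cast_smul_eq_zsmul ℚ] at h2
  exact h2

private theorem tmul_ofFn (n : ℕ) (h : Fin n → A) (g : Fin n → GG) :
    (List.ofFn (fun i => h i ⊗ₜ[ℚ] g i)).prod =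
      (List.ofFn h).prod ⊗ₜ[ℚ] (List.ofFn g).prod := by
  induction n with
  | zero => simp [Algebra.TensorProduct.one_def]
  | succ n ih =>
    rw [List.ofFn_succ, List.ofFn_succ, List.ofFn_succ, List.prod_cons, List.prod_cons,
      List.prod_cons, ih, Algebra.TensorProduct.tmul_mul_tmul]

/-- A multilinear map that vanishes on families from `S` vanishes on families from the span. -/
private theorem ml_span {V W : Type*} [AddCommGroup V] [Module ℚ V] [AddCommGroup W] [Module ℚ W]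
    (n : ℕ) (f : MultilinearMap ℚ (fun _ : Fin n => V) W) (S : Set V)
    (hf : ∀ x : Fin n → V, (∀ i, x i ∈ S) → f x = 0) (x : Fin n → V)
    (hx : ∀ i, x i ∈ Submodule.span ℚ S) : f x = 0 := by
  have key : ∀ t : Finset (Fin n), ∀ x : Fin n → V, (∀ i ∈ t, x i ∈ Submodule.span ℚ S) →
      (∀ i, i ∉ t → x i ∈ S) → f x = 0 := by
    intro t
    induction t using Finset.induction_on with
    | empty => exact fun x _ h => hf x (fun i => h i (Finset.notMem_empty i))
    | insert a t ha ih =>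
      intro x h1 h2
      have h3 : ∀ z ∈ Submodule.span ℚ S, f (Function.update x a z) = 0 := by
        intro z hz
        refine Submodule.span_induction (p := fun z _ => f (Function.update x a z) = 0)
          ?_ ?_ ?_ ?_ hz
        · intro z hz
          apply ih
          · intro i hi
            have hne : i ≠ a := fun h => ha (h ▸ hi)
            rw [Function.update_of_ne hne]
            exact h1 i (Finset.mem_insert_of_mem hi)
          · intro i hi
            by_cases hia : i = a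
            · subst hia
              rw [Function.update_self]; exact hz
            · rw [Function.update_of_ne hia]
              exact h2 i (fun h => (Finset.mem_insert.1 h).elim hia hi)
        · exact f.map_update_zero x a
        · intro u v _ _ hu hv
          rw [f.map_update_add, hu, hv, add_zero]
        · intro c u _ hu
          rw [f.map_update_smul, hu, smul_zero]
      have h4 := h3 (x a) (h1 a (Finset.mem_insert_self a t))
      rwa [Function.update_eq_self] at h4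
  exact key Finset.univ x (fun i _ => hx i) (fun i hi => absurd (Finset.mem_univ i) hi)

theorem HG_alt {H : Submodule ℚ A} (n : ℕ)
    (hlin : ∀ x : Fin n → A, (∀ i, x i ∈ H) →
      ∑ σ : Equiv.Perm (Fin n), (List.ofFn (fun i => x (σ i))).prod = 0)
    (x : Fin n → A ⊗[ℚ] GG) (hx : ∀ i, x i ∈ HG H 1) :
    ∑ σ : Equiv.Perm (Fin n), ((Equiv.Perm.sign σ : ℤ) : ℚ) •
      (List.ofFn (fun i => x (σ i))).prod = 0 := by
  have hT : ∀ y : Fin n → A ⊗[ℚ] GG,
      (MultilinearMap.mkPiAlgebraFin ℚ n (A ⊗[ℚ] GG)).alternatization y =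
      ∑ σ : Equiv.Perm (Fin n), ((Equiv.Perm.sign σ : ℤ) : ℚ) •
        (List.ofFn (fun i => y (σ i))).prod := by
    intro y
    rw [MultilinearMap.alternatization_apply]
    refine Finset.sum_congr rfl (fun σ _ => ?_)
    rw [Units.smul_def, ← Int.cast_smul_eq_zsmul ℚ, MultilinearMap.domDomCongr_apply,
      MultilinearMap.mkPiAlgebraFin_apply]
  rw [← hT]
  refine ml_span n (MultilinearMap.mkPiAlgebraFin ℚ n (A ⊗[ℚ] GG)).alternatization.toMultilinearMap
    {z | ∃ h ∈ H, ∃ g ∈ Gp 1, z = h ⊗ₜ[ℚ] g} ?_ x hx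
  intro y hy
  choose h hh g hg hyy using hy
  have hy' : y = fun i => h i ⊗ₜ[ℚ] g i := funext hyy
  change (MultilinearMap.mkPiAlgebraFin ℚ n (A ⊗[ℚ] GG)).alternatization y = 0
  rw [hT, hy']
  have hterm : ∀ σ : Equiv.Perm (Fin n), ((Equiv.Perm.sign σ : ℤ) : ℚ) •
      (List.ofFn (fun i => (fun i => h i ⊗ₜ[ℚ] g i) (σ i))).prod =
      (List.ofFn (fun i => h (σ i))).prod ⊗ₜ[ℚ] (List.ofFn g).prod := by
    intro σ
    have e1 := tmul_ofFn n (fun i => h (σ i)) (fun i => g (σ i))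
    change ((Equiv.Perm.sign σ : ℤ) : ℚ) •
      (List.ofFn (fun i => h (σ i) ⊗ₜ[ℚ] g (σ i))).prod = _
    rw [e1, g_alt n g hg σ, TensorProduct.tmul_smul, smul_smul]
    have e2 : ((Equiv.Perm.sign σ : ℤ) : ℚ) * ((Equiv.Perm.sign σ : ℤ) : ℚ) = 1 := by
      rcases Int.units_eq_one_or (Equiv.Perm.sign σ) with h | h <;> rw [h] <;> norm_num
    rw [e2, one_smul]
  rw [Finset.sum_congr rfl (fun σ _ => hterm σ), ← TensorProduct.sum_tmul, hlin h hh,
    TensorProduct.zero_tmul]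

end Zel60
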