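import Pool.Agent.Work.MP_b44cb1_al.Zel.Defs

/-!
# Zel/Lin (M) : linearisation of `x^n = 0`

`lin_all` (for additive subgroups of a ring, no division). For a family `x : Fin n → E` and a
subset `s` of `Fin n` put `x_s = sum_{i in s} x i`. Then
`sum_s (-1)^(n - |s|) (x_s)^n = sum_{σ in Perm (Fin n)} x (σ 0) x (σ 1) ... x (σ (n-1))`.
Proof: expand `(x_s)^n = sum over κ : Fin n → s of x (κ 0) ... x (κ (n-1))`
(`MultilinearMap.map_sum_finset` for `MultilinearMap.mkPiAlgebraFin`, or `Finset.sum_pow`-like
induction). The coefficient of the word of a map `κ : Fin n → Fin n` is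
`sum_{s ⊇ image κ} (-1)^(n - |s|)`, which is `1` if `image κ` is everything and `0` otherwise
(`Finset.sum_powerset_neg_one_pow_card` or similar), and the surjective `κ` are the permutations.
Every `x_s` is in `H`, so the left side is 0.

`lin_one` : apply `lin_all` with `n = m + 1`, `x 0 = y`, `x i = k` for `i > 0`. For `σ` with
`σ j = 0` the product is `k^j * y * k^(m - j)`, and there are `m!` permutations with `σ j = 0`. So
`m! • sum_j k^j y k^(m-j) = 0`, divide by `m!`.
(Alternative: for all rational `t`, `(k + t y)^n = 0`; this is a polynomial in `t` with coefficients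
in `A`, the coefficient of `t` is the sum in question; a polynomial with coefficients in a rational
vector space which vanishes at infinitely many rational points is zero.)
For `n = 0` the statement is an empty sum.
-/

set_option autoImplicit false

namespace Zel60

private theorem pow_sum_eq {E : Type*} [Ring E] (n : ℕ) (x : Fin n → E) (s : Finset (Fin n)) :
    (∑ i ∈ s, x i) ^ n =
      ∑ κ ∈ Fintype.piFinset (fun _ : Fin n => s), (List.ofFn (fun i => x (κ i))).prod := by
  have h := (MultilinearMap.mkPiAlgebraFin ℤ n E).map_sum_finset (fun (_ : Fin n) (j : Fin n) => x j)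
    (fun _ => s)
  simp only [MultilinearMap.mkPiAlgebraFin_apply] at h
  rw [← h, List.ofFn_const, List.prod_replicate]

private theorem sum_sign {n : ℕ} (κ : Fin n → Fin n) :
    (∑ u : Finset (Fin n), if (∀ j, κ j ∈ uᶜ) then (-1 : ℤ) ^ u.card else 0) =
      if Function.Surjective κ then 1 else 0 := by
  classical
  rw [← Finset.sum_filter]
  have h1 : (Finset.univ.filter fun u : Finset (Fin n) => ∀ j, κ j ∈ uᶜ) =
      ((Finset.univ.image κ)ᶜ).powerset := by
    ext u
    simp only [Finset.mem_filter, Finset.mem_univ, true_and, Finset.mem_powerset,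
      Finset.mem_compl]
    constructor
    · intro h i hi
      rw [Finset.mem_compl, Finset.mem_image]
      rintro ⟨j, -, rfl⟩
      exact h j hi
    · intro h j hj
      have := h hj
      rw [Finset.mem_compl, Finset.mem_image] at this
      exact this ⟨j, Finset.mem_univ _, rfl⟩
  rw [h1, Finset.sum_powerset_neg_one_pow_card]
  congr 1
  rw [Finset.compl_eq_empty_iff, Finset.eq_univ_iff_forall]
  simp only [Finset.mem_image, Finset.mem_univ, true_and]
  rfl

private theorem prod_single {E : Type*} [Ring E] (k y : E) : ∀ (m : ℕ) (p : Fin (m + 1)),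
    (List.ofFn (fun i : Fin (m + 1) => if i = p then y else k)).prod =
      k ^ (p : ℕ) * y * k ^ (m - (p : ℕ)) := by
  intro m
  induction m with
  | zero =>
    intro p
    have hp : p = 0 := Fin.ext (by omega)
    rw [hp]
    simp
  | succ m ih =>
    intro p
    rw [List.ofFn_succ, List.prod_cons]
    refine Fin.cases ?_ (fun p => ?_) p
    · have h1 : (fun i : Fin (m + 1) => if i.succ = (0 : Fin (m + 2)) then y else k) =
          fun _ => k := by
        funext i
        rw [if_neg (Fin.succ_ne_zero i)]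
      rw [if_pos rfl, h1, List.ofFn_const, List.prod_replicate]
      simp
    · have h1 : (fun i : Fin (m + 1) => if i.succ = p.succ then y else k) =
          fun i => if i = p then y else k := by
        funext i
        simp only [Fin.succ_inj]
      rw [if_neg (Fin.succ_ne_zero p).symm, h1, ih p, Fin.val_succ, pow_succ', Nat.add_sub_add_right]
      simp only [mul_assoc]

theorem lin_all {E : Type*} [Ring E] (n : ℕ) (H : AddSubgroup E) (h : ∀ x ∈ H, x ^ n = 0)
    (x : Fin n → E) (hx : ∀ i, x i ∈ H) :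
    ∑ σ : Equiv.Perm (Fin n), (List.ofFn (fun i => x (σ i))).prod = 0 := by
  classical
  have h0 : ∑ u : Finset (Fin n), ((-1 : ℤ) ^ u.card) • (∑ i ∈ uᶜ, x i) ^ n = 0 :=
    Finset.sum_eq_zero fun u _ => by
      rw [h _ (H.sum_mem fun i _ => hx i), smul_zero]
  have h1 : ∑ u : Finset (Fin n), ((-1 : ℤ) ^ u.card) • (∑ i ∈ uᶜ, x i) ^ n =
      ∑ κ : Fin n → Fin n, (if Function.Surjective κ then (1 : ℤ) else 0) •
        (List.ofFn (fun i => x (κ i))).prod := by
    have h2 : ∀ u : Finset (Fin n), ((-1 : ℤ) ^ u.card) • (∑ i ∈ uᶜ, x i) ^ n =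
        ∑ κ : Fin n → Fin n, (if (∀ j, κ j ∈ uᶜ) then (-1 : ℤ) ^ u.card else 0) •
          (List.ofFn (fun i => x (κ i))).prod := by
      intro u
      rw [pow_sum_eq, Finset.smul_sum]
      have h3 : Fintype.piFinset (fun _ : Fin n => uᶜ) =
          Finset.univ.filter fun κ : Fin n → Fin n => ∀ j, κ j ∈ uᶜ := by
        ext κ
        simp only [Fintype.mem_piFinset, Finset.mem_filter, Finset.mem_univ, true_and]
      rw [h3, Finset.sum_filter]
      refine Finset.sum_congr rfl fun κ _ => ?_
      split_ifs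
      · rfl
      · rw [zero_smul]
    rw [Finset.sum_congr rfl fun u _ => h2 u, Finset.sum_comm]
    refine Finset.sum_congr rfl fun κ _ => ?_
    rw [← Finset.sum_smul, sum_sign]
  rw [h1] at h0
  have h4 : ∑ κ : Fin n → Fin n, (if Function.Surjective κ then (1 : ℤ) else 0) •
      (List.ofFn (fun i => x (κ i))).prod =
      ∑ κ ∈ Finset.univ.filter (fun κ : Fin n → Fin n => Function.Surjective κ),
        (List.ofFn (fun i => x (κ i))).prod := by
    rw [Finset.sum_filter]
    refine Finset.sum_congr rfl fun κ _ => ?_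
    split_ifs
    · rw [one_smul]
    · rw [zero_smul]
  rw [h4] at h0
  rw [← h0]
  refine Finset.sum_bij' (fun σ _ => (σ : Fin n → Fin n))
    (fun κ hκ => Equiv.ofBijective κ
      (Finite.surjective_iff_bijective.1 (Finset.mem_filter.1 hκ).2)) ?_ ?_ ?_ ?_ ?_
  · intro σ _
    exact Finset.mem_filter.2 ⟨Finset.mem_univ _, σ.surjective⟩
  · intro κ _
    exact Finset.mem_univ _
  · intro σ _
    ext i
    rfl
  · intro κ _
    rfl
  · intro σ _
    rfl

theorem lin_one {A : Type*} [Ring A] [Algebra ℚ A] (n : ℕ) (H : Submodule ℚ A)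
    (h : ∀ x ∈ H, x ^ n = 0) (k y : A) (hk : k ∈ H) (hy : y ∈ H) :
    ∑ i ∈ Finset.range n, k ^ i * y * k ^ (n - 1 - i) = 0 := by
  cases n with
  | zero => simp
  | succ m =>
    have h0 := lin_all (m + 1) H.toAddSubgroup (fun x hx => h x hx)
      (Fin.cons y (fun _ : Fin m => k) : Fin (m + 1) → A) (by
        intro i
        refine Fin.cases ?_ (fun i => ?_) i
        · exact hy
        · exact hk)
    have h1 : ∀ σ : Equiv.Perm (Fin (m + 1)), (List.ofFn (fun i =>
        (Fin.cons y (fun _ : Fin m => k) : Fin (m + 1) → A) (σ i))).prod =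
        k ^ ((σ.symm 0 : Fin (m + 1)) : ℕ) * y * k ^ (m - ((σ.symm 0 : Fin (m + 1)) : ℕ)) := by
      intro σ
      rw [← prod_single k y m (σ.symm 0)]
      congr 2
      funext i
      by_cases hi : i = σ.symm 0
      · rw [if_pos hi, hi, Equiv.apply_symm_apply, Fin.cons_zero]
      · rw [if_neg hi]
        have h2 : σ i ≠ 0 := fun h3 => hi (by rw [← h3, Equiv.symm_apply_apply])
        obtain ⟨j, hj⟩ := Fin.exists_succ_eq_of_ne_zero h2
        rw [← hj, Fin.cons_succ]
    rw [Finset.sum_congr rfl fun σ _ => h1 σ] at h0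
    have h2 : ∑ σ : Equiv.Perm (Fin (m + 1)),
        k ^ ((σ.symm 0 : Fin (m + 1)) : ℕ) * y * k ^ (m - ((σ.symm 0 : Fin (m + 1)) : ℕ)) =
        ∑ q : Fin (m + 1) × Equiv.Perm (Fin m), k ^ (q.1 : ℕ) * y * k ^ (m - (q.1 : ℕ)) := by
      rw [← Equiv.sum_comp (Equiv.inv (Equiv.Perm (Fin (m + 1))))]
      rw [← Equiv.sum_comp (Equiv.Perm.decomposeFin (n := m)).symm]
      refine Finset.sum_congr rfl fun q _ => ?_
      have h3 : (((Equiv.inv (Equiv.Perm (Fin (m + 1)))) (Equiv.Perm.decomposeFin.symm q)).symm 0)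
          = q.1 := by
        obtain ⟨p, e⟩ := q
        exact Equiv.Perm.decomposeFin_symm_apply_zero p e
      rw [h3]
    rw [h2, Fintype.sum_prod_type] at h0
    simp only [Finset.sum_const, Finset.card_univ] at h0
    rw [← Finset.smul_sum] at h0
    have h4 : (Fintype.card (Equiv.Perm (Fin m)) : ℚ) ≠ 0 :=
      Nat.cast_ne_zero.2 Fintype.card_ne_zero
    have h5 : ∑ i : Fin (m + 1), k ^ (i : ℕ) * y * k ^ (m - (i : ℕ)) = 0 := by
      rw [← Nat.cast_smul_eq_nsmul ℚ] at h0
      exact (smul_eq_zero.1 h0).resolve_left h4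
    rw [Finset.sum_range]
    exact h5

end Zel60
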