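import Pool.Agent.Work.MP_b44cb1_al.Zel.SuperNil
import Pool.Agent.Work.MP_b44cb1_al.Zel.AdNil
import Pool.Agent.Work.MP_b44cb1_al.Zel.HGFacts
import Pool.Agent.Work.MP_b44cb1_al.Zel.BC
import Pool.Agent.Work.MP_b44cb1_al.Zel.Lin

/-!
# Zel/Cover (M-L) : words with letters of arbitrary parity are covered by values of `p`

`D = mm n M (2 * M - 1) + 1`. Fix the parities `e : Fin D → ZMod 2` (there are finitely many `e`; take
the sum of the numbers `k_e` at the end and pad with `u j = 0`, `a j = 0`).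
Let `B = A ⊗ GG`, `Ω = {ξ : Fin D → B // ∀ i, ξ i ∈ HG H (e i)}` and `E = Ω → B` (product ring,
`Pi.ring`, `Pi.algebra`). `Q0' = {q : E | ∀ ξ, q ξ ∈ HG H 0}`, `Q1' = {q | ∀ ξ, q ξ ∈ HG H 1}`.
Let `I` = two-sided ideal of `E` spanned by all `u * ev a p * v`, `u v : E`, `a : ℕ → E` with values in
`Q0'` (as in `E` sums of such elements; note `ev a p ξ = ev (fun i => a i ξ) p`, by `ev_comp` with
`Pi.evalAlgHom`). `C = E ⧸ I`, `Q0, Q1` the images of `Q0', Q1'`. The hypotheses of `super_nil` (with `M`,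
`p := 2 * M - 1`) hold:
* brackets: pointwise `HG_super0`, `HG_super1` (`core.pair.lie`);
* `Q0^M = 0` : `core.cover` gives `mon M = f + sum_t c_t u_t * ev b_t p * v_t` in `F`. For
  `q : ℕ → E` with values in `Q0'` (put `q i = 0` for `i ≥ M`): `ev q (mon M) = q 0 ... q (M-1)`
  (`ev_mon`); `ev q f = 0` because at each `ξ` it is `ev (fun i => q i ξ) f = 0` by `bc` (the
  elements of `HG H 0` are sums of `h ⊗ g` with `g ∈ Gp 0` central, `g_central`);
  `ev q (ev b p) = ev (fun i => ev q (b i)) p` with `ev q (b i) ∈ Q0'` (pointwise `ev_LX` for the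
  subspace `HG H 0`, closed under commutators by `HG_super0`). So the product is in `I`.
* alternating sums: `HG_alt` pointwise, with `lin_all` for `H.toAddSubgroup`.
* iterated commutators: `ad_nil`.
So products of `mm n M (2M-1)`, hence of `D`, elements of `Q0 ⊔ Q1` vanish. Apply this to the
evaluation functions `x_i : E`, `x_i ξ = ξ i`, which lie in `Q0'` or `Q1'` according to `e i`
(`e i = 0` or `e i = 1`): `x_0 ... x_(D-1) ∈ I`, that is
`x_0 ... x_(D-1) = sum_{j<k} u_j * ev (a_j) p * v_j` in `E`. Evaluate at `ξ`.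
-/

set_option autoImplicit false

namespace Zel60

open scoped TensorProduct

/-- functions with all values in `HG H i` -/
private noncomputable def QQ {A : Type} [Ring A] [Algebra ℚ A] (H : Submodule ℚ A) (Ω : Type)
    (i : ZMod 2) : Submodule ℚ (Ω → A ⊗[ℚ] GG) :=
  Submodule.pi Set.univ (fun _ => HG H i)

private theorem mem_QQ {A : Type} [Ring A] [Algebra ℚ A] {H : Submodule ℚ A} {Ω : Type}
    {i : ZMod 2} {q : Ω → A ⊗[ℚ] GG} : q ∈ QQ H Ω i ↔ ∀ ω, q ω ∈ HG H i := by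
  unfold QQ
  rw [Submodule.mem_pi]
  exact ⟨fun h ω => h ω (Set.mem_univ _), fun h ω _ => h ω⟩

/-- the ideal of finite sums of `u * ev a p * v` -/
private noncomputable def II {E : Type*} [Ring E] [Algebra ℚ E] (Q : Submodule ℚ E) (p : F) :
    Ideal E :=
  Ideal.span {z : E | ∃ (u v : E) (a : ℕ → E), (∀ i, a i ∈ Q) ∧ z = u * ev a p * v}

private theorem II_mem {E : Type*} [Ring E] [Algebra ℚ E] {Q : Submodule ℚ E} {p : F} {u v : E}
    {a : ℕ → E} (ha : ∀ i, a i ∈ Q) : u * ev a p * v ∈ II Q p :=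
  Ideal.subset_span ⟨u, v, a, ha, rfl⟩

private theorem II_two {E : Type*} [Ring E] [Algebra ℚ E] (Q : Submodule ℚ E) (p : F) :
    (II Q p).IsTwoSided := by
  refine ⟨fun {z} w hz => ?_⟩
  unfold II at hz
  induction hz using Submodule.span_induction with
  | mem z hz =>
    obtain ⟨u, v, a, ha, rfl⟩ := hz
    rw [mul_assoc]
    exact II_mem ha
  | zero =>
    rw [zero_mul]
    exact Submodule.zero_mem _
  | add y z _ _ h1 h2 =>
    rw [add_mul]
    exact Submodule.add_mem _ h1 h2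
  | smul u z _ h =>
    rw [smul_eq_mul, mul_assoc]
    exact Ideal.mul_mem_left _ _ h

private theorem II_exists {E : Type*} [Ring E] [Algebra ℚ E] {Q : Submodule ℚ E} {p : F} {z : E}
    (hz : z ∈ II Q p) : ∃ (k : ℕ) (u v : Fin k → E) (a : Fin k → ℕ → E),
      (∀ j i, a j i ∈ Q) ∧ z = ∑ j, u j * ev (a j) p * v j := by
  unfold II at hz
  induction hz using Submodule.span_induction with
  | mem z hz =>
    obtain ⟨u, v, a, ha, rfl⟩ := hz
    exact ⟨1, fun _ => u, fun _ => v, fun _ => a, fun _ => ha, by simp⟩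
  | zero =>
    exact ⟨0, fun _ => 0, fun _ => 0, fun _ _ => 0, fun _ _ => Q.zero_mem, by simp⟩
  | add y z _ _ h1 h2 =>
    obtain ⟨k, u, v, a, ha, rfl⟩ := h1
    obtain ⟨k', u', v', a', ha', rfl⟩ := h2
    refine ⟨k + k', Fin.append u u', Fin.append v v', Fin.append a a', ?_, ?_⟩
    · intro j
      refine Fin.addCases (fun j => ?_) (fun j => ?_) j
      · rw [Fin.append_left]
        exact ha j
      · rw [Fin.append_right]
        exact ha' j
    · rw [Fin.sum_univ_add]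
      simp only [Fin.append_left, Fin.append_right]
  | smul c z _ h =>
    obtain ⟨k, u, v, a, ha, rfl⟩ := h
    refine ⟨k, fun j => c * u j, v, a, ha, ?_⟩
    rw [smul_eq_mul, Finset.mul_sum]
    simp only [mul_assoc]

private theorem HG_central {A : Type} [Ring A] [Algebra ℚ A] {H : Submodule ℚ A}
    {x : A ⊗[ℚ] GG} (hx : x ∈ HG H 0) :
    x ∈ Submodule.span ℚ {z : A ⊗[ℚ] GG | ∃ h ∈ H, ∃ g : GG,
      (∀ c, g * c = c * g) ∧ z = h ⊗ₜ[ℚ] g} := by
  unfold HG at hx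
  refine Submodule.span_mono ?_ hx
  rintro z ⟨h, hh, g, hg, rfl⟩
  exact ⟨h, hh, g, g_central hg, rfl⟩

private theorem QQ_lie0 {A : Type} [Ring A] [Algebra ℚ A] {H : Submodule ℚ A}
    (hl : ∀ x ∈ H, ∀ y ∈ H, x * y - y * x ∈ H) {Ω : Type} {i : ZMod 2}
    {x y : Ω → A ⊗[ℚ] GG} (hx : x ∈ QQ H Ω 0) (hy : y ∈ QQ H Ω i) :
    x * y - y * x ∈ QQ H Ω i := by
  rw [mem_QQ] at *
  intro ω
  exact HG_super0 hl (hx ω) (hy ω)

private theorem QQ_lie1 {A : Type} [Ring A] [Algebra ℚ A] {H : Submodule ℚ A}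
    (hl : ∀ x ∈ H, ∀ y ∈ H, x * y - y * x ∈ H) {Ω : Type}
    {x y : Ω → A ⊗[ℚ] GG} (hx : x ∈ QQ H Ω 1) (hy : y ∈ QQ H Ω 1) :
    x * y + y * x ∈ QQ H Ω 0 := by
  rw [mem_QQ] at *
  intro ω
  exact HG_super1 hl (hx ω) (hy ω)

private theorem QQ_mon {n : ℕ} {A : Type} [Ring A] [Algebra ℚ A] {H : Submodule ℚ A} {p : F}
    {M : ℕ} (hc : Core n H p M) {Ω : Type} (q : ℕ → Ω → A ⊗[ℚ] GG) (hq : ∀ i, q i ∈ QQ H Ω 0) :
    ev q (mon M) ∈ II (QQ H Ω 0) p := by
  obtain ⟨f, hf, hs⟩ := hc.cover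
  have h1 : ev q f = 0 := by
    funext ω
    have h2 := ev_comp (Pi.evalAlgHom ℚ (fun _ : Ω => A ⊗[ℚ] GG) ω) q f
    have h3 : ev (fun i => q i ω) f = 0 :=
      bc H f hf (fun i => q i ω) (fun i => HG_central ((mem_QQ.1 (hq i)) ω))
    exact h2.trans h3
  have h4 : ev q (mon M) = ev q (mon M - f) := by
    rw [map_sub, h1, sub_zero]
  rw [h4]
  have := II_two (QQ H Ω 0) p
  clear h4 h1
  generalize mon M - f = z at hs
  induction hs using Submodule.span_induction with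
  | mem z hz =>
    obtain ⟨u, v, b, hb, rfl⟩ := hz
    rw [map_mul, map_mul, ev_comp]
    exact II_mem fun i => ev_LX (fun x hx y hy => QQ_lie0 hc.pair.lie hx hy) hq (hb i)
  | zero =>
    rw [map_zero]
    exact Submodule.zero_mem _
  | add y z _ _ h1 h2 =>
    rw [map_add]
    exact Submodule.add_mem _ h1 h2
  | smul c z _ h =>
    rw [map_smul, Algebra.smul_def]
    exact Ideal.mul_mem_left _ _ h

private theorem QQ_alt {n : ℕ} {A : Type} [Ring A] [Algebra ℚ A] {H : Submodule ℚ A}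
    (hi : ∀ x ∈ H, x ^ n = 0) {Ω : Type} (x : Fin n → Ω → A ⊗[ℚ] GG)
    (hx : ∀ i, x i ∈ QQ H Ω 1) :
    ∑ σ : Equiv.Perm (Fin n), ((Equiv.Perm.sign σ : ℤ) : ℚ) •
      (List.ofFn (fun i => x (σ i))).prod = 0 := by
  funext ω
  have h1 := HG_alt n (fun x hx => lin_all n H.toAddSubgroup (fun x hx => hi x hx) x hx)
    (fun i => x i ω) (fun i => (mem_QQ.1 (hx i)) ω)
  rw [Finset.sum_apply]
  refine Eq.trans (Finset.sum_congr rfl fun σ _ => ?_) h1
  rw [Pi.smul_apply]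
  congr 1
  have h2 := map_list_prod (Pi.evalAlgHom ℚ (fun _ : Ω => A ⊗[ℚ] GG) ω)
    (List.ofFn (fun i => x (σ i)))
  rw [List.map_ofFn] at h2
  exact h2

private theorem cover_Ω {n : ℕ} {A : Type} [Ring A] [Algebra ℚ A] {H : Submodule ℚ A} {p : F}
    {M : ℕ} (hc : Core n H p M) {Ω : Type} (D : ℕ) (hD : mm n M (2 * M - 1) ≤ D)
    (e : Fin D → ZMod 2) (x : Fin D → Ω → A ⊗[ℚ] GG) (hx : ∀ i, x i ∈ QQ H Ω (e i)) :
    (List.ofFn x).prod ∈ II (QQ H Ω 0) p := by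
  have := II_two (QQ H Ω 0) p
  set I := II (QQ H Ω 0) p with hI
  set π : (Ω → A ⊗[ℚ] GG) →ₐ[ℚ] (Ω → A ⊗[ℚ] GG) ⧸ I := Ideal.Quotient.mkₐ ℚ I with hπ
  have hker : ∀ z, π z = 0 ↔ z ∈ I := fun z => Ideal.Quotient.eq_zero_iff_mem
  have hM : Nil (((QQ H Ω 0).map π.toLinearMap : Submodule ℚ ((Ω → A ⊗[ℚ] GG) ⧸ I)) :
      Set ((Ω → A ⊗[ℚ] GG) ⧸ I)) M := by
    intro l hl hm
    have h1 : ∀ i : Fin M, ∃ q, q ∈ QQ H Ω 0 ∧ π q = l.get (i.cast hl.symm) := by
      intro i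
      obtain ⟨q, hq, hq'⟩ := hm _ (List.get_mem l (i.cast hl.symm))
      exact ⟨q, hq, hq'⟩
    choose q hq hq' using h1
    have h2 := QQ_mon hc (fun i => if h : i < M then q ⟨i, h⟩ else 0) (by
      intro i
      by_cases h : i < M
      · rw [dif_pos h]
        exact hq _
      · rw [dif_neg h]
        exact Submodule.zero_mem _)
    rw [ev_mon] at h2
    have h3 : (List.ofFn fun i : Fin M => (if h : (i : ℕ) < M then q ⟨i, h⟩ else 0)) =
        List.ofFn q := by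
      congr 1
      funext i
      rw [dif_pos i.2]
    rw [h3] at h2
    have h4 : l = (List.ofFn q).map π := by
      rw [List.map_ofFn]
      refine List.ext_get ?_ ?_
      · rw [List.length_ofFn, hl]
      · intro m h5 h6
        rw [List.get_ofFn, Function.comp_apply, hq']
        rfl
    rw [h4, ← map_list_prod]
    exact (hker _).2 h2
  have h := super_nil n M (2 * M - 1) ((QQ H Ω 0).map π.toLinearMap)
    ((QQ H Ω 1).map π.toLinearMap) ?_ ?_ ?_ hM ?_ ?_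
  · have h1 := (h.mono hD) (List.ofFn (fun i => π (x i))) (List.length_ofFn) ?_
    · rw [← hker, map_list_prod, List.map_ofFn]
      exact h1
    · intro z hz
      rw [List.mem_ofFn] at hz
      obtain ⟨i, rfl⟩ := hz
      have h2 : e i = 0 ∨ e i = 1 := by
        generalize e i = c
        revert c
        decide
      rcases h2 with h2 | h2
      · refine Submodule.mem_sup_left ⟨x i, ?_, rfl⟩
        have := hx i
        rw [h2] at this
        exact this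
      · refine Submodule.mem_sup_right ⟨x i, ?_, rfl⟩
        have := hx i
        rw [h2] at this
        exact this
  · rintro _ ⟨x, hx, rfl⟩ _ ⟨y, hy, rfl⟩
    refine ⟨x * y - y * x, QQ_lie0 hc.pair.lie hx hy, ?_⟩
    simp only [AlgHom.toLinearMap_apply, map_sub, map_mul]
  · rintro _ ⟨x, hx, rfl⟩ _ ⟨y, hy, rfl⟩
    refine ⟨x * y - y * x, QQ_lie0 hc.pair.lie hx hy, ?_⟩
    simp only [AlgHom.toLinearMap_apply, map_sub, map_mul]
  · rintro _ ⟨x, hx, rfl⟩ _ ⟨y, hy, rfl⟩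
    refine ⟨x * y + y * x, QQ_lie1 hc.pair.lie hx hy, ?_⟩
    simp only [AlgHom.toLinearMap_apply, map_add, map_mul]
  · intro y hy
    have h1 : ∀ i, ∃ q, q ∈ QQ H Ω 1 ∧ π q = y i := fun i => hy i
    choose q hq hq' using h1
    have h2 := congrArg π (QQ_alt hc.pair.idx q hq)
    rw [map_sum, map_zero] at h2
    refine Eq.trans (Finset.sum_congr rfl fun σ _ => ?_) h2
    rw [map_smul, map_list_prod, List.map_ofFn]
    congr 3
    funext i
    exact (hq' _).symm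
  · intro x _ l hl hq
    exact ad_nil M _ hM x l hl hq

private theorem cover_pad {A : Type} [Ring A] [Algebra ℚ A] {H : Submodule ℚ A} {p : F}
    {z : A ⊗[ℚ] GG} {k K : ℕ} (hk : k ≤ K)
    (h : ∃ (u v : Fin k → A ⊗[ℚ] GG) (a : Fin k → ℕ → A ⊗[ℚ] GG), (∀ j i, a j i ∈ HG H 0) ∧
        z = ∑ j, u j * ev (a j) p * v j) :
    ∃ (u v : Fin K → A ⊗[ℚ] GG) (a : Fin K → ℕ → A ⊗[ℚ] GG), (∀ j i, a j i ∈ HG H 0) ∧
        z = ∑ j, u j * ev (a j) p * v j := by
  obtain ⟨u, v, a, ha, rfl⟩ := h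
  obtain ⟨r, rfl⟩ := Nat.exists_eq_add_of_le hk
  refine ⟨Fin.append u (fun _ => 0), Fin.append v (fun _ => 0),
    Fin.append a (fun _ _ => 0), ?_, ?_⟩
  · intro j
    refine Fin.addCases (fun j => ?_) (fun j => ?_) j
    · rw [Fin.append_left]
      exact ha j
    · rw [Fin.append_right]
      exact fun _ => Submodule.zero_mem _
  · rw [Fin.sum_univ_add]
    simp only [Fin.append_left, Fin.append_right, zero_mul, Finset.sum_const_zero, add_zero]

theorem cover {n : ℕ} {A : Type} [Ring A] [Algebra ℚ A] {H : Submodule ℚ A} {p : F} {M : ℕ}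
    (hc : Core n H p M) :
    ∃ D k : ℕ, 1 ≤ D ∧ ∀ (e : Fin D → ZMod 2) (ξ : Fin D → A ⊗[ℚ] GG),
      (∀ i, ξ i ∈ HG H (e i)) →
      ∃ (u v : Fin k → A ⊗[ℚ] GG) (a : Fin k → ℕ → A ⊗[ℚ] GG), (∀ j i, a j i ∈ HG H 0) ∧
        (List.ofFn ξ).prod = ∑ j, u j * ev (a j) p * v j := by
  have h1 : ∀ e : Fin (mm n M (2 * M - 1) + 1) → ZMod 2, ∃ k : ℕ,
      ∀ ξ : Fin (mm n M (2 * M - 1) + 1) → A ⊗[ℚ] GG, (∀ i, ξ i ∈ HG H (e i)) →
      ∃ (u v : Fin k → A ⊗[ℚ] GG) (a : Fin k → ℕ → A ⊗[ℚ] GG), (∀ j i, a j i ∈ HG H 0) ∧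
        (List.ofFn ξ).prod = ∑ j, u j * ev (a j) p * v j := by
    intro e
    have h2 := cover_Ω hc
      (Ω := {ξ : Fin (mm n M (2 * M - 1) + 1) → A ⊗[ℚ] GG // ∀ i, ξ i ∈ HG H (e i)})
      (mm n M (2 * M - 1) + 1) (Nat.le_succ _) e (fun i ξ => ξ.1 i)
      (fun i => mem_QQ.2 fun ξ => ξ.2 i)
    obtain ⟨k, u, v, a, ha, hz⟩ := II_exists h2
    refine ⟨k, fun ξ hξ => ⟨fun j => u j ⟨ξ, hξ⟩, fun j => v j ⟨ξ, hξ⟩,
      fun j i => a j i ⟨ξ, hξ⟩, fun j i => mem_QQ.1 (ha j i) ⟨ξ, hξ⟩, ?_⟩⟩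
    have h3 := congrArg (Pi.evalAlgHom ℚ (fun _ : {ξ : Fin (mm n M (2 * M - 1) + 1) →
      A ⊗[ℚ] GG // ∀ i, ξ i ∈ HG H (e i)} => A ⊗[ℚ] GG) ⟨ξ, hξ⟩) hz
    rw [map_list_prod, List.map_ofFn, map_sum] at h3
    refine Eq.trans h3 (Finset.sum_congr rfl fun j _ => ?_)
    rw [map_mul, map_mul, ev_comp]
    rfl
  choose k hk using h1
  refine ⟨mm n M (2 * M - 1) + 1, ∑ e, k e, Nat.succ_le_succ (Nat.zero_le _),
    fun e ξ hξ => ?_⟩
  exact cover_pad (Finset.single_le_sum (fun _ _ => Nat.zero_le _) (Finset.mem_univ e))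
    (hk e ξ hξ)

end Zel60
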