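import Mathlib

/-!
# MP_b44cb1_al, block Zel : definitions (all facts in this file are proved)

Nilpotency of Lie algebras of nil operators of bounded index in characteristic 0.
Complete proof on paper: team-store file zelmanov60_b44cb1.md
-/

set_option autoImplicit false

namespace Zel60

open scoped TensorProduct

/-- Every product of `N` elements of `S` is zero. -/
def Nil {A : Type*} [Ring A] (S : Set A) (N : ℕ) : Prop :=
  ∀ l : List A, l.length = N → (∀ x ∈ l, x ∈ S) → l.prod = 0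

theorem Nil.mono {A : Type*} [Ring A] {S : Set A} {N N' : ℕ} (h : Nil S N) (hN : N ≤ N') :
    Nil S N' := by
  intro l hl hx
  rw [← List.take_append_drop N l, List.prod_append,
    h (l.take N) (by simp [hl, hN]) (fun x hx' => hx x (List.mem_of_mem_take hx')), zero_mul]

/-- `H` is a subspace of the associative algebra `A` closed under commutators, and `x^n = 0` for all
`x` in `H` (a pair of index `n`). -/
structure PairN (n : ℕ) {A : Type*} [Ring A] [Algebra ℚ A] (H : Submodule ℚ A) : Prop where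
  lie : ∀ x ∈ H, ∀ y ∈ H, x * y - y * x ∈ H
  idx : ∀ x ∈ H, x ^ n = 0

/-- In every pair of index `n` all products of `N` elements of `H` vanish. -/
def SN (n N : ℕ) : Prop :=
  ∀ (A : Type) [Ring A] [Algebra ℚ A] (H : Submodule ℚ A), PairN n H → Nil (H : Set A) N

theorem SN.mono {n N N' : ℕ} (h : SN n N) (hN : N ≤ N') : SN n N' :=
  fun A _ _ H hp => (h A H hp).mono hN

theorem SN_zero : SN 0 0 := by
  intro A _ _ H hp l hl _
  have h1 : (1 : A) = 0 := by simpa using hp.idx 0 H.zero_mem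
  rw [List.length_eq_zero_iff] at hl
  subst hl
  simpa using h1

/-- The free algebra on countably many letters. -/
abbrev F : Type := FreeAlgebra ℚ ℕ

/-- The letters. -/
abbrev X (i : ℕ) : F := FreeAlgebra.ι ℚ i

/-- Evaluation (substitution) of polynomials. -/
abbrev ev {A : Type*} [Ring A] [Algebra ℚ A] (h : ℕ → A) : F →ₐ[ℚ] A := FreeAlgebra.lift ℚ h

theorem ev_X {A : Type*} [Ring A] [Algebra ℚ A] (h : ℕ → A) (i : ℕ) : ev h (X i) = h i := by
  simp [ev, X]

theorem ev_comp {A B : Type*} [Ring A] [Algebra ℚ A] [Ring B] [Algebra ℚ B] (φ : A →ₐ[ℚ] B)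
    (h : ℕ → A) (f : F) : φ (ev h f) = ev (fun i => φ (h i)) f := by
  have : (φ.comp (ev h)) = ev (fun i => φ (h i)) := by
    apply FreeAlgebra.hom_ext
    funext i
    simp [ev]
  rw [← this]
  rfl

/-- The Lie polynomials: the smallest subspace of the free algebra containing the letters and closed
under commutators. -/
def LX : Submodule ℚ F :=
  sInf {L : Submodule ℚ F | (∀ i, X i ∈ L) ∧ ∀ x ∈ L, ∀ y ∈ L, x * y - y * x ∈ L}

theorem X_mem (i : ℕ) : X i ∈ LX := by
  rw [LX, Submodule.mem_sInf]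
  exact fun L hL => hL.1 i

theorem LX_lie {x y : F} (hx : x ∈ LX) (hy : y ∈ LX) : x * y - y * x ∈ LX := by
  rw [LX, Submodule.mem_sInf] at *
  exact fun L hL => hL.2 x (hx L hL) y (hy L hL)

theorem LX_le {L : Submodule ℚ F} (h1 : ∀ i, X i ∈ L) (h2 : ∀ x ∈ L, ∀ y ∈ L, x * y - y * x ∈ L) :
    LX ≤ L := sInf_le ⟨h1, h2⟩

/-- Lie polynomials take values in `H` on `H`. -/
theorem ev_LX {A : Type*} [Ring A] [Algebra ℚ A] {H : Submodule ℚ A}
    (hl : ∀ x ∈ H, ∀ y ∈ H, x * y - y * x ∈ H) {h : ℕ → A} (hh : ∀ i, h i ∈ H) {x : F}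
    (hx : x ∈ LX) : ev h x ∈ H := by
  have : LX ≤ H.comap (ev h).toLinearMap := by
    apply LX_le
    · intro i
      simpa [ev] using hh i
    · intro x hx y hy
      simp only [Submodule.mem_comap, AlgHom.toLinearMap_apply, map_sub, map_mul] at *
      exact hl _ hx _ hy
  exact this hx

/-- The monomial `X 0 * X 1 * ... * X (M-1)`. -/
def mon (M : ℕ) : F := (List.ofFn (fun i : Fin M => X (i : ℕ))).prod

theorem ev_mon {A : Type*} [Ring A] [Algebra ℚ A] (h : ℕ → A) (M : ℕ) :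
    ev h (mon M) = (List.ofFn (fun i : Fin M => h (i : ℕ))).prod := by
  rw [mon, map_list_prod, List.map_ofFn]
  congr 2
  funext i
  exact ev_X h i

/-- A T-ideal (closed under all substitutions of Lie polynomials) containing all `x^n`, `x` a Lie
polynomial. -/
structure TI (n : ℕ) (T : Ideal F) : Prop where
  two : ∀ x ∈ T, ∀ y : F, x * y ∈ T
  subst : ∀ b : ℕ → F, (∀ i, b i ∈ LX) → ∀ x ∈ T, ev b x ∈ T
  idx : ∀ x ∈ LX, x ^ n ∈ T

/-- The data extracted from a maximal T-ideal: a pair of index `n` which is not nilpotent, a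
polynomial `p` with `p(h) A p(h) = 0`, and an identity which expresses `X 0 ... X (M-1)` through
values of `p`. -/
structure Core (n : ℕ) {A : Type} [Ring A] [Algebra ℚ A] (H : Submodule ℚ A) (p : F) (M : ℕ) :
    Prop where
  pair : PairN n H
  gen : Algebra.adjoin ℚ (H : Set A) = ⊤
  notnil : ∀ N, ¬ Nil (H : Set A) N
  sand : ∀ h : ℕ → A, (∀ i, h i ∈ H) → ∀ a : A, ev h p * a * ev h p = 0
  cover : ∃ f : F, (∀ h : ℕ → A, (∀ i, h i ∈ H) → ev h f = 0) ∧
    mon M - f ∈ Submodule.span ℚ {z : F | ∃ (u v : F) (b : ℕ → F), (∀ i, b i ∈ LX) ∧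
      z = u * ev b p * v}

/-- The Grassmann algebra with countably many generators. -/
abbrev GG : Type := ExteriorAlgebra ℚ (ℕ →₀ ℚ)

/-- The generators of the Grassmann algebra. -/
noncomputable def ge (r : ℕ) : GG := ExteriorAlgebra.ι ℚ (Finsupp.single r (1 : ℚ))

/-- Even (`i = 0`) and odd (`i = 1`) part of the Grassmann algebra. -/
noncomputable def Gp (i : ZMod 2) : Submodule ℚ GG :=
  CliffordAlgebra.evenOdd (0 : QuadraticForm ℚ (ℕ →₀ ℚ)) i

/-- `H ⊗ G_i` inside `A ⊗ G`. -/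
noncomputable def HG {A : Type} [Ring A] [Algebra ℚ A] (H : Submodule ℚ A) (i : ZMod 2) :
    Submodule ℚ (A ⊗[ℚ] GG) :=
  Submodule.span ℚ {z | ∃ h ∈ H, ∃ g ∈ Gp i, z = h ⊗ₜ[ℚ] g}

/-- `w` is a block: the product of the letters `ξ` and of `m` further letters of `H ⊗ 1`. -/
def IsBlk {A : Type} [Ring A] [Algebra ℚ A] (H : Submodule ℚ A) (ξ : List (A ⊗[ℚ] GG)) (m : ℕ)
    (w : A ⊗[ℚ] GG) : Prop :=
  ∃ c : List A, c.length = m ∧ (∀ a ∈ c, a ∈ H) ∧ w = ξ.prod * (c.prod ⊗ₜ[ℚ] (1 : GG))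

/-- Every product of homogeneous elements which contains `N` blocks (of length `D`) with the same
first `i` letters `ξ` vanishes. -/
def PP {A : Type} [Ring A] [Algebra ℚ A] (H : Submodule ℚ A) (D i N : ℕ) : Prop :=
  ∀ ξ : List (A ⊗[ℚ] GG), ξ.length = i → (∀ x ∈ ξ, ∃ j, x ∈ HG H j) →
    ∀ (m : ℕ) (b : Fin m → A ⊗[ℚ] GG), (∀ r, ∃ j, b r ∈ HG (⊤ : Submodule ℚ A) j) →
      ∀ s : Finset (Fin m), N ≤ s.card → (∀ r ∈ s, IsBlk H ξ (D - i) (b r)) →
        (List.ofFn b).prod = 0

/-- Permutations which fix everything outside `R`. -/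
def SP {ι : Type*} [Fintype ι] [DecidableEq ι] (R : Finset ι) : Finset (Equiv.Perm ι) :=
  Finset.univ.filter (fun σ => ∀ i, i ∉ R → σ i = i)

theorem mem_SP {ι : Type*} [Fintype ι] [DecidableEq ι] (R : Finset ι) (σ : Equiv.Perm ι) :
    σ ∈ SP R ↔ ∀ i, i ∉ R → σ i = i := by
  simp [SP]

end Zel60
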