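import Pool.Agent.Work.MP_b44cb1_al.Zel.Defs

/-!
# MP_b44cb1_al, block Zel : definitions, second part (fixed)
-/

set_option autoImplicit false

namespace Zel60

open scoped TensorProduct

/-- The shift `ge r ↦ ge (r + k)` of the Grassmann algebra. -/
noncomputable def sh (k : ℕ) : GG →ₐ[ℚ] GG :=
  ExteriorAlgebra.map (Finsupp.lmapDomain ℚ ℚ (fun i : ℕ => i + k))

/-- The shift on `A ⊗ G`. -/
noncomputable def shA (A : Type) [Ring A] [Algebra ℚ A] (k : ℕ) :
    A ⊗[ℚ] GG →ₐ[ℚ] A ⊗[ℚ] GG :=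
  Algebra.TensorProduct.map (AlgHom.id ℚ A) (sh k)

/-- Ordered product of the generators `0, ..., k-1`. -/
noncomputable def gprod (k : ℕ) : GG := (List.ofFn (fun i : Fin k => ge (i : ℕ))).prod

/-- Even elements with square zero. -/
noncomputable def ee (q : ℕ) : GG := ge (2 * q) * ge (2 * q + 1)

/-- The sign of exchanging elements of parity `i` and `j`. -/
def sg (i j : ZMod 2) : ℚ := if i = 1 ∧ j = 1 then -1 else 1

/-- The bound in the lemma on super Lie algebras. -/
def mm (n M : ℕ) : ℕ → ℕ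
  | 0 => M
  | (p + 1) => (n + 1) * M * mm n M p

/-- The product in which the letters `z r` (`r ∈ s`) are put in the slots of the blocks. -/
noncomputable def Phi {A : Type} [Ring A] [Algebra ℚ A] (ξ : List (A ⊗[ℚ] GG)) {m : ℕ}
    (b : Fin m → A ⊗[ℚ] GG) (s : Finset (Fin m)) (c : Fin m → List A) (z : Fin m → A) :
    A ⊗[ℚ] GG :=
  (List.ofFn (fun r => if r ∈ s then
    ξ.prod * (z r ⊗ₜ[ℚ] (1 : GG)) * ((c r).prod ⊗ₜ[ℚ] (1 : GG)) else b r)).prod

end Zel60
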