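import Pool.Agent.Work.MP_b44cb1_al.Zel.Lin

/-!
# Zel/Gen (M) : `A` is spanned by products of fewer than `n` elements of `H`

Let `FF j` be the span of all `l.prod`, `l` a list of elements of `H` of length at most `j`.
(1) Swapping two adjacent letters `x, y` in a word of length `L` changes the word by a word of
length `L - 1` with the letter `x * y - y * x` in `H`; so a word of length `L` and any permutation of it
are congruent modulo `FF (L - 1)` (`List.Perm` induction, or adjacent transpositions).
(2) With `lin_all` (for `H.toAddSubgroup`) and `n` letters: `n! • (x_1 ... x_n)` is congruent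
modulo `FF (n-1)` to `sum over all permutations = 0`, so `x_1 ... x_n ∈ FF (n-1)`.
(3) By induction on the length every word is in `FF (n-1)`: a word of length `L ≥ n` is (first `n`
letters) times rest, and the first factor is a combination of words of length `< n`, so the word is a
combination of words of length `< L`.
(4) `Algebra.adjoin ℚ H` is the span of all words (`Algebra.adjoin_eq_span`,
`Submonoid.exists_list_of_mem_closure`).
-/

set_option autoImplicit false

namespace Zel60

/-- span of the words of length at most `j` -/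
private def FF {A : Type*} [Ring A] [Algebra ℚ A] (H : Submodule ℚ A) (j : ℕ) : Submodule ℚ A :=
  Submodule.span ℚ {b : A | ∃ l : List A, l.length ≤ j ∧ (∀ x ∈ l, x ∈ H) ∧ l.prod = b}

private theorem FF_word {A : Type*} [Ring A] [Algebra ℚ A] {H : Submodule ℚ A} {j : ℕ}
    {l : List A} (h : l.length ≤ j) (hl : ∀ x ∈ l, x ∈ H) : l.prod ∈ FF H j :=
  Submodule.subset_span ⟨l, h, hl, rfl⟩

private theorem FF_cons {A : Type*} [Ring A] [Algebra ℚ A] {H : Submodule ℚ A} {j : ℕ} {x : A}
    (hx : x ∈ H) {b : A} (hb : b ∈ FF H j) : x * b ∈ FF H (j + 1) := by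
  refine Submodule.span_induction (p := fun b _ => x * b ∈ FF H (j + 1)) ?_ ?_ ?_ ?_ hb
  · rintro _ ⟨l, h1, h2, rfl⟩
    rw [← List.prod_cons]
    refine FF_word (by simpa using h1) ?_
    intro z hz
    rcases List.mem_cons.1 hz with rfl | hz
    · exact hx
    · exact h2 z hz
  · rw [mul_zero]
    exact Submodule.zero_mem _
  · intro a b _ _ ha hb
    rw [mul_add]
    exact Submodule.add_mem _ ha hb
  · intro c a _ ha
    rw [mul_smul_comm]
    exact Submodule.smul_mem _ _ ha

private theorem FF_perm {A : Type*} [Ring A] [Algebra ℚ A] {H : Submodule ℚ A}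
    (hH : ∀ x ∈ H, ∀ y ∈ H, x * y - y * x ∈ H) {l l' : List A} (h : l.Perm l')
    (hl : ∀ x ∈ l, x ∈ H) : l.prod - l'.prod ∈ FF H (l.length - 1) := by
  induction h with
  | nil => simp
  | @cons x l₁ l₂ h ih =>
    have ih' := ih (fun z hz => hl z (List.mem_cons_of_mem _ hz))
    rw [List.prod_cons, List.prod_cons, ← mul_sub, List.length_cons, Nat.add_sub_cancel]
    cases l₁ with
    | nil =>
      have h2 : l₂ = [] := List.nil_perm.1 h
      rw [h2, sub_self, mul_zero]
      exact Submodule.zero_mem _
    | cons a t =>
      have := FF_cons (hl x (List.mem_cons_self)) ih'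
      rw [List.length_cons, Nat.add_sub_cancel] at this
      rw [List.length_cons]
      exact this
  | swap x y l =>
    have hx : x ∈ H := hl x (by simp)
    have hy : y ∈ H := hl y (by simp)
    have h1 : (y :: x :: l).prod - (x :: y :: l).prod = ((y * x - x * y) :: l).prod := by
      simp only [List.prod_cons]
      noncomm_ring
    rw [h1]
    refine FF_word (by simp) ?_
    intro z hz
    rcases List.mem_cons.1 hz with rfl | hz
    · exact hH y hy x hx
    · exact hl z (List.mem_cons_of_mem _ (List.mem_cons_of_mem _ hz))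
  | @trans l₁ l₂ l₃ h₁ h₂ ih₁ ih₂ =>
    have h3 := ih₁ hl
    have h4 := ih₂ (fun z hz => hl z (h₁.mem_iff.2 hz))
    rw [← h₁.length_eq] at h4
    have h5 := Submodule.add_mem _ h3 h4
    rw [sub_add_sub_cancel] at h5
    exact h5

theorem gen_span {n : ℕ} (hn : 1 ≤ n) {A : Type*} [Ring A] [Algebra ℚ A] (H : Submodule ℚ A)
    (hp : PairN n H) (hg : Algebra.adjoin ℚ (H : Set A) = ⊤) (a : A) :
    a ∈ Submodule.span ℚ {b : A | ∃ l : List A, l.length < n ∧ (∀ x ∈ l, x ∈ H) ∧ l.prod = b} := by
  obtain ⟨m, rfl⟩ : ∃ m, n = m + 1 := ⟨n - 1, by omega⟩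
  have hFF : Submodule.span ℚ {b : A | ∃ l : List A, l.length < m + 1 ∧ (∀ x ∈ l, x ∈ H) ∧
      l.prod = b} = FF H m := by
    unfold FF
    congr 1
    ext b
    simp only [Nat.lt_succ_iff]
  rw [hFF]
  -- words of length `m + 1`
  have hword : ∀ l : List A, l.length = m + 1 → (∀ x ∈ l, x ∈ H) → l.prod ∈ FF H m := by
    intro l hl hlH
    have h0 := lin_all (m + 1) H.toAddSubgroup (fun x hx => hp.idx x hx)
      (fun i : Fin (m + 1) => l.get (i.cast hl.symm)) (fun i => hlH _ (List.get_mem _ _))
    have hl' : List.ofFn (fun i : Fin (m + 1) => l.get (i.cast hl.symm)) = l := by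
      refine List.ext_get (by rw [List.length_ofFn, hl]) ?_
      intro i h1 h2
      rw [List.get_ofFn]
      rfl
    have h1 : ∀ σ : Equiv.Perm (Fin (m + 1)),
        (List.ofFn (fun i => l.get ((σ i).cast hl.symm))).prod - l.prod ∈ FF H m := by
      intro σ
      have h2 := Equiv.Perm.ofFn_comp_perm σ (fun i : Fin (m + 1) => l.get (i.cast hl.symm))
      have h3 : (List.ofFn (fun i => l.get ((σ i).cast hl.symm))).Perm l := by
        rw [hl'] at h2
        exact h2
      have h4 := FF_perm hp.lie h3 (fun x hx => hlH x (h3.mem_iff.1 hx))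
      rw [List.length_ofFn, Nat.add_sub_cancel] at h4
      exact h4
    have h2 : ∑ σ : Equiv.Perm (Fin (m + 1)),
        ((List.ofFn (fun i => l.get ((σ i).cast hl.symm))).prod - l.prod) ∈ FF H m :=
      Submodule.sum_mem _ fun σ _ => h1 σ
    rw [Finset.sum_sub_distrib, h0, zero_sub, Finset.sum_const, Finset.card_univ,
      Submodule.neg_mem_iff, ← Nat.cast_smul_eq_nsmul ℚ] at h2
    have h4 : (Fintype.card (Equiv.Perm (Fin (m + 1))) : ℚ) ≠ 0 :=
      Nat.cast_ne_zero.2 Fintype.card_ne_zero
    exact (Submodule.smul_mem_iff _ h4).1 h2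
  have hall : ∀ (L : ℕ) (l : List A), l.length = L → (∀ x ∈ l, x ∈ H) → l.prod ∈ FF H m := by
    intro L
    induction L using Nat.strong_induction_on with
    | _ L ih =>
      intro l hl hlH
      by_cases hL : L ≤ m
      · exact FF_word (hl.le.trans hL) hlH
      · have h1 : (l.take (m + 1)).prod ∈ FF H m :=
          hword _ (by rw [List.length_take]; omega) (fun x hx => hlH x (List.mem_of_mem_take hx))
        have hd : ∀ x ∈ l.drop (m + 1), x ∈ H := fun x hx => hlH x (List.mem_of_mem_drop hx)
        have hdl : (l.drop (m + 1)).length = L - (m + 1) := by rw [List.length_drop, hl]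
        rw [← List.take_append_drop (m + 1) l, List.prod_append]
        refine Submodule.span_induction
          (p := fun b _ => b * (l.drop (m + 1)).prod ∈ FF H m) ?_ ?_ ?_ ?_ h1
        · rintro _ ⟨w, h2, h3, rfl⟩
          rw [← List.prod_append]
          refine ih (w ++ l.drop (m + 1)).length ?_ _ rfl ?_
          · rw [List.length_append, hdl]
            omega
          · intro x hx
            rcases List.mem_append.1 hx with hx | hx
            · exact h3 x hx
            · exact hd x hx
        · rw [zero_mul]
          exact Submodule.zero_mem _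
        · intro a b _ _ ha hb
          rw [add_mul]
          exact Submodule.add_mem _ ha hb
        · intro c a _ ha
          rw [smul_mul_assoc]
          exact Submodule.smul_mem _ _ ha
  have ha : a ∈ (Algebra.adjoin ℚ (H : Set A)).toSubmodule := by
    rw [hg]
    exact (Algebra.mem_top : a ∈ (⊤ : Subalgebra ℚ A))
  rw [Algebra.adjoin_eq_span] at ha
  refine Submodule.span_induction (p := fun b _ => b ∈ FF H m) ?_ ?_ ?_ ?_ ha
  · intro b hb
    obtain ⟨l, h1, h2⟩ := Submonoid.exists_list_of_mem_closure hb
    rw [← h2]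
    exact hall _ l rfl (fun x hx => h1 x hx)
  · exact Submodule.zero_mem _
  · intro a b _ _ ha hb
    exact Submodule.add_mem _ ha hb
  · intro c a _ ha
    exact Submodule.smul_mem _ _ ha

end Zel60
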