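import Pool.Agent.Work.MP_b44cb1_al.Zel.FactB
import Pool.Agent.Work.MP_b44cb1_al.Zel.Gen

/-!
# Zel/FactA (M) : `x A (C_H(x))^(N^n) = 0`

`K = {k ∈ H | k * x = x * k}` is a Lie subspace. (All actions by right multiplication.)
(a) `lin_one` with `y := x` which commutes with `k` gives `n • (k^(n-1) * x) = 0`, so
`k^(n-1) * x = 0` for `k ∈ K`. So `Q = {b * x | b ∈ A}` is stable under right multiplication by `K`
(`b x k = (b k) x`), and `b x k^(n-1) = b k^(n-1) x = 0`; `sub_nil` with `P = 0` : `Q K^N = 0`.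
(b) Let `M_i` = span of all `b * x * l.prod`, `b ∈ A`, `l` a list of elements of `H` of length at
most `i`. `M_i K ⊆ M_i` (move `k` to the left through the letters of `l`: commutators `[h, k]` are
letters in `H` again and the length does not grow; finally `b x k = (b k) x`). By `factA_step`,
if `M_i K^L = 0` then every element `m * y` (`m ∈ M_i`, `y ∈ H`) is killed by `K^(L N)`; as
`L ≤ L N` (`1 ≤ N`) also `M_i` itself is killed, and `M_(i+1) = M_i + M_i H`. So `M_i` is killed by
`K^(N^(i+1))`.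
(c) By `gen_span`, `a` is a combination of products of at most `n - 1` letters, so
`x * a ∈ M_(n-1)`, which is killed by `K^(N^n)`.
-/

set_option autoImplicit false

namespace Zel60

/-- `Q + Q H + Q H H + ...` (at most `i` factors) -/
private def MM {A : Type} [Ring A] [Algebra ℚ A] (H Q : Submodule ℚ A) : ℕ → Submodule ℚ A
  | 0 => Q
  | i + 1 => MM H Q i ⊔ Submodule.span ℚ {z | ∃ m ∈ MM H Q i, ∃ y ∈ H, m * y = z}

private theorem MM_succ {A : Type} [Ring A] [Algebra ℚ A] {H Q : Submodule ℚ A} (i : ℕ) :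
    MM H Q i ≤ MM H Q (i + 1) := by
  rw [MM]
  exact le_sup_left

private theorem MM_mono {A : Type} [Ring A] [Algebra ℚ A] {H Q : Submodule ℚ A} :
    Monotone (MM H Q) := monotone_nat_of_le_succ MM_succ

private theorem MM_mul {A : Type} [Ring A] [Algebra ℚ A] {H Q : Submodule ℚ A} {i : ℕ} {m y : A}
    (hm : m ∈ MM H Q i) (hy : y ∈ H) : m * y ∈ MM H Q (i + 1) := by
  rw [MM]
  exact Submodule.mem_sup_right (Submodule.subset_span ⟨m, hm, y, hy, rfl⟩)

private theorem MM_ind {A : Type} [Ring A] [Algebra ℚ A] {H Q P : Submodule ℚ A} {i : ℕ} (z : A)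
    (h1 : ∀ m ∈ MM H Q i, m * z ∈ P) (h2 : ∀ m ∈ MM H Q i, ∀ y ∈ H, m * y * z ∈ P) {q : A}
    (hq : q ∈ MM H Q (i + 1)) : q * z ∈ P := by
  rw [MM] at hq
  obtain ⟨a, ha, b, hb, rfl⟩ := Submodule.mem_sup.1 hq
  rw [add_mul]
  refine Submodule.add_mem _ (h1 a ha) ?_
  refine Submodule.span_induction (p := fun q _ => q * z ∈ P) ?_ ?_ ?_ ?_ hb
  · rintro _ ⟨m, hm, y, hy, rfl⟩
    exact h2 m hm y hy
  · rw [zero_mul]
    exact Submodule.zero_mem _
  · intro a b _ _ ha hb
    rw [add_mul]
    exact Submodule.add_mem _ ha hb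
  · intro c a _ ha
    rw [smul_mul_assoc]
    exact Submodule.smul_mem _ _ ha

private theorem MM_K {A : Type} [Ring A] [Algebra ℚ A] {H K Q : Submodule ℚ A}
    (hH : ∀ x ∈ H, ∀ y ∈ H, x * y - y * x ∈ H) (hKH : K ≤ H)
    (hQ : ∀ q ∈ Q, ∀ k ∈ K, q * k ∈ Q) (i : ℕ) :
    ∀ m ∈ MM H Q i, ∀ k ∈ K, m * k ∈ MM H Q i := by
  induction i with
  | zero => exact hQ
  | succ i ih =>
    intro q hq k hk
    refine MM_ind k (fun m hm => MM_succ i (ih m hm k hk)) (fun m hm y hy => ?_) hq
    have h1 : m * y * k = (m * k) * y + m * (y * k - k * y) := by noncomm_ring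
    rw [h1]
    exact Submodule.add_mem _ (MM_mul (ih m hm k hk) hy) (MM_mul hm (hH y hy k (hKH hk)))

theorem factA {n N : ℕ} (hn : 1 ≤ n) (hN : 1 ≤ N) (hS : SN (n - 1) N) {A : Type} [Ring A]
    [Algebra ℚ A] (H : Submodule ℚ A) (hp : PairN n H) (hg : Algebra.adjoin ℚ (H : Set A) = ⊤)
    (x : A) (hx : x ∈ H) (a : A) (l : List A) (hl : l.length = N ^ n)
    (hk : ∀ k ∈ l, k ∈ H ∧ k * x = x * k) : x * a * l.prod = 0 := by
  obtain ⟨n', rfl⟩ : ∃ n', n = n' + 1 := ⟨n - 1, by omega⟩
  have hS' : SN n' N := by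
    rw [Nat.add_sub_cancel] at hS
    exact hS
  let K : Submodule ℚ A :=
    { carrier := {k | k ∈ H ∧ k * x = x * k}
      add_mem' := by
        rintro a b ⟨ha, ha'⟩ ⟨hb, hb'⟩
        exact ⟨H.add_mem ha hb, by rw [add_mul, mul_add, ha', hb']⟩
      zero_mem' := ⟨H.zero_mem, by rw [zero_mul, mul_zero]⟩
      smul_mem' := by
        rintro c a ⟨ha, ha'⟩
        exact ⟨H.smul_mem c ha, by rw [smul_mul_assoc, mul_smul_comm, ha']⟩ }
  have hKH : K ≤ H := fun k hk => hk.1
  have hKx : ∀ k ∈ K, k * x = x * k := fun k hk => hk.2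
  have hK : ∀ u ∈ K, ∀ v ∈ K, u * v - v * u ∈ K := by
    rintro u ⟨hu, hu'⟩ v ⟨hv, hv'⟩
    refine ⟨hp.lie u hu v hv, ?_⟩
    have h1 : u * v * x = x * (u * v) := by rw [mul_assoc, hv', ← mul_assoc, hu', mul_assoc]
    have h2 : v * u * x = x * (v * u) := by rw [mul_assoc, hu', ← mul_assoc, hv', mul_assoc]
    rw [sub_mul, mul_sub, h1, h2]
  -- `x * k^(n-1) = 0`
  have hxk : ∀ k ∈ K, x * k ^ n' = 0 := by
    intro k hk
    have h1 := lin_one (n' + 1) H hp.idx k x (hKH hk) hx
    have hc : ∀ i, k ^ i * x = x * k ^ i := fun i =>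
      (Commute.pow_left (show Commute k x from hKx k hk) i).eq
    have h2 : ∀ i ∈ Finset.range (n' + 1), k ^ i * x * k ^ (n' + 1 - 1 - i) = x * k ^ n' := by
      intro i hi
      rw [Finset.mem_range] at hi
      rw [hc i, mul_assoc, ← pow_add]
      congr 2
      omega
    rw [Finset.sum_congr rfl h2, Finset.sum_const, Finset.card_range,
      ← Nat.cast_smul_eq_nsmul ℚ] at h1
    exact (smul_eq_zero.1 h1).resolve_left (Nat.cast_ne_zero.2 (Nat.succ_ne_zero n'))
  let Q : Submodule ℚ A := LinearMap.range (LinearMap.mulRight ℚ x)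
  have hQmem : ∀ b : A, b * x ∈ Q := fun b => ⟨b, rfl⟩
  have hQK : ∀ q ∈ Q, ∀ k ∈ K, q * k ∈ Q := by
    rintro _ ⟨b, rfl⟩ k hk
    refine ⟨b * k, ?_⟩
    change b * k * x = b * x * k
    rw [mul_assoc, hKx k hk, mul_assoc]
  have hQN : ∀ q ∈ Q, ∀ w : List A, w.length = N → (∀ k ∈ w, k ∈ K) → q * w.prod = 0 := by
    intro q hq w hw hwK
    have h1 := sub_nil hS' K ⊥ Q hK bot_le hQK (by
        intro q hq k _
        rw [Submodule.mem_bot] at hq
        rw [hq, zero_mul]
        exact Submodule.zero_mem _) (by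
        rintro _ ⟨b, rfl⟩ k hk
        rw [Submodule.mem_bot]
        change b * x * k ^ n' = 0
        rw [mul_assoc, hxk k hk, mul_zero]) w hw hwK q hq
    exact (Submodule.mem_bot ℚ).1 h1
  have hkill : ∀ (i : ℕ) (m : A), m ∈ MM H Q i → ∀ w : List A, w.length = N ^ (i + 1) →
      (∀ k ∈ w, k ∈ K) → m * w.prod = 0 := by
    intro i
    induction i with
    | zero =>
      intro m hm w hw hwK
      exact hQN m hm w (by rw [hw, zero_add, pow_one]) hwK
    | succ i ih =>
      intro q hq w hw hwK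
      have h0 : q * w.prod ∈ (⊥ : Submodule ℚ A) := by
        refine MM_ind w.prod (fun m hm => ?_) (fun m hm y hy => ?_) hq
        · have h1 := ih m hm (w.take (N ^ (i + 1))) (by
            rw [List.length_take, hw, min_eq_left]
            exact Nat.pow_le_pow_right hN (Nat.le_succ _))
            (fun k hk => hwK k (List.mem_of_mem_take hk))
          rw [← List.take_append_drop (N ^ (i + 1)) w, List.prod_append, ← mul_assoc, h1, zero_mul]
          exact Submodule.zero_mem _
        · rw [Submodule.mem_bot]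
          exact factA_step hn hS H hp K hKH hK (MM H Q i) (MM_K hp.lie hKH hQK i) (N ^ (i + 1))
            ih m hm y hy w (by rw [hw, pow_succ]) hwK
      exact (Submodule.mem_bot ℚ).1 h0
  have hxw : ∀ w : List A, (∀ h ∈ w, h ∈ H) → x * w.prod ∈ MM H Q w.length := by
    intro w
    induction w using List.reverseRecOn with
    | nil =>
      intro _
      rw [List.prod_nil, mul_one]
      have := hQmem 1
      rw [one_mul] at this
      exact this
    | append_singleton w h ih =>
      intro hw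
      rw [List.prod_append, List.prod_singleton, ← mul_assoc, List.length_append,
        List.length_singleton]
      exact MM_mul (ih fun z hz => hw z (List.mem_append_left _ hz)) (hw h (by simp))
  have hxa : x * a ∈ MM H Q n' := by
    have ha := gen_span hn H hp hg a
    refine Submodule.span_induction (p := fun b _ => x * b ∈ MM H Q n') ?_ ?_ ?_ ?_ ha
    · rintro _ ⟨w, hw, hwH, rfl⟩
      exact MM_mono (Nat.lt_succ_iff.1 hw) (hxw w hwH)
    · rw [mul_zero]
      exact Submodule.zero_mem _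
    · intro a b _ _ ha hb
      rw [mul_add]
      exact Submodule.add_mem _ ha hb
    · intro c a _ ha
      rw [mul_smul_comm]
      exact Submodule.smul_mem _ _ ha
  exact hkill n' (x * a) hxa l hl (fun k hkl => hk k hkl)

end Zel60
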