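import Pool.Agent.Work.MP_b44cb1_al.Zel.Defs

/-!
# Zel/Sub (M) : the induction hypothesis on subquotients

Everything acts by RIGHT multiplication inside `A`. `P ≤ Q` are subspaces of `A`, stable under right
multiplication by the Lie subspace `K`, and `Q k^m ⊆ P` for all `k` in `K`. Then `K^N` maps `Q` to `P`.

Proof. Let `W = Q ⧸ P'`, `P' = P.comap Q.subtype` (a rational vector space, in `Type`), and
`A' = Module.End ℚ W`. For `k` in `K` right multiplication by `k` restricts to `Q` and induces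
`ρ k : W → W`; `ρ : K → A'` is linear. With composition of maps,
`ρ k * ρ l` is `q ↦ (q * l) * k = q * (l * k)`, so
`ρ k * ρ l - ρ l * ρ k = ρ (l * k - k * l)`. Hence the range `H'` of `ρ` (a subspace of `A'`) is
closed under commutators, and `(ρ k)^m = 0` because `q * k^m` is in `P`. So `PairN m H'` and
`h A' H'` says that products of `N` elements of `H'` vanish. For `l = [k_1, ..., k_N]` apply this to
the list `[ρ k_N, ..., ρ k_1]` (reversed): the product maps the class of `q` to the class of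
`q * k_1 * ... * k_N`.
-/

set_option autoImplicit false

namespace Zel60

theorem sub_nil {m N : ℕ} (h : SN m N) {A : Type} [Ring A] [Algebra ℚ A] (K P Q : Submodule ℚ A)
    (hK : ∀ x ∈ K, ∀ y ∈ K, x * y - y * x ∈ K) (hPQ : P ≤ Q)
    (hQ : ∀ q ∈ Q, ∀ k ∈ K, q * k ∈ Q) (hP : ∀ q ∈ P, ∀ k ∈ K, q * k ∈ P)
    (hm : ∀ q ∈ Q, ∀ k ∈ K, q * k ^ m ∈ P) (l : List A) (hl : l.length = N)
    (hlK : ∀ k ∈ l, k ∈ K) (q : A) (hq : q ∈ Q) : q * l.prod ∈ P := by
  classical
  let P' : Submodule ℚ Q := P.comap Q.subtype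
  let W : Type := Q ⧸ P'
  let mk : ∀ q : A, q ∈ Q → W := fun q hq => Submodule.Quotient.mk ⟨q, hq⟩
  have mk_eq : ∀ q q' hq hq', q = q' → mk q hq = mk q' hq' := by
    rintro q q' hq hq' rfl
    rfl
  have mk_zero : ∀ q hq, mk q hq = 0 ↔ q ∈ P := by
    intro q hq
    change (Submodule.Quotient.mk _ : Q ⧸ P') = 0 ↔ _
    rw [Submodule.Quotient.mk_eq_zero]
    rfl
  have hKm : ∀ {q k : A}, q ∈ Q → k ∈ K → q * k ∈ Q := fun h1 h2 => hQ _ h1 _ h2
  -- `T` acts as right multiplication by `k`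
  let Rep : Module.End ℚ W → A → Prop := fun T k => ∀ q (hq : q ∈ Q) (hqk : q * k ∈ Q),
    T (mk q hq) = mk (q * k) hqk
  have hex : ∀ k ∈ K, ∃ T, Rep T k := by
    intro k hk
    let f : Q →ₗ[ℚ] Q := (LinearMap.mulRight ℚ k).restrict (p := Q) (q := Q)
      (fun q hq => hQ q hq k hk)
    have hf : P' ≤ P'.comap f := by
      intro x hx
      exact hP _ hx k hk
    exact ⟨P'.mapQ P' f hf, fun q hq hqk => rfl⟩
  let H' : Submodule ℚ (Module.End ℚ W) :=
    { carrier := {T | ∃ k ∈ K, Rep T k}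
      add_mem' := by
        rintro S T ⟨k, hk, hS⟩ ⟨l, hl, hT⟩
        refine ⟨k + l, K.add_mem hk hl, fun q hq hqk => ?_⟩
        rw [LinearMap.add_apply, hS q hq (hKm hq hk), hT q hq (hKm hq hl)]
        exact mk_eq _ _ (Q.add_mem (hKm hq hk) (hKm hq hl)) _ (mul_add _ _ _).symm
      zero_mem' := by
        refine ⟨0, K.zero_mem, fun q hq hqk => ?_⟩
        rw [LinearMap.zero_apply]
        exact ((mk_zero _ hqk).2 (by rw [mul_zero]; exact P.zero_mem)).symm
      smul_mem' := by
        rintro c T ⟨k, hk, hT⟩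
        refine ⟨c • k, K.smul_mem c hk, fun q hq hqk => ?_⟩
        rw [LinearMap.smul_apply, hT q hq (hKm hq hk)]
        exact mk_eq _ _ (Q.smul_mem c (hKm hq hk)) _ (mul_smul_comm c q k).symm }
  have hpair : PairN m H' := by
    constructor
    · rintro S ⟨k, hk, hS⟩ T ⟨l, hl, hT⟩
      refine ⟨l * k - k * l, hK l hl k hk, fun q hq hqk => ?_⟩
      rw [LinearMap.sub_apply, Module.End.mul_apply, Module.End.mul_apply,
        hT q hq (hKm hq hl), hS q hq (hKm hq hk), hS _ (hKm hq hl) (hKm (hKm hq hl) hk),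
        hT _ (hKm hq hk) (hKm (hKm hq hk) hl)]
      exact mk_eq _ _ (Q.sub_mem (hKm (hKm hq hl) hk) (hKm (hKm hq hk) hl)) _ (by noncomm_ring)
    · rintro T ⟨k, hk, hT⟩
      have hpow : ∀ j : ℕ, ∀ q (hq : q ∈ Q), ∃ hqk : q * k ^ j ∈ Q,
          (T ^ j) (mk q hq) = mk (q * k ^ j) hqk := by
        intro j
        induction j with
        | zero =>
          intro q hq
          refine ⟨by rw [pow_zero, mul_one]; exact hq, ?_⟩
          rw [pow_zero, Module.End.one_apply]
          exact mk_eq _ _ _ _ (by rw [pow_zero, mul_one])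
        | succ j ih =>
          intro q hq
          obtain ⟨h1, h2⟩ := ih (q * k) (hKm hq hk)
          have e : q * k * k ^ j = q * k ^ (j + 1) := by rw [pow_succ', mul_assoc]
          refine ⟨by rw [← e]; exact h1, ?_⟩
          rw [pow_succ, Module.End.mul_apply, hT q hq (hKm hq hk), h2]
          exact mk_eq _ _ _ _ e
      refine LinearMap.ext fun w => ?_
      obtain ⟨⟨q, hq⟩, rfl⟩ := Submodule.Quotient.mk_surjective _ w
      obtain ⟨h1, h2⟩ := hpow m q hq
      exact h2.trans ((mk_zero _ h1).2 (hm q hq k hk))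
  have hnil := h (Module.End ℚ W) H' hpair
  -- choose operators
  have hprod : ∀ l : List A, (∀ k ∈ l, k ∈ K) → ∃ L : List (Module.End ℚ W),
      L.length = l.length ∧ (∀ T ∈ L, T ∈ H') ∧
        ∀ q (hq : q ∈ Q), ∃ hqk : q * l.prod ∈ Q, L.prod (mk q hq) = mk (q * l.prod) hqk := by
    intro l
    induction l with
    | nil =>
      intro _
      refine ⟨[], rfl, by simp, fun q hq => ⟨by simpa using hq, ?_⟩⟩
      rw [List.prod_nil, Module.End.one_apply]
      exact mk_eq _ _ _ _ (by simp)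
    | cons k l ih =>
      intro hkl
      obtain ⟨L, hL1, hL2, hL3⟩ := ih fun x hx => hkl x (List.mem_cons_of_mem _ hx)
      have hk : k ∈ K := hkl k List.mem_cons_self
      obtain ⟨T, hT⟩ := hex k hk
      refine ⟨L ++ [T], by simp [hL1], ?_, fun q hq => ?_⟩
      · intro S hS
        rcases List.mem_append.1 hS with hS | hS
        · exact hL2 S hS
        · rw [List.mem_singleton.1 hS]
          exact ⟨k, hk, hT⟩
      · obtain ⟨h1, h2⟩ := hL3 (q * k) (hKm hq hk)
        have e : q * k * l.prod = q * (k :: l).prod := by rw [List.prod_cons, mul_assoc]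
        refine ⟨by rw [← e]; exact h1, ?_⟩
        rw [List.prod_append, List.prod_singleton, Module.End.mul_apply, hT q hq (hKm hq hk), h2]
        exact mk_eq _ _ _ _ e
  obtain ⟨L, hL1, hL2, hL3⟩ := hprod l hlK
  obtain ⟨h1, h2⟩ := hL3 q hq
  rw [hnil L (hL1.trans hl) hL2, LinearMap.zero_apply] at h2
  exact (mk_zero _ h1).1 h2.symm

end Zel60
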