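import Pool.Agent.Work.MP_b44cb1_al.Zel.Lin
import Pool.Agent.Work.MP_b44cb1_al.Zel.Sub

/-!
# Zel/FactB (M) : if `M K^L = 0` then `(M H) K^(L N) = 0`

`K ≤ H` Lie subspaces, `M` a subspace of `A` with `M K ⊆ M` (right multiplication) and
`M K^L = 0`; `SN (n-1) N`. Then `m * y * (product of L * N elements of K) = 0` for `m ∈ M`, `y ∈ H`.

Proof. For `j ≤ L` let `S_j = {m ∈ M | m * l.prod = 0 for all lists l in K of length j}` (a subspace).
`S_0 = 0`, `S_L = M`, `S_(j+1) K ⊆ S_j`, `S_j K ⊆ S_j` (a product of `j` elements after one more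
element: `m ∈ S_j` implies `m * l.prod = 0` for length `j + 1`, so `m * k ∈ S_j`), `S_j ≤ S_(j+1)`.
Let `T_j` = span of all `m * y`, `m ∈ S_j`, `y ∈ H`. Then
* `T_j K ⊆ T_j` : `m y k = (m k) y + m (y k - k y)`, and `y k - k y ∈ H`;
* for `j ≥ 1`, `k ∈ K` : `T_j k^(n-1) ⊆ T_(j-1)`. By `lin_one` :
  `y k^(n-1) = - sum_{1 ≤ i < n} k^i y k^(n-1-i)`, so
  `m y k^(n-1) = - sum_{i ≥ 1} (m k^i) y k^(n-1-i)` with `m k^i ∈ S_(j-1)` (as `i ≥ 1`), and
  `T_(j-1)` is stable under right multiplication by `k`.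
So `sub_nil` (with `m := n - 1`, `P = T_(j-1)`, `Q = T_j`) gives `T_j K^N ⊆ T_(j-1)`, and
`T_L K^(L N) ⊆ T_0 = 0` by induction.
-/

set_option autoImplicit false

namespace Zel60

/-- the elements of `M` killed by all products of `j` elements of `K` -/
private def SS {A : Type} [Ring A] [Algebra ℚ A] (K M : Submodule ℚ A) (j : ℕ) :
    Submodule ℚ A where
  carrier := {m | m ∈ M ∧ ∀ l : List A, l.length = j → (∀ k ∈ l, k ∈ K) → m * l.prod = 0}
  add_mem' := by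
    rintro a b ⟨ha, ha'⟩ ⟨hb, hb'⟩
    refine ⟨M.add_mem ha hb, fun l hl hk => ?_⟩
    rw [add_mul, ha' l hl hk, hb' l hl hk, add_zero]
  zero_mem' := ⟨M.zero_mem, fun l _ _ => zero_mul _⟩
  smul_mem' := by
    rintro c a ⟨ha, ha'⟩
    refine ⟨M.smul_mem c ha, fun l hl hk => ?_⟩
    rw [smul_mul_assoc, ha' l hl hk, smul_zero]

private theorem SS_K {A : Type} [Ring A] [Algebra ℚ A] {K M : Submodule ℚ A}
    (hM : ∀ m ∈ M, ∀ k ∈ K, m * k ∈ M) {j : ℕ} {m k : A} (hm : m ∈ SS K M (j + 1)) (hk : k ∈ K) :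
    m * k ∈ SS K M j := by
  refine ⟨hM m hm.1 k hk, fun l hl hlK => ?_⟩
  rw [mul_assoc, ← List.prod_cons]
  refine hm.2 (k :: l) (by rw [List.length_cons, hl]) ?_
  intro z hz
  rcases List.mem_cons.1 hz with rfl | hz
  · exact hk
  · exact hlK z hz

private theorem SS_succ {A : Type} [Ring A] [Algebra ℚ A] {K M : Submodule ℚ A} {j : ℕ} :
    SS K M j ≤ SS K M (j + 1) := by
  rintro m ⟨hm, hm'⟩
  refine ⟨hm, fun l hl hlK => ?_⟩
  rw [← List.take_append_drop j l, List.prod_append, ← mul_assoc,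
    hm' (l.take j) (by rw [List.length_take, hl]; omega)
      (fun k hk => hlK k (List.mem_of_mem_take hk)), zero_mul]

private theorem SS_pow {A : Type} [Ring A] [Algebra ℚ A] {K M : Submodule ℚ A}
    (hM : ∀ m ∈ M, ∀ k ∈ K, m * k ∈ M) {j : ℕ} {m k : A} (hm : m ∈ SS K M (j + 1)) (hk : k ∈ K)
    (i : ℕ) : m * k ^ (i + 1) ∈ SS K M j := by
  induction i with
  | zero => simpa using SS_K hM hm hk
  | succ i ih =>
    rw [pow_succ, ← mul_assoc]
    exact SS_K hM (SS_succ ih) hk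

/-- the span of the products `m * y`, `m ∈ SS j`, `y ∈ H` -/
private def TT {A : Type} [Ring A] [Algebra ℚ A] (H K M : Submodule ℚ A) (j : ℕ) :
    Submodule ℚ A :=
  Submodule.span ℚ {z | ∃ m ∈ SS K M j, ∃ y ∈ H, m * y = z}

private theorem TT_mem {A : Type} [Ring A] [Algebra ℚ A] {H K M : Submodule ℚ A} {j : ℕ} {m y : A}
    (hm : m ∈ SS K M j) (hy : y ∈ H) : m * y ∈ TT H K M j :=
  Submodule.subset_span ⟨m, hm, y, hy, rfl⟩

private theorem TT_succ {A : Type} [Ring A] [Algebra ℚ A] {H K M : Submodule ℚ A} {j : ℕ} :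
    TT H K M j ≤ TT H K M (j + 1) := by
  refine Submodule.span_mono ?_
  rintro _ ⟨m, hm, y, hy, rfl⟩
  exact ⟨m, SS_succ hm, y, hy, rfl⟩

private theorem TT_ind {A : Type} [Ring A] [Algebra ℚ A] {H K M P : Submodule ℚ A} {j : ℕ}
    (z : A) (h : ∀ m ∈ SS K M j, ∀ y ∈ H, m * y * z ∈ P) {q : A} (hq : q ∈ TT H K M j) :
    q * z ∈ P := by
  refine Submodule.span_induction (p := fun q _ => q * z ∈ P) ?_ ?_ ?_ ?_ hq
  · rintro _ ⟨m, hm, y, hy, rfl⟩
    exact h m hm y hy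
  · rw [zero_mul]
    exact Submodule.zero_mem _
  · intro a b _ _ ha hb
    rw [add_mul]
    exact Submodule.add_mem _ ha hb
  · intro c a _ ha
    rw [smul_mul_assoc]
    exact Submodule.smul_mem _ _ ha

private theorem TT_K {A : Type} [Ring A] [Algebra ℚ A] {H K M : Submodule ℚ A}
    (hH : ∀ x ∈ H, ∀ y ∈ H, x * y - y * x ∈ H) (hKH : K ≤ H)
    (hM : ∀ m ∈ M, ∀ k ∈ K, m * k ∈ M) {j : ℕ} {q k : A} (hq : q ∈ TT H K M j) (hk : k ∈ K) :
    q * k ∈ TT H K M j := by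
  refine TT_ind k (fun m hm y hy => ?_) hq
  have h1 : m * y * k = (m * k) * y + m * (y * k - k * y) := by noncomm_ring
  rw [h1]
  exact Submodule.add_mem _ (TT_mem (SS_K hM (SS_succ hm) hk) hy)
    (TT_mem hm (hH y hy k (hKH hk)))

private theorem TT_Kpow {A : Type} [Ring A] [Algebra ℚ A] {H K M : Submodule ℚ A}
    (hH : ∀ x ∈ H, ∀ y ∈ H, x * y - y * x ∈ H) (hKH : K ≤ H)
    (hM : ∀ m ∈ M, ∀ k ∈ K, m * k ∈ M) {j : ℕ} {q k : A} (hq : q ∈ TT H K M j) (hk : k ∈ K)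
    (i : ℕ) : q * k ^ i ∈ TT H K M j := by
  induction i with
  | zero => simpa using hq
  | succ i ih =>
    rw [pow_succ, ← mul_assoc]
    exact TT_K hH hKH hM ih hk

theorem factA_step {n N : ℕ} (hn : 1 ≤ n) (hS : SN (n - 1) N) {A : Type} [Ring A] [Algebra ℚ A]
    (H : Submodule ℚ A) (hp : PairN n H) (K : Submodule ℚ A) (hKH : K ≤ H)
    (hK : ∀ x ∈ K, ∀ y ∈ K, x * y - y * x ∈ K) (M : Submodule ℚ A)
    (hM : ∀ m ∈ M, ∀ k ∈ K, m * k ∈ M) (L : ℕ)
    (hL : ∀ m ∈ M, ∀ l : List A, l.length = L → (∀ k ∈ l, k ∈ K) → m * l.prod = 0)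
    (m : A) (hm : m ∈ M) (y : A) (hy : y ∈ H) (l : List A) (hl : l.length = L * N)
    (hlK : ∀ k ∈ l, k ∈ K) : m * y * l.prod = 0 := by
  obtain ⟨n', rfl⟩ : ∃ n', n = n' + 1 := ⟨n - 1, by omega⟩
  rw [Nat.add_sub_cancel] at hS
  have hpow : ∀ j, ∀ q ∈ TT H K M (j + 1), ∀ k ∈ K, q * k ^ n' ∈ TT H K M j := by
    intro j q hq k hk
    refine TT_ind (k ^ n') (fun m hm y hy => ?_) hq
    have h1 := lin_one (n' + 1) H hp.idx k y (hKH hk) hy
    rw [Finset.sum_range_succ', pow_zero, one_mul] at h1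
    have h2 : y * k ^ n' = -∑ i ∈ Finset.range n', k ^ (i + 1) * y * k ^ (n' + 1 - 1 - (i + 1)) := by
      rw [eq_neg_iff_add_eq_zero, add_comm]
      exact h1
    rw [mul_assoc, h2, mul_neg, Finset.mul_sum]
    refine Submodule.neg_mem _ (Submodule.sum_mem _ fun i _ => ?_)
    rw [← mul_assoc, ← mul_assoc]
    exact TT_Kpow hp.lie hKH hM (TT_mem (SS_pow hM hm hk i) hy) hk _
  have hmain : ∀ (j : ℕ) (q : A), q ∈ TT H K M j → ∀ l : List A, l.length = j * N →
      (∀ k ∈ l, k ∈ K) → q * l.prod = 0 := by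
    intro j
    induction j with
    | zero =>
      intro q hq l _ _
      have h0 : q * 1 ∈ (⊥ : Submodule ℚ A) := by
        refine TT_ind 1 (fun m hm y hy => ?_) hq
        have h1 := hm.2 [] rfl (by simp)
        rw [List.prod_nil, mul_one] at h1
        rw [h1, zero_mul, zero_mul]
        exact Submodule.zero_mem _
      rw [mul_one, Submodule.mem_bot] at h0
      rw [h0, zero_mul]
    | succ j ih =>
      intro q hq l hl hlK
      have h1 : q * (l.take N).prod ∈ TT H K M j :=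
        sub_nil hS K (TT H K M j) (TT H K M (j + 1)) hK TT_succ
          (fun q hq k hk => TT_K hp.lie hKH hM hq hk)
          (fun q hq k hk => TT_K hp.lie hKH hM hq hk) (hpow j) (l.take N)
          (by rw [List.length_take, hl, Nat.succ_mul]; omega)
          (fun k hk => hlK k (List.mem_of_mem_take hk)) q hq
      have h2 := ih _ h1 (l.drop N) (by rw [List.length_drop, hl, Nat.succ_mul]; omega)
        (fun k hk => hlK k (List.mem_of_mem_drop hk))
      rw [mul_assoc, ← List.prod_append, List.take_append_drop] at h2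
      exact h2
  exact hmain L (m * y) (TT_mem ⟨hm, hL m hm⟩ hy) l hl hlK

end Zel60
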