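import Pool.Agent.Work.MP_b44cb1_al.Zel.GrassA

/-!
# Zel/Fresh (M) : fresh generators

`sh_ge`, `sh_mem`, `shA_HG` : direct (`ExteriorAlgebra.map_apply_ι`; for `sh_mem` use the induction
principle of `evenOdd`, or `CliffordAlgebra.evenOdd_map`-like lemmas).

`fresh` : the linear map `J k : GG → GG`, `z ↦ sh k z * gprod k` is injective, hence has a linear left
inverse `ρ` (`LinearMap.exists_leftInverse_of_injective`), and `id ⊗ ρ` is a left inverse of
`z ↦ shA A k z * (1 ⊗ gprod k)` on `A ⊗ GG` (check on pure tensors).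
Injectivity of `J k`: let `d_i` be the functional `ℕ →₀ ℚ → ℚ`, coefficient of `i`, and
`∂_i = CliffordAlgebra.contractRight · d_i` (or `contractLeft`) : `∂_i` of a product `y * ge i` is
`y` when `∂_i y = 0` (`contractRight_mul_ι`), and `∂_i` vanishes on the subalgebra generated by the
other generators (induction). Applying `∂_(k-1), ..., ∂_0` to `sh k z * gprod k` gives `sh k z` up to
sign, and `sh k` is injective because it has the left inverse
`ExteriorAlgebra.map (Finsupp.lcomapDomain ..)` (or the map induced by the linear map sending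
`single (i + k) 1` to `single i 1` and `single i 1`, `i < k`, to 0; `ExteriorAlgebra.map_comp_map`).
(Alternative: one generator at a time: `z ↦ sh 1 z * ge 0` is injective, and
`gprod (k+1)` is up to sign the product which comes from iterating.)
-/

set_option autoImplicit false

namespace Zel60

open scoped TensorProduct

theorem sh_ge (k r : ℕ) : sh k (ge r) = ge (r + k) := by
  unfold sh ge
  rw [ExteriorAlgebra.map_apply_ι, Finsupp.lmapDomain_apply, Finsupp.mapDomain_single]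

private theorem sh_ι (k : ℕ) (x : ℕ →₀ ℚ) : sh k (ExteriorAlgebra.ι ℚ x) =
    ExteriorAlgebra.ι ℚ (Finsupp.lmapDomain ℚ ℚ (fun i : ℕ => i + k) x) := by
  unfold sh
  rw [ExteriorAlgebra.map_apply_ι]

theorem sh_mem {k : ℕ} {i : ZMod 2} {a : GG} (ha : a ∈ Gp i) : sh k a ∈ Gp i := by
  obtain rfl | rfl : i = 0 ∨ i = 1 := by
    revert i
    intro i _
    fin_cases i
    · left; rfl
    · right; rfl
  · refine CliffordAlgebra.even_induction (0 : QuadraticForm ℚ (ℕ →₀ ℚ))
      (motive := fun a _ => sh k a ∈ Gp 0) ?_ ?_ ?_ a ha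
    · intro r
      have h1 : sh k (algebraMap ℚ GG r) = algebraMap ℚ GG r := AlgHom.commutes _ _
      have h2 : algebraMap ℚ GG r ∈ Gp 0 :=
        SetLike.algebraMap_mem_graded (CliffordAlgebra.evenOdd (0 : QuadraticForm ℚ (ℕ →₀ ℚ))) r
      show sh k (algebraMap ℚ GG r) ∈ Gp 0
      rw [h1]
      exact h2
    · intro x y _ _ hx hy
      rw [map_add]
      exact Submodule.add_mem _ hx hy
    · intro m₁ m₂ x _ hx
      have h1 : sh k (CliffordAlgebra.ι (0 : QuadraticForm ℚ (ℕ →₀ ℚ)) m₁ *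
          CliffordAlgebra.ι (0 : QuadraticForm ℚ (ℕ →₀ ℚ)) m₂ * x) =
          sh k (ExteriorAlgebra.ι ℚ m₁) * sh k (ExteriorAlgebra.ι ℚ m₂) * sh k x :=
        (map_mul (sh k) _ _).trans (congrArg (fun t => t * sh k x) (map_mul (sh k) _ _))
      rw [h1, sh_ι, sh_ι]
      have h2 := g_mul (i := 0) (j := 0)
        (CliffordAlgebra.ι_mul_ι_mem_evenOdd_zero (0 : QuadraticForm ℚ (ℕ →₀ ℚ))
        (Finsupp.lmapDomain ℚ ℚ (fun i : ℕ => i + k) m₁)
        (Finsupp.lmapDomain ℚ ℚ (fun i : ℕ => i + k) m₂)) hx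
      rwa [add_zero] at h2
  · refine CliffordAlgebra.odd_induction (0 : QuadraticForm ℚ (ℕ →₀ ℚ))
      (P := fun a _ => sh k a ∈ Gp 1) ?_ ?_ ?_ a ha
    · intro v
      have h1 : sh k (CliffordAlgebra.ι (0 : QuadraticForm ℚ (ℕ →₀ ℚ)) v) =
        ExteriorAlgebra.ι ℚ (Finsupp.lmapDomain ℚ ℚ (fun i : ℕ => i + k) v) := sh_ι k v
      rw [h1]
      exact CliffordAlgebra.ι_mem_evenOdd_one _ _
    · intro x y _ _ hx hy
      rw [map_add]
      exact Submodule.add_mem _ hx hy
    · intro m₁ m₂ x _ hx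
      have h1 : sh k (CliffordAlgebra.ι (0 : QuadraticForm ℚ (ℕ →₀ ℚ)) m₁ *
          CliffordAlgebra.ι (0 : QuadraticForm ℚ (ℕ →₀ ℚ)) m₂ * x) =
          sh k (ExteriorAlgebra.ι ℚ m₁) * sh k (ExteriorAlgebra.ι ℚ m₂) * sh k x :=
        (map_mul (sh k) _ _).trans (congrArg (fun t => t * sh k x) (map_mul (sh k) _ _))
      rw [h1, sh_ι, sh_ι]
      have h2 := g_mul (i := 0) (j := 1)
        (CliffordAlgebra.ι_mul_ι_mem_evenOdd_zero (0 : QuadraticForm ℚ (ℕ →₀ ℚ))
        (Finsupp.lmapDomain ℚ ℚ (fun i : ℕ => i + k) m₁)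
        (Finsupp.lmapDomain ℚ ℚ (fun i : ℕ => i + k) m₂)) hx
      rwa [zero_add] at h2

theorem shA_tmul {A : Type} [Ring A] [Algebra ℚ A] (k : ℕ) (a : A) (g : GG) :
    shA A k (a ⊗ₜ[ℚ] g) = a ⊗ₜ[ℚ] sh k g := by
  unfold shA
  rw [Algebra.TensorProduct.map_tmul, AlgHom.coe_id, id]

theorem shA_HG {A : Type} [Ring A] [Algebra ℚ A] {H : Submodule ℚ A} {i : ZMod 2} (k : ℕ)
    {x : A ⊗[ℚ] GG} (hx : x ∈ HG H i) : shA A k x ∈ HG H i := by
  have h1 : HG H i ≤ (HG H i).comap (shA A k).toLinearMap := by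
    conv_lhs => unfold HG
    rw [Submodule.span_le]
    rintro z ⟨h, hh, g, hg, rfl⟩
    show shA A k (h ⊗ₜ[ℚ] g) ∈ HG H i
    rw [shA_tmul]
    exact Submodule.subset_span ⟨h, hh, sh k g, sh_mem hg, rfl⟩
  exact h1 hx

open CliffordAlgebra in
private theorem contr_sh (k i : ℕ) (hi : i < k) (z : GG) :
    contractRight (Q := (0 : QuadraticForm ℚ (ℕ →₀ ℚ))) (sh k z)
      (Finsupp.lapply i : Module.Dual ℚ (ℕ →₀ ℚ)) = 0 := by
  refine CliffordAlgebra.right_induction (0 : QuadraticForm ℚ (ℕ →₀ ℚ))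
    (P := fun z => contractRight (Q := (0 : QuadraticForm ℚ (ℕ →₀ ℚ))) (sh k z)
      (Finsupp.lapply i : Module.Dual ℚ (ℕ →₀ ℚ)) = 0) ?_ ?_ ?_ z
  · intro r
    have h1 : sh k (algebraMap ℚ GG r) = algebraMap ℚ GG r := AlgHom.commutes _ _
    have h2 : contractRight (Q := (0 : QuadraticForm ℚ (ℕ →₀ ℚ))) (algebraMap ℚ GG r)
      (Finsupp.lapply i : Module.Dual ℚ (ℕ →₀ ℚ)) = 0 := contractRight_algebraMap _ _ r
    show contractRight (Q := (0 : QuadraticForm ℚ (ℕ →₀ ℚ))) (sh k (algebraMap ℚ GG r))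
      (Finsupp.lapply i : Module.Dual ℚ (ℕ →₀ ℚ)) = 0
    rw [h1]
    exact h2
  · intro x y hx hy
    rw [map_add, map_add, LinearMap.add_apply, hx, hy, add_zero]
  · intro m x hx
    have h1 : sh k (x * CliffordAlgebra.ι (0 : QuadraticForm ℚ (ℕ →₀ ℚ)) m) =
        sh k x * CliffordAlgebra.ι (0 : QuadraticForm ℚ (ℕ →₀ ℚ))
          (Finsupp.lmapDomain ℚ ℚ (fun i : ℕ => i + k) m) := by
      rw [map_mul]
      congr 1
      exact sh_ι k m
    rw [h1, contractRight_mul_ι, hx, zero_mul, sub_zero]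
    have h2 : (Finsupp.lapply i : Module.Dual ℚ (ℕ →₀ ℚ))
        (Finsupp.lmapDomain ℚ ℚ (fun i : ℕ => i + k) m) = 0 := by
      rw [Finsupp.lapply_apply, Finsupp.lmapDomain_apply]
      refine Finsupp.mapDomain_of_notMem_range _ _ ?_
      rintro ⟨j, hj⟩
      simp only at hj
      omega
    rw [h2, zero_smul]

open CliffordAlgebra in
private theorem contr_ge (i j : ℕ) (y : GG) :
    contractRight (Q := (0 : QuadraticForm ℚ (ℕ →₀ ℚ))) (y * ge j)
      (Finsupp.lapply i : Module.Dual ℚ (ℕ →₀ ℚ)) =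
    (if j = i then (1 : ℚ) else 0) • y -
      contractRight (Q := (0 : QuadraticForm ℚ (ℕ →₀ ℚ))) y
        (Finsupp.lapply i : Module.Dual ℚ (ℕ →₀ ℚ)) * ge j := by
  have h1 : ge j = CliffordAlgebra.ι (0 : QuadraticForm ℚ (ℕ →₀ ℚ)) (Finsupp.single j 1) := rfl
  rw [h1, contractRight_mul_ι]
  congr 2
  rw [Finsupp.lapply_apply, Finsupp.single_apply]

private theorem gprod_succ (k : ℕ) : gprod (k + 1) = gprod k * ge k := by
  unfold gprod
  rw [List.ofFn_succ', List.prod_concat]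
  rfl

open CliffordAlgebra in
private theorem contr_gprod (i j : ℕ) (hj : j ≤ i) (y : GG)
    (hy : contractRight (Q := (0 : QuadraticForm ℚ (ℕ →₀ ℚ))) y
      (Finsupp.lapply i : Module.Dual ℚ (ℕ →₀ ℚ)) = 0) :
    contractRight (Q := (0 : QuadraticForm ℚ (ℕ →₀ ℚ))) (y * gprod j)
      (Finsupp.lapply i : Module.Dual ℚ (ℕ →₀ ℚ)) = 0 := by
  induction j with
  | zero =>
    have h0 : gprod 0 = 1 := by
      unfold gprod
      simp
    rw [h0, mul_one, hy]
  | succ j ih =>
    rw [gprod_succ, ← mul_assoc, contr_ge, if_neg (by omega), zero_smul, ih (by omega), zero_mul,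
      sub_zero]

open CliffordAlgebra in
private theorem inj_aux (k : ℕ) (y : GG)
    (hy : ∀ i, i < k → contractRight (Q := (0 : QuadraticForm ℚ (ℕ →₀ ℚ))) y
      (Finsupp.lapply i : Module.Dual ℚ (ℕ →₀ ℚ)) = 0) (h : y * gprod k = 0) : y = 0 := by
  induction k with
  | zero =>
    have h0 : gprod 0 = 1 := by
      unfold gprod
      simp
    rwa [h0, mul_one] at h
  | succ k ih =>
    refine ih (fun i hi => hy i (by omega)) ?_
    have h1 := contr_ge k k (y * gprod k)
    rw [if_pos rfl, one_smul, contr_gprod k k le_rfl y (hy k (by omega)), zero_mul, sub_zero,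
      mul_assoc, ← gprod_succ, h] at h1
    rw [← h1]
    rw [map_zero, LinearMap.zero_apply]

private theorem sh_inj (k : ℕ) : Function.Injective (sh k) := by
  unfold sh
  refine ExteriorAlgebra.map_injective_field ?_
  rw [LinearMap.ker_eq_bot]
  exact Finsupp.mapDomain_injective (fun a b h => by simpa using h)

theorem fresh {A : Type} [Ring A] [Algebra ℚ A] (k : ℕ) (z : A ⊗[ℚ] GG)
    (hz : shA A k z * ((1 : A) ⊗ₜ[ℚ] gprod k) = 0) : z = 0 := by
  set J : GG →ₗ[ℚ] GG := (LinearMap.mulRight ℚ (gprod k)).comp (sh k).toLinearMap with hJ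
  have hJa : ∀ g, J g = sh k g * gprod k := fun g => rfl
  have hJ0 : LinearMap.ker J = ⊥ := by
    rw [LinearMap.ker_eq_bot']
    intro g hg
    rw [hJa] at hg
    have h1 := inj_aux k (sh k g) (fun i hi => contr_sh k i hi g) hg
    exact sh_inj k (by rw [h1, map_zero])
  obtain ⟨ρ, hρ⟩ := LinearMap.exists_leftInverse_of_injective J hJ0
  have key : ∀ z : A ⊗[ℚ] GG,
      LinearMap.lTensor A ρ (shA A k z * ((1 : A) ⊗ₜ[ℚ] gprod k)) = z := by
    intro z
    induction z using TensorProduct.induction_on with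
    | zero => rw [map_zero, zero_mul, map_zero]
    | tmul a g =>
      rw [shA_tmul, Algebra.TensorProduct.tmul_mul_tmul, mul_one, LinearMap.lTensor_tmul, ← hJa]
      congr 1
      exact DFunLike.congr_fun hρ g
    | add x y hx hy => rw [map_add, add_mul, map_add, hx, hy]
  rw [← key z, hz, map_zero]

theorem tmul_one_injective {A : Type} [Ring A] [Algebra ℚ A] (a : A)
    (ha : a ⊗ₜ[ℚ] (1 : GG) = 0) : a = 0 := by
  have h1 := congrArg (TensorProduct.rid ℚ A ∘ LinearMap.lTensor A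
    (ExteriorAlgebra.algebraMapInv : GG →ₐ[ℚ] ℚ).toLinearMap) ha
  simp only [Function.comp_apply, LinearMap.lTensor_tmul, AlgHom.toLinearMap_apply, map_one,
    TensorProduct.rid_tmul, one_smul, map_zero] at h1
  exact h1

end Zel60
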