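import Mathlib

/-!
# MP_b44cb1_al, block Zel : graded Lie ring of a group with an N-series, definitions (fixed)

Weights are shifted by one: `Λ a` has weight `a + 1`.
-/

set_option autoImplicit false

namespace Zel60

/-- `[x,y] = x⁻¹ y⁻¹ x y`. -/
def com {G : Type*} [Group G] (x y : G) : G := x⁻¹ * y⁻¹ * x * y

/-- Left normed commutator `[x, y_1, ..., y_k]`, `l = [y_1, ..., y_k]`. -/
def itc {G : Type*} [Group G] (x : G) (l : List G) : G := l.foldl com x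

/-- An N-series `Λ 0 ≥ Λ 1 ≥ ...`, `[Λ a, Λ b] ≤ Λ (a + b + 1)`. -/
structure NS {G : Type} [Group G] (Λ : ℕ → Subgroup G) : Prop where
  anti : ∀ a, Λ (a + 1) ≤ Λ a
  comm : ∀ a b, ∀ x ∈ Λ a, ∀ y ∈ Λ b, com x y ∈ Λ (a + b + 1)

/-- The graded piece `Λ a / Λ (a+1)` (for an N-series), written additively. -/
abbrev Vg {G : Type} [Group G] (Λ : ℕ → Subgroup G) (a : ℕ) : Type :=
  Additive (Abelianization ↥(Λ a)) ⧸
    (Subgroup.toAddSubgroup (((Λ (a + 1)).subgroupOf (Λ a)).map Abelianization.of))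

/-- The class of `g` in `Λ a / Λ (a+1)` (0 if `g` is not in `Λ a`). -/
noncomputable def cl {G : Type} [Group G] (Λ : ℕ → Subgroup G) (a : ℕ) (g : G) : Vg Λ a := by
  classical
  exact if h : g ∈ Λ a then
    QuotientAddGroup.mk (Additive.ofMul (Abelianization.of (⟨g, h⟩ : ↥(Λ a)))) else 0

/-- The direct sum of the graded pieces. -/
abbrev Vs {G : Type} [Group G] (Λ : ℕ → Subgroup G) : Type := DirectSum ℕ (fun a => Vg Λ a)

/-- The element of degree `a` with value the class of `g`. -/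
noncomputable def ofc {G : Type} [Group G] (Λ : ℕ → Subgroup G) (a : ℕ) (g : G) : Vs Λ :=
  DirectSum.of (fun a => Vg Λ a) a (cl Λ a g)

theorem ofc_congr {G : Type} [Group G] (Λ : ℕ → Subgroup G) {a b : ℕ} (h : a = b) (g : G) :
    ofc Λ a g = ofc Λ b g := by
  subst h
  rfl

/-- The doubled series on `G × G` with shift `d`. -/
def dbl {G : Type} [Group G] {Λ : ℕ → Subgroup G} (h : NS Λ) (d : ℕ) (a : ℕ) :
    Subgroup (G × G) where
  carrier := {u | u.1 ∈ Λ a ∧ u.1⁻¹ * u.2 ∈ Λ (a + d)}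
  one_mem' := by simp [Subgroup.one_mem]
  mul_mem' := by
    have hmono : ∀ {i j : ℕ}, i ≤ j → Λ j ≤ Λ i := by
      intro i j hij
      induction hij with
      | refl => exact le_refl _
      | step _ ih => exact le_trans (h.anti _) ih
    rintro ⟨u0, u1⟩ ⟨v0, v1⟩ ⟨hu0, hu⟩ ⟨hv0, hv⟩
    simp only [Set.mem_setOf_eq, Prod.mk_mul_mk] at *
    refine ⟨Subgroup.mul_mem _ hu0 hv0, ?_⟩
    have hc : com (u0⁻¹ * u1) v0 ∈ Λ (a + d) :=
      hmono (by omega) (h.comm (a + d) a _ hu _ hv0)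
    have : (u0 * v0)⁻¹ * (u1 * v1) = (u0⁻¹ * u1) * com (u0⁻¹ * u1) v0 * (v0⁻¹ * v1) := by
      unfold com; group
    rw [this]
    exact Subgroup.mul_mem _ (Subgroup.mul_mem _ hu hc) hv
  inv_mem' := by
    have hmono : ∀ {i j : ℕ}, i ≤ j → Λ j ≤ Λ i := by
      intro i j hij
      induction hij with
      | refl => exact le_refl _
      | step _ ih => exact le_trans (h.anti _) ih
    rintro ⟨u0, u1⟩ ⟨hu0, hu⟩
    simp only [Set.mem_setOf_eq, Prod.inv_mk, inv_inv] at *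
    refine ⟨Subgroup.inv_mem _ hu0, ?_⟩
    have hc : com (u0⁻¹ * u1)⁻¹ u0⁻¹ ∈ Λ (a + d) :=
      hmono (by omega) (h.comm (a + d) a _ (Subgroup.inv_mem _ hu) _ (Subgroup.inv_mem _ hu0))
    have : u0 * u1⁻¹ = (u0⁻¹ * u1)⁻¹ * com (u0⁻¹ * u1)⁻¹ u0⁻¹ := by
      unfold com; group
    rw [this]
    exact Subgroup.mul_mem _ (Subgroup.inv_mem _ hu) hc

theorem mem_dbl {G : Type} [Group G] {Λ : ℕ → Subgroup G} (h : NS Λ) (d a : ℕ) (u : G × G) :
    u ∈ dbl h d a ↔ u.1 ∈ Λ a ∧ u.1⁻¹ * u.2 ∈ Λ (a + d) := Iff.rfl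

theorem NS.mono {G : Type} [Group G] {Λ : ℕ → Subgroup G} (h : NS Λ) {i j : ℕ} (hij : i ≤ j) :
    Λ j ≤ Λ i := by
  induction hij with
  | refl => exact le_refl _
  | step _ ih => exact le_trans (h.anti _) ih

end Zel60
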