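import Pool.Agent.Work.MP_b44cb1_al.Zel.GrassA

/-!
# Zel/GProd (M) : products of generators

`gprod_odd_zero`, `gprod_odd_perm` : the product `ge (κ 0) ... ge (κ (m-1))` is
`ExteriorAlgebra.ιMulti ℚ m (fun r => Finsupp.single (κ r) 1)`, an alternating map
(`AlternatingMap.map_eq_zero_of_not_injective`, `AlternatingMap.map_perm`;
`ExteriorAlgebra.ιMulti_apply`).
`gprod_even_zero`, `gprod_even_perm` : the elements `ee q` commute with each other (`g_central`,
`ee q ∈ Gp 0`) and `ee q * ee q = 0` (`g_anti`); product of a list of commuting elements does not depend on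
the order (`List.Perm.prod_eq'` or `Finset.noncommProd`).
`ee_prod` : induction on `m` (`gprod (2 * (m+1)) = gprod (2*m) * ge (2m) * ge (2m+1)`,
`List.ofFn_succ'`/`List.ofFn_succ_last`).
-/

set_option autoImplicit false

namespace Zel60

theorem gprod_odd_zero (m : ℕ) (κ : Fin m → Fin m) (hκ : ¬ Function.Injective κ) :
    (List.ofFn (fun r => ge (κ r : ℕ))).prod = 0 := by
  have h1 : (List.ofFn (fun r => ge (κ r : ℕ))).prod =
      ExteriorAlgebra.ιMulti ℚ m (fun r => Finsupp.single (κ r : ℕ) (1 : ℚ)) := rfl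
  rw [h1]
  unfold Function.Injective at hκ
  push Not at hκ
  obtain ⟨r, r', h, hne⟩ := hκ
  exact AlternatingMap.map_eq_zero_of_eq _ _ (by rw [h]) hne

theorem gprod_odd_perm (m : ℕ) (σ : Equiv.Perm (Fin m)) :
    (List.ofFn (fun r => ge (σ r : ℕ))).prod = ((Equiv.Perm.sign σ : ℤ) : ℚ) • gprod m := by
  have h1 : (List.ofFn (fun r => ge (σ r : ℕ))).prod =
      ExteriorAlgebra.ιMulti ℚ m ((fun r : Fin m => Finsupp.single (r : ℕ) (1 : ℚ)) ∘ σ) := rfl
  have h2 : gprod m =
      ExteriorAlgebra.ιMulti ℚ m (fun r : Fin m => Finsupp.single (r : ℕ) (1 : ℚ)) := rfl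
  rw [h1, h2, AlternatingMap.map_perm, Units.smul_def, Int.cast_smul_eq_zsmul]

theorem ee_mem (q : ℕ) : ee q ∈ Gp 0 := by
  have h := g_mul (ge_mem (2 * q)) (ge_mem (2 * q + 1))
  have h1 : (1 : ZMod 2) + 1 = 0 := by decide
  rwa [h1] at h

private theorem ge_sq (r : ℕ) : ge r * ge r = 0 := ExteriorAlgebra.ι_sq_zero _

private theorem ee_sq (q : ℕ) : ee q * ee q = 0 := by
  unfold ee
  rw [← mul_assoc, mul_assoc (ge (2 * q)), g_anti (ge_mem (2 * q + 1)) (ge_mem (2 * q)), mul_neg,
    ← mul_assoc, ge_sq, zero_mul, neg_zero, zero_mul]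

private theorem list_split {R : Type*} [Ring R] (l : List R) (i : ℕ) (hi : i < l.length) :
    l.prod = (l.take i).prod * (l[i] * (l.drop (i + 1)).prod) := by
  conv_lhs => rw [← List.take_append_drop i l]
  rw [List.prod_append, ← List.getElem_cons_drop hi, List.prod_cons]

private theorem list_two {R : Type*} [Ring R] (l : List R) (i j : ℕ) (hij : i < j)
    (hj : j < l.length) {a b : R} (ha : l[i]'(hij.trans hj) = a) (hb : l[j] = b)
    (h0 : ∀ x : R, a * x * b = 0) : l.prod = 0 := by
  rw [list_split l i (hij.trans hj), ha]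
  have h1 : j - (i + 1) < (l.drop (i + 1)).length := by
    rw [List.length_drop]
    omega
  rw [list_split (l.drop (i + 1)) (j - (i + 1)) h1]
  have h2 : (l.drop (i + 1))[j - (i + 1)] = b := by
    rw [List.getElem_drop]
    have h3 : i + 1 + (j - (i + 1)) = j := by omega
    simp only [h3]
    exact hb
  rw [h2, ← mul_assoc, ← mul_assoc, ← mul_assoc, mul_assoc (List.prod (List.take i l)),
    mul_assoc (List.prod (List.take i l)), h0, mul_zero, zero_mul]

theorem gprod_even_zero (m : ℕ) (κ : Fin m → Fin m) (hκ : ¬ Function.Injective κ) :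
    (List.ofFn (fun r => ee (κ r : ℕ))).prod = 0 := by
  unfold Function.Injective at hκ
  push Not at hκ
  obtain ⟨r, r', h, hne⟩ := hκ
  have key : ∀ r r' : Fin m, κ r = κ r' → r < r' →
      (List.ofFn (fun r => ee (κ r : ℕ))).prod = 0 := by
    intro r r' h hlt
    refine list_two _ (r : ℕ) (r' : ℕ) hlt (by rw [List.length_ofFn]; exact r'.2)
      (a := ee (κ r : ℕ)) (b := ee (κ r : ℕ)) ?_ ?_ ?_
    · rw [List.getElem_ofFn]
    · rw [List.getElem_ofFn]
      simp only [Fin.eta, h]
    · intro x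
      rw [g_central (ee_mem _) x, mul_assoc, ee_sq, mul_zero]
  rcases lt_or_gt_of_ne hne with h1 | h1
  · exact key r r' h h1
  · exact key r' r h.symm h1

private theorem gprod_succ (k : ℕ) : gprod (k + 1) = gprod k * ge k := by
  unfold gprod
  rw [List.ofFn_succ', List.prod_concat]
  rfl

private theorem ee_prod (m : ℕ) : (List.ofFn (fun r : Fin m => ee (r : ℕ))).prod =
    gprod (2 * m) := by
  induction m with
  | zero =>
    unfold gprod
    simp
  | succ m ih =>
    rw [List.ofFn_succ', List.prod_concat]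
    have h1 : (List.ofFn fun i : Fin m => ee ((Fin.castSucc i : Fin (m + 1)) : ℕ)).prod =
        gprod (2 * m) := ih
    rw [h1, Fin.val_last, show 2 * (m + 1) = 2 * m + 1 + 1 by ring, gprod_succ, gprod_succ,
      mul_assoc]
    rfl

theorem gprod_even_perm (m : ℕ) (σ : Equiv.Perm (Fin m)) :
    (List.ofFn (fun r => ee (σ r : ℕ))).prod = gprod (2 * m) := by
  rw [← ee_prod]
  have h1 : (List.ofFn ((fun r : Fin m => ee (r : ℕ)) ∘ σ)).Perm
      (List.ofFn (fun r : Fin m => ee (r : ℕ))) := Equiv.Perm.ofFn_comp_perm σ _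
  refine List.Perm.prod_eq' h1 ?_
  rw [List.pairwise_ofFn]
  intro i j _
  exact g_central (ee_mem _) _

end Zel60
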