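import Pool.Agent.Work.MP_b44cb1_al.Zel.GrCl

/-!
# Zel/GrAd (M) : the adjoint action on the graded group

`IsAd Λ b y φ` : the additive endomorphism `φ` of `⨁ Vg Λ a` maps the class of `x ∈ Λ a` to the class of
`[x,y] ∈ Λ (a+b+1)`.

`exists_ad` : for `y ∈ Λ b` the map `Λ a → Vg Λ (a+b+1)`, `x ↦ cl [x,y]`, is multiplicative:
`[x x', y] = [x,y] [[x,y], x'] [x',y]` and `[[x,y],x'] ∈ Λ (a+b+1+a+1) ≤ Λ (a+b+1+1)`. It factors
through the abelianisation and kills `Λ (a+1)` (`[x,y] ∈ Λ (a+1+b+1)`). Lift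
(`Abelianization.lift`, `QuotientAddGroup.lift`), compose with `DirectSum.of`, and use
`DirectSum.toAddMonoid`.
`isAd_add` : `[x, y y'] = [x,y'] [x,y] [[x,y],y']` with `[[x,y],y'] ∈ Λ (a+b+1+b+1)`.
`isAd_lie` : for `x ∈ Λ a`, `y ∈ Λ b`, `z ∈ Λ c` : `(φ * ψ) (class x) = class [[x,z],y]`, so the claim is
`cl [[x,z],y] - cl [[x,y],z] = cl [x,[z,y]]` in `Λ (a+b+c+2) / Λ (a+b+c+3)`. This is the Hall-Witt
identity: `[x, y⁻¹, z]^y [y, z⁻¹, x]^z [z, x⁻¹, y]^x = 1` together with the facts that, modulo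
`Λ (a+b+c+3)`, triple commutators are multilinear and invariant under conjugation
(e.g. `[x, y⁻¹] ≡ [x,y]⁻¹` modulo `Λ (a+2b+2)`, so `[[x,y⁻¹],z] ≡ [[x,y],z]⁻¹`). The indices
`a+c+1+b+1`, `a+b+1+c+1`, `a+(b+c+1)+1` are equal (`ofc_congr`).
-/

set_option autoImplicit false

namespace Zel60

variable {G : Type} [Group G] {Λ : ℕ → Subgroup G}

/-- `φ` is the adjoint action of `y ∈ Λ b`. -/
def IsAd (Λ : ℕ → Subgroup G) (b : ℕ) (y : G) (φ : AddMonoid.End (Vs Λ)) : Prop :=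
  ∀ a, ∀ x ∈ Λ a, φ (ofc Λ a x) = ofc Λ (a + b + 1) (com x y)

private theorem ofc_mul (a : ℕ) {g g' : G} (hg : g ∈ Λ a) (hg' : g' ∈ Λ a) :
    ofc Λ a (g * g') = ofc Λ a g + ofc Λ a g' := by
  unfold ofc
  rw [cl_mul a hg hg', map_add]

private theorem ofc_one (a : ℕ) : ofc Λ a (1 : G) = 0 := by
  unfold ofc
  rw [cl_one, map_zero]

private theorem ofc_inv (a : ℕ) {g : G} (hg : g ∈ Λ a) : ofc Λ a g⁻¹ = -ofc Λ a g := by
  unfold ofc
  rw [cl_inv a hg, map_neg]

private theorem ofc_zero (h : NS Λ) (a : ℕ) {g : G} (hg : g ∈ Λ (a + 1)) : ofc Λ a g = 0 :=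
  (ofc_eq_zero h a (h.anti a hg)).mpr hg

private theorem ofc_comL (h : NS Λ) (a b : ℕ) {x x' y : G} (hx : x ∈ Λ a) (hx' : x' ∈ Λ a)
    (hy : y ∈ Λ b) : ofc Λ (a + b + 1) (com (x * x') y) =
      ofc Λ (a + b + 1) (com x y) + ofc Λ (a + b + 1) (com x' y) := by
  have h1 : com (x * x') y = com x y * com (com x y) x' * com x' y := by unfold com; group
  have h2 := h.comm a b x hx y hy
  have h3 := h.comm a b x' hx' y hy
  have h4 : com (com x y) x' ∈ Λ (a + b + 1 + 1) :=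
    h.mono (by omega) (h.comm (a + b + 1) a _ h2 x' hx')
  rw [h1, ofc_mul _ ((Λ _).mul_mem h2 (h.anti _ h4)) h3, ofc_mul _ h2 (h.anti _ h4),
    ofc_zero h _ h4, add_zero]

private theorem ofc_comR (h : NS Λ) (a b : ℕ) {x y y' : G} (hx : x ∈ Λ a) (hy : y ∈ Λ b)
    (hy' : y' ∈ Λ b) : ofc Λ (a + b + 1) (com x (y * y')) =
      ofc Λ (a + b + 1) (com x y) + ofc Λ (a + b + 1) (com x y') := by
  have h1 : com x (y * y') = com x y' * com x y * com (com x y) y' := by unfold com; group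
  have h2 := h.comm a b x hx y hy
  have h3 := h.comm a b x hx y' hy'
  have h4 : com (com x y) y' ∈ Λ (a + b + 1 + 1) :=
    h.mono (by omega) (h.comm (a + b + 1) b _ h2 y' hy')
  rw [h1, ofc_mul _ ((Λ _).mul_mem h3 h2) (h.anti _ h4), ofc_mul _ h3 h2,
    ofc_zero h _ h4, add_zero, add_comm]

private theorem com_one_right (x : G) : com x 1 = 1 := by unfold com; group

private theorem com_one_left (x : G) : com 1 x = 1 := by unfold com; group

private theorem ofc_comR_inv (h : NS Λ) (a b : ℕ) {x y : G} (hx : x ∈ Λ a) (hy : y ∈ Λ b) :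
    ofc Λ (a + b + 1) (com x y⁻¹) = -ofc Λ (a + b + 1) (com x y) := by
  have h1 := ofc_comR h a b hx ((Λ b).inv_mem hy) hy
  rw [inv_mul_cancel, com_one_right, ofc_one] at h1
  exact eq_neg_of_add_eq_zero_left h1.symm

private theorem ofc_comL_inv (h : NS Λ) (a b : ℕ) {x y : G} (hx : x ∈ Λ a) (hy : y ∈ Λ b) :
    ofc Λ (a + b + 1) (com x⁻¹ y) = -ofc Λ (a + b + 1) (com x y) := by
  have h1 := ofc_comL h a b ((Λ a).inv_mem hx) hx hy
  rw [inv_mul_cancel, com_one_left, ofc_one] at h1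
  exact eq_neg_of_add_eq_zero_left h1.symm

private theorem ofc_comL_congr (h : NS Λ) (k c : ℕ) {u v z : G} (hu : u ∈ Λ k) (hv : v ∈ Λ k)
    (huv : ofc Λ k u = ofc Λ k v) (hz : z ∈ Λ c) :
    ofc Λ (k + c + 1) (com u z) = ofc Λ (k + c + 1) (com v z) := by
  have h1 : v⁻¹ * u ∈ Λ (k + 1) := by
    rw [← ofc_eq_zero h k ((Λ k).mul_mem ((Λ k).inv_mem hv) hu),
      ofc_mul k ((Λ k).inv_mem hv) hu, ofc_inv k hv, huv, neg_add_cancel]
  have h2 : u = v * (v⁻¹ * u) := by group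
  have h3 : com (v⁻¹ * u) z ∈ Λ (k + c + 1 + 1) :=
    h.mono (by omega) (h.comm (k + 1) c _ h1 z hz)
  rw [h2, ofc_comL h k c hv (h.anti k h1) hz, ofc_zero h _ h3, add_zero]

private theorem ofc_conj (h : NS Λ) (m b : ℕ) {w y : G} (hw : w ∈ Λ m) (hy : y ∈ Λ b) :
    ofc Λ m (y⁻¹ * w * y) = ofc Λ m w := by
  have h1 : y⁻¹ * w * y = w * com w y := by unfold com; group
  have h2 : com w y ∈ Λ (m + 1) := h.mono (by omega) (h.comm m b w hw y hy)
  rw [h1, ofc_mul m hw (h.anti m h2), ofc_zero h m h2, add_zero]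

private theorem conj_mem' (h : NS Λ) {m j : ℕ} {x y : G} (hx : x ∈ Λ m) (hy : y ∈ Λ j) :
    y⁻¹ * x * y ∈ Λ m := by
  have h1 : y⁻¹ * x * y = x * com x y := by unfold com; group
  rw [h1]
  exact (Λ m).mul_mem hx (h.mono (by omega) (h.comm m j x hx y hy))

theorem exists_ad (h : NS Λ) (b : ℕ) (y : G) (hy : y ∈ Λ b) :
    ∃ φ : AddMonoid.End (Vs Λ), IsAd Λ b y φ := by
  have hloc : ∀ a, ∃ f : Vg Λ a →+ Vs Λ, ∀ x ∈ Λ a, f (cl Λ a x) =
      ofc Λ (a + b + 1) (com x y) := by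
    intro a
    let f0 : ↥(Λ a) →* Multiplicative (Vs Λ) :=
      { toFun := fun x => Multiplicative.ofAdd (ofc Λ (a + b + 1) (com (x : G) y))
        map_one' := by
          show Multiplicative.ofAdd (ofc Λ (a + b + 1) (com (1 : G) y)) = 1
          rw [com_one_left, ofc_one]
          rfl
        map_mul' := fun x x' => by
          show Multiplicative.ofAdd (ofc Λ (a + b + 1) (com ((x : G) * (x' : G)) y)) = _
          rw [ofc_comL h a b x.2 x'.2 hy]
          rfl }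
    let f1 : Abelianization ↥(Λ a) →* Multiplicative (Vs Λ) := Abelianization.lift f0
    let f2 : Additive (Abelianization ↥(Λ a)) →+ Vs Λ :=
      { toFun := fun w => Multiplicative.toAdd (f1 (Additive.toMul w))
        map_zero' := by
          show Multiplicative.toAdd (f1 1) = 0
          rw [map_one]
          rfl
        map_add' := fun v w => by
          show Multiplicative.toAdd (f1 (Additive.toMul v * Additive.toMul w)) = _
          rw [map_mul]
          rfl }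
    have hf2 : ∀ x : ↥(Λ a), f2 (Additive.ofMul (Abelianization.of x)) =
        ofc Λ (a + b + 1) (com (x : G) y) := by
      intro x
      show Multiplicative.toAdd (f1 (Abelianization.of x)) = _
      rw [Abelianization.lift_apply_of]
      rfl
    refine ⟨QuotientAddGroup.lift _ f2 ?_, ?_⟩
    · intro w hw
      have h2 : Additive.toMul w ∈
          ((Λ (a + 1)).subgroupOf (Λ a)).map Abelianization.of := hw
      obtain ⟨z, hz, hzw⟩ := Subgroup.mem_map.mp h2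
      have h3 : w = Additive.ofMul (Abelianization.of z) := by
        rw [hzw]
        rfl
      rw [h3]
      rw [AddMonoidHom.mem_ker, hf2]
      apply ofc_zero h
      exact h.mono (by omega) (h.comm (a + 1) b _ hz y hy)
    · intro x hx
      unfold cl
      rw [dif_pos hx]
      exact hf2 ⟨x, hx⟩
  choose f hf using hloc
  refine ⟨DirectSum.toAddMonoid f, ?_⟩
  intro a x hx
  have h1 : (DirectSum.toAddMonoid f : Vs Λ →+ Vs Λ) (ofc Λ a x) = f a (cl Λ a x) := by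
    unfold ofc
    exact DirectSum.toAddMonoid_of f a (cl Λ a x)
  exact h1.trans (hf a x hx)

theorem isAd_add (h : NS Λ) (b : ℕ) {y y' : G} (hy : y ∈ Λ b) (hy' : y' ∈ Λ b)
    {φ φ' : AddMonoid.End (Vs Λ)} (hφ : IsAd Λ b y φ) (hφ' : IsAd Λ b y' φ') :
    IsAd Λ b (y * y') (φ + φ') := by
  intro a x hx
  have h1 : (φ + φ') (ofc Λ a x) = φ (ofc Λ a x) + φ' (ofc Λ a x) := rfl
  rw [h1, hφ a x hx, hφ' a x hx, ofc_comR h a b hx hy hy']

theorem isAd_neg (h : NS Λ) (b : ℕ) {y : G} (hy : y ∈ Λ b)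
    {φ : AddMonoid.End (Vs Λ)} (hφ : IsAd Λ b y φ) : IsAd Λ b y⁻¹ (-φ) := by
  intro a x hx
  have h1 : (-φ) (ofc Λ a x) = -φ (ofc Λ a x) := rfl
  rw [h1, hφ a x hx, ofc_comR_inv h a b hx hy]

private theorem hall_witt (x y z : G) :
    (y⁻¹ * com (com x y⁻¹) z * y) * (z⁻¹ * com (com y z⁻¹) x * z) *
      (x⁻¹ * com (com z x⁻¹) y * x) = 1 := by
  unfold com
  group

private theorem ofc_com3 (h : NS Λ) (a b c m : ℕ) (hm : m = a + b + c + 2) {x y z : G}
    (hx : x ∈ Λ a) (hy : y ∈ Λ b) (hz : z ∈ Λ c) :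
    com (com x y⁻¹) z ∈ Λ m ∧
      ofc Λ m (y⁻¹ * com (com x y⁻¹) z * y) = -ofc Λ m (com (com x y) z) := by
  have h1 := h.comm a b x hx y hy
  have h2 := h.comm a b x hx y⁻¹ ((Λ b).inv_mem hy)
  have hm' : m = a + b + 1 + c + 1 := by omega
  subst hm'
  have h3 := h.comm (a + b + 1) c _ h2 z hz
  refine ⟨h3, ?_⟩
  rw [ofc_conj h _ b h3 hy, ofc_comL_congr h (a + b + 1) c h2 ((Λ _).inv_mem h1) ?_ hz,
    ofc_comL_inv h (a + b + 1) c h1 hz]
  rw [ofc_comR_inv h a b hx hy, ofc_inv _ h1]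

private theorem com_inv (x y : G) : (com x y)⁻¹ = com y x := by unfold com; group

theorem isAd_lie (h : NS Λ) (b c : ℕ) {y z : G} (hy : y ∈ Λ b) (hz : z ∈ Λ c)
    {φ ψ : AddMonoid.End (Vs Λ)} (hφ : IsAd Λ b y φ) (hψ : IsAd Λ c z ψ) :
    IsAd Λ (b + c + 1) (com z y) (φ * ψ - ψ * φ) := by
  intro a x hx
  have h1 : (φ * ψ - ψ * φ) (ofc Λ a x) = φ (ψ (ofc Λ a x)) - ψ (φ (ofc Λ a x)) := rfl
  have hxz := h.comm a c x hx z hz
  have hxy := h.comm a b x hx y hy
  have hzy := h.comm c b z hz y hy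
  rw [h1, hψ a x hx, hφ a x hx, hφ _ _ hxz, hψ _ _ hxy]
  obtain ⟨m, hm⟩ : ∃ m, m = a + b + c + 2 := ⟨_, rfl⟩
  rw [ofc_congr Λ (show a + c + 1 + b + 1 = m by omega),
    ofc_congr Λ (show a + b + 1 + c + 1 = m by omega),
    ofc_congr Λ (show a + (b + c + 1) + 1 = m by omega)]
  have t1 := ofc_com3 h a b c m hm hx hy hz
  have t2 := ofc_com3 h b c a m (by omega) hy hz hx
  have t3 := ofc_com3 h c a b m (by omega) hz hx hy
  have hw := congrArg (ofc Λ m) (hall_witt x y z)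
  rw [ofc_mul m ((Λ m).mul_mem (conj_mem' h t1.1 hy) (conj_mem' h t2.1 hz))
    (conj_mem' h t3.1 hx), ofc_mul m (conj_mem' h t1.1 hy) (conj_mem' h t2.1 hz), t1.2, t2.2,
    t3.2, ofc_one] at hw
  -- `[[z,x],y] = - [[x,z],y]`, `[[y,z],x] = [x,[z,y]] `
  have e1 : ofc Λ m (com (com z x) y) = -ofc Λ m (com (com x z) y) := by
    have e2 := ofc_comL_inv h (a + c + 1) b hxz hy
    rw [com_inv, ofc_congr Λ (show a + c + 1 + b + 1 = m by omega),
      ofc_congr Λ (show a + c + 1 + b + 1 = m by omega)] at e2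
    exact e2
  have e3 : ofc Λ m (com (com y z) x) = -ofc Λ m (com (com z y) x) := by
    have e2 := ofc_comL_inv h (c + b + 1) a hzy hx
    rw [com_inv, ofc_congr Λ (show c + b + 1 + a + 1 = m by omega),
      ofc_congr Λ (show c + b + 1 + a + 1 = m by omega)] at e2
    exact e2
  have e4 : ofc Λ m (com x (com z y)) = -ofc Λ m (com (com z y) x) := by
    rw [← com_inv (com z y) x]
    apply ofc_inv
    have := h.comm (c + b + 1) a _ hzy x hx
    rwa [show c + b + 1 + a + 1 = m by omega] at this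
  rw [e1, e3] at hw
  rw [e4]
  have h5 : ofc Λ m (com (com x z) y) - ofc Λ m (com (com x y) z) -
      -ofc Λ m (com (com z y) x) = -ofc Λ m (com (com x y) z) +
      - -ofc Λ m (com (com z y) x) + - -ofc Λ m (com (com x z) y) := by abel
  exact sub_eq_zero.mp (h5.trans hw)

end Zel60
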