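import Pool.Agent.Work.MP_b44cb1_al.Zel.GDefs

/-!
# Zel/GrCl (M) : the classes `cl Λ a g` and the group `Vg Λ a`

`Vg Λ a` is the quotient of the abelianisation of `Λ a` by the image of `Λ (a+1)`. For an N-series
`[Λ a, Λ a] ≤ Λ (a + a + 1) ≤ Λ (a + 1)`, so the class of `g` is 0 iff `g ∈ Λ (a+1)`
(`Abelianization.of` has kernel the commutator subgroup, `QuotientAddGroup.eq_zero_iff`; elements of the
commutator subgroup of `↥(Λ a)` lie in `Λ (a+1)` : `Subgroup.commutator_le`/closure induction).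
The other statements are direct (`map_mul`, `Quotient` induction).
-/

set_option autoImplicit false

namespace Zel60

open scoped commutatorElement

variable {G : Type} [Group G] {Λ : ℕ → Subgroup G}

private noncomputable def clm (Λ : ℕ → Subgroup G) (a : ℕ) : ↥(Λ a) → Vg Λ a := fun x =>
  QuotientAddGroup.mk (Additive.ofMul (Abelianization.of x))

private theorem cl_def (a : ℕ) {g : G} (hg : g ∈ Λ a) : cl Λ a g = clm Λ a ⟨g, hg⟩ := by
  unfold cl clm
  rw [dif_pos hg]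

private theorem clm_mul (a : ℕ) (x y : ↥(Λ a)) : clm Λ a (x * y) = clm Λ a x + clm Λ a y := rfl

theorem cl_mul (a : ℕ) {g g' : G} (hg : g ∈ Λ a) (hg' : g' ∈ Λ a) :
    cl Λ a (g * g') = cl Λ a g + cl Λ a g' := by
  rw [cl_def a hg, cl_def a hg', cl_def a ((Λ a).mul_mem hg hg'), ← clm_mul]
  rfl

theorem cl_one (a : ℕ) : cl Λ a (1 : G) = 0 := by
  have h := cl_mul (Λ := Λ) a (Λ a).one_mem (Λ a).one_mem
  rw [mul_one] at h
  exact left_eq_add.mp h

theorem cl_inv (a : ℕ) {g : G} (hg : g ∈ Λ a) : cl Λ a g⁻¹ = -cl Λ a g := by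
  have h := cl_mul (Λ := Λ) a ((Λ a).inv_mem hg) hg
  rw [inv_mul_cancel, cl_one] at h
  exact eq_neg_of_add_eq_zero_left h.symm

theorem cl_pow (a : ℕ) {g : G} (hg : g ∈ Λ a) (k : ℕ) : cl Λ a (g ^ k) = (k : ℤ) • cl Λ a g := by
  induction k with
  | zero => simp [cl_one]
  | succ k ih =>
    rw [pow_succ, cl_mul a ((Λ a).pow_mem hg k) hg, ih]
    rw [natCast_zsmul, natCast_zsmul, succ_nsmul]

theorem cl_prod (a : ℕ) (l : List G) (hl : ∀ g ∈ l, g ∈ Λ a) :
    cl Λ a l.prod = (l.map (cl Λ a)).sum := by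
  induction l with
  | nil => simp [cl_one]
  | cons g l ih =>
    have h1 : ∀ x ∈ l, x ∈ Λ a := fun x hx => hl x (List.mem_cons_of_mem g hx)
    rw [List.prod_cons, List.map_cons, List.sum_cons,
      cl_mul a (hl g List.mem_cons_self) ((Λ a).list_prod_mem h1), ih h1]

theorem cl_surj (a : ℕ) (v : Vg Λ a) : ∃ g ∈ Λ a, cl Λ a g = v := by
  obtain ⟨w, rfl⟩ := QuotientAddGroup.mk_surjective v
  obtain ⟨x, hx⟩ := QuotientGroup.mk_surjective (Additive.toMul w)
  refine ⟨x.1, x.2, ?_⟩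
  rw [cl_def a x.2]
  unfold clm
  congr 1

theorem cl_eq_zero (h : NS Λ) (a : ℕ) {g : G} (hg : g ∈ Λ a) : cl Λ a g = 0 ↔ g ∈ Λ (a + 1) := by
  rw [cl_def a hg]
  unfold clm
  rw [QuotientAddGroup.eq_zero_iff]
  constructor
  · intro h1
    have h2 : Abelianization.of (⟨g, hg⟩ : ↥(Λ a)) ∈
        ((Λ (a + 1)).subgroupOf (Λ a)).map Abelianization.of := h1
    obtain ⟨y, hy, hxy⟩ := Subgroup.mem_map.mp h2
    have hc : commutator ↥(Λ a) ≤ (Λ (a + 1)).subgroupOf (Λ a) := by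
      rw [commutator_def, Subgroup.commutator_le]
      intro x _ z _
      rw [Subgroup.mem_subgroupOf]
      have h3 : ((⁅x, z⁆ : ↥(Λ a)) : G) = com (x : G)⁻¹ (z : G)⁻¹ := by
        rw [commutatorElement_def]
        simp [com]
      rw [h3]
      exact h.mono (by omega) (h.comm a a _ ((Λ a).inv_mem x.2) _ ((Λ a).inv_mem z.2))
    have h4 : y⁻¹ * ⟨g, hg⟩ ∈ commutator ↥(Λ a) := by
      rw [← Abelianization.ker_of, MonoidHom.mem_ker, map_mul, map_inv, hxy, inv_mul_cancel]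
    have h5 := ((Λ (a + 1)).subgroupOf (Λ a)).mul_mem hy (hc h4)
    rw [mul_inv_cancel_left] at h5
    exact h5
  · intro h1
    have h2 : Abelianization.of (⟨g, hg⟩ : ↥(Λ a)) ∈
        ((Λ (a + 1)).subgroupOf (Λ a)).map Abelianization.of :=
      Subgroup.mem_map.mpr ⟨⟨g, hg⟩, h1, rfl⟩
    exact h2

/-- Two additive endomorphisms which agree on all classes are equal. -/
theorem end_ext {φ ψ : AddMonoid.End (Vs Λ)}
    (h : ∀ a, ∀ x ∈ Λ a, φ (ofc Λ a x) = ψ (ofc Λ a x)) : φ = ψ := by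
  apply DirectSum.addHom_ext
  intro a v
  obtain ⟨g, hg, rfl⟩ := cl_surj a v
  exact h a g hg

theorem ofc_eq_zero (h : NS Λ) (a : ℕ) {g : G} (hg : g ∈ Λ a) :
    ofc Λ a g = 0 ↔ g ∈ Λ (a + 1) := by
  rw [← cl_eq_zero h a hg]
  unfold ofc
  constructor
  · intro h1
    have := DirectSum.of_injective (β := fun a => Vg Λ a) a (h1.trans (map_zero _).symm)
    exact this
  · intro h1
    rw [h1, map_zero]

end Zel60
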