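import Pool.Agent.Work.MP_b44cb1_al.Zel.GrCl

/-!
# Zel/GrDbl (S-M) : the doubled series is an N-series

`dbl h d a = {(u0,u1) | u0 ∈ Λ a, u0⁻¹ u1 ∈ Λ (a+d)}`. `anti` is clear. `comm` : let `u1 = u0 e`,
`v1 = v0 f` with `u0 ∈ Λ a`, `e ∈ Λ (a+d)`, `v0 ∈ Λ b`, `f ∈ Λ (b+d)`. `[u0,v0] ∈ Λ (a+b+1)`. Modulo
`Λ (a+b+1+d)` (normalised by `Λ 0`: `x^y = x [x,y]`): `[u0 e, v0 f] = [u0 e, f] [u0 e, v0]^f`,
`[u0 e, f] ∈ Λ (a+b+d+1)`, `[u0 e, v0] = [u0,v0]^e [e,v0]`, `[e,v0] ∈ Λ (a+d+b+1)`, and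
`[u0,v0]^(e f) = [u0,v0] [[u0,v0], e f]` with `[[u0,v0],e] ∈ Λ (a+b+1+a+d+1)`,
`[[u0,v0],f] ∈ Λ (a+b+1+b+d+1)`. So `[u0,v0]⁻¹ [u1,v1] ∈ Λ (a+b+1+d)`.
`dbl_fst`/`dbl_snd`: direct.
`sum_cl_dbl` : the map `w ↦ (1,w)` : let `L` be a list of elements `w ∈ Λ (c + d)`. Then
`(1, w) ∈ dbl h d c`, and `sum cl (dbl h d) c (1,w) = cl (1, L.prod)` vanishes iff
`(1, L.prod) ∈ dbl h d (c+1)` iff `L.prod ∈ Λ (c+1+d)` iff `sum cl Λ (c+d) w = 0`
(`cl_prod`, `cl_eq_zero`).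
-/

set_option autoImplicit false

namespace Zel60

variable {G : Type} [Group G] {Λ : ℕ → Subgroup G}

private theorem conj_mem (h : NS Λ) {m j : ℕ} {x y : G} (hx : x ∈ Λ m) (hy : y ∈ Λ j) :
    y⁻¹ * x * y ∈ Λ m := by
  have h1 : y⁻¹ * x * y = x * com x y := by unfold com; group
  rw [h1]
  exact (Λ m).mul_mem hx (h.mono (by omega) (h.comm m j x hx y hy))

theorem dbl_NS (h : NS Λ) (d : ℕ) : NS (dbl h d) := by
  constructor
  · intro a u hu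
    rw [mem_dbl] at hu ⊢
    exact ⟨h.anti a hu.1, h.mono (by omega) hu.2⟩
  · rintro a b ⟨u0, u1⟩ hu ⟨v0, v1⟩ hv
    rw [mem_dbl] at hu hv ⊢
    obtain ⟨hu0, hu⟩ := hu
    obtain ⟨hv0, hv⟩ := hv
    simp only at hu0 hu hv0 hv
    have hc0 : (com ((u0, u1) : G × G) (v0, v1)).1 = com u0 v0 := rfl
    have hc1 : (com ((u0, u1) : G × G) (v0, v1)).2 = com u1 v1 := rfl
    rw [hc0, hc1]
    have hcm := h.comm a b u0 hu0 v0 hv0
    refine ⟨hcm, ?_⟩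
    obtain ⟨e, he⟩ : ∃ e, e = u0⁻¹ * u1 := ⟨_, rfl⟩
    obtain ⟨f, hf⟩ : ∃ f, f = v0⁻¹ * v1 := ⟨_, rfl⟩
    have hu1 : u1 = u0 * e := by rw [he]; group
    have hv1 : v1 = v0 * f := by rw [hf]; group
    rw [← he] at hu
    rw [← hf] at hv
    have hu1m : u1 ∈ Λ a := by
      rw [hu1]
      exact (Λ a).mul_mem hu0 (h.mono (by omega) hu)
    have hP : com u1 f ∈ Λ (a + b + 1 + d) := h.mono (by omega) (h.comm a (b + d) u1 hu1m f hv)
    have hQ : com e v0 ∈ Λ (a + b + 1 + d) := h.mono (by omega) (h.comm (a + d) b e hu v0 hv0)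
    have hef : e * f ∈ Λ d := (Λ d).mul_mem (h.mono (by omega) hu) (h.mono (by omega) hv)
    have hR : com (com u0 v0) (e * f) ∈ Λ (a + b + 1 + d) :=
      h.mono (by omega) (h.comm (a + b + 1) d _ hcm _ hef)
    have key : (com u0 v0)⁻¹ * com u1 v1 = ((com u0 v0)⁻¹ * com u1 f * com u0 v0) *
        com (com u0 v0) (e * f) * (f⁻¹ * com e v0 * f) := by
      rw [hu1, hv1]
      unfold com
      group
    rw [key]
    exact Subgroup.mul_mem _ (Subgroup.mul_mem _ (conj_mem h hP hcm) hR) (conj_mem h hQ hv)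

theorem dbl_diag (h : NS Λ) (d a : ℕ) {x : G} (hx : x ∈ Λ a) : ((x, x) : G × G) ∈ dbl h d a := by
  rw [mem_dbl]
  refine ⟨hx, ?_⟩
  show x⁻¹ * x ∈ Λ (a + d)
  rw [inv_mul_cancel]
  exact (Λ (a + d)).one_mem

theorem dbl_snd (h : NS Λ) (d a : ℕ) (w : G) : ((1, w) : G × G) ∈ dbl h d a ↔ w ∈ Λ (a + d) := by
  rw [mem_dbl]
  simp [(Λ a).one_mem]

private theorem prod_snd (L : List G) : (L.map (fun w => ((1, w) : G × G))).prod = (1, L.prod) := by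
  induction L with
  | nil => rfl
  | cons g L ih =>
    rw [List.map_cons, List.prod_cons, ih, List.prod_cons, Prod.mk_mul_mk, one_mul]

theorem sum_cl_dbl (h : NS Λ) (d c : ℕ) (L : List G) (hL : ∀ w ∈ L, w ∈ Λ (c + d)) :
    (L.map (fun w => cl (dbl h d) c ((1, w) : G × G))).sum = 0 ↔
      (L.map (fun w => cl Λ (c + d) w)).sum = 0 := by
  have h1 : ∀ g ∈ L.map (fun w => ((1, w) : G × G)), g ∈ dbl h d c := by
    intro g hg
    obtain ⟨w, hw, rfl⟩ := List.mem_map.mp hg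
    exact (dbl_snd h d c w).mpr (hL w hw)
  have h2 := cl_prod (Λ := dbl h d) c _ h1
  rw [List.map_map, prod_snd] at h2
  have h3 : (L.map (fun w => cl (dbl h d) c ((1, w) : G × G))) =
      L.map (cl (dbl h d) c ∘ fun w => ((1, w) : G × G)) := rfl
  have h4 : (L.map (fun w => cl Λ (c + d) w)) = L.map (cl Λ (c + d)) := rfl
  have hm := (Λ (c + d)).list_prod_mem hL
  rw [h3, ← h2, h4, ← cl_prod (c + d) L hL, cl_eq_zero (dbl_NS h d) c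
    ((dbl_snd h d c _).mpr hm), cl_eq_zero h (c + d) hm, dbl_snd]
  have h5 : c + 1 + d = c + d + 1 := by omega
  rw [h5]

end Zel60
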