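import Pool.Agent.Work.MP_b44cb1_al.Zel.GrAd
import Pool.Agent.Work.MP_b44cb1_al.Zel.GrDbl
import Pool.Agent.Work.MP_b44cb1_al.Zel.Lin

/-!
# Zel/GrLin (M-L) : the linearised Engel identity in the graded Lie ring

`Λ` an N-series and `[x, y, ..., y] = 1` (`r` times `y`) for all `x, y ∈ Λ 0`. For `x ∈ Λ a`, `y i ∈ Λ (b i)`:
the sum over all permutations of the classes of `[x, y (σ 0), ..., y (σ (r-1))]` in degree
`a + sum (b i + 1)` vanishes.

Induction on the number of `i` with `b i ≠ 0`, for all groups at the same time.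
(0) All `b i = 0`. Let `H = {φ | ∃ y ∈ Λ 0, IsAd Λ 0 y φ}`, an additive subgroup of
`AddMonoid.End (Vs Λ)` (`isAd_add`, `isAd_neg`, `y = 1`). For `φ ∈ H` : `φ^r (ofc Λ a x)` is the class of
`[x, y, ..., y] = 1`, so `φ^r = 0` (`end_ext`). `lin_all` gives `sum_σ φ (σ 0) ... φ (σ (r-1)) = 0`
for `IsAd Λ 0 (y i) (φ i)` (`exists_ad`). Apply this to `ofc Λ a x`; the product of endomorphisms
`φ (σ 0) * ... * φ (σ (r-1))` maps it to the class of `[x, y (σ (r-1)), ..., y (σ 0)]` in degree `a + r`;
reversing the order is a bijection of `Perm (Fin r)` (`σ ↦ σ * Fin.revPerm`). `DirectSum.of` is injective.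
(1) Let `b i0 = d ≠ 0`. Use the group `G × G` with the series `Λ' = dbl h d` (`dbl_NS`); the law holds in
`Λ' 0 ⊆ Λ 0 × Λ 0` (second component `u0 (u0⁻¹ u1) ∈ Λ 0`). Put `x' = (x,x)`, `y' i = (y i, y i) ∈ Λ' (b i)`
for `i ≠ i0`, `y' i0 = (1, y i0) ∈ Λ' 0` (`dbl_snd`), `b' = Function.update b i0 0`. The induction
hypothesis gives the identity for `x'`, `y'` in degree `c' = a + sum (b' i + 1)`, `c' + d = c`. As `y' i0`
occurs in each commutator, `itc x' (List.ofFn (y' ∘ σ)) = (1, itc x (List.ofFn (y ∘ σ)))` (first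
component: `com _ 1 = 1` and afterwards `com 1 _ = 1`). Take for `L` the list of all
`itc x (List.ofFn (y ∘ σ))`, `σ` running over `Finset.univ.toList`; `sum_cl_dbl` transfers the identity.
-/

set_option autoImplicit false

namespace Zel60

private theorem itc_nil {G : Type} [Group G] (x : G) : itc x [] = x := rfl

private theorem itc_cons {G : Type} [Group G] (x y : G) (l : List G) :
    itc x (y :: l) = itc (com x y) l := rfl

private theorem itc_append {G : Type} [Group G] (x y : G) (l : List G) :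
    itc x (l ++ [y]) = com (itc x l) y := by
  unfold itc
  rw [List.foldl_append]
  rfl

private theorem com_one_left' {G : Type} [Group G] (x : G) : com 1 x = 1 := by unfold com; group

private theorem com_one_right' {G : Type} [Group G] (x : G) : com x 1 = 1 := by unfold com; group

private theorem itc_one_left {G : Type} [Group G] (l : List G) : itc (1 : G) l = 1 := by
  induction l with
  | nil => rfl
  | cons y l ih => rw [itc_cons, com_one_left', ih]

private theorem itc_one_mem {G : Type} [Group G] (x : G) (l : List G) (hl : (1 : G) ∈ l) :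
    itc x l = 1 := by
  induction l generalizing x with
  | nil => simp at hl
  | cons y l ih =>
    rw [itc_cons]
    rcases List.mem_cons.mp hl with h | h
    · rw [← h, com_one_right', itc_one_left]
    · exact ih _ h

private theorem itc_prod {G : Type} [Group G] (x : G × G) (l : List (G × G)) :
    itc x l = (itc x.1 (l.map Prod.fst), itc x.2 (l.map Prod.snd)) := by
  induction l generalizing x with
  | nil => rfl
  | cons y l ih =>
    rw [itc_cons, ih, List.map_cons, List.map_cons, itc_cons, itc_cons]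
    rfl

private theorem iter_prod {G : Type} [Group G] (v : G × G) (r : ℕ) (u : G × G) :
    (fun z => com z v)^[r] u = ((fun z => com z v.1)^[r] u.1, (fun z => com z v.2)^[r] u.2) := by
  induction r with
  | zero => rfl
  | succ r ih =>
    rw [Function.iterate_succ_apply', Function.iterate_succ_apply', Function.iterate_succ_apply',
      ih]
    rfl

private theorem itc_mem {G : Type} [Group G] {Λ : ℕ → Subgroup G} (h : NS Λ)
    (l : List (ℕ × G)) (hl : ∀ u ∈ l, u.2 ∈ Λ u.1) (a : ℕ) (x : G) (hx : x ∈ Λ a) :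
    itc x (l.map Prod.snd) ∈ Λ (a + (l.map (fun u => u.1 + 1)).sum) := by
  induction l generalizing a x with
  | nil => simpa [itc_nil] using hx
  | cons u l ih =>
    rw [List.map_cons, List.map_cons, itc_cons, List.sum_cons]
    have h1 := h.comm a u.1 x hx u.2 (hl u List.mem_cons_self)
    have h2 := ih (fun v hv => hl v (List.mem_cons_of_mem u hv)) _ _ h1
    have h3 : a + (u.1 + 1 + (l.map (fun u => u.1 + 1)).sum) =
        a + u.1 + 1 + (l.map (fun u => u.1 + 1)).sum := by omega
    rw [h3]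
    exact h2

private theorem itc_ofFn_mem {G : Type} [Group G] {Λ : ℕ → Subgroup G} (h : NS Λ) {r : ℕ}
    (b : Fin r → ℕ) (y : Fin r → G) (hy : ∀ i, y i ∈ Λ (b i)) (σ : Equiv.Perm (Fin r))
    (a : ℕ) (x : G) (hx : x ∈ Λ a) :
    itc x (List.ofFn (fun i => y (σ i))) ∈ Λ (a + ∑ i, (b i + 1)) := by
  have h1 := itc_mem h (List.ofFn (fun i => (b (σ i), y (σ i)))) (by
    intro u hu
    obtain ⟨i, rfl⟩ := (List.mem_ofFn' _ _).mp hu
    exact hy (σ i)) a x hx
  rw [List.map_ofFn, List.map_ofFn] at h1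
  have h2 : (List.ofFn ((fun u : ℕ × G => u.1 + 1) ∘ fun i => (b (σ i), y (σ i)))).sum =
      ∑ i, (b i + 1) := by
    rw [List.sum_ofFn]
    exact Equiv.sum_comp σ (fun i => b i + 1)
  rw [h2] at h1
  exact h1

private theorem ad_iter {G : Type} [Group G] {Λ : ℕ → Subgroup G} (h : NS Λ) {y : G}
    (hy : y ∈ Λ 0) {φ : AddMonoid.End (Vs Λ)} (hφ : IsAd Λ 0 y φ) (a : ℕ) (x : G) (hx : x ∈ Λ a)
    (k : ℕ) : (fun z => com z y)^[k] x ∈ Λ (a + k) ∧
      (φ ^ k) (ofc Λ a x) = ofc Λ (a + k) ((fun z => com z y)^[k] x) := by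
  induction k with
  | zero => exact ⟨by simpa using hx, rfl⟩
  | succ k ih =>
    rw [Function.iterate_succ_apply', pow_succ']
    have h1 := h.comm (a + k) 0 _ ih.1 y hy
    refine ⟨h1, ?_⟩
    have h2 : (φ * φ ^ k) (ofc Λ a x) = φ ((φ ^ k) (ofc Λ a x)) := rfl
    rw [h2, ih.2, hφ _ _ ih.1]
    exact ofc_congr Λ (by omega) _

private theorem ad_list {G : Type} [Group G] {Λ : ℕ → Subgroup G} (h : NS Λ)
    (L : List (G × AddMonoid.End (Vs Λ))) (hL : ∀ u ∈ L, u.1 ∈ Λ 0 ∧ IsAd Λ 0 u.1 u.2)
    (a : ℕ) (x : G) (hx : x ∈ Λ a) :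
    itc x (L.map Prod.fst).reverse ∈ Λ (a + L.length) ∧
      (L.map Prod.snd).prod (ofc Λ a x) = ofc Λ (a + L.length) (itc x (L.map Prod.fst).reverse) := by
  induction L with
  | nil => exact ⟨by simpa [itc_nil] using hx, rfl⟩
  | cons u L ih =>
    obtain ⟨i1, i2⟩ := ih (fun v hv => hL v (List.mem_cons_of_mem u hv))
    rw [List.map_cons, List.reverse_cons, itc_append, List.map_cons, List.prod_cons,
      List.length_cons]
    have h1 := h.comm (a + L.length) 0 _ i1 u.1 (hL u List.mem_cons_self).1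
    refine ⟨h1, ?_⟩
    have h2 : (u.2 * (L.map Prod.snd).prod) (ofc Λ a x) =
      u.2 ((L.map Prod.snd).prod (ofc Λ a x)) := rfl
    rw [h2, i2, (hL u List.mem_cons_self).2 _ _ i1]
    exact ofc_congr Λ (by omega) _

private theorem sum_ofc_iff {G : Type} [Group G] (Λ : ℕ → Subgroup G) {ι : Type} (s : Finset ι)
    (g : ι → G) (m : ℕ) : ∑ i ∈ s, ofc Λ m (g i) = 0 ↔ ∑ i ∈ s, cl Λ m (g i) = 0 := by
  unfold ofc
  rw [← map_sum]
  constructor
  · intro h1
    exact DirectSum.of_injective (β := fun a => Vg Λ a) m (h1.trans (map_zero _).symm)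
  · intro h1
    rw [h1, map_zero]

private theorem reverse_ofFn' {α : Type} {r : ℕ} (f : Fin r → α) :
    (List.ofFn f).reverse = List.ofFn (fun i => f (Fin.rev i)) := by
  apply List.ext_getElem
  · simp
  · intro i h1 h2
    simp only [List.getElem_reverse, List.getElem_ofFn, List.length_ofFn]
    congr 1
    apply Fin.ext
    simp only [Fin.val_rev]
    omega

private theorem lin_zero (r : ℕ) (G : Type) [Group G] (Λ : ℕ → Subgroup G) (h : NS Λ)
    (law : ∀ x ∈ Λ 0, ∀ y ∈ Λ 0, (fun z => com z y)^[r] x = 1) (y : Fin r → G)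
    (hy : ∀ i, y i ∈ Λ 0) (a : ℕ) (x : G) (hx : x ∈ Λ a) :
    ∑ σ : Equiv.Perm (Fin r), ofc Λ (a + r) (itc x (List.ofFn (fun i => y (σ i)))) = 0 := by
  classical
  let H : AddSubgroup (AddMonoid.End (Vs Λ)) :=
    { carrier := {φ | ∃ y ∈ Λ 0, IsAd Λ 0 y φ}
      zero_mem' := by
        refine ⟨1, (Λ 0).one_mem, ?_⟩
        intro a x hx
        rw [com_one_right']
        have h1 := (ofc_eq_zero h (a + 0 + 1) (Λ _).one_mem).mpr (Λ _).one_mem
        rw [h1]
        rfl
      add_mem' := by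
        rintro φ φ' ⟨y, hy, hφ⟩ ⟨y', hy', hφ'⟩
        exact ⟨y * y', (Λ 0).mul_mem hy hy', isAd_add h 0 hy hy' hφ hφ'⟩
      neg_mem' := by
        rintro φ ⟨y, hy, hφ⟩
        exact ⟨y⁻¹, (Λ 0).inv_mem hy, isAd_neg h 0 hy hφ⟩ }
  have hH : ∀ φ ∈ H, φ ^ r = 0 := by
    rintro φ ⟨y, hy, hφ⟩
    apply end_ext
    intro a x hx
    rw [(ad_iter h hy hφ a x hx r).2, law x (h.mono (Nat.zero_le a) hx) y hy]
    exact (ofc_eq_zero h (a + r) (Λ _).one_mem).mpr (Λ _).one_mem
  choose φ hφ using fun i => exists_ad h 0 (y i) (hy i)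
  have h1 := lin_all r H hH φ (fun i => ⟨y i, hy i, hφ i⟩)
  have h2 := congrArg (fun ψ : AddMonoid.End (Vs Λ) => ψ (ofc Λ a x)) h1
  have h3 : (∑ σ : Equiv.Perm (Fin r), (List.ofFn (fun i => φ (σ i))).prod) (ofc Λ a x) =
      ∑ σ : Equiv.Perm (Fin r), ((List.ofFn (fun i => φ (σ i))).prod) (ofc Λ a x) :=
    AddMonoidHom.finsetSum_apply _ _ _
  have h4 : ∀ σ : Equiv.Perm (Fin r), ((List.ofFn (fun i => φ (σ i))).prod) (ofc Λ a x) =
      ofc Λ (a + r) (itc x (List.ofFn (fun i => y ((σ * (Fin.revPerm : Equiv.Perm (Fin r)) : Equiv.Perm (Fin r)) i)))) := by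
    intro σ
    have h5 := (ad_list h (List.ofFn (fun i => (y (σ i), φ (σ i)))) (by
      intro u hu
      obtain ⟨i, rfl⟩ := (List.mem_ofFn' _ _).mp hu
      exact ⟨hy (σ i), hφ (σ i)⟩) a x hx).2
    rw [List.map_ofFn, List.map_ofFn, List.length_ofFn, reverse_ofFn'] at h5
    exact h5
  have h6 : ∑ σ : Equiv.Perm (Fin r), ofc Λ (a + r)
      (itc x (List.ofFn (fun i => y ((σ * (Fin.revPerm : Equiv.Perm (Fin r)) : Equiv.Perm (Fin r)) i)))) = 0 := by
    rw [← Finset.sum_congr rfl (fun σ _ => h4 σ), ← h3]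
    exact h2
  rw [← h6]
  exact (Equiv.sum_comp (Equiv.mulRight (Fin.revPerm : Equiv.Perm (Fin r)))
    (fun σ : Equiv.Perm (Fin r) => ofc Λ (a + r) (itc x (List.ofFn (fun i => y (σ i)))))).symm

theorem lin_elt (r k : ℕ) (G : Type) [Group G] (Λ : ℕ → Subgroup G) (h : NS Λ)
    (law : ∀ x ∈ Λ 0, ∀ y ∈ Λ 0, (fun z => com z y)^[r] x = 1) (b : Fin r → ℕ)
    (hk : (Finset.univ.filter (fun i => b i ≠ 0)).card ≤ k) (y : Fin r → G)
    (hy : ∀ i, y i ∈ Λ (b i)) (a : ℕ) (x : G) (hx : x ∈ Λ a) :
    ∑ σ : Equiv.Perm (Fin r),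
      cl Λ (a + ∑ i, (b i + 1)) (itc x (List.ofFn (fun i => y (σ i)))) = 0 := by
  classical
  induction k generalizing G Λ b y a x with
  | zero =>
    have hb : ∀ i, b i = 0 := by
      intro i
      by_contra hi
      have : i ∈ Finset.univ.filter (fun i => b i ≠ 0) := by simp [hi]
      have := Finset.card_pos.mpr ⟨i, this⟩
      omega
    have h1 := lin_zero r G Λ h law y (fun i => by have := hy i; rwa [hb i] at this) a x hx
    rw [← sum_ofc_iff]
    have h2 : a + ∑ i, (b i + 1) = a + r := by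
      simp [hb]
    rw [← h1]
    apply Finset.sum_congr rfl
    intro σ _
    exact ofc_congr Λ h2 _
  | succ k ih =>
    by_cases hle : (Finset.univ.filter (fun i => b i ≠ 0)).card ≤ k
    · exact ih G Λ h law b hle y hy a x hx
    have hcard : (Finset.univ.filter (fun i => b i ≠ 0)).card = k + 1 := by omega
    obtain ⟨i0, hi0⟩ : (Finset.univ.filter (fun i => b i ≠ 0)).Nonempty :=
      Finset.card_pos.mp (by omega)
    have hbi0 : b i0 ≠ 0 := (Finset.mem_filter.mp hi0).2
    obtain ⟨d, hd⟩ : ∃ d, d = b i0 := ⟨_, rfl⟩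
    set b' : Fin r → ℕ := Function.update b i0 0 with hb'
    have hb'c : (Finset.univ.filter (fun i => b' i ≠ 0)).card ≤ k := by
      have h1 : Finset.univ.filter (fun i => b' i ≠ 0) =
          (Finset.univ.filter (fun i => b i ≠ 0)).erase i0 := by
        ext i
        simp only [Finset.mem_filter, Finset.mem_univ, true_and, Finset.mem_erase, hb']
        by_cases hi : i = i0
        · subst hi
          simp
        · rw [Function.update_of_ne hi]
          simp [hi]
      rw [h1, Finset.card_erase_of_mem hi0]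
      omega
    set y' : Fin r → G × G := fun i => if i = i0 then (1, y i) else (y i, y i) with hy'
    have hy'm : ∀ i, y' i ∈ dbl h d (b' i) := by
      intro i
      simp only [hy', hb']
      by_cases hi : i = i0
      · subst hi
        rw [if_pos rfl, Function.update_self, dbl_snd, zero_add, hd]
        exact hy i
      · rw [if_neg hi, Function.update_of_ne hi]
        exact dbl_diag h d _ (hy i)
    have law' : ∀ u ∈ dbl h d 0, ∀ v ∈ dbl h d 0, (fun z => com z v)^[r] u = 1 := by
      intro u hu v hv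
      rw [mem_dbl] at hu hv
      have hu2 : u.2 ∈ Λ 0 := by
        have h1 := (Λ 0).mul_mem hu.1 (h.mono (Nat.zero_le _) hu.2)
        rwa [mul_inv_cancel_left] at h1
      have hv2 : v.2 ∈ Λ 0 := by
        have h1 := (Λ 0).mul_mem hv.1 (h.mono (Nat.zero_le _) hv.2)
        rwa [mul_inv_cancel_left] at h1
      rw [iter_prod, law u.1 hu.1 v.1 hv.1, law u.2 hu2 v.2 hv2]
      rfl
    have h1 := ih (G × G) (dbl h d) (dbl_NS h d) law' b' hb'c y' hy'm a (x, x)
      (dbl_diag h d a hx)
    have h2 : ∀ σ : Equiv.Perm (Fin r), itc ((x, x) : G × G) (List.ofFn (fun i => y' (σ i))) =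
        (1, itc x (List.ofFn (fun i => y (σ i)))) := by
      intro σ
      rw [itc_prod, List.map_ofFn, List.map_ofFn]
      have h3 : (Prod.snd ∘ fun i => y' (σ i)) = fun i => y (σ i) := by
        funext i
        simp only [Function.comp_apply, hy']
        split_ifs <;> rfl
      have h4 : itc x (List.ofFn (Prod.fst ∘ fun i => y' (σ i))) = 1 := by
        apply itc_one_mem
        rw [List.mem_ofFn']
        refine ⟨σ.symm i0, ?_⟩
        simp [hy']
      rw [h3]
      exact Prod.ext h4 rfl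
    obtain ⟨c, hc⟩ : ∃ c, c = a + ∑ i, (b' i + 1) := ⟨_, rfl⟩
    have hcd : a + ∑ i, (b i + 1) = c + d := by
      rw [hc, hd]
      have h5 : ∑ i, (b i + 1) = ∑ i, (b' i + 1) + b i0 := by
        rw [← Finset.add_sum_erase Finset.univ (fun i => b i + 1) (Finset.mem_univ i0),
          ← Finset.add_sum_erase Finset.univ (fun i => b' i + 1) (Finset.mem_univ i0)]
        have h6 : ∑ i ∈ Finset.univ.erase i0, (b' i + 1) =
            ∑ i ∈ Finset.univ.erase i0, (b i + 1) := by
          apply Finset.sum_congr rfl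
          intro i hi
          rw [hb', Function.update_of_ne (Finset.ne_of_mem_erase hi)]
        rw [h6, hb', Function.update_self]
        omega
      rw [h5]
      omega
    rw [← hc] at h1
    simp only [h2] at h1
    rw [hcd]
    have hmem : ∀ σ : Equiv.Perm (Fin r), itc x (List.ofFn (fun i => y (σ i))) ∈ Λ (c + d) := by
      intro σ
      have := itc_ofFn_mem h b y hy σ a x hx
      rwa [hcd] at this
    have h7 := sum_cl_dbl h d c ((Finset.univ : Finset (Equiv.Perm (Fin r))).toList.map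
      (fun σ => itc x (List.ofFn (fun i => y (σ i))))) (by
        intro w hw
        obtain ⟨σ, _, rfl⟩ := List.mem_map.mp hw
        exact hmem σ)
    rw [List.map_map, List.map_map, Finset.sum_map_toList, Finset.sum_map_toList] at h7
    exact h7.mp h1

end Zel60
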