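import Pool.Agent.Work.MP_b44cb1_al.Zel.Defs2

/-!
# Zel/GrassA (M) : supercommutativity of the Grassmann algebra

`Gp i = CliffordAlgebra.evenOdd 0 i`. Use `CliffordAlgebra.evenOdd_mul_le`, `one_le_evenOdd_zero`,
`ι_mem_evenOdd_one`, `CliffordAlgebra.evenOdd_isCompl` (for `g_top`), and the induction principles
`CliffordAlgebra.even_induction`, `odd_induction`. For supercommutativity: in the exterior algebra
`ι x * ι y = - ι y * ι x` (`ExteriorAlgebra.ι_add_mul_swap`). So (1) `ι x` commutes with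
`ι y * ι z`; (2) by induction every element of `Gp 0` commutes with every `ι x`, hence with
everything (`ExteriorAlgebra.induction`): `g_central`; (3) an element of `Gp 1` anticommutes with every
`ι x` (elements of `Gp 1` are combinations of `(even) * ι y` or use `odd_induction`), and `g_anti` by
induction once more.
-/

set_option autoImplicit false

namespace Zel60

theorem g_one : (1 : GG) ∈ Gp 0 :=
  SetLike.one_mem_graded (CliffordAlgebra.evenOdd (0 : QuadraticForm ℚ (ℕ →₀ ℚ)))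

theorem g_mul {i j : ZMod 2} {a b : GG} (ha : a ∈ Gp i) (hb : b ∈ Gp j) : a * b ∈ Gp (i + j) :=
  SetLike.mul_mem_graded (A := CliffordAlgebra.evenOdd (0 : QuadraticForm ℚ (ℕ →₀ ℚ))) ha hb

theorem ge_mem (r : ℕ) : ge r ∈ Gp 1 :=
  CliffordAlgebra.ι_mem_evenOdd_one _ _

private theorem swap_ι (x y : ℕ →₀ ℚ) :
    ExteriorAlgebra.ι ℚ x * ExteriorAlgebra.ι ℚ y =
      -(ExteriorAlgebra.ι ℚ y * ExteriorAlgebra.ι ℚ x) :=
  eq_neg_of_add_eq_zero_left (ExteriorAlgebra.ι_add_mul_swap x y)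

private theorem pair_ι (x y z : ℕ →₀ ℚ) :
    ExteriorAlgebra.ι ℚ x * ExteriorAlgebra.ι ℚ y * ExteriorAlgebra.ι ℚ z =
      ExteriorAlgebra.ι ℚ z * (ExteriorAlgebra.ι ℚ x * ExteriorAlgebra.ι ℚ y) := by
  rw [mul_assoc, swap_ι y z, mul_neg, ← mul_assoc, swap_ι x z, neg_mul, neg_neg, mul_assoc]

private theorem central_ι {a : GG} (ha : a ∈ Gp 0) (z : ℕ →₀ ℚ) :
    a * ExteriorAlgebra.ι ℚ z = ExteriorAlgebra.ι ℚ z * a := by
  refine CliffordAlgebra.even_induction (0 : QuadraticForm ℚ (ℕ →₀ ℚ))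
    (motive := fun a _ => a * ExteriorAlgebra.ι ℚ z = ExteriorAlgebra.ι ℚ z * a) ?_ ?_ ?_ a ha
  · intro r
    exact Algebra.commutes r _
  · intro x y _ _ hx hy
    rw [add_mul, mul_add, hx, hy]
  · intro m₁ m₂ x _ hx
    rw [mul_assoc, hx, ← mul_assoc, ← mul_assoc]
    congr 1
    exact pair_ι m₁ m₂ z

theorem g_central {a : GG} (ha : a ∈ Gp 0) (b : GG) : a * b = b * a := by
  induction b using ExteriorAlgebra.induction with
  | algebraMap r => exact (Algebra.commutes r a).symm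
  | ι x => exact central_ι ha x
  | mul x y hx hy => rw [← mul_assoc, hx, mul_assoc, hy, mul_assoc]
  | add x y hx hy => rw [mul_add, add_mul, hx, hy]

private theorem anti_ι {a : GG} (ha : a ∈ Gp 1) (z : ℕ →₀ ℚ) :
    a * ExteriorAlgebra.ι ℚ z = -(ExteriorAlgebra.ι ℚ z * a) := by
  refine CliffordAlgebra.odd_induction (0 : QuadraticForm ℚ (ℕ →₀ ℚ))
    (P := fun a _ => a * ExteriorAlgebra.ι ℚ z = -(ExteriorAlgebra.ι ℚ z * a)) ?_ ?_ ?_ a ha
  · intro v
    exact swap_ι v z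
  · intro x y _ _ hx hy
    rw [add_mul, mul_add, hx, hy, neg_add]
  · intro m₁ m₂ x _ hx
    rw [mul_assoc, hx, mul_neg, ← mul_assoc, ← mul_assoc]
    congr 2
    exact pair_ι m₁ m₂ z

theorem g_anti {a b : GG} (ha : a ∈ Gp 1) (hb : b ∈ Gp 1) : a * b = -(b * a) := by
  refine CliffordAlgebra.odd_induction (0 : QuadraticForm ℚ (ℕ →₀ ℚ))
    (P := fun b _ => a * b = -(b * a)) ?_ ?_ ?_ b hb
  · intro v
    exact anti_ι ha v
  · intro x y _ _ hx hy
    rw [add_mul, mul_add, hx, hy, neg_add]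
  · intro m₁ m₂ x _ hx
    have hp : CliffordAlgebra.ι (0 : QuadraticForm ℚ (ℕ →₀ ℚ)) m₁ *
        CliffordAlgebra.ι (0 : QuadraticForm ℚ (ℕ →₀ ℚ)) m₂ ∈ Gp 0 :=
      CliffordAlgebra.ι_mul_ι_mem_evenOdd_zero _ m₁ m₂
    rw [← mul_assoc, ← g_central hp a, mul_assoc, hx, mul_neg, ← mul_assoc]

theorem g_top (a : GG) : ∃ a0 ∈ Gp 0, ∃ a1 ∈ Gp 1, a = a0 + a1 := by
  have h := (CliffordAlgebra.evenOdd_isCompl (0 : QuadraticForm ℚ (ℕ →₀ ℚ))).sup_eq_top
  have ha : a ∈ CliffordAlgebra.evenOdd (0 : QuadraticForm ℚ (ℕ →₀ ℚ)) 0 ⊔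
      CliffordAlgebra.evenOdd (0 : QuadraticForm ℚ (ℕ →₀ ℚ)) 1 := by
    rw [h]
    exact Submodule.mem_top
  obtain ⟨x, hx, y, hy, hxy⟩ := Submodule.mem_sup.1 ha
  exact ⟨x, hx, y, hy, hxy.symm⟩

end Zel60
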