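import Pool.Agent.Work.MP_b44cb1_al.Zel.Coset

/-!
# Zel/LemR (M-L) : `S_N`-modules without rows and columns

Write `Sym_R = sum_{σ ∈ SP R} ρ σ`, `Alt_R = sum_{σ ∈ SP R} sign σ • ρ σ`. `u` is such that
`Sym_R (g u) = 0` for all `g ∈ SP D`, `R ⊆ D` with `R.card = s`, and `Alt_R (g u) = 0` for all
`g ∈ SP D`, `R ⊆ D`, `R.card = t`. If `(s-1)(t-1) + 1 ≤ D.card` then `u = 0`.

Induction on `s + t`. If `s = 1` : take `R = {d}`, `d ∈ D` (`D` is nonempty), `Sym_R = 1`, `g = 1`.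
The same for `t = 1`. Let `s, t ≥ 2`.
Case 1: `Sym_R (g u) = 0` for all `g ∈ SP D`, `R ⊆ D`, `R.card = s - 1`. The induction hypothesis for
`(s-1, t)` gives `u = 0`.
Case 2: there are `g0 ∈ SP D`, `R ⊆ D`, `R.card = s - 1` with `v = Sym_R (g0 u) ≠ 0`. Let
`D' = D \ R`, `D'.card = D.card - (s-1) ≥ (s-1)(t-2) + 1`. We show that the hypotheses hold for `v`,
`D'`, `(s, t-1)`; then `v = 0`, contradiction.
For `g' ∈ SP D'` : `g' v = Sym_R (g' g0 u)`, since `g'` commutes with `SP R` (`SP_comm`). Let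
`u' = g' g0 u` (again `g' g0 ∈ SP D`), `v' = Sym_R u' = g' v`.
* `Sym_R' v' = Sym_R (Sym_R' u') = 0` for `R' ⊆ D'`, `R'.card = s` (disjoint supports commute).
* Let `T ⊆ D'`, `T.card = t - 1`; to show: `Alt_T v' = 0`.
  (i) for `r ∈ D'` : `Sym_(R ∪ {r}) = (1 + sum_{x ∈ R} ρ(swap x r)) Sym_R` (`sum_SP_insert`), so
  `0 = Sym_(R ∪ {r}) u' = v' + sum_{x ∈ R} ρ(swap x r) v'`.
  (ii) for `x ∈ R` : `Alt_(T ∪ {x}) = (1 - sum_{r ∈ T} ρ(swap r x)) Alt_T`, and
  `Alt_(T ∪ {x}) v' = sum_{σ ∈ SP R} Alt_(T ∪ {x}) (σ u') = 0` (`T ∪ {x} ⊆ D` has `t` elements,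
  `σ g' g0 ∈ SP D`). So `Alt_T v' = sum_{r ∈ T} ρ(swap r x) Alt_T v'`.
  (iii) `E_x = sum_{r ∈ T} ρ(swap r x)` commutes with `ρ τ`, `τ ∈ SP T` (conjugation by `τ`
  permutes `T` and fixes `x`). So, summing (ii) over `x ∈ R`:
  `(s-1) Alt_T v' = sum_x E_x Alt_T v' = Alt_T (sum_{r ∈ T} sum_{x ∈ R} ρ(swap x r) v')
  = Alt_T (- (t-1) v')` by (i). So `(s - 1 + t - 1) Alt_T v' = 0`, `Alt_T v' = 0`
  (`U` is a rational vector space).
-/

set_option autoImplicit false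

namespace Zel60

section
variable {ι : Type*} [Fintype ι] [DecidableEq ι] {U : Type*} [AddCommGroup U] [Module ℚ U]
    (ρ : Equiv.Perm ι →* Module.End ℚ U)

private noncomputable def Sy (R : Finset ι) : Module.End ℚ U := ∑ σ ∈ SP R, ρ σ

private noncomputable def Al (R : Finset ι) : Module.End ℚ U :=
  ∑ σ ∈ SP R, (Equiv.Perm.sign σ : ℤ) • ρ σ

private theorem Sy_apply (R : Finset ι) (w : U) : Sy ρ R w = ∑ σ ∈ SP R, ρ σ w := by
  unfold Sy
  rw [LinearMap.sum_apply]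

private theorem Al_apply (R : Finset ι) (w : U) :
    Al ρ R w = ∑ σ ∈ SP R, (Equiv.Perm.sign σ : ℤ) • ρ σ w := by
  unfold Al
  rw [LinearMap.sum_apply]
  rfl

private theorem Sy_comm {R S : Finset ι} (h : Disjoint R S) {τ : Equiv.Perm ι} (hτ : τ ∈ SP S) :
    ρ τ * Sy ρ R = Sy ρ R * ρ τ := by
  unfold Sy
  rw [Finset.mul_sum, Finset.sum_mul]
  refine Finset.sum_congr rfl fun σ hσ => ?_
  rw [← map_mul, ← map_mul, SP_comm h hσ hτ]

private theorem Sy_Sy {R S : Finset ι} (h : Disjoint R S) : Sy ρ S * Sy ρ R = Sy ρ R * Sy ρ S := by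
  have hS : Sy ρ S = ∑ σ ∈ SP S, ρ σ := rfl
  rw [hS, Finset.sum_mul, Finset.mul_sum]
  exact Finset.sum_congr rfl fun σ hσ => Sy_comm ρ h hσ

private theorem Sy_insert (R : Finset ι) (r : ι) (hr : r ∉ R) :
    Sy ρ (insert r R) = Sy ρ R + ∑ x ∈ R, ρ (Equiv.swap x r) * Sy ρ R := by
  have h := sum_SP_insert R r hr (fun σ => ρ σ)
  unfold Sy
  rw [h]
  congr 1
  refine Finset.sum_congr rfl fun x _ => ?_
  rw [Finset.mul_sum]
  exact Finset.sum_congr rfl fun σ _ => map_mul _ _ _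

private theorem Al_insert (T : Finset ι) (x : ι) (hx : x ∉ T) :
    Al ρ (insert x T) = Al ρ T - ∑ r ∈ T, ρ (Equiv.swap r x) * Al ρ T := by
  have h := sum_SP_insert T x hx (fun σ => (Equiv.Perm.sign σ : ℤ) • ρ σ)
  unfold Al
  rw [h, sub_eq_add_neg, ← Finset.sum_neg_distrib]
  congr 1
  refine Finset.sum_congr rfl fun r hr => ?_
  rw [Finset.mul_sum, ← Finset.sum_neg_distrib]
  refine Finset.sum_congr rfl fun σ _ => ?_
  have hne : r ≠ x := fun h => hx (h ▸ hr)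
  rw [map_mul, map_mul, Equiv.Perm.sign_swap hne, mul_smul_comm]
  simp

private theorem SP_mem_iff {T : Finset ι} {τ : Equiv.Perm ι} (hτ : τ ∈ SP T) (i : ι) :
    i ∈ T ↔ τ i ∈ T := by
  rw [mem_SP] at hτ
  constructor
  · intro hi
    by_contra hcon
    have h1 := hτ (τ i) hcon
    have h2 := τ.injective h1
    rw [h2] at hcon
    exact hcon hi
  · intro hi
    by_contra hcon
    rw [hτ i hcon] at hi
    exact hcon hi

private theorem E_comm (T : Finset ι) (x : ι) (hx : x ∉ T) :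
    (∑ r ∈ T, ρ (Equiv.swap r x)) * Al ρ T = Al ρ T * ∑ r ∈ T, ρ (Equiv.swap r x) := by
  conv_lhs => rw [Al, Finset.mul_sum]
  conv_rhs => rw [Al, Finset.sum_mul]
  refine Finset.sum_congr rfl fun τ hτ => ?_
  rw [mul_smul_comm, smul_mul_assoc]
  congr 1
  rw [Finset.sum_mul, Finset.mul_sum]
  symm
  refine Finset.sum_equiv τ (fun i => SP_mem_iff hτ i) (fun r _ => ?_)
  rw [← map_mul, ← map_mul, Equiv.mul_swap_eq_swap_mul]
  have : τ x = x := (mem_SP _ _).1 hτ x hx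
  rw [this]

end

theorem lemR {ι : Type*} [Fintype ι] [DecidableEq ι] {U : Type*} [AddCommGroup U] [Module ℚ U]
    (ρ : Equiv.Perm ι →* Module.End ℚ U) (s t : ℕ) (hs : 1 ≤ s) (ht : 1 ≤ t) (D : Finset ι)
    (hD : (s - 1) * (t - 1) + 1 ≤ D.card) (u : U)
    (hS : ∀ g ∈ SP D, ∀ R ⊆ D, R.card = s → ∑ σ ∈ SP R, ρ σ (ρ g u) = 0)
    (hA : ∀ g ∈ SP D, ∀ R ⊆ D, R.card = t →
      ∑ σ ∈ SP R, (Equiv.Perm.sign σ : ℤ) • ρ σ (ρ g u) = 0) : u = 0 := by
  induction' hk : s + t using Nat.strong_induction_on with k ih generalizing s t D u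
  have hS' : ∀ g ∈ SP D, ∀ R ⊆ D, R.card = s → Sy ρ R (ρ g u) = 0 := fun g hg R hR hc => by
    rw [Sy_apply]
    exact hS g hg R hR hc
  have hA' : ∀ g ∈ SP D, ∀ R ⊆ D, R.card = t → Al ρ R (ρ g u) = 0 := fun g hg R hR hc => by
    rw [Al_apply]
    exact hA g hg R hR hc
  have h1D : (1 : Equiv.Perm ι) ∈ SP D := by
    rw [mem_SP]
    intro i _
    rfl
  have hDne : D.Nonempty := by
    rw [← Finset.card_pos]
    omega
  obtain ⟨d, hd⟩ := hDne
  by_cases hs1 : s = 1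
  · have h1 := hS 1 h1D {d} (Finset.singleton_subset_iff.2 hd) (by rw [Finset.card_singleton, hs1])
    rw [SP_singleton, Finset.sum_singleton, map_one] at h1
    exact h1
  by_cases ht1 : t = 1
  · have h1 := hA 1 h1D {d} (Finset.singleton_subset_iff.2 hd) (by rw [Finset.card_singleton, ht1])
    rw [SP_singleton, Finset.sum_singleton, map_one, map_one] at h1
    simpa using h1
  obtain ⟨s', rfl⟩ : ∃ s', s = s' + 2 := ⟨s - 2, by omega⟩
  obtain ⟨t', rfl⟩ : ∃ t', t = t' + 2 := ⟨t - 2, by omega⟩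
  have hD' : (s' + 1) * (t' + 1) + 1 ≤ D.card := hD
  by_cases hcase : ∀ g ∈ SP D, ∀ R ⊆ D, R.card = s' + 1 → ∑ σ ∈ SP R, ρ σ (ρ g u) = 0
  · refine ih (s' + 1 + (t' + 2)) (by omega) (s' + 1) (t' + 2) (by omega) (by omega) D ?_ u hcase hA
      rfl
    have h2 : (s' + 1 - 1) * (t' + 2 - 1) ≤ (s' + 1) * (t' + 1) := Nat.mul_le_mul_right _ (by omega)
    omega
  push Not at hcase
  obtain ⟨g0, hg0, R, hRD, hRc, hv⟩ := hcase
  exfalso
  apply hv
  rw [← Sy_apply]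
  have hdis : Disjoint R (D \ R) := Finset.disjoint_sdiff
  have hcard : (D \ R).card = D.card - (s' + 1) := by
    rw [Finset.card_sdiff_of_subset hRD, hRc]
  have hsub : D \ R ⊆ D := Finset.sdiff_subset
  -- `ρ g' v = Sy R (ρ (g' g0) u)`
  have hmove : ∀ g' ∈ SP (D \ R), ρ g' (Sy ρ R (ρ g0 u)) = Sy ρ R (ρ (g' * g0) u) := by
    intro g' hg'
    have h1 := congrArg (fun e : Module.End ℚ U => e (ρ g0 u)) (Sy_comm ρ hdis hg')
    change ρ g' (Sy ρ R (ρ g0 u)) = Sy ρ R (ρ g' (ρ g0 u)) at h1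
    rw [h1, map_mul]
    rfl
  have hgg : ∀ g' ∈ SP (D \ R), g' * g0 ∈ SP D := fun g' hg' => SP_mul (SP_mono hsub hg') hg0
  refine ih (s' + 2 + (t' + 1)) (by omega) (s' + 2) (t' + 1) (by omega) (by omega) (D \ R) ?_
    (Sy ρ R (ρ g0 u)) ?_ ?_ rfl
  · rw [hcard]
    have h2 : (s' + 2 - 1) * (t' + 1 - 1) = (s' + 1) * t' := by
      rw [show s' + 2 - 1 = s' + 1 by omega, show t' + 1 - 1 = t' by omega]
    have h3 : (s' + 1) * (t' + 1) = (s' + 1) * t' + (s' + 1) := by ring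
    rw [h2]
    omega
  · intro g' hg' R' hR' hc
    rw [← Sy_apply, hmove g' hg']
    have h1 := congrArg (fun e : Module.End ℚ U => e (ρ (g' * g0) u))
      (Sy_Sy ρ (Finset.disjoint_of_subset_right hR' hdis))
    change Sy ρ R' (Sy ρ R (ρ (g' * g0) u)) = Sy ρ R (Sy ρ R' (ρ (g' * g0) u)) at h1
    rw [h1, hS' _ (hgg g' hg') R' (hR'.trans hsub) hc, map_zero]
  · intro g' hg' T hT hc
    rw [← Al_apply, hmove g' hg']
    set u' : U := ρ (g' * g0) u with hu'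
    set v' : U := Sy ρ R u' with hv'
    have hTR : Disjoint T R := (Finset.disjoint_of_subset_right hT hdis).symm
    -- (i)
    have hi : ∀ r ∈ T, ∑ x ∈ R, ρ (Equiv.swap x r) v' = -v' := by
      intro r hr
      have hrD := Finset.mem_sdiff.1 (hT hr)
      have h1 := hS' _ (hgg g' hg') (insert r R)
        (Finset.insert_subset_iff.2 ⟨hrD.1, hRD⟩) (by rw [Finset.card_insert_of_notMem hrD.2, hRc])
      rw [Sy_insert ρ R r hrD.2, LinearMap.add_apply, LinearMap.sum_apply] at h1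
      rw [eq_neg_iff_add_eq_zero, add_comm]
      exact h1
    -- (ii)
    have hii : ∀ x ∈ R, Al ρ T v' = (∑ r ∈ T, ρ (Equiv.swap r x)) (Al ρ T v') := by
      intro x hx
      have hxT : x ∉ T := fun h => Finset.disjoint_left.1 hTR h hx
      have h1 : Al ρ (insert x T) v' = 0 := by
        rw [hv', Sy_apply, map_sum]
        refine Finset.sum_eq_zero fun σ hσ => ?_
        have h2 : ρ σ u' = ρ (σ * (g' * g0)) u := by
          rw [map_mul ρ σ]
          rfl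
        rw [h2]
        exact hA' _ (SP_mul (SP_mono hRD hσ) (hgg g' hg')) (insert x T)
          (Finset.insert_subset_iff.2 ⟨hRD hx, hT.trans hsub⟩)
          (by rw [Finset.card_insert_of_notMem hxT, hc])
      rw [Al_insert ρ T x hxT, LinearMap.sub_apply, sub_eq_zero, LinearMap.sum_apply] at h1
      rw [h1, LinearMap.sum_apply]
      refine Finset.sum_congr rfl fun r _ => ?_
      rw [← h1]
      rfl
    -- (iii)
    have hiii : ∀ x ∈ R, Al ρ T v' = Al ρ T (∑ r ∈ T, ρ (Equiv.swap r x) v') := by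
      intro x hx
      have hxT : x ∉ T := fun h => Finset.disjoint_left.1 hTR h hx
      have h1 := congrArg (fun e : Module.End ℚ U => e v') (E_comm ρ T x hxT)
      change (∑ r ∈ T, ρ (Equiv.swap r x)) (Al ρ T v') =
        Al ρ T ((∑ r ∈ T, ρ (Equiv.swap r x)) v') at h1
      have h2 : (∑ r ∈ T, ρ (Equiv.swap r x)) v' = ∑ r ∈ T, ρ (Equiv.swap r x) v' :=
        LinearMap.sum_apply _ _ _
      rw [h2] at h1
      rw [← h1]
      exact hii x hx
    have h5 : ∑ x ∈ R, Al ρ T v' = ∑ x ∈ R, Al ρ T (∑ r ∈ T, ρ (Equiv.swap r x) v') :=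
      Finset.sum_congr rfl hiii
    rw [Finset.sum_const, hRc, ← map_sum, Finset.sum_comm] at h5
    have h6 : ∑ r ∈ T, ∑ x ∈ R, ρ (Equiv.swap r x) v' = ∑ r ∈ T, -v' := by
      refine Finset.sum_congr rfl fun r hr => ?_
      rw [← hi r hr]
      refine Finset.sum_congr rfl fun x _ => ?_
      rw [Equiv.swap_comm]
    rw [h6, Finset.sum_const, hc, map_nsmul, map_neg, smul_neg, ← add_eq_zero_iff_eq_neg,
      ← add_smul, ← Nat.cast_smul_eq_nsmul ℚ] at h5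
    refine (smul_eq_zero.1 h5).resolve_left ?_
    exact Nat.cast_ne_zero.2 (by omega)

end Zel60
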