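import Pool.Agent.Work.MP_b44cb1_al.Zel.Defs

/-!
# Zel/MaxSub (M) : if all centralisers are nilpotent of class `N1` then `H` is

Write `L^m = 0` for `Nil L m`. A Lie subspace means closed under `[x,y] = x y - y x`.

(1) Let `L ≤ H` be a Lie subspace, `L ≠ 0`, `L^m = 0` for some `m`. Then `L^N1 = 0`.
Proof: there is `z ≠ 0` in `L` commuting with all elements of `L`: start with `z_0 ≠ 0` in `L`; if
`z_i` is not central in `L` choose `l` in `L` with `z_(i+1) = [z_i, l] ≠ 0`. `z_i` is a sum of
products of `i + 1` elements of `L`, so the process stops before `i = m`. Now all elements of `L`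
are in `H` and commute with `z`, so `hK z` gives `L^N1 = 0`.

(2) The set of Lie subspaces `L ≤ H` with `L^N1 = 0` contains `0` (`1 ≤ N1`) and is closed under
unions of nonempty chains (a list of `N1` elements is contained in one member). Let `L` be a maximal one
(Zorn, `zorn_le_nonempty₀`).

(3) Suppose `L ≠ H`. There is `h ∈ H`, `h ∉ L` with `[h, l] ∈ L` for all `l ∈ L`: start with any
`h_0 ∈ H`, `h_0 ∉ L`; if it does not have the property choose `l` with `h_1 = [h_0, l] ∉ L`, etc.
`h_j` is a sum of products `(p elements of L) * h_0 * (q elements of L)` with `p + q = j`; for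
`j = 2 * N1 - 1` one has `p ≥ N1` or `q ≥ N1`, so `h_j = 0 ∈ L`, and the process stops.

(4) `L' = L + ℚ h` is a Lie subspace of `H`. `(L')^((n+1) * N1) = 0` : by multilinearity it
suffices that every word of length `(n+1) * N1` in `h` and elements of `L` is 0. Moving a letter
`l ∈ L` to the right over `h`: `l h = h l + [l,h]` with `[l,h] ∈ L`; the number of letters from `L`
stays the same. So a word with at least `N1` letters from `L` is a sum of words
`h^a * (product of at least N1 elements of L) = 0`. A word with fewer than `N1` letters from `L` and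
length `(n+1) * N1` has more than `n * N1` letters `h` in at most `N1` runs, so it contains
`h^n = 0`. (Also fine: prove by induction on the number `j` of letters that words with `N1 - j` letters
from `L` and length `≥ (n+1) * j` vanish.)
By (1) (`L' ≠ 0`, as `h ∉ L`), `(L')^N1 = 0`, contradiction to maximality. So `L = H`.
-/

set_option autoImplicit false

namespace Zel60

/-- span of the products of `j` elements of `L` -/
private def WW {A : Type*} [Ring A] [Algebra ℚ A] (L : Submodule ℚ A) (j : ℕ) : Submodule ℚ A :=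
  Submodule.span ℚ {b | ∃ l : List A, l.length = j ∧ (∀ x ∈ l, x ∈ L) ∧ l.prod = b}

private theorem WW_left {A : Type*} [Ring A] [Algebra ℚ A] {L : Submodule ℚ A} {j : ℕ} {z x : A}
    (hz : z ∈ WW L j) (hx : x ∈ L) : x * z ∈ WW L (j + 1) := by
  refine Submodule.span_induction (p := fun z _ => x * z ∈ WW L (j + 1)) ?_ ?_ ?_ ?_ hz
  · rintro _ ⟨l, h1, h2, rfl⟩
    refine Submodule.subset_span ⟨x :: l, by simp [h1], ?_, by simp⟩
    intro y hy
    rcases List.mem_cons.1 hy with rfl | hy
    · exact hx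
    · exact h2 y hy
  · rw [mul_zero]
    exact Submodule.zero_mem _
  · intro a b _ _ ha hb
    rw [mul_add]
    exact Submodule.add_mem _ ha hb
  · intro c a _ ha
    rw [mul_smul_comm]
    exact Submodule.smul_mem _ _ ha

private theorem WW_right {A : Type*} [Ring A] [Algebra ℚ A] {L : Submodule ℚ A} {j : ℕ} {z x : A}
    (hz : z ∈ WW L j) (hx : x ∈ L) : z * x ∈ WW L (j + 1) := by
  refine Submodule.span_induction (p := fun z _ => z * x ∈ WW L (j + 1)) ?_ ?_ ?_ ?_ hz
  · rintro _ ⟨l, h1, h2, rfl⟩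
    refine Submodule.subset_span ⟨l ++ [x], by simp [h1], ?_, by simp⟩
    intro y hy
    rcases List.mem_append.1 hy with hy | hy
    · exact h2 y hy
    · rw [List.mem_singleton.1 hy]
      exact hx
  · rw [zero_mul]
    exact Submodule.zero_mem _
  · intro a b _ _ ha hb
    rw [add_mul]
    exact Submodule.add_mem _ ha hb
  · intro c a _ ha
    rw [smul_mul_assoc]
    exact Submodule.smul_mem _ _ ha

private theorem WW_zero {A : Type*} [Ring A] [Algebra ℚ A] {L : Submodule ℚ A} {j : ℕ} {z : A}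
    (hn : Nil (L : Set A) j) (hz : z ∈ WW L j) : z = 0 := by
  refine Submodule.span_induction (p := fun z _ => z = 0) ?_ rfl ?_ ?_ hz
  · rintro _ ⟨l, h1, h2, rfl⟩
    exact hn l h1 h2
  · intro a b _ _ ha hb
    rw [ha, hb, add_zero]
  · intro c a _ ha
    rw [ha, smul_zero]

/-- step (1) -/
private theorem step1 {A : Type*} [Ring A] [Algebra ℚ A] {H L : Submodule ℚ A}
    {N1 : ℕ} (hK : ∀ x ∈ H, x ≠ 0 → ∀ l : List A, l.length = N1 →
      (∀ k ∈ l, k ∈ H ∧ k * x = x * k) → l.prod = 0) (hLH : L ≤ H)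
    (hL : ∀ x ∈ L, ∀ y ∈ L, x * y - y * x ∈ L) (hne : L ≠ ⊥) {m : ℕ}
    (hm : Nil (L : Set A) m) : Nil (L : Set A) N1 := by
  have hz : ∃ z ∈ L, z ≠ 0 ∧ ∀ l ∈ L, l * z = z * l := by
    by_contra hcon
    push Not at hcon
    have key : ∀ i : ℕ, ∃ z ∈ L, z ≠ 0 ∧ z ∈ WW L (i + 1) := by
      intro i
      induction i with
      | zero =>
        obtain ⟨z, hz, hz0⟩ := Submodule.exists_mem_ne_zero_of_ne_bot hne
        refine ⟨z, hz, hz0, Submodule.subset_span ⟨[z], rfl, ?_, by simp⟩⟩
        intro y hy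
        rw [List.mem_singleton.1 hy]
        exact hz
      | succ i ih =>
        obtain ⟨z, hz, hz0, hzW⟩ := ih
        obtain ⟨l, hl, hlz⟩ := hcon z hz hz0
        exact ⟨l * z - z * l, hL l hl z hz, sub_ne_zero.2 hlz,
          Submodule.sub_mem _ (WW_left hzW hl) (WW_right hzW hl)⟩
    obtain ⟨z, _, hz0, hzW⟩ := key m
    exact hz0 (WW_zero (hm.mono (Nat.le_succ m)) hzW)
  obtain ⟨z, hz, hz0, hc⟩ := hz
  intro l hl hlL
  exact hK z (hLH hz) hz0 l hl fun k hk => ⟨hLH (hlL k hk), hc k (hlL k hk)⟩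

/-- the elements killed by all products of `j` elements of `L` -/
private def RR {A : Type*} [Ring A] [Algebra ℚ A] (L : Submodule ℚ A) (j : ℕ) : Submodule ℚ A where
  carrier := {a | ∀ l : List A, l.length = j → (∀ x ∈ l, x ∈ L) → a * l.prod = 0}
  add_mem' := by
    intro a b ha hb l h1 h2
    rw [add_mul, ha l h1 h2, hb l h1 h2, add_zero]
  zero_mem' := by
    intro l _ _
    rw [zero_mul]
  smul_mem' := by
    intro c a ha l h1 h2
    rw [smul_mul_assoc, ha l h1 h2, smul_zero]

private theorem RR_L {A : Type*} [Ring A] [Algebra ℚ A] {L : Submodule ℚ A} {j : ℕ} {a x : A}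
    (ha : a ∈ RR L (j + 1)) (hx : x ∈ L) : a * x ∈ RR L j := by
  intro l h1 h2
  rw [mul_assoc, ← List.prod_cons]
  refine ha (x :: l) (by simp [h1]) ?_
  intro y hy
  rcases List.mem_cons.1 hy with rfl | hy
  · exact hx
  · exact h2 y hy

private theorem RR_succ {A : Type*} [Ring A] [Algebra ℚ A] {L : Submodule ℚ A} {j : ℕ} :
    RR L j ≤ RR L (j + 1) := by
  intro a ha l h1 h2
  have hne : l ≠ [] := by
    rintro rfl
    simp at h1
  rw [← List.dropLast_append_getLast hne, List.prod_append, ← mul_assoc,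
    ha l.dropLast (by rw [List.length_dropLast, h1, Nat.add_sub_cancel])
      (fun x hx => h2 x (List.mem_of_mem_dropLast hx)), zero_mul]

private theorem RR_h {A : Type*} [Ring A] [Algebra ℚ A] {L : Submodule ℚ A} {h : A}
    (hh : ∀ l ∈ L, h * l - l * h ∈ L) (j : ℕ) : ∀ a ∈ RR L j, a * h ∈ RR L j := by
  induction j with
  | zero =>
    intro a ha l h1 h2
    have : a = 0 := by simpa using ha [] rfl (by simp)
    rw [this, zero_mul, zero_mul]
  | succ j ih =>
    intro a ha l h1 h2
    cases l with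
    | nil => simp at h1
    | cons x t =>
      have hx : x ∈ L := h2 x List.mem_cons_self
      have ht : ∀ y ∈ t, y ∈ L := fun y hy => h2 y (List.mem_cons_of_mem _ hy)
      have ht1 : t.length = j := by simpa using h1
      have e1 := ih (a * x) (RR_L ha hx) t ht1 ht
      have e2 := RR_L ha (hh x hx) t ht1 ht
      rw [List.prod_cons]
      have e : a * h * (x * t.prod) = a * x * h * t.prod + a * (h * x - x * h) * t.prod := by
        noncomm_ring
      rw [e, e1, e2, add_zero]

private theorem RR_block {A : Type*} [Ring A] [Algebra ℚ A] {L : Submodule ℚ A} {h : A}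
    (hh : ∀ l ∈ L, h * l - l * h ∈ L) (j : ℕ) : ∀ w : List A,
    (∀ x ∈ w, x ∈ L ⊔ Submodule.span ℚ {h}) → ∀ a ∈ RR L (j + 1),
      ∃ c : ℚ, a * w.prod - c • (a * h ^ w.length) ∈ RR L j := by
  -- `RR L j` is stable
  have hst : ∀ w : List A, (∀ x ∈ w, x ∈ L ⊔ Submodule.span ℚ {h}) → ∀ a ∈ RR L j,
      a * w.prod ∈ RR L j := by
    intro w
    induction w with
    | nil =>
      intro _ a ha
      simpa using ha
    | cons x t ih =>
      intro hw a ha
      rw [List.prod_cons, ← mul_assoc]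
      refine ih (fun y hy => hw y (List.mem_cons_of_mem _ hy)) _ ?_
      obtain ⟨l, hl, z, hz, hlz⟩ := Submodule.mem_sup.1 (hw x List.mem_cons_self)
      obtain ⟨c, rfl⟩ := Submodule.mem_span_singleton.1 hz
      rw [← hlz, mul_add, mul_smul_comm]
      refine Submodule.add_mem _ ?_ (Submodule.smul_mem _ _ (RR_h hh j a ha))
      exact RR_L (RR_succ ha) hl
  intro w
  induction w with
  | nil =>
    intro _ a _
    refine ⟨1, ?_⟩
    simp
  | cons x t ih =>
    intro hw a ha
    have ht : ∀ y ∈ t, y ∈ L ⊔ Submodule.span ℚ {h} := fun y hy =>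
      hw y (List.mem_cons_of_mem _ hy)
    obtain ⟨l, hl, z, hz, hlz⟩ := Submodule.mem_sup.1 (hw x List.mem_cons_self)
    obtain ⟨c, rfl⟩ := Submodule.mem_span_singleton.1 hz
    obtain ⟨c', hc'⟩ := ih ht (a * h) (RR_h hh (j + 1) a ha)
    refine ⟨c * c', ?_⟩
    have e1 : a * l * t.prod ∈ RR L j := hst t ht _ (RR_L ha hl)
    have e2 := Submodule.add_mem _ e1 (Submodule.smul_mem _ c hc')
    convert e2 using 1
    simp only [List.prod_cons, ← hlz, List.length_cons, pow_succ', smul_sub, smul_smul, mul_add,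
      add_mul, mul_smul_comm, smul_mul_assoc, mul_assoc]
    abel

private theorem step4 {n : ℕ} {A : Type*} [Ring A] [Algebra ℚ A] {L : Submodule ℚ A} {h : A}
    {N1 : ℕ} (hnil : Nil (L : Set A) N1) (hh : ∀ l ∈ L, h * l - l * h ∈ L) (hn : h ^ n = 0) :
    Nil ((L ⊔ Submodule.span ℚ {h} : Submodule ℚ A) : Set A) (n * N1) := by
  have key : ∀ j : ℕ, ∀ w : List A, w.length = n * j →
      (∀ x ∈ w, x ∈ L ⊔ Submodule.span ℚ {h}) → ∀ a ∈ RR L j, a * w.prod = 0 := by
    intro j
    induction j with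
    | zero =>
      intro w _ _ a ha
      have : a = 0 := by simpa using ha [] rfl (by simp)
      rw [this, zero_mul]
    | succ j ih =>
      intro w hw1 hw2 a ha
      rw [← List.take_append_drop n w, List.prod_append, ← mul_assoc]
      refine ih (w.drop n) ?_ (fun x hx => hw2 x (List.mem_of_mem_drop hx)) _ ?_
      · rw [List.length_drop, hw1, Nat.mul_succ, Nat.add_sub_cancel]
      · obtain ⟨c, hc⟩ := RR_block hh j (w.take n)
          (fun x hx => hw2 x (List.mem_of_mem_take hx)) a ha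
        have e : (w.take n).length = n := by
          rw [List.length_take, hw1, Nat.mul_succ]
          omega
        rw [e, hn, mul_zero, smul_zero, sub_zero] at hc
        exact hc
  intro w hw1 hw2
  have := key N1 w hw1 hw2 1 (fun l h1 h2 => by rw [one_mul]; exact hnil l h1 h2)
  rwa [one_mul] at this

/-- span of the products of `h0` with `j` elements of `L` -/
private def VV {A : Type*} [Ring A] [Algebra ℚ A] (L : Submodule ℚ A) (h0 : A) (j : ℕ) :
    Submodule ℚ A :=
  Submodule.span ℚ {b | ∃ l l' : List A, l.length + l'.length = j ∧ (∀ x ∈ l, x ∈ L) ∧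
    (∀ x ∈ l', x ∈ L) ∧ l.prod * h0 * l'.prod = b}

private theorem VV_left {A : Type*} [Ring A] [Algebra ℚ A] {L : Submodule ℚ A} {h0 : A} {j : ℕ}
    {z x : A} (hz : z ∈ VV L h0 j) (hx : x ∈ L) : x * z ∈ VV L h0 (j + 1) := by
  refine Submodule.span_induction (p := fun z _ => x * z ∈ VV L h0 (j + 1)) ?_ ?_ ?_ ?_ hz
  · rintro _ ⟨l, l', h1, h2, h3, rfl⟩
    refine Submodule.subset_span ⟨x :: l, l', by simp; omega, ?_, h3, by simp [mul_assoc]⟩
    intro y hy
    rcases List.mem_cons.1 hy with rfl | hy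
    · exact hx
    · exact h2 y hy
  · rw [mul_zero]
    exact Submodule.zero_mem _
  · intro a b _ _ ha hb
    rw [mul_add]
    exact Submodule.add_mem _ ha hb
  · intro c a _ ha
    rw [mul_smul_comm]
    exact Submodule.smul_mem _ _ ha

private theorem VV_right {A : Type*} [Ring A] [Algebra ℚ A] {L : Submodule ℚ A} {h0 : A} {j : ℕ}
    {z x : A} (hz : z ∈ VV L h0 j) (hx : x ∈ L) : z * x ∈ VV L h0 (j + 1) := by
  refine Submodule.span_induction (p := fun z _ => z * x ∈ VV L h0 (j + 1)) ?_ ?_ ?_ ?_ hz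
  · rintro _ ⟨l, l', h1, h2, h3, rfl⟩
    refine Submodule.subset_span ⟨l, l' ++ [x], by simp; omega, h2, ?_, by simp [mul_assoc]⟩
    intro y hy
    rcases List.mem_append.1 hy with hy | hy
    · exact h3 y hy
    · rw [List.mem_singleton.1 hy]
      exact hx
  · rw [zero_mul]
    exact Submodule.zero_mem _
  · intro a b _ _ ha hb
    rw [add_mul]
    exact Submodule.add_mem _ ha hb
  · intro c a _ ha
    rw [smul_mul_assoc]
    exact Submodule.smul_mem _ _ ha

private theorem VV_zero {A : Type*} [Ring A] [Algebra ℚ A] {L : Submodule ℚ A} {h0 : A} {N1 : ℕ}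
    {z : A} (hn : Nil (L : Set A) N1) (hz : z ∈ VV L h0 (2 * N1)) : z = 0 := by
  refine Submodule.span_induction (p := fun z _ => z = 0) ?_ rfl ?_ ?_ hz
  · rintro _ ⟨l, l', h1, h2, h3, rfl⟩
    rcases (by omega : N1 ≤ l.length ∨ N1 ≤ l'.length) with h | h
    · rw [(hn.mono h) l rfl h2, zero_mul, zero_mul]
    · rw [(hn.mono h) l' rfl h3, mul_zero]
  · intro a b _ _ ha hb
    rw [ha, hb, add_zero]
  · intro c a _ ha
    rw [ha, smul_zero]

/-- step (3) -/
private theorem step3 {A : Type*} [Ring A] [Algebra ℚ A] {H L : Submodule ℚ A} {N1 : ℕ}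
    (hH : ∀ x ∈ H, ∀ y ∈ H, x * y - y * x ∈ H) (hLH : L ≤ H)
    (hnil : Nil (L : Set A) N1) (hne : ¬ H ≤ L) :
    ∃ h ∈ H, h ∉ L ∧ ∀ l ∈ L, h * l - l * h ∈ L := by
  by_contra hcon
  push Not at hcon
  obtain ⟨h0, h0H, h0L⟩ := Set.not_subset.1 hne
  have key : ∀ j : ℕ, ∃ h ∈ H, h ∉ L ∧ h ∈ VV L h0 j := by
    intro j
    induction j with
    | zero =>
      exact ⟨h0, h0H, h0L, Submodule.subset_span ⟨[], [], rfl, by simp, by simp, by simp⟩⟩
    | succ j ih =>
      obtain ⟨h, hH', hL', hV⟩ := ih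
      obtain ⟨l, hl, hhl⟩ := hcon h hH' hL'
      exact ⟨h * l - l * h, hH h hH' l (hLH hl), hhl,
        Submodule.sub_mem _ (VV_right hV hl) (VV_left hV hl)⟩
  obtain ⟨h, _, hL', hV⟩ := key (2 * N1)
  rw [VV_zero hnil hV] at hL'
  exact hL' L.zero_mem

private theorem chain_list {A : Type*} [Ring A] [Algebra ℚ A] {c : Set (Submodule ℚ A)}
    (hne : c.Nonempty) (hdir : DirectedOn (· ≤ ·) c) (l : List A) (hl : ∀ x ∈ l, x ∈ sSup c) :
    ∃ L ∈ c, ∀ x ∈ l, x ∈ L := by
  induction l with
  | nil =>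
    obtain ⟨L, hL⟩ := hne
    exact ⟨L, hL, by simp⟩
  | cons x t ih =>
    obtain ⟨L, hL, ht⟩ := ih fun y hy => hl y (List.mem_cons_of_mem _ hy)
    obtain ⟨L', hL', hx⟩ := (Submodule.mem_sSup_of_directed hne hdir).1
      (hl x List.mem_cons_self)
    obtain ⟨L'', hL'', h1, h2⟩ := hdir L hL L' hL'
    refine ⟨L'', hL'', fun y hy => ?_⟩
    rcases List.mem_cons.1 hy with rfl | hy
    · exact h2 hx
    · exact h1 (ht y hy)

theorem max_sub {n : ℕ} {A : Type*} [Ring A] [Algebra ℚ A] (H : Submodule ℚ A) (hp : PairN n H)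
    (N1 : ℕ) (h1 : 1 ≤ N1)
    (hK : ∀ x ∈ H, x ≠ 0 → ∀ l : List A, l.length = N1 → (∀ k ∈ l, k ∈ H ∧ k * x = x * k) →
      l.prod = 0) : Nil (H : Set A) N1 := by
  obtain ⟨L, hLm⟩ := zorn_le_nonempty₀ {L : Submodule ℚ A | L ≤ H ∧
      (∀ x ∈ L, ∀ y ∈ L, x * y - y * x ∈ L) ∧ Nil (L : Set A) N1}
    (fun c hc hchain y hy => by
      have hdir : DirectedOn (· ≤ ·) c := hchain.directedOn
      have hne : c.Nonempty := ⟨y, hy⟩
      refine ⟨sSup c, ⟨sSup_le fun L hL => (hc hL).1, fun x hx y hy => ?_, fun l hl hlc => ?_⟩,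
        fun z hz => le_sSup hz⟩
      · obtain ⟨L, hL, hxy⟩ := chain_list hne hdir [x, y] (by
          intro z hz
          simp only [List.mem_cons, List.not_mem_nil, or_false] at hz
          rcases hz with rfl | rfl
          · exact hx
          · exact hy)
        exact (le_sSup hL) ((hc hL).2.1 x (hxy x (by simp)) y (hxy y (by simp)))
      · obtain ⟨L, hL, hlL⟩ := chain_list hne hdir l hlc
        exact (hc hL).2.2 l hl hlL) ⊥ ⟨bot_le, fun x hx y hy => by
          rw [Submodule.mem_bot] at hx hy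
          rw [hx, hy, mul_zero, sub_zero]
          exact Submodule.zero_mem _, fun l hl hlb => by
          cases l with
          | nil =>
            simp at hl
            omega
          | cons x t =>
            have hx : x ∈ (⊥ : Submodule ℚ A) := hlb x List.mem_cons_self
            rw [Submodule.mem_bot] at hx
            rw [List.prod_cons, hx, zero_mul]⟩
  obtain ⟨hLH, hLlie, hLnil⟩ := hLm.2.prop
  by_cases hle : H ≤ L
  · intro l hl hlH
    exact hLnil l hl fun x hx => hle (hlH x hx)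
  exfalso
  obtain ⟨h, hhH, hhL, hh⟩ := step3 hp.lie hLH hLnil hle
  have hL'nil := step4 hLnil hh (hp.idx h hhH)
  set L' : Submodule ℚ A := L ⊔ Submodule.span ℚ {h} with hL'
  have hhL' : h ∈ L' := (le_sup_right (a := L)) (Submodule.mem_span_singleton_self h)
  have hL'H : L' ≤ H := sup_le hLH (by
    rw [Submodule.span_singleton_le_iff_mem]
    exact hhH)
  have hL'lie : ∀ x ∈ L', ∀ y ∈ L', x * y - y * x ∈ L' := by
    intro x hx y hy
    obtain ⟨l, hl, z, hz, rfl⟩ := Submodule.mem_sup.1 hx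
    obtain ⟨c, rfl⟩ := Submodule.mem_span_singleton.1 hz
    obtain ⟨l', hl', z', hz', rfl⟩ := Submodule.mem_sup.1 hy
    obtain ⟨c', rfl⟩ := Submodule.mem_span_singleton.1 hz'
    have e : (l + c • h) * (l' + c' • h) - (l' + c' • h) * (l + c • h) =
        (l * l' - l' * l) + (c • (h * l' - l' * h) - c' • (h * l - l * h)) := by
      simp only [mul_add, add_mul, smul_mul_assoc, mul_smul_comm, smul_sub, smul_add]
      rw [smul_comm c' c (h * h)]
      abel
    rw [e]
    exact (le_sup_left (b := Submodule.span ℚ {h})) (Submodule.add_mem _ (hLlie l hl l' hl')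
      (Submodule.sub_mem _ (Submodule.smul_mem _ _ (hh l' hl'))
        (Submodule.smul_mem _ _ (hh l hl))))
  have hne : L' ≠ ⊥ := by
    intro h0
    rw [h0, Submodule.mem_bot] at hhL'
    rw [hhL'] at hhL
    exact hhL L.zero_mem
  have hfin := step1 hK hL'H hL'lie hne hL'nil
  exact hhL (hLm.2.le_of_ge ⟨hL'H, hL'lie, hfin⟩ le_sup_left hhL')

end Zel60
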