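import Pool.Agent.Work.MP_b44cb1_al.Zel.Defs

/-!
# Zel/PermSum (S-M) : expanding a product of sums

`list_expand` : `MultilinearMap.map_sum_finset` for `MultilinearMap.mkPiAlgebraFin ℤ m R`
(`MultilinearMap.mkPiAlgebraFin_apply`).
`perm_sum` : let `A r = R` for `r ∈ R` and `A r = {r}` otherwise. The injective members of
`Fintype.piFinset A` are exactly the permutations in `SP R` (an injective map of a finite type to itself is
bijective; for `σ ∈ SP R` and `r ∈ R`, `σ r ∈ R` because otherwise `σ (σ r) = σ r`, so
`σ r = r ∉ R`). The other terms vanish by `h0`. (`Finset.sum_bij_ne_zero` or `Finset.sum_subset` and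
`Finset.sum_bij`.)
-/

set_option autoImplicit false

namespace Zel60

theorem list_expand {R : Type*} [Ring R] {m : ℕ} {κ : Type*} [DecidableEq κ]
    (A : Fin m → Finset κ) (y : Fin m → κ → R) :
    (List.ofFn (fun r => ∑ q ∈ A r, y r q)).prod =
      ∑ f ∈ Fintype.piFinset A, (List.ofFn (fun r => y r (f r))).prod := by
  have h := MultilinearMap.map_sum_finset (MultilinearMap.mkPiAlgebraFin ℤ m R) y A
  simp only [MultilinearMap.mkPiAlgebraFin_apply] at h
  exact h

theorem perm_sum {M : Type*} [AddCommMonoid M] {m : ℕ} (R : Finset (Fin m))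
    (f : (Fin m → Fin m) → M) (h0 : ∀ κ, ¬ Function.Injective κ → f κ = 0) :
    ∑ κ ∈ Fintype.piFinset (fun r => if r ∈ R then R else {r}), f κ = ∑ σ ∈ SP R, f σ := by
  symm
  refine Finset.sum_bij_ne_zero (fun σ _ _ => (σ : Fin m → Fin m)) ?_ ?_ ?_ ?_
  · intro σ hσ _
    rw [Fintype.mem_piFinset]
    rw [mem_SP] at hσ
    intro r
    by_cases hr : r ∈ R
    · rw [if_pos hr]
      by_contra hc
      have h1 := hσ _ hc
      have h2 : σ r = r := σ.injective h1
      rw [h2] at hc
      exact hc hr
    · rw [if_neg hr, Finset.mem_singleton]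
      exact hσ r hr
  · intro σ _ _ τ _ _ h
    exact Equiv.coe_fn_injective h
  · intro κ hκ hne
    have hinj : Function.Injective κ := by
      by_contra hc
      exact hne (h0 κ hc)
    refine ⟨Equiv.ofBijective κ (Finite.injective_iff_bijective.1 hinj), ?_, ?_, rfl⟩
    · rw [mem_SP]
      intro i hi
      rw [Fintype.mem_piFinset] at hκ
      have h1 := hκ i
      rw [if_neg hi, Finset.mem_singleton] at h1
      exact h1
    · exact hne
  · intro σ _ _
    rfl

end Zel60
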