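import Mathlib

/-!
# Zel/Pig (S-M, Mathlib only) : pigeonhole for products

`w = sum_{j<k} u j * q j * v j`, `q j * R * q j = 0`. A product `b 0 * b 1 * ... * b (m-1)` with more than
`k` factors equal to `w` is zero. Proof: expand the factors with index in `s` (`MultilinearMap.map_sum_finset`
or induction): the product is the sum over `κ : s → Fin k` of the products in which the factor `r ∈ s` is
`u (κ r) * q (κ r) * v (κ r)`. As `k < s.card`, `κ` is not injective: `κ r = κ r' = j` for some
`r < r'`, and the product has the form `... q j * (something) * q j ... = 0`.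
(Alternative: `I_j` = two-sided ideal generated by `q j`, `I_j * I_j = 0`, and induction on `k`: every
product of elements of `I_0 + ... + I_(k-1)` and arbitrary elements with more than `k` factors from the sum
vanishes.)
-/

set_option autoImplicit false

namespace Zel60

private theorem list_split {R : Type*} [Ring R] (l : List R) (i : ℕ) (hi : i < l.length) :
    l.prod = (l.take i).prod * (l[i] * (l.drop (i + 1)).prod) := by
  conv_lhs => rw [← List.take_append_drop i l]
  rw [List.prod_append, ← List.getElem_cons_drop hi, List.prod_cons]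

private theorem list_two {R : Type*} [Ring R] (l : List R) (i j : ℕ) (hij : i < j)
    (hj : j < l.length) {a b : R} (ha : l[i]'(hij.trans hj) = a) (hb : l[j] = b)
    (h0 : ∀ x : R, a * x * b = 0) : l.prod = 0 := by
  rw [list_split l i (hij.trans hj), ha]
  have h1 : j - (i + 1) < (l.drop (i + 1)).length := by
    rw [List.length_drop]
    omega
  rw [list_split (l.drop (i + 1)) (j - (i + 1)) h1]
  have h2 : (l.drop (i + 1))[j - (i + 1)] = b := by
    rw [List.getElem_drop]
    have h3 : i + 1 + (j - (i + 1)) = j := by omega
    simp only [h3]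
    exact hb
  rw [h2, ← mul_assoc, ← mul_assoc, ← mul_assoc, mul_assoc (List.prod (List.take i l)),
    mul_assoc (List.prod (List.take i l)), h0, mul_zero, zero_mul]

theorem pig {R : Type*} [Ring R] (k : ℕ) (u q v : Fin k → R) (hq : ∀ j x, q j * x * q j = 0)
    (m : ℕ) (b : Fin m → R) (s : Finset (Fin m)) (hs : k + 1 ≤ s.card)
    (hb : ∀ r ∈ s, b r = ∑ j, u j * q j * v j) : (List.ofFn b).prod = 0 := by
  classical
  set y : Fin m → Option (Fin k) → R := fun r o => match o with
    | some j => u j * q j * v j
    | none => b r with hy
  set A : Fin m → Finset (Option (Fin k)) := fun r =>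
    if r ∈ s then (Finset.univ : Finset (Fin k)).map Function.Embedding.some else {none} with hA
  have h1 : (fun r => ∑ o ∈ A r, y r o) = b := by
    funext r
    by_cases hr : r ∈ s
    · simp only [hA, if_pos hr, Finset.sum_map, hy, Function.Embedding.some_apply]
      exact (hb r hr).symm
    · simp only [hA, if_neg hr, Finset.sum_singleton, hy]
  have h2 := MultilinearMap.map_sum_finset (MultilinearMap.mkPiAlgebraFin ℤ m R) y A
  simp only [MultilinearMap.mkPiAlgebraFin_apply] at h2
  rw [h1] at h2
  rw [h2]
  refine Finset.sum_eq_zero fun f hf => ?_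
  rw [Fintype.mem_piFinset] at hf
  have h3 : ∀ r ∈ s, ∃ j : Fin k, f r = some j := by
    intro r hr
    have h4 := hf r
    simp only [hA, if_pos hr, Finset.mem_map, Finset.mem_univ, true_and,
      Function.Embedding.some_apply] at h4
    obtain ⟨j, hj⟩ := h4
    exact ⟨j, hj.symm⟩
  obtain ⟨r, hr, r', hr', hne, heq⟩ : ∃ r ∈ s, ∃ r' ∈ s, r ≠ r' ∧ f r = f r' := by
    have hmaps : ∀ r ∈ s, f r ∈ (Finset.univ : Finset (Fin k)).map Function.Embedding.some := by
      intro r hr
      have h4 := hf r
      simpa only [hA, if_pos hr] using h4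
    refine Finset.exists_ne_map_eq_of_card_lt_of_maps_to ?_ hmaps
    rw [Finset.card_map, Finset.card_univ, Fintype.card_fin]
    omega
  have key : ∀ r r' : Fin m, r ∈ s → f r = f r' → r < r' →
      (List.ofFn (fun r => y r (f r))).prod = 0 := by
    intro r r' hr heq hlt
    obtain ⟨j, hj⟩ := h3 r hr
    refine list_two _ (r : ℕ) (r' : ℕ) hlt (by rw [List.length_ofFn]; exact r'.2)
      (a := u j * q j * v j) (b := u j * q j * v j) ?_ ?_ ?_
    · rw [List.getElem_ofFn]
      simp only [Fin.eta, hj, hy]
    · rw [List.getElem_ofFn]
      simp only [Fin.eta, ← heq, hj, hy]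
    · intro x
      have h5 : u j * q j * v j * x * (u j * q j * v j) =
          u j * (q j * (v j * x * u j) * q j) * v j := by
        simp only [mul_assoc]
      rw [h5, hq, mul_zero, zero_mul]
  rcases lt_or_gt_of_ne hne with h | h
  · exact key r r' hr heq h
  · exact key r' r hr' heq.symm h

end Zel60
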