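import Pool.Agent.Work.MP_b44cb1_al.Zel.Defs

/-!
# Zel/PrimeEx (S-M, Mathlib only) : existence of prime ideals in a noncommutative ring

`a 0, a 1, ...` nonzero elements with `a (i+1) ∈ a i * R * a i`. There is a two-sided prime ideal which
does not contain `a 0`. Proof: Zorn: `P` maximal among the two-sided ideals which contain no `a i`
(the zero ideal is one; unions of chains). Let `x c y ∈ P` for all `c`, `x ∉ P`, `y ∉ P`. The
two-sided ideals `P + (x)`, `P + (y)` contain some `a i`, `a j`. Both contain `a m` for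
`m = max i j` (`a (i+1)` is in the two-sided ideal generated by `a i`). Now
`a (m+1) = a m * r * a m`, one factor `a m` in `P + (x)` and the other in `P + (y)`:
`a m = p + sum u x v = p' + sum u' y v'`, so `a m * r * a m ∈ P`. Contradiction.
-/

set_option autoImplicit false

namespace Zel60

/-- the two-sided ideal generated by `x`, as a left ideal -/
private def JJ {R : Type*} [Ring R] (x : R) : Ideal R := Ideal.span (Set.range fun v : R => x * v)

private theorem JJ_mul {R : Type*} [Ring R] {x z : R} (hz : z ∈ JJ x) (w : R) : z * w ∈ JJ x := by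
  unfold JJ at hz
  induction hz using Submodule.span_induction with
  | mem z hz =>
    obtain ⟨v, rfl⟩ := hz
    refine Ideal.subset_span ⟨v * w, ?_⟩
    simp only [mul_assoc]
  | zero =>
    rw [zero_mul]
    exact Submodule.zero_mem _
  | add y z _ _ h1 h2 =>
    rw [add_mul]
    exact Submodule.add_mem _ h1 h2
  | smul u z _ h =>
    rw [smul_eq_mul, mul_assoc]
    exact Ideal.mul_mem_left _ _ h

private theorem JJ_self {R : Type*} [Ring R] (x : R) : x ∈ JJ x :=
  Ideal.subset_span ⟨1, mul_one x⟩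

private theorem sup_two {R : Type*} [Ring R] {P : Ideal R} (hP : P.IsTwoSided) (x : R) :
    (P ⊔ JJ x).IsTwoSided := by
  refine ⟨fun {z} w hz => ?_⟩
  obtain ⟨p, hp, j, hj, rfl⟩ := Submodule.mem_sup.1 hz
  rw [add_mul]
  exact Submodule.add_mem_sup (hP.mul_mem_of_left w hp) (JJ_mul hj w)

private theorem JJ_right {R : Type*} [Ring R] {P : Ideal R} (hP : P.IsTwoSided) {x y : R}
    (h : ∀ c, x * c * y ∈ P) {t : R} (ht : t ∈ JJ y) : ∀ c, x * c * t ∈ P := by
  unfold JJ at ht
  induction ht using Submodule.span_induction with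
  | mem t ht =>
    obtain ⟨v', rfl⟩ := ht
    intro c
    change x * c * (y * v') ∈ P
    rw [← mul_assoc]
    exact hP.mul_mem_of_left _ (h _)
  | zero =>
    intro c
    rw [mul_zero]
    exact Submodule.zero_mem _
  | add a b _ _ h1 h2 =>
    intro c
    rw [mul_add]
    exact Submodule.add_mem _ (h1 c) (h2 c)
  | smul u b _ h1 =>
    intro c
    rw [smul_eq_mul, ← mul_assoc, mul_assoc x]
    exact h1 (c * u)

private theorem JJ_prod {R : Type*} [Ring R] {P : Ideal R} (hP : P.IsTwoSided) {x y : R}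
    (h : ∀ c, x * c * y ∈ P) {z t : R} (hz : z ∈ JJ x) (ht : t ∈ JJ y) (r : R) :
    z * r * t ∈ P := by
  have h' := JJ_right hP h ht
  unfold JJ at hz
  induction hz using Submodule.span_induction with
  | mem z hz =>
    obtain ⟨v, rfl⟩ := hz
    change x * v * r * t ∈ P
    rw [mul_assoc x]
    exact h' (v * r)
  | zero =>
    rw [zero_mul, zero_mul]
    exact Submodule.zero_mem _
  | add a b _ _ h1 h2 =>
    rw [add_mul, add_mul]
    exact Submodule.add_mem _ h1 h2
  | smul u b _ h1 =>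
    rw [smul_eq_mul, mul_assoc, mul_assoc, ← mul_assoc b]
    exact Ideal.mul_mem_left _ _ h1

theorem exists_prime_ideal {R : Type*} [Ring R] (a : ℕ → R) (h0 : ∀ i, a i ≠ 0)
    (hs : ∀ i, ∃ r, a (i + 1) = a i * r * a i) :
    ∃ P : Ideal R, P.IsTwoSided ∧ a 0 ∉ P ∧ ∀ x y : R, (∀ c, x * c * y ∈ P) → x ∈ P ∨ y ∈ P := by
  obtain ⟨P, hPm⟩ := zorn_le_nonempty₀ {P : Ideal R | P.IsTwoSided ∧ ∀ i, a i ∉ P}
    (fun c hc hchain y hy => by
      have hdir : DirectedOn (· ≤ ·) c := hchain.directedOn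
      have hne : c.Nonempty := ⟨y, hy⟩
      refine ⟨sSup c, ⟨⟨fun {z} w hz => ?_⟩, fun i hi => ?_⟩, fun z hz => le_sSup hz⟩
      · obtain ⟨I, hI, hzI⟩ := (Submodule.mem_sSup_of_directed hne hdir).1 hz
        exact (le_sSup hI) ((hc hI).1.mul_mem_of_left w hzI)
      · obtain ⟨I, hI, hzI⟩ := (Submodule.mem_sSup_of_directed hne hdir).1 hi
        exact (hc hI).2 i hzI) ⊥ ⟨inferInstance, fun i hi => h0 i ((Submodule.mem_bot R).1 hi)⟩
  obtain ⟨hP1, hP2⟩ := hPm.2.prop
  refine ⟨P, hP1, hP2 0, fun x y h => ?_⟩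
  by_contra hcon
  push Not at hcon
  obtain ⟨hx, hy⟩ := hcon
  have key : ∀ x : R, x ∉ P → ∃ i, ∀ j, i ≤ j → a j ∈ P ⊔ JJ x := by
    intro x hx
    have h1 : ∃ i, a i ∈ P ⊔ JJ x := by
      by_contra hno
      push Not at hno
      have h2 : P ⊔ JJ x ≤ P := hPm.2.le_of_ge ⟨sup_two hP1 x, hno⟩ le_sup_left
      exact hx (h2 (le_sup_right (a := P) (JJ_self x)))
    obtain ⟨i, hi⟩ := h1
    refine ⟨i, fun j hj => ?_⟩
    induction j, hj using Nat.le_induction with
    | base => exact hi
    | succ j _ ih =>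
      obtain ⟨r, hr⟩ := hs j
      rw [hr]
      exact Ideal.mul_mem_left _ _ ih
  obtain ⟨i, hi⟩ := key x hx
  obtain ⟨j, hj⟩ := key y hy
  have hxm := hi (max i j) (le_max_left _ _)
  have hym := hj (max i j) (le_max_right _ _)
  obtain ⟨r, hr⟩ := hs (max i j)
  obtain ⟨p, hp, z, hz, hpz⟩ := Submodule.mem_sup.1 hxm
  obtain ⟨p', hp', t, ht, hpt⟩ := Submodule.mem_sup.1 hym
  refine hP2 (max i j + 1) ?_
  have e : a (max i j + 1) = p * (r * a (max i j)) + z * r * p' + z * r * t := by
    rw [hr]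
    have e1 : a (max i j) * r * a (max i j) = (p + z) * r * a (max i j) := by rw [hpz]
    have e2 : z * r * a (max i j) = z * r * (p' + t) := by rw [hpt]
    rw [e1, add_mul, add_mul, e2, mul_add, mul_assoc p]
    abel
  rw [e]
  refine Submodule.add_mem _ (Submodule.add_mem _ ?_ ?_) ?_
  · exact hP1.mul_mem_of_left _ hp
  · exact Ideal.mul_mem_left _ _ hp'
  · exact JJ_prod hP1 h hz ht r

end Zel60
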