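import Pool.Agent.Work.MP_b44cb1_al.Zel.FactA
import Pool.Agent.Work.MP_b44cb1_al.Zel.MaxSub

/-!
# Zel/PrimeTriv (S-M) : a prime algebra generated by a pair of index `n` is trivial

Let `N1 = N^n ≥ 1`. For `x ≠ 0` in `H` and a list `l` of `N1` elements of `C_H(x)` we have
`x * a * l.prod = 0` for all `a` (`factA`), so `l.prod = 0` (`hprime`). By `max_sub`, `Nil H N1`.
Suppose `h ∈ H`, `h ≠ 0`. Let `m` be the largest number such that some product of `m` elements of `H`
is nonzero; `1 ≤ m < N1`. Let `b` be such a nonzero product. Then `b * c * b = 0` for all `c` : by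
`gen_span` (or `Algebra.adjoin_induction`) `c` is a combination of products of elements of `H`, and
`b * w * b` is a product of at least `2 m > m` elements. `hprime` gives `b = 0`, contradiction.
-/

set_option autoImplicit false

namespace Zel60

private theorem all_words {A : Type} [Ring A] [Algebra ℚ A] (H : Submodule ℚ A)
    (hg : Algebra.adjoin ℚ (H : Set A) = ⊤) (b d : A)
    (h : ∀ l : List A, (∀ x ∈ l, x ∈ H) → b * l.prod * d = 0) (c : A) : b * c * d = 0 := by
  have ha : c ∈ (Algebra.adjoin ℚ (H : Set A)).toSubmodule := by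
    rw [hg]
    exact (Algebra.mem_top : c ∈ (⊤ : Subalgebra ℚ A))
  rw [Algebra.adjoin_eq_span] at ha
  refine Submodule.span_induction (p := fun c _ => b * c * d = 0) ?_ ?_ ?_ ?_ ha
  · intro w hw
    obtain ⟨l, h1, h2⟩ := Submonoid.exists_list_of_mem_closure hw
    rw [← h2]
    exact h l fun x hx => h1 x hx
  · rw [mul_zero, zero_mul]
  · intro x y _ _ hx hy
    rw [mul_add, add_mul, hx, hy, add_zero]
  · intro r x _ hx
    rw [mul_smul_comm, smul_mul_assoc, hx, smul_zero]

theorem prime_triv {n N : ℕ} (hn : 1 ≤ n) (hN : 1 ≤ N) (hS : SN (n - 1) N) {A : Type} [Ring A]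
    [Algebra ℚ A] (H : Submodule ℚ A) (hp : PairN n H) (hg : Algebra.adjoin ℚ (H : Set A) = ⊤)
    (hprime : ∀ a b : A, (∀ c, a * c * b = 0) → a = 0 ∨ b = 0) : H = ⊥ := by
  classical
  have hnil : Nil (H : Set A) (N ^ n) := by
    refine max_sub H hp (N ^ n) (Nat.one_le_pow _ _ hN) fun x hx hx0 l hl hk => ?_
    rcases hprime x l.prod (fun a => factA hn hN hS H hp hg x hx a l hl hk) with h | h
    · exact absurd h hx0
    · exact h
  by_contra hH
  obtain ⟨h, hh, hh0⟩ := Submodule.exists_mem_ne_zero_of_ne_bot hH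
  have hex : ∃ m, Nil (H : Set A) m := ⟨_, hnil⟩
  set M := Nat.find hex with hM
  have hMn : Nil (H : Set A) M := Nat.find_spec hex
  have hM1 : 1 < M := by
    by_contra hlt
    have h1 : Nil (H : Set A) 1 := hMn.mono (by omega)
    exact hh0 (by simpa using h1 [h] rfl (by simpa using hh))
  obtain ⟨m, hm⟩ : ∃ m, M = m + 1 := ⟨M - 1, by omega⟩
  have hnot : ¬ Nil (H : Set A) m := Nat.find_min hex (by omega)
  unfold Nil at hnot
  push Not at hnot
  obtain ⟨l, hl, hlH, hl0⟩ := hnot
  have hz : ∀ c, l.prod * c * l.prod = 0 := by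
    refine all_words H hg _ _ fun w hw => ?_
    rw [← List.prod_append, ← List.prod_append]
    refine (hMn.mono (N' := (l ++ w ++ l).length) ?_) _ rfl ?_
    · rw [List.length_append, List.length_append, hl]
      omega
    · intro x hx
      rcases List.mem_append.1 hx with hx | hx
      · rcases List.mem_append.1 hx with hx | hx
        · exact hlH x hx
        · exact hw x hx
      · exact hlH x hx
  rcases hprime l.prod l.prod hz with h1 | h1
  · exact hl0 h1
  · exact hl0 h1

end Zel60
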