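import Pool.Agent.Work.MP_b44cb1_al.Zel.HGFacts
import Pool.Agent.Work.MP_b44cb1_al.Zel.BC

/-!
# Zel/SandG (M) : `p(a) B p(a) = 0` in `B = A ⊗ G` for even `a`

(1) For `w : F` let `f_w = ev (fun i => X (2*i)) p * ev (fun i => X (2*i+1)) w * ev (fun i => X (2*i)) p`.
For `h : ℕ → A` with values in `H` : `ev h f_w = ev h' p * ev h'' w * ev h' p = 0` with
`h' i = h (2i)`, `h'' i = h (2i+1)` (`ev_comp`, `core.sand`). By `bc`, `ev q f_w = 0` for all `q` with
values in `HG H 0` (`g_central`).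
(2) Every `x ∈ A` is `ev h w` for some `w : F` and `h : ℕ → A` with values in `H` (`core.gen`;
`Algebra.adjoin_induction`; for sums and products merge two families with even and odd indices,
scalars: `algebraMap`). Apply (1) with `q (2i) = a i` and `q (2i+1) = h i ⊗ 1 ∈ HG H 0`:
`ev (fun i => h i ⊗ 1) w = (ev h w) ⊗ 1` (`Algebra.TensorProduct.includeLeft`, `ev_comp`). So
`P * (x ⊗ 1) * P = 0` for `P = ev a p`.
(3) `P` lies in the span of `x' ⊗ g` with `g ∈ Gp 0` (a subalgebra containing the `a i`), so `P`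
commutes with `1 ⊗ g'` for every `g'`. For `u = x ⊗ g'` : `P u P = P (x ⊗ 1) P (1 ⊗ g') = 0`; extend
linearly.
-/

set_option autoImplicit false

namespace Zel60

open scoped TensorProduct

private def mrg {B : Type*} (h h' : ℕ → B) : ℕ → B := fun k => if k % 2 = 0 then h (k / 2) else h' (k / 2)

private theorem mrg_even {B : Type*} (h h' : ℕ → B) (i : ℕ) : mrg h h' (2 * i) = h i := by
  have h1 : 2 * i % 2 = 0 := by omega
  have h2 : 2 * i / 2 = i := by omega
  rw [mrg, if_pos h1, h2]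

private theorem mrg_odd {B : Type*} (h h' : ℕ → B) (i : ℕ) : mrg h h' (2 * i + 1) = h' i := by
  have h1 : ¬ ((2 * i + 1) % 2 = 0) := by omega
  have h2 : (2 * i + 1) / 2 = i := by omega
  rw [mrg, if_neg h1, h2]

private theorem ev_evenX {B : Type*} [Ring B] [Algebra ℚ B] (q : ℕ → B) (w : F) :
    ev q (ev (fun i => X (2 * i)) w) = ev (fun i => q (2 * i)) w := by
  rw [ev_comp]
  congr 2
  funext i
  exact ev_X q (2 * i)

private theorem ev_oddX {B : Type*} [Ring B] [Algebra ℚ B] (q : ℕ → B) (w : F) :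
    ev q (ev (fun i => X (2 * i + 1)) w) = ev (fun i => q (2 * i + 1)) w := by
  rw [ev_comp]
  congr 2
  funext i
  exact ev_X q (2 * i + 1)

private theorem sg_rep {A : Type} [Ring A] [Algebra ℚ A] {H : Submodule ℚ A}
    (hgen : Algebra.adjoin ℚ (H : Set A) = ⊤) (x : A) :
    ∃ (w : F) (h : ℕ → A), (∀ i, h i ∈ H) ∧ x = ev h w := by
  have hx : x ∈ Algebra.adjoin ℚ (H : Set A) := by rw [hgen]; trivial
  refine Algebra.adjoin_induction
    (p := fun x _ => ∃ (w : F) (h : ℕ → A), (∀ i, h i ∈ H) ∧ x = ev h w) ?_ ?_ ?_ ?_ hx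
  · intro y hy
    exact ⟨X 0, fun _ => y, fun _ => hy, by rw [ev_X]⟩
  · intro r
    exact ⟨algebraMap ℚ F r, fun _ => 0, fun _ => H.zero_mem, by rw [AlgHom.commutes]⟩
  · rintro y z _ _ ⟨w, h, hh, rfl⟩ ⟨w', h', hh', rfl⟩
    refine ⟨ev (fun i => X (2 * i)) w + ev (fun i => X (2 * i + 1)) w', mrg h h', ?_, ?_⟩
    · intro i
      rw [mrg]
      split_ifs
      · exact hh _
      · exact hh' _
    · rw [map_add, ev_evenX, ev_oddX]
      simp only [mrg_even, mrg_odd]
  · rintro y z _ _ ⟨w, h, hh, rfl⟩ ⟨w', h', hh', rfl⟩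
    refine ⟨ev (fun i => X (2 * i)) w * ev (fun i => X (2 * i + 1)) w', mrg h h', ?_, ?_⟩
    · intro i
      rw [mrg]
      split_ifs
      · exact hh _
      · exact hh' _
    · rw [map_mul, ev_evenX, ev_oddX]
      simp only [mrg_even, mrg_odd]

private theorem sg_cent {A : Type} [Ring A] [Algebra ℚ A] {H : Submodule ℚ A}
    {z : A ⊗[ℚ] GG} (hz : z ∈ HG H 0) (g : GG) : Commute ((1 : A) ⊗ₜ[ℚ] g) z := by
  refine Submodule.span_induction (p := fun z _ => Commute ((1 : A) ⊗ₜ[ℚ] g) z) ?_ ?_ ?_ ?_ hz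
  · rintro _ ⟨h, _, g', hg', rfl⟩
    rw [commute_iff_eq, Algebra.TensorProduct.tmul_mul_tmul, Algebra.TensorProduct.tmul_mul_tmul,
      one_mul, mul_one, g_central hg' g]
  · exact Commute.zero_right _
  · intro x y _ _ hx hy
    exact hx.add_right hy
  · intro c x _ hx
    exact hx.smul_right c

private theorem sg_comm {A : Type} [Ring A] [Algebra ℚ A] {H : Submodule ℚ A}
    (a : ℕ → A ⊗[ℚ] GG) (ha : ∀ i, a i ∈ HG H 0) (g : GG) (w : F) :
    Commute ((1 : A) ⊗ₜ[ℚ] g) (ev a w) := by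
  induction w using FreeAlgebra.induction with
  | grade0 r =>
    rw [AlgHom.commutes]
    exact Algebra.commute_algebraMap_right r _
  | grade1 i =>
    have : ev a (FreeAlgebra.ι ℚ i) = a i := ev_X a i
    rw [this]
    exact sg_cent (ha i) g
  | mul x y hx hy =>
    rw [map_mul]
    exact hx.mul_right hy
  | add x y hx hy =>
    rw [map_add]
    exact hx.add_right hy

theorem sandG {n : ℕ} {A : Type} [Ring A] [Algebra ℚ A] {H : Submodule ℚ A} {p : F} {M : ℕ}
    (hc : Core n H p M) (a : ℕ → A ⊗[ℚ] GG) (ha : ∀ i, a i ∈ HG H 0) (u : A ⊗[ℚ] GG) :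
    ev a p * u * ev a p = 0 := by
  -- (1)
  have h1 : ∀ (w : F) (q : ℕ → A ⊗[ℚ] GG), (∀ i, q i ∈ HG H 0) →
      ev (fun i => q (2 * i)) p * ev (fun i => q (2 * i + 1)) w * ev (fun i => q (2 * i)) p = 0 := by
    intro w q hq
    have h2 := bc H (ev (fun i => X (2 * i)) p * ev (fun i => X (2 * i + 1)) w *
      ev (fun i => X (2 * i)) p) (by
        intro h hh
        rw [map_mul, map_mul, ev_evenX, ev_oddX]
        exact hc.sand (fun i => h (2 * i)) (fun i => hh _) _) q (by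
        intro i
        refine Submodule.span_mono ?_ (hq i)
        rintro z ⟨h, hh, g, hg, rfl⟩
        exact ⟨h, hh, g, fun c => g_central hg c, rfl⟩)
    rwa [map_mul, map_mul, ev_evenX, ev_oddX] at h2
  -- (2)
  have h2 : ∀ x : A, ev a p * (x ⊗ₜ[ℚ] (1 : GG)) * ev a p = 0 := by
    intro x
    obtain ⟨w, h, hh, rfl⟩ := sg_rep hc.gen x
    have h3 := h1 w (mrg a (fun i => h i ⊗ₜ[ℚ] (1 : GG))) (by
      intro i
      rw [mrg]
      split_ifs
      · exact ha _
      · exact HG_tmul (hh _) g_one)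
    simp only [mrg_even, mrg_odd] at h3
    have h4 : (ev h w) ⊗ₜ[ℚ] (1 : GG) = ev (fun i => h i ⊗ₜ[ℚ] (1 : GG)) w :=
      ev_comp (Algebra.TensorProduct.includeLeft : A →ₐ[ℚ] A ⊗[ℚ] GG) h w
    rw [h4]
    exact h3
  -- (3)
  have h3 : ∀ g : GG, Commute ((1 : A) ⊗ₜ[ℚ] g) (ev a p) := fun g => sg_comm a ha g p
  induction u using TensorProduct.induction_on with
  | zero => rw [mul_zero, zero_mul]
  | tmul x g =>
    have h4 : x ⊗ₜ[ℚ] g = (x ⊗ₜ[ℚ] (1 : GG)) * ((1 : A) ⊗ₜ[ℚ] g) := by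
      rw [Algebra.TensorProduct.tmul_mul_tmul, mul_one, one_mul]
    rw [h4, mul_assoc, mul_assoc, (h3 g).eq, ← mul_assoc, ← mul_assoc, h2 x, zero_mul]
  | add x y hx hy => rw [mul_add, add_mul, hx, hy, add_zero]

end Zel60
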