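import Pool.Agent.Work.MP_b44cb1_al.Zel.PrimeEx
import Pool.Agent.Work.MP_b44cb1_al.Zel.PrimeTriv

/-!
# Zel/Sandwich (S-M) : every nontrivial pair of index `n` has `p ≠ 0` with `p A p = 0`

Otherwise for every `p ≠ 0` there is `a` with `p * a * p ≠ 0`. Take `h ∈ H`, `h ≠ 0`, and define
`a 0 = h`, `a (i+1) = a i * r * a i ≠ 0`. `exists_prime_ideal` gives a two-sided ideal `P`,
`h ∉ P`, prime. `A' = A ⧸ P` (ring and rational algebra: `Ideal.Quotient.ring`, `Ideal.Quotient.algebra`,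
for an ideal with `[P.IsTwoSided]`), `H'` = image of `H`. Then `PairN n H'`, `H'` generates `A'`
(`AlgHom.map_adjoin` and surjectivity), `A'` is prime. By `prime_triv`, `H' = ⊥`, so `h ∈ P`.
-/

set_option autoImplicit false

namespace Zel60

theorem sandwich {n N : ℕ} (hn : 1 ≤ n) (hN : 1 ≤ N) (hS : SN (n - 1) N) {A : Type} [Ring A]
    [Algebra ℚ A] (H : Submodule ℚ A) (hp : PairN n H) (hg : Algebra.adjoin ℚ (H : Set A) = ⊤)
    (hH : H ≠ ⊥) : ∃ p : A, p ≠ 0 ∧ ∀ a : A, p * a * p = 0 := by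
  classical
  by_contra hcon
  push Not at hcon
  obtain ⟨h, hh, hh0⟩ := Submodule.exists_mem_ne_zero_of_ne_bot hH
  choose r hr using fun x : {x : A // x ≠ 0} => hcon x.1 x.2
  let b : ℕ → {x : A // x ≠ 0} := fun i =>
    Nat.rec ⟨h, hh0⟩ (fun _ x => ⟨x.1 * r x * x.1, hr x⟩) i
  obtain ⟨P, hP, hP0, hprime⟩ := exists_prime_ideal (fun i => (b i).1) (fun i => (b i).2)
    (fun i => ⟨r (b i), rfl⟩)
  let f : A →ₐ[ℚ] A ⧸ P := Ideal.Quotient.mkₐ ℚ P
  have hf : Function.Surjective f := Ideal.Quotient.mkₐ_surjective ℚ P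
  have hf0 : ∀ x, f x = 0 ↔ x ∈ P := fun x => by
    change Ideal.Quotient.mk P x = 0 ↔ _
    exact Ideal.Quotient.eq_zero_iff_mem
  let H' : Submodule ℚ (A ⧸ P) := H.map f.toLinearMap
  have hp' : PairN n H' := by
    constructor
    · rintro _ ⟨x, hx, rfl⟩ _ ⟨y, hy, rfl⟩
      refine ⟨x * y - y * x, hp.lie x hx y hy, ?_⟩
      change f (x * y - y * x) = f x * f y - f y * f x
      rw [map_sub, map_mul, map_mul]
    · rintro _ ⟨x, hx, rfl⟩
      change f x ^ n = 0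
      rw [← map_pow, hp.idx x hx, map_zero]
  have hg' : Algebra.adjoin ℚ (H' : Set (A ⧸ P)) = ⊤ := by
    have h1 : (H' : Set (A ⧸ P)) = f '' (H : Set A) := rfl
    rw [h1, ← AlgHom.map_adjoin, hg, Algebra.map_top]
    exact (AlgHom.range_eq_top f).2 hf
  have hprime' : ∀ a b : A ⧸ P, (∀ c, a * c * b = 0) → a = 0 ∨ b = 0 := by
    intro a b hab
    obtain ⟨x, rfl⟩ := hf a
    obtain ⟨y, rfl⟩ := hf b
    rw [hf0, hf0]
    refine hprime x y fun c => ?_
    rw [← hf0, map_mul, map_mul]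
    exact hab (f c)
  have hbot := prime_triv hn hN hS H' hp' hg' hprime'
  have h2 : f h ∈ H' := ⟨h, hh, rfl⟩
  rw [hbot, Submodule.mem_bot, hf0] at h2
  exact hP0 h2

end Zel60
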