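import Pool.Agent.Work.MP_b44cb1_al.Zel.HGFacts

/-!
# Zel/SignMove (S-M) : collecting Grassmann factors

`y r` homogeneous of parity `j r`, `g r` all of parity `i`. Moving the factors `1 ⊗ g r` to the right end
of the product `y 0 g_0 y 1 g_1 ...` produces a sign which depends only on `i` and the parities `j`.
Induction on `m` with `List.ofFn_succ` : the product is `y 0 * (1 ⊗ g 0) * P`, and by induction
`P = c' • (Y * (1 ⊗ Γ))` with `Y = y 1 ... y (m-1)` homogeneous of parity `J = sum_{r ≥ 1} j r`;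
`(1 ⊗ g 0) * Y = sg J i • (Y * (1 ⊗ g 0))` (`HG_swap`); so `c = c' * sg J i`, nonzero.
(Prove homogeneity of `Y` with the explicit parity by induction, from `HG_mul`.)
-/

set_option autoImplicit false

namespace Zel60

open scoped TensorProduct

private theorem prod_hom {A : Type} [Ring A] [Algebra ℚ A] (m : ℕ) (j : Fin m → ZMod 2)
    (y : Fin m → A ⊗[ℚ] GG) (hy : ∀ r, y r ∈ HG (⊤ : Submodule ℚ A) (j r)) :
    (List.ofFn y).prod ∈ HG (⊤ : Submodule ℚ A) (∑ r, j r) := by
  induction m with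
  | zero =>
    rw [List.ofFn_zero, List.prod_nil, Fin.sum_univ_zero]
    exact HG_one
  | succ m ih =>
    rw [List.ofFn_succ, List.prod_cons, Fin.sum_univ_succ]
    exact HG_mul (hy 0) (ih (fun r => j r.succ) (fun r => y r.succ) (fun r => hy r.succ))

private theorem sg_ne (i j : ZMod 2) : sg i j ≠ 0 := by
  unfold sg
  split_ifs <;> norm_num

theorem sign_move {A : Type} [Ring A] [Algebra ℚ A] (m : ℕ) (i : ZMod 2) (j : Fin m → ZMod 2) :
    ∃ c : ℚ, c ≠ 0 ∧ ∀ (y : Fin m → A ⊗[ℚ] GG) (g : Fin m → GG),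
      (∀ r, y r ∈ HG (⊤ : Submodule ℚ A) (j r)) → (∀ r, g r ∈ Gp i) →
      (List.ofFn (fun r => y r * ((1 : A) ⊗ₜ[ℚ] g r))).prod =
        c • ((List.ofFn y).prod * ((1 : A) ⊗ₜ[ℚ] (List.ofFn g).prod)) := by
  induction m with
  | zero =>
    refine ⟨1, one_ne_zero, fun y g _ _ => ?_⟩
    simp only [List.ofFn_zero, List.prod_nil, one_smul, one_mul]
    exact Algebra.TensorProduct.one_def
  | succ m ih =>
    obtain ⟨c, hc, h⟩ := ih (fun r => j r.succ)
    refine ⟨c * sg (∑ r : Fin m, j r.succ) i, mul_ne_zero hc (sg_ne _ _), fun y g hy hg => ?_⟩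
    rw [List.ofFn_succ, List.prod_cons, List.ofFn_succ, List.prod_cons, List.ofFn_succ,
      List.prod_cons, h (fun r => y r.succ) (fun r => g r.succ) (fun r => hy r.succ)
        (fun r => hg r.succ)]
    have hY := prod_hom m (fun r => j r.succ) (fun r => y r.succ) (fun r => hy r.succ)
    set Y := (List.ofFn (fun r => y r.succ)).prod
    set Γ := (List.ofFn (fun r => g r.succ)).prod
    have h1 : ((1 : A) ⊗ₜ[ℚ] (g 0 * Γ)) = ((1 : A) ⊗ₜ[ℚ] g 0) * ((1 : A) ⊗ₜ[ℚ] Γ) := by
      rw [Algebra.TensorProduct.tmul_mul_tmul, one_mul]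
    rw [h1, mul_smul_comm, mul_assoc (y 0), ← mul_assoc ((1 : A) ⊗ₜ[ℚ] g 0) Y, HG_swap hY (hg 0),
      smul_mul_assoc, mul_smul_comm, smul_smul]
    congr 1
    simp only [mul_assoc]

end Zel60
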