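import Pool.Agent.Work.MP_b44cb1_al.Zel.Defs2

/-!
# Zel/SuperNil (M-L) : super Lie algebras with nilpotent even part

`Q0, Q1` subspaces of the associative algebra `C`, `[x,y] = x y - y x`, `{x,y} = x y + y x`:
`[Q0,Q0] ⊆ Q0`, `[Q0,Q1] ⊆ Q1`, `{Q1,Q1} ⊆ Q0`, `Q0^M = 0`, alternating sums of `n` elements of `Q1`
vanish, and `[..[[x, q_1], q_2] .., q_p] = 0` for `x ∈ Q1`, `q_i ∈ Q0`. Then products of
`mm n M p` elements of `Q0 ⊔ Q1` vanish (`mm n M 0 = M`, `mm n M (p+1) = (n+1) M mm n M p`).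

Proof by induction on `p`. (If `M = 0` or `n = 0` then `1 = 0` in `C`, resp. the alternating sum of the
empty family is `1 = 0`, so `C` is trivial: everything is 0.)

`p = 0` : `Q1 = 0`, so `Q0 ⊔ Q1 = Q0`.

`p + 1` : let `R` = span of all `[x, q]`, `x ∈ Q1`, `q ∈ Q0` (`R ≤ Q1`), and `S0` = span of all
`{r, b}`, `r ∈ R`, `b ∈ Q1` (`S0 ≤ Q0`).
(a) `[R,Q0] ⊆ R`; `{R,Q1} ⊆ S0`; `[S0,Q1] ⊆ R` (as `S0 ≤ Q0`, up to sign); `[S0,Q0] ⊆ S0`, because
`[{r,b}, a] = {[r,a], b} + {r, [b,a]}` and `[r,a] ∈ R`, `[b,a] ∈ Q1`, `r ∈ R`.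
(b) The pair `(S0, R)` satisfies all hypotheses with `p` in place of `p + 1` :
`[S0,S0] ⊆ S0`, `[S0,R] ⊆ R`, `{R,R} ⊆ S0`, `S0^M = 0`, alternating sums, and an iterated
commutator of `[x,q] ∈ R` with `p` elements of `S0 ≤ Q0` is an iterated commutator of `x` with
`p + 1` elements of `Q0` (linear extension to the span). So with `m = mm n M p` products of `m`
elements of `S = S0 ⊔ R` vanish. (Apply the induction hypothesis for `S0`, `R`.)
(c) By (a), for `s ∈ S` homogeneous (in `S0` or `R`) and `q` homogeneous (in `Q0` or `Q1`):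
`q s = ± s q + s'` with `s' ∈ S0` or `s' ∈ R` (the bracket; it is homogeneous). So in a word of
homogeneous elements of `Q` the letters from `S` can be moved to the left; the number of letters
from `S` never changes. Hence every word with at least `m` letters from `S` is 0.
(d) Let `I_j` = span of all words in elements of `Q0 ∪ Q1` (with letters from `S0 ∪ R ⊆ Q0 ∪ Q1`
marked) having at least `j` marked letters. `I_i I_j ⊆ I_(i+j)`, `I_m = 0` by (c).
Claim: every word `w` of length `(n+1) * M` is in `I_1`. Modulo `I_1`, letters of `Q0` commute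
with letters of `Q1` (`[Q0,Q1] ⊆ R` up to sign). So modulo `I_1` one may collect: a word with at least
`M` letters from `Q0` is congruent to (product of its `Q0` letters in the same order) * (rest) and the
product of `M` elements of `Q0` is 0: it is in `I_1`. And `b_1 ... b_n` (`b_i ∈ Q1`) is a combination
of words with one letter `{b_i, b_j} ∈ Q0` and `n - 2` letters from `Q1` : in the alternating sum,
`b_(σ 1) ... b_(σ n)` and `sign σ • b_1 ... b_n` differ by such words (adjacent transpositions), so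
`n! • b_1 ... b_n` is such a combination (`n = 1` : then `b_1 = 0`). Now a word of length
`(n+1) M` with fewer than `M` letters from `Q0` has more than `n M` letters from `Q1`; modulo `I_1`
move the `Q0` letters to the left; in the first `n M` odd letters replace each of the `M` groups of
`n` consecutive letters: get words with at least `M` letters from `Q0`, in `I_1`.
(e) A product of `(n+1) M m` elements of `Q0 ⊔ Q1` is by multilinearity a sum of words of this length
in `Q0 ∪ Q1`, i.e. of products of `m` words of length `(n+1) M`, which lie in `I_1^m ⊆ I_m = 0`.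
-/

set_option autoImplicit false

namespace Zel60

theorem union_expand {C : Type*} [Ring C] [Algebra ℚ C] (Q0 Q1 BB : Submodule ℚ C) (N : ℕ)
    (h : ∀ l : List C, l.length = N → (∀ x ∈ l, x ∈ Q0 ∨ x ∈ Q1) → l.prod ∈ BB)
    (l2 : List C) : ∀ l1 : List C, l1.length + l2.length = N →
    (∀ x ∈ l1, x ∈ Q0 ∨ x ∈ Q1) → (∀ x ∈ l2, x ∈ Q0 ⊔ Q1) → (l1 ++ l2).prod ∈ BB := by
  induction l2 with
  | nil =>
    intro l1 hl h1 _
    rw [List.append_nil]
    exact h l1 (by simpa using hl) h1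
  | cons x l2 ih =>
    intro l1 hl h1 h2
    have hx : x ∈ Q0 ⊔ Q1 := h2 x (by simp)
    obtain ⟨a, ha, b, hb, rfl⟩ := Submodule.mem_sup.1 hx
    have e : (l1 ++ (a + b) :: l2).prod = ((l1 ++ [a]) ++ l2).prod + ((l1 ++ [b]) ++ l2).prod := by
      simp only [List.prod_append, List.prod_cons, List.prod_nil, mul_one]
      noncomm_ring
    rw [e]
    apply BB.add_mem
    · apply ih (l1 ++ [a])
      · simp at hl ⊢; omega
      · intro y hy
        rcases List.mem_append.1 hy with hy | hy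
        · exact h1 y hy
        · rw [List.mem_singleton] at hy; subst hy; exact Or.inl ha
      · intro y hy
        exact h2 y (List.mem_cons_of_mem _ hy)
    · apply ih (l1 ++ [b])
      · simp at hl ⊢; omega
      · intro y hy
        rcases List.mem_append.1 hy with hy | hy
        · exact h1 y hy
        · rw [List.mem_singleton] at hy; subst hy; exact Or.inr hb
      · intro y hy
        exact h2 y (List.mem_cons_of_mem _ hy)

/-- Modulo `BB`, products of `a` letters of `Q0` followed by `b` letters of `Q1`. -/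
def WW {C : Type*} [Ring C] [Algebra ℚ C] (Q0 Q1 BB : Submodule ℚ C) (a b : ℕ) : Submodule ℚ C :=
  BB ⊔ Submodule.span ℚ {z | ∃ u v : List C, u.length = a ∧ v.length = b ∧ (∀ x ∈ u, x ∈ Q0) ∧
    (∀ x ∈ v, x ∈ Q1) ∧ z = u.prod * v.prod}

section rel

variable {C : Type*} [Ring C] [Algebra ℚ C] {Q0 Q1 BB : Submodule ℚ C}

theorem WW_BB {a b : ℕ} {z : C} (hz : z ∈ BB) : z ∈ WW Q0 Q1 BB a b :=
  Submodule.mem_sup_left hz

theorem WW_gen {a b : ℕ} {u v : List C} (hu : u.length = a) (hv : v.length = b)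
    (hu' : ∀ x ∈ u, x ∈ Q0) (hv' : ∀ x ∈ v, x ∈ Q1) : u.prod * v.prod ∈ WW Q0 Q1 BB a b :=
  Submodule.mem_sup_right (Submodule.subset_span ⟨u, v, hu, hv, hu', hv', rfl⟩)

/-- a linear map which sends `BB` and the generators into `T` sends `WW` into `T`. -/
theorem WW_map {a b : ℕ} {T : Submodule ℚ C} (f : C →ₗ[ℚ] C) (hB : ∀ z ∈ BB, f z ∈ T)
    (hg : ∀ u v : List C, u.length = a → v.length = b → (∀ x ∈ u, x ∈ Q0) →
      (∀ x ∈ v, x ∈ Q1) → f (u.prod * v.prod) ∈ T) {z : C} (hz : z ∈ WW Q0 Q1 BB a b) :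
    f z ∈ T := by
  have : WW Q0 Q1 BB a b ≤ T.comap f := by
    rw [WW, sup_le_iff]
    refine ⟨fun z hz => hB z hz, ?_⟩
    rw [Submodule.span_le]
    rintro z ⟨u, v, h1, h2, h3, h4, rfl⟩
    exact hg u v h1 h2 h3 h4
  exact this hz

theorem WW_L0 (hl : ∀ q, (q ∈ Q0 ∨ q ∈ Q1) → ∀ z ∈ BB, q * z ∈ BB) {a b : ℕ} {q z : C}
    (hq : q ∈ Q0) (hz : z ∈ WW Q0 Q1 BB a b) : q * z ∈ WW Q0 Q1 BB (a + 1) b := by
  refine WW_map (LinearMap.mulLeft ℚ q) ?_ ?_ hz
  · intro z hz
    exact WW_BB (hl q (Or.inl hq) z hz)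
  · intro u v h1 h2 h3 h4
    have e : (LinearMap.mulLeft ℚ q) (u.prod * v.prod) = (q :: u).prod * v.prod := by
      simp [mul_assoc]
    rw [e]
    refine WW_gen (by simp [h1]) h2 ?_ h4
    intro x hx
    rcases List.mem_cons.1 hx with rfl | hx
    · exact hq
    · exact h3 x hx

theorem BB_list (hr : ∀ q, (q ∈ Q0 ∨ q ∈ Q1) → ∀ z ∈ BB, z * q ∈ BB) (l : List C)
    (hl : ∀ x ∈ l, x ∈ Q0 ∨ x ∈ Q1) : ∀ z ∈ BB, z * l.prod ∈ BB := by
  induction l with
  | nil => intro z hz; simpa using hz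
  | cons x l ih =>
    intro z hz
    rw [List.prod_cons, ← mul_assoc]
    exact ih (fun y hy => hl y (List.mem_cons_of_mem _ hy)) _ (hr x (hl x (by simp)) z hz)

theorem comm_list (hl : ∀ q, (q ∈ Q0 ∨ q ∈ Q1) → ∀ z ∈ BB, q * z ∈ BB)
    (hr : ∀ q, (q ∈ Q0 ∨ q ∈ Q1) → ∀ z ∈ BB, z * q ∈ BB)
    (hcom : ∀ x ∈ Q0, ∀ y ∈ Q1, y * x - x * y ∈ BB) {q : C} (hq : q ∈ Q1) (u : List C)
    (hu : ∀ x ∈ u, x ∈ Q0) : q * u.prod - u.prod * q ∈ BB := by
  induction u with
  | nil => simp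
  | cons x u ih =>
    have h1 := ih (fun y hy => hu y (List.mem_cons_of_mem _ hy))
    have e : q * (x :: u).prod - (x :: u).prod * q =
        (q * x - x * q) * u.prod + x * (q * u.prod - u.prod * q) := by
      rw [List.prod_cons]
      noncomm_ring
    rw [e]
    apply BB.add_mem
    · apply BB_list hr u (fun y hy => Or.inl (hu y (List.mem_cons_of_mem _ hy)))
      exact hcom x (hu x (by simp)) q hq
    · exact hl x (Or.inl (hu x (by simp))) _ h1

theorem WW_L1 (hl : ∀ q, (q ∈ Q0 ∨ q ∈ Q1) → ∀ z ∈ BB, q * z ∈ BB)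
    (hr : ∀ q, (q ∈ Q0 ∨ q ∈ Q1) → ∀ z ∈ BB, z * q ∈ BB)
    (hcom : ∀ x ∈ Q0, ∀ y ∈ Q1, y * x - x * y ∈ BB) {a b : ℕ} {q z : C}
    (hq : q ∈ Q1) (hz : z ∈ WW Q0 Q1 BB a b) : q * z ∈ WW Q0 Q1 BB a (b + 1) := by
  refine WW_map (LinearMap.mulLeft ℚ q) ?_ ?_ hz
  · intro z hz
    exact WW_BB (hl q (Or.inr hq) z hz)
  · intro u v h1 h2 h3 h4
    have e : (LinearMap.mulLeft ℚ q) (u.prod * v.prod) =
        (q * u.prod - u.prod * q) * v.prod + u.prod * (q :: v).prod := by
      rw [List.prod_cons, LinearMap.mulLeft_apply]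
      noncomm_ring
    rw [e]
    apply Submodule.add_mem
    · exact WW_BB (BB_list hr v (fun y hy => Or.inr (h4 y hy)) _
        (comm_list hl hr hcom hq u h3))
    · refine WW_gen h1 (by simp [h2]) h3 ?_
      intro x hx
      rcases List.mem_cons.1 hx with rfl | hx
      · exact hq
      · exact h4 x hx

theorem WW_R1 (hr : ∀ q, (q ∈ Q0 ∨ q ∈ Q1) → ∀ z ∈ BB, z * q ∈ BB) {a b : ℕ} {q z : C}
    (hq : q ∈ Q1) (hz : z ∈ WW Q0 Q1 BB a b) : z * q ∈ WW Q0 Q1 BB a (b + 1) := by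
  refine WW_map (LinearMap.mulRight ℚ q) ?_ ?_ hz
  · intro z hz
    exact WW_BB (hr q (Or.inr hq) z hz)
  · intro u v h1 h2 h3 h4
    have e : (LinearMap.mulRight ℚ q) (u.prod * v.prod) = u.prod * (v ++ [q]).prod := by
      simp [mul_assoc]
    rw [e]
    refine WW_gen h1 (by simp [h2]) h3 ?_
    intro x hx
    rcases List.mem_append.1 hx with hx | hx
    · exact h4 x hx
    · rw [List.mem_singleton] at hx; subst hx; exact hq

theorem WW_Rlist (hr : ∀ q, (q ∈ Q0 ∨ q ∈ Q1) → ∀ z ∈ BB, z * q ∈ BB) {a : ℕ} (v : List C)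
    (hv : ∀ x ∈ v, x ∈ Q1) : ∀ (b : ℕ) (z : C), z ∈ WW Q0 Q1 BB a b →
    z * v.prod ∈ WW Q0 Q1 BB a (b + v.length) := by
  induction v with
  | nil => intro b z hz; simpa using hz
  | cons x v ih =>
    intro b z hz
    rw [List.prod_cons, ← mul_assoc, List.length_cons]
    have := ih (fun y hy => hv y (List.mem_cons_of_mem _ hy)) (b + 1) (z * x)
      (WW_R1 hr (hv x (by simp)) hz)
    rwa [show b + (v.length + 1) = b + 1 + v.length from by ring]

theorem WW_Llist0 (hl : ∀ q, (q ∈ Q0 ∨ q ∈ Q1) → ∀ z ∈ BB, q * z ∈ BB) {a b : ℕ} {z : C}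
    (hz : z ∈ WW Q0 Q1 BB a b) (u : List C) (hu : ∀ x ∈ u, x ∈ Q0) :
    u.prod * z ∈ WW Q0 Q1 BB (a + u.length) b := by
  induction u with
  | nil => simpa using hz
  | cons x u ih =>
    rw [List.prod_cons, mul_assoc, List.length_cons]
    exact WW_L0 hl (hu x (by simp)) (ih (fun y hy => hu y (List.mem_cons_of_mem _ hy)))

theorem word_WW (hl : ∀ q, (q ∈ Q0 ∨ q ∈ Q1) → ∀ z ∈ BB, q * z ∈ BB)
    (hr : ∀ q, (q ∈ Q0 ∨ q ∈ Q1) → ∀ z ∈ BB, z * q ∈ BB)
    (hcom : ∀ x ∈ Q0, ∀ y ∈ Q1, y * x - x * y ∈ BB) (l : List C)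
    (h : ∀ x ∈ l, x ∈ Q0 ∨ x ∈ Q1) :
    ∃ a b, a + b = l.length ∧ l.prod ∈ WW Q0 Q1 BB a b := by
  induction l with
  | nil =>
    refine ⟨0, 0, rfl, ?_⟩
    have := WW_gen (Q0 := Q0) (Q1 := Q1) (BB := BB) (a := 0) (b := 0) (u := []) (v := []) rfl rfl
      (by simp) (by simp)
    simpa using this
  | cons x l ih =>
    obtain ⟨a, b, hab, hz⟩ := ih (fun y hy => h y (List.mem_cons_of_mem _ hy))
    rw [List.prod_cons, List.length_cons]
    rcases h x (by simp) with hx | hx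
    · exact ⟨a + 1, b, by omega, WW_L0 hl hx hz⟩
    · exact ⟨a, b + 1, by omega, WW_L1 hl hr hcom hx hz⟩

theorem adj_swap (hl : ∀ q, (q ∈ Q0 ∨ q ∈ Q1) → ∀ z ∈ BB, q * z ∈ BB)
    (hr : ∀ q, (q ∈ Q0 ∨ q ∈ Q1) → ∀ z ∈ BB, z * q ∈ BB)
    (hcom : ∀ x ∈ Q0, ∀ y ∈ Q1, y * x - x * y ∈ BB)
    (h11 : ∀ x ∈ Q1, ∀ y ∈ Q1, x * y + y * x ∈ Q0) (n : ℕ) :
    ∀ (i : Fin (n + 1)) (y : Fin (n + 2) → C), (∀ j, y j ∈ Q1) →
    (List.ofFn (fun j => y (Equiv.swap i.castSucc i.succ j))).prod + (List.ofFn y).prod ∈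
      WW Q0 Q1 BB 1 n := by
  induction n with
  | zero =>
    intro i y hy
    have hi : i = 0 := Fin.ext (by simp)
    subst hi
    have e : (List.ofFn (fun j => y (Equiv.swap (Fin.castSucc 0) (Fin.succ 0) j))).prod +
        (List.ofFn y).prod = ([y 0 * y 1 + y 1 * y 0] : List C).prod * ([] : List C).prod := by
      simp [List.ofFn_succ, Equiv.swap_apply_left, Equiv.swap_apply_right]
      abel
    rw [e]
    exact WW_gen rfl rfl (by simpa using h11 _ (hy 0) _ (hy 1)) (by simp)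
  | succ n ih =>
    intro i y hy
    refine Fin.cases ?_ (fun j => ?_) i
    · set v : List C := List.ofFn (fun j : Fin (n + 1) => y j.succ.succ) with hv
      have e : (List.ofFn (fun j => y (Equiv.swap (Fin.castSucc 0) (Fin.succ 0) j))).prod +
        (List.ofFn y).prod = ([y 0 * y 1 + y 1 * y 0] : List C).prod * v.prod := by
        have e1 : (List.ofFn (fun j => y (Equiv.swap (Fin.castSucc 0) (Fin.succ 0) j))) =
            y 1 :: y 0 :: v := by
          rw [List.ofFn_succ, List.ofFn_succ]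
          have a1 : Equiv.swap (Fin.castSucc (0 : Fin (n + 2))) (Fin.succ 0) 0 = 1 :=
            Equiv.swap_apply_left _ _
          have a2 : Equiv.swap (Fin.castSucc (0 : Fin (n + 2))) (Fin.succ 0) (Fin.succ 0) = 0 :=
            Equiv.swap_apply_right _ _
          have a3 : ∀ k : Fin (n + 1), Equiv.swap (Fin.castSucc (0 : Fin (n + 2))) (Fin.succ 0)
              k.succ.succ = k.succ.succ := by
            intro k
            apply Equiv.swap_apply_of_ne_of_ne
            · exact Fin.succ_ne_zero _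
            · intro hk
              exact Fin.succ_ne_zero _ (Fin.succ_injective _ hk)
          simp only [a1, a2, a3, hv]
        have e2 : List.ofFn y = y 0 :: y 1 :: v := by
          rw [List.ofFn_succ, List.ofFn_succ]
          rfl
        rw [e1, e2]
        simp only [List.prod_cons, List.prod_nil, mul_one]
        noncomm_ring
      rw [e]
      refine WW_gen rfl (by simp [hv]) (by simpa using h11 _ (hy 0) _ (hy 1)) ?_
      intro x hx
      rw [hv, List.mem_ofFn] at hx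
      obtain ⟨k, rfl⟩ := hx
      exact hy _
    · have h1 := ih j (fun k => y k.succ) (fun k => hy _)
      have e : (List.ofFn (fun k => y (Equiv.swap (Fin.castSucc j.succ) (Fin.succ j.succ) k))).prod +
        (List.ofFn y).prod = y 0 * ((List.ofFn (fun k => (fun k : Fin (n + 2) => y k.succ)
          (Equiv.swap j.castSucc j.succ k))).prod +
          (List.ofFn (fun k : Fin (n + 2) => y k.succ)).prod) := by
        have e1 : (List.ofFn (fun k => y (Equiv.swap (Fin.castSucc j.succ) (Fin.succ j.succ) k))) =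
            y 0 :: (List.ofFn (fun k => (fun k : Fin (n + 2) => y k.succ)
          (Equiv.swap j.castSucc j.succ k))) := by
          rw [List.ofFn_succ]
          have a1 : Equiv.swap (Fin.castSucc j.succ) (Fin.succ j.succ) 0 = 0 := by
            apply Equiv.swap_apply_of_ne_of_ne
            · rw [← Fin.succ_castSucc]
              exact (Fin.succ_ne_zero _).symm
            · exact (Fin.succ_ne_zero _).symm
          have a2 : ∀ k : Fin (n + 2), Equiv.swap (Fin.castSucc j.succ) (Fin.succ j.succ) k.succ =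
              (Equiv.swap j.castSucc j.succ k).succ := by
            intro k
            by_cases hk1 : k = j.castSucc
            · subst hk1
              rw [Equiv.swap_apply_left, ← Fin.succ_castSucc, Equiv.swap_apply_left]
            · by_cases hk2 : k = j.succ
              · subst hk2
                rw [Equiv.swap_apply_right, Equiv.swap_apply_right, Fin.succ_castSucc]
              · rw [Equiv.swap_apply_of_ne_of_ne hk1 hk2, Equiv.swap_apply_of_ne_of_ne]
                · intro h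
                  rw [← Fin.succ_castSucc] at h
                  exact hk1 (Fin.succ_injective _ h)
                · intro h
                  exact hk2 (Fin.succ_injective _ h)
          simp only [a1, a2]
        have e2 : List.ofFn y = y 0 :: List.ofFn (fun k : Fin (n + 2) => y k.succ) := by
          rw [List.ofFn_succ]
        rw [e1, e2]
        simp only [List.prod_cons]
        rw [mul_add]
      rw [e]
      exact WW_L1 hl hr hcom (hy 0) h1

theorem sign_WW (hl : ∀ q, (q ∈ Q0 ∨ q ∈ Q1) → ∀ z ∈ BB, q * z ∈ BB)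
    (hr : ∀ q, (q ∈ Q0 ∨ q ∈ Q1) → ∀ z ∈ BB, z * q ∈ BB)
    (hcom : ∀ x ∈ Q0, ∀ y ∈ Q1, y * x - x * y ∈ BB)
    (h11 : ∀ x ∈ Q1, ∀ y ∈ Q1, x * y + y * x ∈ Q0) (n : ℕ) (x : Fin (n + 2) → C)
    (hx : ∀ j, x j ∈ Q1) (σ : Equiv.Perm (Fin (n + 2))) :
    ((Equiv.Perm.sign σ : ℤ) : ℚ) • (List.ofFn (fun i => x (σ i))).prod - (List.ofFn x).prod ∈
      WW Q0 Q1 BB 1 n := by
  refine Submonoid.induction_of_closure_eq_top_right
    (motive := fun σ : Equiv.Perm (Fin (n + 2)) =>
      ((Equiv.Perm.sign σ : ℤ) : ℚ) • (List.ofFn (fun i => x (σ i))).prod - (List.ofFn x).prod ∈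
      WW Q0 Q1 BB 1 n) (Equiv.Perm.mclosure_swap_castSucc_succ (n + 1)) σ ?_ ?_
  · simp
  · rintro σ _ ⟨i, rfl⟩ ih
    have h1 := adj_swap hl hr hcom h11 n i (fun k => x (σ k)) (fun k => hx _)
    have hs : Equiv.Perm.sign (σ * Equiv.swap i.castSucc i.succ) = - Equiv.Perm.sign σ := by
      rw [Equiv.Perm.sign_mul, Equiv.Perm.sign_swap (by
        intro h
        have := congrArg Fin.val h
        simp at this)]
      simp
    have e : ((Equiv.Perm.sign (σ * Equiv.swap i.castSucc i.succ) : ℤ) : ℚ) •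
        (List.ofFn (fun k => x ((σ * Equiv.swap i.castSucc i.succ) k))).prod - (List.ofFn x).prod =
        (((Equiv.Perm.sign σ : ℤ) : ℚ) • (List.ofFn (fun i => x (σ i))).prod - (List.ofFn x).prod) -
        ((Equiv.Perm.sign σ : ℤ) : ℚ) • ((List.ofFn (fun j => (fun k => x (σ k))
          (Equiv.swap i.castSucc i.succ j))).prod + (List.ofFn (fun k => x (σ k))).prod) := by
      rw [hs]
      simp only [Equiv.Perm.coe_mul, Function.comp_apply]
      push_cast
      rw [smul_add, neg_smul]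
      abel
    rw [e]
    exact Submodule.sub_mem _ ih (Submodule.smul_mem _ _ h1)

theorem ofFn_WW (hl : ∀ q, (q ∈ Q0 ∨ q ∈ Q1) → ∀ z ∈ BB, q * z ∈ BB)
    (hr : ∀ q, (q ∈ Q0 ∨ q ∈ Q1) → ∀ z ∈ BB, z * q ∈ BB)
    (hcom : ∀ x ∈ Q0, ∀ y ∈ Q1, y * x - x * y ∈ BB)
    (h11 : ∀ x ∈ Q1, ∀ y ∈ Q1, x * y + y * x ∈ Q0) (n : ℕ)
    (halt : ∀ x : Fin (n + 2) → C, (∀ i, x i ∈ Q1) →
      ∑ σ : Equiv.Perm (Fin (n + 2)), ((Equiv.Perm.sign σ : ℤ) : ℚ) •
        (List.ofFn (fun i => x (σ i))).prod = 0)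
    (x : Fin (n + 2) → C) (hx : ∀ j, x j ∈ Q1) :
    (List.ofFn x).prod ∈ WW Q0 Q1 BB 1 n := by
  have h1 : ∑ σ : Equiv.Perm (Fin (n + 2)), (((Equiv.Perm.sign σ : ℤ) : ℚ) •
      (List.ofFn (fun i => x (σ i))).prod - (List.ofFn x).prod) ∈ WW Q0 Q1 BB 1 n :=
    Submodule.sum_mem _ (fun σ _ => sign_WW hl hr hcom h11 n x hx σ)
  rw [Finset.sum_sub_distrib, halt x hx, zero_sub, Finset.sum_const, Submodule.neg_mem_iff,
    Finset.card_univ, Fintype.card_perm, Fintype.card_fin, ← Nat.cast_smul_eq_nsmul ℚ] at h1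
  have hne : ((((n + 2).factorial : ℕ) : ℚ)) ≠ 0 := by
    exact_mod_cast (Nat.factorial_pos _).ne'
  have h2 := Submodule.smul_mem _ ((((n + 2).factorial : ℕ) : ℚ)⁻¹) h1
  rwa [smul_smul, inv_mul_cancel₀ hne, one_smul] at h2

theorem WW_step (hl : ∀ q, (q ∈ Q0 ∨ q ∈ Q1) → ∀ z ∈ BB, q * z ∈ BB)
    (hr : ∀ q, (q ∈ Q0 ∨ q ∈ Q1) → ∀ z ∈ BB, z * q ∈ BB)
    (hcom : ∀ x ∈ Q0, ∀ y ∈ Q1, y * x - x * y ∈ BB)
    (h11 : ∀ x ∈ Q1, ∀ y ∈ Q1, x * y + y * x ∈ Q0) (n : ℕ)
    (halt : ∀ x : Fin (n + 2) → C, (∀ i, x i ∈ Q1) →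
      ∑ σ : Equiv.Perm (Fin (n + 2)), ((Equiv.Perm.sign σ : ℤ) : ℚ) •
        (List.ofFn (fun i => x (σ i))).prod = 0)
    (a b : ℕ) (hb : n + 2 ≤ b) : WW Q0 Q1 BB a b ≤ WW Q0 Q1 BB (a + 1) (b - 2) := by
  intro z hz
  have := WW_map (T := WW Q0 Q1 BB (a + 1) (b - 2)) LinearMap.id (fun z hz => WW_BB hz) ?_ hz
  · exact this
  · intro u v h1 h2 h3 h4
    rw [LinearMap.id_apply]
    have ev : v = List.ofFn (fun i : Fin (n + 2) => v.get (Fin.cast h2.symm (Fin.castLE hb i))) ++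
        v.drop (n + 2) := by
      conv_lhs => rw [← List.take_append_drop (n + 2) v]
      congr 1
      apply List.ext_getElem
      · simp [h2, hb]
      · intro k hk1 hk2
        rw [List.getElem_ofFn, List.getElem_take]
        rfl
    have h5 := ofFn_WW hl hr hcom h11 n halt
      (fun i : Fin (n + 2) => v.get (Fin.cast h2.symm (Fin.castLE hb i)))
      (fun i => h4 _ (List.get_mem _ _))
    have h6 := WW_Rlist hr (v.drop (n + 2)) (fun x hx => h4 x (List.mem_of_mem_drop hx)) n _ h5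
    have h7 := WW_Llist0 hl h6 u h3
    rw [← List.prod_append, ← ev, h1] at h7
    have e1 : 1 + a = a + 1 := by ring
    have e2 : n + (v.drop (n + 2)).length = b - 2 := by
      rw [List.length_drop, h2]; omega
    rwa [e1, e2] at h7

theorem WW_le {M : ℕ} (hM : Nil (Q0 : Set C) M) (hl : ∀ q, (q ∈ Q0 ∨ q ∈ Q1) → ∀ z ∈ BB, q * z ∈ BB)
    (hr : ∀ q, (q ∈ Q0 ∨ q ∈ Q1) → ∀ z ∈ BB, z * q ∈ BB)
    (hcom : ∀ x ∈ Q0, ∀ y ∈ Q1, y * x - x * y ∈ BB)
    (h11 : ∀ x ∈ Q1, ∀ y ∈ Q1, x * y + y * x ∈ Q0) (n : ℕ)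
    (halt : ∀ x : Fin (n + 2) → C, (∀ i, x i ∈ Q1) →
      ∑ σ : Equiv.Perm (Fin (n + 2)), ((Equiv.Perm.sign σ : ℤ) : ℚ) •
        (List.ofFn (fun i => x (σ i))).prod = 0)
    (k : ℕ) : ∀ (a b : ℕ), M ≤ a + k → (n + 2) * k ≤ b → WW Q0 Q1 BB a b ≤ BB := by
  induction k with
  | zero =>
    intro a b ha _ z hz
    have := WW_map (T := BB) LinearMap.id (fun z hz => hz) ?_ hz
    · exact this
    · intro u v h1 h2 h3 h4
      have h0 : u.prod = 0 := (hM.mono (by simpa using ha)) u h1 h3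
      rw [LinearMap.id_apply, h0, zero_mul]
      exact BB.zero_mem
  | succ k ih =>
    intro a b ha hb
    have hb' : (n + 2) * (k + 1) = (n + 2) * k + (n + 2) := by ring
    refine (WW_step hl hr hcom h11 n halt a b (by omega)).trans (ih (a + 1) (b - 2) (by omega) ?_)
    omega

/-- Step (d). -/
theorem rel_nil (n M : ℕ) (hM : Nil (Q0 : Set C) M)
    (hl : ∀ q, (q ∈ Q0 ∨ q ∈ Q1) → ∀ z ∈ BB, q * z ∈ BB)
    (hr : ∀ q, (q ∈ Q0 ∨ q ∈ Q1) → ∀ z ∈ BB, z * q ∈ BB)
    (hcom : ∀ x ∈ Q0, ∀ y ∈ Q1, y * x - x * y ∈ BB)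
    (h11 : ∀ x ∈ Q1, ∀ y ∈ Q1, x * y + y * x ∈ Q0)
    (halt : ∀ x : Fin n → C, (∀ i, x i ∈ Q1) →
      ∑ σ : Equiv.Perm (Fin n), ((Equiv.Perm.sign σ : ℤ) : ℚ) •
        (List.ofFn (fun i => x (σ i))).prod = 0)
    (l : List C) (hlen : l.length = (n + 1) * M) (h : ∀ x ∈ l, x ∈ Q0 ∨ x ∈ Q1) :
    l.prod ∈ BB := by
  match n, halt, hlen with
  | 0, halt, hlen =>
    have h0 := halt (fun i => i.elim0) (fun i => i.elim0)
    have h1 : (1 : C) = 0 := by simpa using h0
    have : l.prod = 0 := by rw [← mul_one l.prod, h1, mul_zero]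
    rw [this]
    exact BB.zero_mem
  | 1, halt, hlen =>
    have hQ1 : ∀ y ∈ Q1, y = 0 := by
      intro y hy
      have h0 := halt (fun _ => y) (fun _ => hy)
      simpa using h0
    have : l.prod = 0 := by
      apply hM.mono (show M ≤ (1 + 1) * M by nlinarith [Nat.zero_le M]) l hlen
      intro x hx
      rcases h x hx with hx | hx
      · exact hx
      · rw [hQ1 x hx]
        exact Q0.zero_mem
    rw [this]
    exact BB.zero_mem
  | n + 2, halt, hlen =>
    obtain ⟨a, b, hab, hz⟩ := word_WW hl hr hcom l h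
    by_cases ha : M ≤ a
    · exact WW_le hM hl hr hcom h11 n halt 0 a b (by omega) (by omega) hz
    · have hb : (n + 2 + 1) * M = (n + 2) * M + M := by ring
      exact WW_le hM hl hr hcom h11 n halt M a b (by omega) (by omega) hz

end rel

/-- Products beginning with `k` letters of `S0 ∪ R`. -/
def JJ {C : Type*} [Ring C] [Algebra ℚ C] (S0 R : Submodule ℚ C) (k : ℕ) : Submodule ℚ C :=
  Submodule.span ℚ {w | ∃ (l : List C) (z : C), l.length = k ∧ (∀ x ∈ l, x ∈ S0 ∨ x ∈ R) ∧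
    w = l.prod * z}

section JJ

variable {C : Type*} [Ring C] [Algebra ℚ C] {Q0 Q1 S0 R : Submodule ℚ C}

theorem JJ_cons {k : ℕ} {s w : C} (hs : s ∈ S0 ∨ s ∈ R) (hw : w ∈ JJ S0 R k) :
    s * w ∈ JJ S0 R (k + 1) := by
  have : JJ S0 R k ≤ (JJ S0 R (k + 1)).comap (LinearMap.mulLeft ℚ s) := by
    rw [JJ, Submodule.span_le]
    rintro w ⟨l, z, hl, hx, rfl⟩
    refine Submodule.subset_span ⟨s :: l, z, by simp [hl], ?_, ?_⟩
    · intro x hx'
      rcases List.mem_cons.1 hx' with rfl | hx'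
      · exact hs
      · exact hx x hx'
    · simp [mul_assoc]
  exact this hw

theorem JJ_Q (h : ∀ q, (q ∈ Q0 ∨ q ∈ Q1) → ∀ s, (s ∈ S0 ∨ s ∈ R) →
      ∃ (c : ℚ) (s' : C), (s' ∈ S0 ∨ s' ∈ R) ∧ q * s = c • (s * q) + s')
    {q : C} (hq : q ∈ Q0 ∨ q ∈ Q1) {k : ℕ} {w : C} (hw : w ∈ JJ S0 R k) :
    q * w ∈ JJ S0 R k := by
  have key : ∀ (l : List C) (z : C), (∀ x ∈ l, x ∈ S0 ∨ x ∈ R) →
      q * (l.prod * z) ∈ JJ S0 R l.length := by
    intro l
    induction l with
    | nil =>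
      intro z _
      exact Submodule.subset_span ⟨[], q * z, rfl, by simp, by simp⟩
    | cons s l ih =>
      intro z hx
      have hs := hx s (by simp)
      have hl' : ∀ x ∈ l, x ∈ S0 ∨ x ∈ R := fun x hx' => hx x (List.mem_cons_of_mem _ hx')
      obtain ⟨c, s', hs', e⟩ := h q hq s hs
      have e2 : q * ((s :: l).prod * z) = c • (s * (q * (l.prod * z))) + s' * (l.prod * z) := by
        rw [List.prod_cons]
        calc q * (s * l.prod * z) = (q * s) * (l.prod * z) := by simp only [mul_assoc]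
          _ = _ := by
            rw [e, add_mul, smul_mul_assoc]
            simp only [mul_assoc]
      rw [e2, List.length_cons]
      apply Submodule.add_mem
      · exact Submodule.smul_mem _ _ (JJ_cons hs (ih z hl'))
      · exact JJ_cons hs' (Submodule.subset_span ⟨l, z, rfl, hl', rfl⟩)
  have : JJ S0 R k ≤ (JJ S0 R k).comap (LinearMap.mulLeft ℚ q) := by
    conv_lhs => rw [JJ]
    rw [Submodule.span_le]
    rintro w ⟨l, z, hl, hx, rfl⟩
    have := key l z hx
    rw [hl] at this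
    exact this
  exact this hw

/-- Elements which map `JJ k` to `JJ (k+1)`. -/
def BJ (S0 R : Submodule ℚ C) : Submodule ℚ C where
  carrier := {c | ∀ k, ∀ z ∈ JJ S0 R k, c * z ∈ JJ S0 R (k + 1)}
  zero_mem' := by
    intro k z _
    rw [zero_mul]
    exact Submodule.zero_mem _
  add_mem' := by
    intro a b ha hb k z hz
    rw [add_mul]
    exact Submodule.add_mem _ (ha k z hz) (hb k z hz)
  smul_mem' := by
    intro c a ha k z hz
    rw [smul_mul_assoc]
    exact Submodule.smul_mem _ _ (ha k z hz)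

theorem mem_BJ {c : C} : c ∈ BJ S0 R ↔ ∀ k, ∀ z ∈ JJ S0 R k, c * z ∈ JJ S0 R (k + 1) := Iff.rfl

theorem long_word {N : ℕ}
    (h : ∀ l : List C, l.length = N → (∀ x ∈ l, x ∈ Q0 ∨ x ∈ Q1) → l.prod ∈ BJ S0 R) (j : ℕ) :
    ∀ (l : List C), l.length = N * j → (∀ x ∈ l, x ∈ Q0 ∨ x ∈ Q1) →
    ∀ k, ∀ z ∈ JJ S0 R k, l.prod * z ∈ JJ S0 R (k + j) := by
  induction j with
  | zero =>
    intro l hl _ k z hz
    have : l = [] := List.length_eq_zero_iff.1 (by simpa using hl)
    subst this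
    simpa using hz
  | succ j ih =>
    intro l hl hx k z hz
    rw [← List.take_append_drop N l, List.prod_append, mul_assoc]
    have h1 := ih (l.drop N) (by rw [List.length_drop, hl, Nat.mul_succ]; omega)
      (fun x hx' => hx x (List.mem_of_mem_drop hx')) k z hz
    have h2 := h (l.take N) (by rw [List.length_take, hl, Nat.mul_succ]; omega)
      (fun x hx' => hx x (List.mem_of_mem_take hx'))
    exact h2 _ _ h1

end JJ

theorem foldl_lin {C : Type*} [Ring C] [Algebra ℚ C] (l : List C) :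
    ∃ f : C →ₗ[ℚ] C, ∀ x, f x = l.foldl (fun z q => z * q - q * z) x := by
  induction l with
  | nil => exact ⟨LinearMap.id, fun x => rfl⟩
  | cons q l ih =>
    obtain ⟨f, hf⟩ := ih
    refine ⟨f.comp (LinearMap.mulRight ℚ q - LinearMap.mulLeft ℚ q), fun x => ?_⟩
    rw [List.foldl_cons, ← hf]
    rfl

theorem super_nil {C : Type*} [Ring C] [Algebra ℚ C] (n M : ℕ) (p : ℕ) (Q0 Q1 : Submodule ℚ C)
    (h00 : ∀ x ∈ Q0, ∀ y ∈ Q0, x * y - y * x ∈ Q0)
    (h01 : ∀ x ∈ Q0, ∀ y ∈ Q1, x * y - y * x ∈ Q1)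
    (h11 : ∀ x ∈ Q1, ∀ y ∈ Q1, x * y + y * x ∈ Q0)
    (hM : Nil (Q0 : Set C) M)
    (halt : ∀ x : Fin n → C, (∀ i, x i ∈ Q1) →
      ∑ σ : Equiv.Perm (Fin n), ((Equiv.Perm.sign σ : ℤ) : ℚ) •
        (List.ofFn (fun i => x (σ i))).prod = 0)
    (hp : ∀ x ∈ Q1, ∀ l : List C, l.length = p → (∀ q ∈ l, q ∈ Q0) →
      l.foldl (fun z q => z * q - q * z) x = 0) :
    Nil ((Q0 ⊔ Q1 : Submodule ℚ C) : Set C) (mm n M p) := by
  induction p generalizing Q0 Q1 with
  | zero =>
    intro l hl hx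
    apply hM l hl
    intro x hx'
    have h1 : x ∈ Q0 ⊔ Q1 := hx x hx'
    obtain ⟨a, ha, b, hb, rfl⟩ := Submodule.mem_sup.1 h1
    have h2 : b = 0 := hp b hb [] rfl (by simp)
    rw [h2, add_zero]
    exact ha
  | succ p ih =>
    set R : Submodule ℚ C := Submodule.span ℚ {z | ∃ x ∈ Q1, ∃ q ∈ Q0, z = x * q - q * x} with hR
    set S0 : Submodule ℚ C := Submodule.span ℚ {z | ∃ r ∈ R, ∃ b ∈ Q1, z = r * b + b * r} with hS
    have hRQ : R ≤ Q1 := by
      rw [hR, Submodule.span_le]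
      rintro z ⟨x, hx, q, hq, rfl⟩
      have := Q1.neg_mem (h01 q hq x hx)
      rwa [neg_sub] at this
    have hSQ : S0 ≤ Q0 := by
      rw [hS, Submodule.span_le]
      rintro z ⟨r, hr, b, hb, rfl⟩
      exact h11 r (hRQ hr) b hb
    have hR0 : ∀ r ∈ Q1, ∀ q ∈ Q0, r * q - q * r ∈ R := fun r hr q hq =>
      Submodule.subset_span ⟨r, hr, q, hq, rfl⟩
    have hR0' : ∀ q ∈ Q0, ∀ r ∈ Q1, q * r - r * q ∈ R := fun q hq r hr => by
      have := R.neg_mem (hR0 r hr q hq)
      rwa [neg_sub] at this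
    have hR1 : ∀ r ∈ R, ∀ b ∈ Q1, r * b + b * r ∈ S0 := fun r hr b hb =>
      Submodule.subset_span ⟨r, hr, b, hb, rfl⟩
    have hS00 : ∀ s ∈ S0, ∀ a ∈ Q0, s * a - a * s ∈ S0 := by
      intro s hs a ha
      have : S0 ≤ S0.comap (LinearMap.mulRight ℚ a - LinearMap.mulLeft ℚ a) := by
        conv_lhs => rw [hS]
        rw [Submodule.span_le]
        rintro z ⟨r, hr, b, hb, rfl⟩
        have e : (LinearMap.mulRight ℚ a - LinearMap.mulLeft ℚ a) (r * b + b * r) =
            ((r * a - a * r) * b + b * (r * a - a * r)) +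
            (r * (b * a - a * b) + (b * a - a * b) * r) := by
          simp only [LinearMap.sub_apply, LinearMap.mulRight_apply, LinearMap.mulLeft_apply]
          noncomm_ring
        show (LinearMap.mulRight ℚ a - LinearMap.mulLeft ℚ a) (r * b + b * r) ∈ S0
        rw [e]
        apply S0.add_mem
        · exact hR1 _ (hR0 r (hRQ hr) a ha) b hb
        · exact hR1 r hr _ (hRQ (hR0 b hb a ha))
      exact this hs
    have IH : Nil ((S0 ⊔ R : Submodule ℚ C) : Set C) (mm n M p) := by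
      apply ih S0 R
      · exact fun x hx y hy => hS00 x hx y (hSQ hy)
      · exact fun x hx y hy => hR0' x (hSQ hx) y (hRQ hy)
      · exact fun x hx y hy => hR1 x hx y (hRQ hy)
      · exact fun l hl hx => hM l hl (fun x hx' => hSQ (hx x hx'))
      · exact fun x hx => halt x (fun i => hRQ (hx i))
      · intro x hx l hl hq
        obtain ⟨f, hf⟩ := foldl_lin l
        have : R ≤ LinearMap.ker f := by
          rw [hR, Submodule.span_le]
          rintro z ⟨y, hy, q, hq', rfl⟩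
          rw [SetLike.mem_coe, LinearMap.mem_ker, hf]
          have := hp y hy (q :: l) (by simp [hl]) (by
            intro q' hq''
            rcases List.mem_cons.1 hq'' with rfl | hq''
            · exact hq'
            · exact hSQ (hq _ hq''))
          rwa [List.foldl_cons] at this
        have := this hx
        rwa [LinearMap.mem_ker, hf] at this
    have hbr : ∀ q, (q ∈ Q0 ∨ q ∈ Q1) → ∀ s, (s ∈ S0 ∨ s ∈ R) →
      ∃ (c : ℚ) (s' : C), (s' ∈ S0 ∨ s' ∈ R) ∧ q * s = c • (s * q) + s' := by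
      intro q hq s hs
      rcases hq with hq | hq
      · rcases hs with hs | hs
        · refine ⟨1, q * s - s * q, Or.inl ?_, by simp⟩
          have := S0.neg_mem (hS00 s hs q hq)
          rwa [neg_sub] at this
        · exact ⟨1, q * s - s * q, Or.inr (hR0' q hq s (hRQ hs)), by simp⟩
      · rcases hs with hs | hs
        · exact ⟨1, q * s - s * q, Or.inr (hR0 q hq s (hSQ hs)), by simp⟩
        · refine ⟨-1, s * q + q * s, Or.inl (hR1 s hs q hq), by simp⟩
    have hrel : ∀ l : List C, l.length = (n + 1) * M → (∀ x ∈ l, x ∈ Q0 ∨ x ∈ Q1) →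
        l.prod ∈ BJ S0 R := by
      intro l hl hx
      refine rel_nil (Q0 := Q0) (Q1 := Q1) (BB := BJ S0 R) n M hM ?_ ?_ ?_ h11 halt l hl hx
      · intro q hq z hz k w hw
        rw [mul_assoc]
        exact JJ_Q hbr hq (hz k w hw)
      · intro q hq z hz k w hw
        rw [mul_assoc]
        exact hz k _ (JJ_Q hbr hq hw)
      · intro x hx y hy k w hw
        exact JJ_cons (Or.inr (hR0 y hy x hx)) hw
    have hbot : ∀ w ∈ JJ S0 R (mm n M p), w = 0 := by
      intro w hw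
      have : JJ S0 R (mm n M p) ≤ ⊥ := by
        rw [JJ, Submodule.span_le]
        rintro w ⟨l, z, hl, hx, rfl⟩
        have : l.prod = 0 := IH l hl (fun x hx' => by
          rcases hx x hx' with h | h
          · exact Submodule.mem_sup_left h
          · exact Submodule.mem_sup_right h)
        simp [this]
      simpa using this hw
    have hfin : ∀ l : List C, l.length = mm n M (p + 1) → (∀ x ∈ l, x ∈ Q0 ∨ x ∈ Q1) →
        l.prod ∈ (⊥ : Submodule ℚ C) := by
      intro l hl hx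
      have h1 := long_word hrel (mm n M p) l hl hx 0 1
        (Submodule.subset_span ⟨[], 1, rfl, by simp, by simp⟩)
      rw [zero_add, mul_one] at h1
      rw [Submodule.mem_bot]
      exact hbot _ h1
    intro l hl hx
    have := union_expand Q0 Q1 ⊥ _ hfin l [] (by simpa using hl) (by simp) hx
    simpa using this

end Zel60
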