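import Pool.Agent.Work.MP_b44cb1_al.Zel.PermSum
import Pool.Agent.Work.MP_b44cb1_al.Zel.SignMove
import Pool.Agent.Work.MP_b44cb1_al.Zel.GProd
import Pool.Agent.Work.MP_b44cb1_al.Zel.Fresh

/-!
# Zel/SymAlt (M-L) : substitution of one even or odd letter in `N` slots

Setting: `PP H D (i+1) N` holds; a list `ξ` of `i` homogeneous letters; positions `Fin m`; at the
positions `r ∈ s` the factor is `φ_r(a) = ξ.prod * (a ⊗ 1) * ((c r).prod ⊗ 1)` with a letter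
`a ∈ H`, at the other positions `φ_r = b r` (not depending on `a`). `Phi ξ b s c z` is the product
of the factors `φ_r (z r)`. Let `R ⊆ s`, `R.card = N`. Claim: the symmetrisation and the alternation
of `Phi ξ b s c (x ∘ σ)` over `σ ∈ SP R` vanish.

Proof. All factors are homogeneous; the parity `j r` of `φ_r(a)` does not depend on `a` (parity of
`ξ.prod` for `r ∈ s`, parity of `b r` otherwise; write parity of `ξ.prod` as a fixed `j0` with
`ξ.prod ∈ HG ⊤ j0`, `HG_prod`; `HG_mono`, `HG_mul`, `HG_tmul`).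
Two cases, the same proof: ODD case: `g q = ge q` (`q < m`), `K = m`, parity 1. EVEN case:
`g q = ee q`, `K = 2 m`, parity 0. `Γ(κ) = product of g (κ r), r = 0..m-1`.
Put `ξ' = ξ.map (shA A K)`, `z0 = sum_{q ∈ R} x q ⊗ g q ∈ HG H 0` or `HG H 1` (`HG_tmul`),
`y r q = shA A K (φ_r (x q))`. Define the list of factors
`b' r = sum_{q ∈ A r} y r q * (1 ⊗ g q)`, `A r = R` if `r ∈ R` and `A r = {r}` otherwise.
For `r ∈ R` : `b' r = ξ'.prod * z0 * ((c r).prod ⊗ 1)`, because `(c r).prod ⊗ 1` commutes with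
`1 ⊗ g q` and `shA A K (a ⊗ 1) = a ⊗ 1`; this is a block `IsBlk H (ξ' ++ [z0]) (D - (i+1))`. For
`r ∉ R` : `b' r = shA A K (φ_r (x r)) * (1 ⊗ g r)`, homogeneous. So all `b' r` are homogeneous
(for `r ∈ R` : product of homogeneous elements) and `hPP` (letters `ξ' ++ [z0]`, of length `i + 1`, each in
some `HG H j` by `shA_HG`) applied to `b'`, `s := R` gives `(List.ofFn b').prod = 0`.
Expand with `list_expand`, then `sign_move` (constant `c0 ≠ 0`, the same for all `κ`, since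
`y r (κ r) ∈ HG ⊤ (j r)`): the product is
`sum_κ c0 • (prod_r y r (κ r)) * (1 ⊗ Γ(κ))`, `κ ∈ piFinset A`. `Γ(κ) = 0` if `κ` is not injective
(`gprod_odd_zero`, `gprod_even_zero`); for `κ = σ ∈ SP R` : `Γ(σ) = sign σ • gprod m`, respectively
`gprod (2m)`. By `perm_sum`, with `prod_r y r (σ r) = shA A K (Phi ξ b s c (x ∘ σ))` (for `r ∉ s`
both are `b r`):
`0 = c0 • shA A K (sum_{σ ∈ SP R} (sign σ) • Phi ξ b s c (x ∘ σ)) * (1 ⊗ gprod K)`. `fresh` finishes.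
-/

set_option autoImplicit false

namespace Zel60

open scoped TensorProduct

private theorem core_case {A : Type} [Ring A] [Algebra ℚ A] {H : Submodule ℚ A} {D i N : ℕ}
    (hPP : PP H D (i + 1) N) (ξ : List (A ⊗[ℚ] GG)) (hξ : ξ.length = i)
    (hξH : ∀ x ∈ ξ, ∃ j, x ∈ HG H j) (m : ℕ) (b : Fin m → A ⊗[ℚ] GG)
    (hb : ∀ r, ∃ j, b r ∈ HG (⊤ : Submodule ℚ A) j) (s : Finset (Fin m)) (c : Fin m → List A)
    (hc : ∀ r, (c r).length = D - (i + 1)) (hcH : ∀ r, ∀ a ∈ c r, a ∈ H) (x : Fin m → A)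
    (hx : ∀ r, x r ∈ H) (R : Finset (Fin m)) (hRs : R ⊆ s) (hR : R.card = N)
    (g : ℕ → GG) (K : ℕ) (par : ZMod 2) (w : Equiv.Perm (Fin m) → ℚ) (hg : ∀ q, g q ∈ Gp par)
    (hzero : ∀ κ : Fin m → Fin m, ¬ Function.Injective κ →
      (List.ofFn (fun r => g (κ r : ℕ))).prod = 0)
    (hperm : ∀ σ : Equiv.Perm (Fin m), (List.ofFn (fun r => g (σ r : ℕ))).prod = w σ • gprod K) :
    ∑ σ ∈ SP R, w σ • Phi ξ b s c (fun r => x (σ r)) = 0 := by
  classical
  have hξT : ∀ x ∈ ξ, ∃ j, x ∈ HG (⊤ : Submodule ℚ A) j := fun x hx => by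
    obtain ⟨j, hj⟩ := hξH x hx
    exact ⟨j, HG_mono le_top j hj⟩
  obtain ⟨j0, hj0⟩ := HG_prod hξT
  choose jb hjb using hb
  let φ : Fin m → A → A ⊗[ℚ] GG := fun r a => if r ∈ s then
    ξ.prod * (a ⊗ₜ[ℚ] (1 : GG)) * ((c r).prod ⊗ₜ[ℚ] (1 : GG)) else b r
  let jφ : Fin m → ZMod 2 := fun r => if r ∈ s then j0 else jb r
  have hφ : ∀ r a, φ r a ∈ HG (⊤ : Submodule ℚ A) (jφ r) := by
    intro r a
    by_cases hr : r ∈ s
    · simp only [φ, jφ, if_pos hr]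
      have h1 := HG_mul (HG_mul hj0 (HG_tmul (h := a) (Submodule.mem_top (R := ℚ)) g_one))
        (HG_tmul (h := (c r).prod) (Submodule.mem_top (R := ℚ)) g_one)
      rw [add_zero, add_zero] at h1
      exact h1
    · simp only [φ, jφ, if_neg hr]
      exact hjb r
  let y : Fin m → Fin m → A ⊗[ℚ] GG := fun r q => shA A K (φ r (x q))
  have hy : ∀ r q, y r q ∈ HG (⊤ : Submodule ℚ A) (jφ r) := fun r q => shA_HG K (hφ r (x q))
  let AA : Fin m → Finset (Fin m) := fun r => if r ∈ R then R else {r}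
  let b' : Fin m → A ⊗[ℚ] GG := fun r => ∑ q ∈ AA r, y r q * ((1 : A) ⊗ₜ[ℚ] g (q : ℕ))
  have hb' : ∀ r, ∃ j, b' r ∈ HG (⊤ : Submodule ℚ A) j := fun r =>
    ⟨jφ r + par, Submodule.sum_mem _ fun q _ =>
      HG_mul (hy r q) (HG_tmul (Submodule.mem_top (R := ℚ)) (hg q))⟩
  let z0 : A ⊗[ℚ] GG := ∑ q ∈ R, x q ⊗ₜ[ℚ] g (q : ℕ)
  have hz0 : z0 ∈ HG H par := Submodule.sum_mem _ fun q _ => HG_tmul (hx q) (hg q)
  have h0 : (List.ofFn b').prod = 0 := by
    refine hPP (ξ.map (shA A K) ++ [z0]) (by simp [hξ]) ?_ m b' hb' R hR.ge ?_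
    · intro z hz
      rcases List.mem_append.1 hz with hz | hz
      · obtain ⟨z', hz', rfl⟩ := List.mem_map.1 hz
        obtain ⟨j, hj⟩ := hξH z' hz'
        exact ⟨j, shA_HG K hj⟩
      · rw [List.mem_singleton.1 hz]
        exact ⟨par, hz0⟩
    · intro r hr
      refine ⟨c r, hc r, hcH r, ?_⟩
      have h1 : AA r = R := if_pos hr
      have h2 : ∀ q, y r q * ((1 : A) ⊗ₜ[ℚ] g (q : ℕ)) =
          shA A K ξ.prod * (x q ⊗ₜ[ℚ] g (q : ℕ)) * ((c r).prod ⊗ₜ[ℚ] (1 : GG)) := by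
        intro q
        have h3 : φ r (x q) = ξ.prod * (x q ⊗ₜ[ℚ] (1 : GG)) * ((c r).prod ⊗ₜ[ℚ] (1 : GG)) :=
          if_pos (hRs hr)
        show shA A K (φ r (x q)) * _ = _
        rw [h3, map_mul, map_mul, shA_tmul, shA_tmul, map_one, mul_assoc, mul_assoc, mul_assoc]
        congr 1
        simp only [Algebra.TensorProduct.tmul_mul_tmul, mul_one, one_mul]
      show ∑ q ∈ AA r, y r q * ((1 : A) ⊗ₜ[ℚ] g (q : ℕ)) = _
      rw [h1, Finset.sum_congr rfl fun q _ => h2 q, ← Finset.sum_mul, ← Finset.mul_sum,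
        List.prod_append, List.prod_singleton, map_list_prod]
  obtain ⟨c0, hc0, hmove⟩ := sign_move (A := A) m par jφ
  have h1 := list_expand AA (fun r q => y r q * ((1 : A) ⊗ₜ[ℚ] g (q : ℕ)))
  rw [show (List.ofFn (fun r => ∑ q ∈ AA r, y r q * ((1 : A) ⊗ₜ[ℚ] g (q : ℕ)))).prod = 0 from h0]
    at h1
  have h2 : ∀ f : Fin m → Fin m,
      (List.ofFn (fun r => y r (f r) * ((1 : A) ⊗ₜ[ℚ] g (f r : ℕ)))).prod =
      c0 • ((List.ofFn (fun r => y r (f r))).prod *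
        ((1 : A) ⊗ₜ[ℚ] (List.ofFn (fun r => g (f r : ℕ))).prod)) := fun f =>
    hmove (fun r => y r (f r)) (fun r => g (f r : ℕ)) (fun r => hy r (f r)) (fun r => hg _)
  rw [Finset.sum_congr rfl fun f _ => h2 f] at h1
  rw [perm_sum R (fun f : Fin m → Fin m => c0 • ((List.ofFn (fun r => y r (f r))).prod *
        ((1 : A) ⊗ₜ[ℚ] (List.ofFn (fun r => g (f r : ℕ))).prod))) (fun κ hκ => by
          rw [hzero κ hκ, TensorProduct.tmul_zero, mul_zero, smul_zero])] at h1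
  have h3 : ∀ σ : Equiv.Perm (Fin m), (List.ofFn (fun r => y r (σ r))).prod =
      shA A K (Phi ξ b s c (fun r => x (σ r))) := by
    intro σ
    rw [Phi, map_list_prod, List.map_ofFn]
    rfl
  have h4 : shA A K (∑ σ ∈ SP R, w σ • Phi ξ b s c (fun r => x (σ r))) *
      ((1 : A) ⊗ₜ[ℚ] gprod K) = 0 := by
    have h5 : c0 • (shA A K (∑ σ ∈ SP R, w σ • Phi ξ b s c (fun r => x (σ r))) *
      ((1 : A) ⊗ₜ[ℚ] gprod K)) = 0 := by
      rw [map_sum, Finset.sum_mul, Finset.smul_sum, h1]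
      refine Finset.sum_congr rfl fun σ _ => ?_
      rw [hperm σ, h3 σ, TensorProduct.tmul_smul, mul_smul_comm, map_smul, smul_mul_assoc]
    exact (smul_eq_zero.1 h5).resolve_left hc0
  exact fresh K _ h4

theorem sym_alt {A : Type} [Ring A] [Algebra ℚ A] {H : Submodule ℚ A} {D i N : ℕ}
    (hPP : PP H D (i + 1) N) (hi : i < D) (ξ : List (A ⊗[ℚ] GG)) (hξ : ξ.length = i)
    (hξH : ∀ x ∈ ξ, ∃ j, x ∈ HG H j) (m : ℕ) (b : Fin m → A ⊗[ℚ] GG)
    (hb : ∀ r, ∃ j, b r ∈ HG (⊤ : Submodule ℚ A) j) (s : Finset (Fin m)) (c : Fin m → List A)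
    (hc : ∀ r, (c r).length = D - (i + 1)) (hcH : ∀ r, ∀ a ∈ c r, a ∈ H) (x : Fin m → A)
    (hx : ∀ r, x r ∈ H) (R : Finset (Fin m)) (hRs : R ⊆ s) (hR : R.card = N) :
    (∑ σ ∈ SP R, Phi ξ b s c (fun r => x (σ r)) = 0) ∧
      ∑ σ ∈ SP R, (Equiv.Perm.sign σ : ℤ) • Phi ξ b s c (fun r => x (σ r)) = 0 := by
  constructor
  · have h := core_case hPP ξ hξ hξH m b hb s c hc hcH x hx R hRs hR ee (2 * m) 0 (fun _ => 1)
      ee_mem (fun κ hκ => gprod_even_zero m κ hκ) (fun σ => by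
        rw [one_smul]
        exact gprod_even_perm m σ)
    simp only [one_smul] at h
    exact h
  · have h := core_case hPP ξ hξ hξH m b hb s c hc hcH x hx R hRs hR ge m 1
      (fun σ => ((Equiv.Perm.sign σ : ℤ) : ℚ)) ge_mem (fun κ hκ => gprod_odd_zero m κ hκ)
      (fun σ => gprod_odd_perm m σ)
    simp only [Int.cast_smul_eq_zsmul] at h
    exact h

end Zel60
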