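import Pool.Agent.Work.MP_b44cb1_al.Zel.Defs

/-!
# Zel/TPair (M) : the pair of a T-ideal

`A = F ⧸ T` (two-sided ideal: build `T.IsTwoSided` from `hT.two`; `Ideal.Quotient.ring`,
`Ideal.Quotient.algebra`, `Ideal.Quotient.mkₐ`), `π` the projection, `H` = image of `LX`.
* `PairN n H` : commutators by `LX_lie`; `x^n ∈ T` for `x ∈ LX` by `hT.idx`.
* `H` generates `A` : the adjoin contains `π (X i)`; `FreeAlgebra.adjoin_range_ι` (or
  `FreeAlgebra.induction`) and surjectivity.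
* not nilpotent: if `Nil H N` then `π (mon N) = 0` (`mon N` is a product of `N` letters
  `X i ∈ LX`), so `mon N ∈ T`.
-/

set_option autoImplicit false

namespace Zel60

private theorem tp_aux {n : ℕ} (T : Ideal F) (hT : TI n T) (hmon : ∀ M, mon M ∉ T)
    {A : Type} [Ring A] [Algebra ℚ A] (π : F →ₐ[ℚ] A) (hπ : Function.Surjective π)
    (hker : ∀ f, π f = 0 ↔ f ∈ T) :
    PairN n (LX.map π.toLinearMap) ∧
      Algebra.adjoin ℚ ((LX.map π.toLinearMap : Submodule ℚ A) : Set A) = ⊤ ∧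
      ∀ N, ¬ Nil ((LX.map π.toLinearMap : Submodule ℚ A) : Set A) N := by
  have hX : ∀ i, π (X i) ∈ LX.map π.toLinearMap := fun i => ⟨X i, X_mem i, rfl⟩
  refine ⟨⟨?_, ?_⟩, ?_, ?_⟩
  · rintro _ ⟨x, hx, rfl⟩ _ ⟨y, hy, rfl⟩
    refine ⟨x * y - y * x, LX_lie hx hy, ?_⟩
    change π (x * y - y * x) = π x * π y - π y * π x
    rw [map_sub, map_mul, map_mul]
  · rintro _ ⟨x, hx, rfl⟩
    change π x ^ n = 0
    rw [← map_pow, hker]
    exact hT.idx x hx
  · rw [eq_top_iff]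
    rintro a -
    obtain ⟨f, rfl⟩ := hπ a
    induction f using FreeAlgebra.induction with
    | grade0 r =>
      rw [AlgHom.commutes]
      exact Subalgebra.algebraMap_mem _ r
    | grade1 i => exact Algebra.subset_adjoin (hX i)
    | mul x y hx hy =>
      rw [map_mul]
      exact mul_mem hx hy
    | add x y hx hy =>
      rw [map_add]
      exact add_mem hx hy
  · intro N hN
    apply hmon N
    rw [← hker, mon, map_list_prod, List.map_ofFn]
    refine hN _ (List.length_ofFn) ?_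
    intro x hx
    rw [List.mem_ofFn] at hx
    obtain ⟨i, rfl⟩ := hx
    exact hX _

theorem T_pair {n : ℕ} (T : Ideal F) (hT : TI n T) (hmon : ∀ M, mon M ∉ T) :
    ∃ (A : Type) (_ : Ring A) (_ : Algebra ℚ A) (π : F →ₐ[ℚ] A), Function.Surjective π ∧
      (∀ f, π f = 0 ↔ f ∈ T) ∧ PairN n (LX.map π.toLinearMap) ∧
      Algebra.adjoin ℚ ((LX.map π.toLinearMap : Submodule ℚ A) : Set A) = ⊤ ∧
      ∀ N, ¬ Nil ((LX.map π.toLinearMap : Submodule ℚ A) : Set A) N := by
  have : T.IsTwoSided := ⟨fun {a} b ha => hT.two a ha b⟩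
  have hπ : Function.Surjective (Ideal.Quotient.mkₐ ℚ T) := Ideal.Quotient.mkₐ_surjective ℚ T
  have hker : ∀ f, Ideal.Quotient.mkₐ ℚ T f = 0 ↔ f ∈ T := fun f => by
    change Ideal.Quotient.mk T f = 0 ↔ _
    exact Ideal.Quotient.eq_zero_iff_mem
  exact ⟨F ⧸ T, inferInstance, inferInstance, Ideal.Quotient.mkₐ ℚ T, hπ, hker,
    tp_aux T hT hmon _ hπ hker⟩

end Zel60
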