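import Pool.Agent.Work.MP_b44cb1_al.Zel.Defs

/-!
# Zel/TSubst (S-M) : substitution in `p w p`

(1) There is `s` such that `p` lies in the subalgebra generated by `X 0, ..., X (s-1)`
(`FreeAlgebra.induction`).
(2) Put `c i = b i` for `i < s` and `c i = X (i - s)` for `i ≥ s`. All `c i ∈ LX`. `ev c p = ev b p`,
because the two algebra homomorphisms agree on `X i`, `i < s` (`Algebra.adjoin` /
`AlgHom.eqOn_adjoin_iff` or induction). With `w' = ev (fun i => X (i + s)) w` we have
`ev c w' = ev (fun i => c (i + s)) w = ev X w = w` (`ev_comp`).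
(3) `ev c (p * w' * p) = ev b p * w * ev b p ∈ T` by `hT.subst`.
-/

set_option autoImplicit false

namespace Zel60

private theorem exists_sup (p : F) : ∃ s : ℕ, ∀ b c : ℕ → F, (∀ i, i < s → b i = c i) →
    ev b p = ev c p := by
  induction p using FreeAlgebra.induction with
  | grade0 r => exact ⟨0, fun b c _ => by simp [ev]⟩
  | grade1 i =>
    refine ⟨i + 1, fun b c h => ?_⟩
    have := h i (Nat.lt_succ_self i)
    simpa [ev] using this
  | mul a b ha hb =>
    obtain ⟨s, hs⟩ := ha
    obtain ⟨t, ht⟩ := hb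
    refine ⟨max s t, fun x y h => ?_⟩
    rw [map_mul, map_mul, hs x y (fun i hi => h i (lt_of_lt_of_le hi (le_max_left _ _))),
      ht x y (fun i hi => h i (lt_of_lt_of_le hi (le_max_right _ _)))]
  | add a b ha hb =>
    obtain ⟨s, hs⟩ := ha
    obtain ⟨t, ht⟩ := hb
    refine ⟨max s t, fun x y h => ?_⟩
    rw [map_add, map_add, hs x y (fun i hi => h i (lt_of_lt_of_le hi (le_max_left _ _))),
      ht x y (fun i hi => h i (lt_of_lt_of_le hi (le_max_right _ _)))]

theorem T_subst {n : ℕ} (T : Ideal F) (hT : TI n T) (p : F) (hp : ∀ w : F, p * w * p ∈ T)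
    (b : ℕ → F) (hb : ∀ i, b i ∈ LX) (w : F) : ev b p * w * ev b p ∈ T := by
  obtain ⟨s, hs⟩ := exists_sup p
  set c : ℕ → F := fun i => if i < s then b i else X (i - s) with hc
  have hcL : ∀ i, c i ∈ LX := by
    intro i
    simp only [hc]
    split_ifs
    · exact hb i
    · exact X_mem _
  have h1 : ev c p = ev b p := hs c b (fun i hi => by simp [hc, hi])
  have h2 : ev c (ev (fun i => X (i + s)) w) = w := by
    rw [ev_comp]
    have h3 : (fun i => ev c (X (i + s))) = X := by
      funext i
      rw [ev_X]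
      simp [hc]
    rw [h3]
    have h4 : ev X = AlgHom.id ℚ F := by
      apply FreeAlgebra.hom_ext
      funext i
      simp [ev]
    rw [h4]
    rfl
  have h5 := hT.subst c hcL _ (hp (ev (fun i => X (i + s)) w))
  rw [map_mul, map_mul, h1, h2] at h5
  exact h5

end Zel60
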