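import Pool.Agent.Work.MP_b44cb1_al.Zel.TZorn
import Pool.Agent.Work.MP_b44cb1_al.Zel.TPair
import Pool.Agent.Work.MP_b44cb1_al.Zel.TSubst
import Pool.Agent.Work.MP_b44cb1_al.Zel.Sandwich

/-!
# Zel/TCore (M) : the core configuration

Take `T` from `T_zorn` and `A, π` from `T_pair`, `H = LX.map π`. `H ≠ ⊥` (otherwise `Nil H 1`).
`sandwich` gives `p' ≠ 0` in `A` with `p' a p' = 0`; let `π p = p'`. So `p ∉ T` and `p * w * p ∈ T`
for all `w`.
* `sand` : `h i = π (b i)` with `b i ∈ LX`, `a = π w`; `ev h p = π (ev b p)` (`ev_comp`), so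
  `ev h p * a * ev h p = π (ev b p * w * ev b p) = 0` by `T_subst`.
* `cover` : let `T' = {t + z | t ∈ T, z ∈ span of all u * ev b p * v}` (an ideal; `span` is stable
  under left and right multiplication). `TI n T'` : `subst` : `ev c (u * ev b p * v) = ev c u *
  ev (fun i => ev c (b i)) p * ev c v` with `ev c (b i) ∈ LX` (`ev_LX` with `A = F`, `H = LX`).
  `T ≤ T'` and `p ∈ T'` (`b = X`, `u = v = 1`, `ev X p = p`), so `T' ≠ T`, hence by maximality
  `mon M ∈ T'` for some `M` : `mon M = f + z`. `f ∈ T` is an identity of `H` :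
  `ev h f = π (ev b f) = 0` as `ev b f ∈ T`.
-/

set_option autoImplicit false

namespace Zel60

private theorem tc_evX (p : F) : ev X p = p := by
  have h : ev X = AlgHom.id ℚ F := by
    apply FreeAlgebra.hom_ext
    funext i
    simp [ev, X]
  rw [h]
  rfl

/-- the span of the values of `p` -/
private def tcZ (p : F) : Submodule ℚ F :=
  Submodule.span ℚ {z : F | ∃ (u v : F) (b : ℕ → F), (∀ i, b i ∈ LX) ∧ z = u * ev b p * v}

private theorem tcZ_left {p : F} (c : F) {z : F} (hz : z ∈ tcZ p) : c * z ∈ tcZ p := by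
  have h : tcZ p ≤ (tcZ p).comap (LinearMap.mulLeft ℚ c) := by
    rw [tcZ, Submodule.span_le]
    rintro _ ⟨u, v, b, hb, rfl⟩
    refine Submodule.subset_span ⟨c * u, v, b, hb, ?_⟩
    change c * (u * ev b p * v) = _
    rw [mul_assoc, mul_assoc, mul_assoc]
  exact h hz

private theorem tcZ_right {p : F} (c : F) {z : F} (hz : z ∈ tcZ p) : z * c ∈ tcZ p := by
  have h : tcZ p ≤ (tcZ p).comap (LinearMap.mulRight ℚ c) := by
    rw [tcZ, Submodule.span_le]
    rintro _ ⟨u, v, b, hb, rfl⟩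
    refine Submodule.subset_span ⟨u, v * c, b, hb, ?_⟩
    change u * ev b p * v * c = _
    rw [mul_assoc]
  exact h hz

private theorem tcZ_ev {p : F} {c : ℕ → F} (hc : ∀ i, c i ∈ LX) {z : F} (hz : z ∈ tcZ p) :
    ev c z ∈ tcZ p := by
  have h : tcZ p ≤ (tcZ p).comap (ev c).toLinearMap := by
    rw [tcZ, Submodule.span_le]
    rintro _ ⟨u, v, b, hb, rfl⟩
    refine Submodule.subset_span ⟨ev c u, ev c v, fun i => ev c (b i), fun i => ?_, ?_⟩
    · exact ev_LX (H := LX) (fun x hx y hy => LX_lie hx hy) hc (hb i)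
    · change ev c (u * ev b p * v) = _
      rw [map_mul, map_mul, ev_comp]
  exact h hz

/-- the ideal generated by `T` and the values of `p` -/
private def tcT (T : Ideal F) (p : F) : Ideal F where
  carrier := {x | ∃ t ∈ T, ∃ z ∈ tcZ p, x = t + z}
  add_mem' := by
    rintro _ _ ⟨t, ht, z, hz, rfl⟩ ⟨t', ht', z', hz', rfl⟩
    exact ⟨t + t', T.add_mem ht ht', z + z', (tcZ p).add_mem hz hz', by abel⟩
  zero_mem' := ⟨0, T.zero_mem, 0, (tcZ p).zero_mem, by rw [add_zero]⟩
  smul_mem' := by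
    rintro c _ ⟨t, ht, z, hz, rfl⟩
    exact ⟨c * t, T.mul_mem_left c ht, c * z, tcZ_left c hz, by rw [smul_eq_mul, mul_add]⟩

theorem exists_core {n N : ℕ} (hn : 1 ≤ n) (hN : 1 ≤ N) (hS : SN (n - 1) N)
    (hfail : ∀ N, ¬ SN n N) :
    ∃ (A : Type) (_ : Ring A) (_ : Algebra ℚ A) (H : Submodule ℚ A) (p : F) (M : ℕ),
      Core n H p M := by
  obtain ⟨T, hT, hmon, hmax⟩ := T_zorn n hfail
  obtain ⟨A, iR, iA, π, hπ, hker, hpair, hgen, hnil⟩ := T_pair T hT hmon
  have hH : LX.map π.toLinearMap ≠ ⊥ := by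
    intro h
    apply hnil 1
    intro l hl hx
    obtain ⟨a, rfl⟩ := List.length_eq_one_iff.1 hl
    have h2 := hx a (List.mem_singleton.2 rfl)
    rw [h] at h2
    rw [List.prod_singleton]
    exact (Submodule.mem_bot ℚ).1 h2
  obtain ⟨p', hp', hsand⟩ := sandwich hn hN hS _ hpair hgen hH
  obtain ⟨p, rfl⟩ := hπ p'
  have hpT : p ∉ T := fun h => hp' ((hker p).2 h)
  have hw : ∀ w, p * w * p ∈ T := fun w => (hker _).1 (by
    rw [map_mul, map_mul]
    exact hsand (π w))
  have hTle : T ≤ tcT T p := fun t ht => ⟨t, ht, 0, (tcZ p).zero_mem, by rw [add_zero]⟩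
  have hp1 : p ∈ tcT T p := by
    refine ⟨0, T.zero_mem, p, Submodule.subset_span ⟨1, 1, X, X_mem, ?_⟩, by rw [zero_add]⟩
    rw [tc_evX, one_mul, mul_one]
  have hTI : TI n (tcT T p) := by
    refine ⟨?_, ?_, fun x hx => hTle (hT.idx x hx)⟩
    · rintro _ ⟨t, ht, z, hz, rfl⟩ y
      exact ⟨t * y, hT.two t ht y, z * y, tcZ_right y hz, by rw [add_mul]⟩
    · rintro c hc _ ⟨t, ht, z, hz, rfl⟩
      exact ⟨ev c t, hT.subst c hc t ht, ev c z, tcZ_ev hc hz, by rw [map_add]⟩
  have hex : ∃ M, mon M ∈ tcT T p := by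
    by_contra hcon
    push Not at hcon
    have h := hmax _ hTI hTle hcon
    rw [h] at hp1
    exact hpT hp1
  obtain ⟨M, f, hf, z, hz, hM⟩ := hex
  refine ⟨A, iR, iA, LX.map π.toLinearMap, p, M, hpair, hgen, hnil, ?_, f, ?_, ?_⟩
  · intro h hh a
    obtain ⟨w, rfl⟩ := hπ a
    choose b hb hbh using hh
    have hb' : h = fun i => π (b i) := funext fun i => (hbh i).symm
    have h1 : ev h p = π (ev b p) := by
      rw [ev_comp]
      exact congrArg (fun g => ev g p) hb'
    rw [h1, ← map_mul, ← map_mul, hker]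
    exact T_subst T hT p hw b hb w
  · intro h hh
    choose b hb hbh using hh
    have hb' : h = fun i => π (b i) := funext fun i => (hbh i).symm
    have h1 : ev h f = π (ev b f) := by
      rw [ev_comp]
      exact congrArg (fun g => ev g f) hb'
    rw [h1, hker]
    exact hT.subst b hb f hf
  · rw [hM, add_sub_cancel_left]
    exact hz

end Zel60
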