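import Pool.Agent.Work.MP_b44cb1_al.Zel.Defs

/-!
# Zel/TZorn (M) : a maximal T-ideal containing no `X 0 ... X (M-1)`

Let `T0 = {f | for every rational algebra A : Type, every H with PairN n H and every h : ℕ → A with
values in H : ev h f = 0}`. It is an ideal and satisfies `TI n T0` : `two` and ideal axioms are clear;
`subst` : `ev h (ev b f) = ev (fun i => ev h (b i)) f` (`ev_comp`) and `ev h (b i) ∈ H` (`ev_LX`);
`idx` : `ev h (x ^ n) = (ev h x) ^ n = 0` (`ev_LX`, `PairN.idx`). `mon M ∉ T0` : by `hfail M` there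
are a pair and a list `l` of length `M` in `H` with nonzero product; put `h i = l[i]` for `i < M` and
`h i = 0` otherwise and use `ev_mon`.
Zorn (`zorn_le_nonempty₀` or `zorn_le_nonempty`) for `{T | TI n T ∧ ∀ M, mon M ∉ T}`: the union of
a nonempty chain of such ideals is such an ideal (`sSup` of a directed set,
`Submodule.mem_sSup_of_directed`).
-/

set_option autoImplicit false

namespace Zel60

/-- The identities of all pairs of index `n`. -/
private def tzT0 (n : ℕ) : Ideal F where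
  carrier := {f | ∀ (A : Type) [Ring A] [Algebra ℚ A] (H : Submodule ℚ A), PairN n H →
    ∀ h : ℕ → A, (∀ i, h i ∈ H) → ev h f = 0}
  add_mem' := by
    intro x y hx hy A _ _ H hp h hh
    rw [map_add, hx A H hp h hh, hy A H hp h hh, add_zero]
  zero_mem' := by
    intro A _ _ H hp h hh
    rw [map_zero]
  smul_mem' := by
    intro c x hx A _ _ H hp h hh
    rw [smul_eq_mul, map_mul, hx A H hp h hh, mul_zero]

private theorem tzT0_TI (n : ℕ) : TI n (tzT0 n) := by
  refine ⟨?_, ?_, ?_⟩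
  · intro x hx y A _ _ H hp h hh
    rw [map_mul, hx A H hp h hh, zero_mul]
  · intro b hb x hx A _ _ H hp h hh
    rw [ev_comp]
    exact hx A H hp _ fun i => ev_LX hp.lie hh (hb i)
  · intro x hx A _ _ H hp h hh
    rw [map_pow]
    exact hp.idx _ (ev_LX hp.lie hh hx)

private theorem tzT0_mon (n : ℕ) (hfail : ∀ N, ¬ SN n N) (M : ℕ) : mon M ∉ tzT0 n := by
  intro hmem
  apply hfail M
  intro A _ _ H hp l hl hx
  have h1 := hmem A H hp (fun i => l.getD i 0) (by
    intro i
    by_cases hi : i < l.length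
    · simp only [List.getD_eq_getElem l 0 hi]
      exact hx _ (List.getElem_mem hi)
    · rw [List.getD_eq_default l 0 (not_lt.1 hi)]
      exact H.zero_mem)
  rw [ev_mon] at h1
  subst hl
  have h2 : List.ofFn (fun i : Fin l.length => l.getD (i : ℕ) 0) = l := by
    conv_rhs => rw [← List.ofFn_get l]
    congr 1
    funext i
    simp
  rwa [h2] at h1

theorem T_zorn (n : ℕ) (hfail : ∀ N, ¬ SN n N) :
    ∃ T : Ideal F, TI n T ∧ (∀ M, mon M ∉ T) ∧
      ∀ T' : Ideal F, TI n T' → T ≤ T' → (∀ M, mon M ∉ T') → T' = T := by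
  obtain ⟨T, -, hT⟩ := zorn_le_nonempty₀ {T : Ideal F | TI n T ∧ ∀ M, mon M ∉ T} (by
    intro c hc hchain y hy
    refine ⟨sSup c, ⟨?_, ?_⟩, fun z hz => le_sSup hz⟩
    · have hmem : ∀ {x : F}, x ∈ sSup c ↔ ∃ T ∈ c, x ∈ T := fun {x} =>
        Submodule.mem_sSup_of_directed ⟨y, hy⟩ hchain.directedOn
      refine ⟨?_, ?_, ?_⟩
      · intro x hx z
        obtain ⟨T, hT, hxT⟩ := hmem.1 hx
        exact hmem.2 ⟨T, hT, (hc hT).1.two x hxT z⟩
      · intro b hb x hx
        obtain ⟨T, hT, hxT⟩ := hmem.1 hx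
        exact hmem.2 ⟨T, hT, (hc hT).1.subst b hb x hxT⟩
      · intro x hx
        exact hmem.2 ⟨y, hy, (hc hy).1.idx x hx⟩
    · intro M hM
      obtain ⟨T, hT, hMT⟩ := (Submodule.mem_sSup_of_directed ⟨y, hy⟩ hchain.directedOn).1 hM
      exact (hc hT).2 M hMT) (tzT0 n) ⟨tzT0_TI n, tzT0_mon n hfail⟩
  refine ⟨T, hT.prop.1, hT.prop.2, fun T' h1 h2 h3 => ?_⟩
  exact le_antisymm (hT.le_of_ge ⟨h1, h3⟩ h2) h2

end Zel60
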