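import Pool.Agent.Work.MP_b44cb1_al.Zel.Defs

/-!
# Zel/UniA (M) : from rational algebras to rings, up to torsion

`B` a ring, `H` an additive subgroup closed under commutators which satisfies the linearised identity.
Then for every list `l` of `N` elements of `H` some positive multiple of `l.prod` vanishes.

Proof. `BQ = TensorProduct ℤ ℚ B` (or `Localization`-type construction) is a ring and a rational algebra
(`Algebra.TensorProduct`), `j : B →+* BQ`, `b ↦ 1 ⊗ b`. If `j b = 0` then `d • b = 0` for some `d > 0`: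
`BQ` is the localisation of the module `B` at the nonzero integers
(`IsLocalizedModule` for `TensorProduct.mk ℤ ℚ B 1`, from `IsLocalization (nonZeroDivisors ℤ) ℚ`, via
`isLocalizedModule_iff_isBaseChange`; `IsLocalizedModule.eq_zero_iff`).
Let `HQ` = rational span of `j '' H`. It is closed under commutators (bilinearity). It satisfies the
linearised identity, because `sum_σ x (σ 0) ... x (σ (n-1))` is multilinear in `x` and vanishes for
families in `j '' H` (extend slot by slot: `Submodule.span_induction` with `Function.update`, or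
`MultilinearMap` and `Submodule` closure arguments). With `x i = x` for all `i` this gives
`n! • x^n = 0`, so `x^n = 0` for `x ∈ HQ`, i.e. `PairN n HQ`. `hS BQ HQ` gives
`(l.map j).prod = 0`, i.e. `j l.prod = 0`.
-/

set_option autoImplicit false

namespace Zel60

open scoped TensorProduct

private theorem ker_inc (B : Type) [Ring B] (b : B) (h : ((1 : ℚ) ⊗ₜ[ℤ] b) = 0) :
    ∃ d : ℕ, 0 < d ∧ (d : ℤ) • b = 0 := by
  have h1 : IsLocalizedModule (nonZeroDivisors ℤ) (TensorProduct.mk ℤ ℚ B 1) :=
    (isLocalizedModule_iff_isBaseChange (nonZeroDivisors ℤ) ℚ (TensorProduct.mk ℤ ℚ B 1)).mpr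
      (TensorProduct.isBaseChange ℤ B ℚ)
  have h2 := (IsLocalizedModule.eq_zero_iff (nonZeroDivisors ℤ) (TensorProduct.mk ℤ ℚ B 1)
    (m := b)).mp h
  obtain ⟨⟨c, hc⟩, h3⟩ := h2
  have hc0 : c ≠ 0 := nonZeroDivisors.ne_zero hc
  have h4 : c • b = 0 := h3
  refine ⟨c.natAbs, Int.natAbs_pos.mpr hc0, ?_⟩
  rcases Int.natAbs_eq c with h5 | h5
  · rw [← h5]; exact h4
  · have : ((c.natAbs : ℕ) : ℤ) = -c := by omega
    rw [this, neg_smul, h4, neg_zero]

private theorem mult_ext {n : ℕ} {E : Type*} [Ring E] [Algebra ℚ E] (S : Set E)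
    (f : MultilinearMap ℚ (fun _ : Fin n => E) E) (hf : ∀ x : Fin n → E, (∀ i, x i ∈ S) → f x = 0)
    (t : Finset (Fin n)) : ∀ x : Fin n → E, (∀ i ∈ t, x i ∈ Submodule.span ℚ S) →
      (∀ i, i ∉ t → x i ∈ S) → f x = 0 := by
  classical
  induction t using Finset.induction_on with
  | empty =>
    intro x _ hx
    exact hf x (fun i => hx i (Finset.notMem_empty i))
  | insert i t hi ih =>
    intro x hx hx'
    have key : ∀ z ∈ Submodule.span ℚ S, f (Function.update x i z) = 0 := by
      intro z hz
      induction hz using Submodule.span_induction with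
      | mem z hz =>
        apply ih
        · intro j hj
          have hji : j ≠ i := fun h => hi (h ▸ hj)
          rw [Function.update_of_ne hji]
          exact hx j (Finset.mem_insert_of_mem hj)
        · intro j hj
          by_cases hji : j = i
          · subst hji
            rw [Function.update_self]
            exact hz
          · rw [Function.update_of_ne hji]
            apply hx'
            simp [hji, hj]
      | zero => exact f.map_update_zero x i
      | add z w _ _ hz hw =>
        rw [f.map_update_add, hz, hw, add_zero]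
      | smul a z _ hz =>
        rw [f.map_update_smul, hz, smul_zero]
    have := key (x i) (hx i (Finset.mem_insert_self i t))
    rwa [Function.update_eq_self] at this

theorem uni_a {n N : ℕ} (hS : SN n N) (B : Type) [Ring B] (H : AddSubgroup B)
    (hl : ∀ x ∈ H, ∀ y ∈ H, x * y - y * x ∈ H)
    (hlin : ∀ x : Fin n → B, (∀ i, x i ∈ H) →
      ∑ σ : Equiv.Perm (Fin n), (List.ofFn (fun i => x (σ i))).prod = 0)
    (l : List B) (hlen : l.length = N) (hlH : ∀ x ∈ l, x ∈ H) :
    ∃ d : ℕ, 0 < d ∧ (d : ℤ) • l.prod = 0 := by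
  set j : B →+* ℚ ⊗[ℤ] B :=
    (Algebra.TensorProduct.includeRight : B →ₐ[ℤ] ℚ ⊗[ℤ] B).toRingHom with hj
  have hjv : ∀ b, j b = (1 : ℚ) ⊗ₜ[ℤ] b := fun b => rfl
  set HQ : Submodule ℚ (ℚ ⊗[ℤ] B) := Submodule.span ℚ (j '' (H : Set B)) with hHQ
  have hlie : ∀ x ∈ HQ, ∀ y ∈ HQ, x * y - y * x ∈ HQ := by
    intro x hx y hy
    induction hx using Submodule.span_induction with
    | mem x hx =>
      induction hy using Submodule.span_induction with
      | mem y hy =>
        obtain ⟨a, ha, rfl⟩ := hx
        obtain ⟨b, hb, rfl⟩ := hy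
        rw [← map_mul, ← map_mul, ← map_sub]
        exact Submodule.subset_span ⟨_, hl a ha b hb, rfl⟩
      | zero => simp
      | add y z _ _ hy hz =>
        have : x * (y + z) - (y + z) * x = (x * y - y * x) + (x * z - z * x) := by noncomm_ring
        rw [this]
        exact HQ.add_mem hy hz
      | smul a y _ hy =>
        have : x * (a • y) - (a • y) * x = a • (x * y - y * x) := by
          rw [mul_smul_comm, smul_mul_assoc, smul_sub]
        rw [this]
        exact HQ.smul_mem a hy
    | zero => simp
    | add x z _ _ hx hz =>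
      have : (x + z) * y - y * (x + z) = (x * y - y * x) + (z * y - y * z) := by noncomm_ring
      rw [this]
      exact HQ.add_mem hx hz
    | smul a x _ hx =>
      have : (a • x) * y - y * (a • x) = a • (x * y - y * x) := by
        rw [mul_smul_comm, smul_mul_assoc, smul_sub]
      rw [this]
      exact HQ.smul_mem a hx
  set f : MultilinearMap ℚ (fun _ : Fin n => ℚ ⊗[ℤ] B) (ℚ ⊗[ℤ] B) :=
    ∑ σ : Equiv.Perm (Fin n),
      (MultilinearMap.mkPiAlgebraFin ℚ n (ℚ ⊗[ℤ] B)).domDomCongr σ with hf
  have hfv : ∀ x, f x = ∑ σ : Equiv.Perm (Fin n), (List.ofFn (fun i => x (σ i))).prod := by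
    intro x
    rw [hf, _root_.sum_apply]
    rfl
  have hf0 : ∀ x : Fin n → ℚ ⊗[ℤ] B, (∀ i, x i ∈ j '' (H : Set B)) → f x = 0 := by
    intro x hx
    choose y hy hxy using hx
    rw [hfv]
    have h1 := congrArg j (hlin y hy)
    rw [map_sum, map_zero] at h1
    rw [← h1]
    apply Finset.sum_congr rfl
    intro σ _
    rw [map_list_prod, List.map_ofFn]
    congr 2
    funext i
    exact (hxy (σ i)).symm
  have hf1 : ∀ x : Fin n → ℚ ⊗[ℤ] B, (∀ i, x i ∈ HQ) → f x = 0 := by
    intro x hx
    exact mult_ext _ f hf0 Finset.univ x (fun i _ => hx i)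
      (fun i hi => absurd (Finset.mem_univ i) hi)
  have hidx : ∀ x ∈ HQ, x ^ n = 0 := by
    intro x hx
    have h1 := hf1 (fun _ => x) (fun _ => hx)
    rw [hfv] at h1
    simp only [List.ofFn_const, List.prod_replicate, Finset.sum_const, Finset.card_univ,
      Fintype.card_perm, Fintype.card_fin] at h1
    have h2 : ((n.factorial : ℕ) : ℚ) • x ^ n = 0 := by
      rw [Nat.cast_smul_eq_nsmul]
      exact h1
    rcases smul_eq_zero.mp h2 with h3 | h3
    · exact absurd h3 (Nat.cast_ne_zero.mpr (Nat.factorial_ne_zero n))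
    · exact h3
  have hpair : PairN n HQ := ⟨hlie, hidx⟩
  have h0 := hS (ℚ ⊗[ℤ] B) HQ hpair (l.map j) (by simpa using hlen) (by
    intro x hx
    obtain ⟨b, hb, rfl⟩ := List.mem_map.mp hx
    exact Submodule.subset_span ⟨b, hlH b hb, rfl⟩)
  rw [← map_list_prod, hjv] at h0
  exact ker_inc B _ h0

end Zel60
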