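import Pool.Agent.Work.MP_b44cb1_al.Zel.SymAlt
import Pool.Agent.Work.MP_b44cb1_al.Zel.LemR

/-!
# Zel/Unify (M) : from `i + 1` to `i` common letters

Let `ξ` (length `i`), `m`, `b`, `s` be as in `PP H D i ((N-1)^2+1)`. For `r ∈ s` the block is
`b r = ξ.prod * ((c' r).prod ⊗ 1)`, `(c' r).length = D - i ≥ 1`, `c' r = x r :: c r` with `x r ∈ H`;
for `r ∉ s` put `x r = 0` and `c r` = a list of `D - (i+1)` zeros. Then
`(List.ofFn b).prod = Phi ξ b s c x`.
Let `U = Equiv.Perm (Fin m) → A ⊗ GG`, `(ρ g f) τ = f (τ * g)` (a homomorphism `Perm →* Module.End ℚ U`),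
`u τ = Phi ξ b s c (fun r => x (τ r))`. Apply `lemR` with `s = t = N`, `D := s`:
`(sum_{σ ∈ SP R} ρ σ (ρ g u)) τ = sum_{σ ∈ SP R} u (τ * σ * g)`; by `sum_SP_conj` (for the
function `σ ↦ u (τ * σ)`) this is `sum over σ ∈ SP (g⁻¹ R) of Phi ξ b s c (fun r => x (τ (g (σ r))))`,
which is 0 by `sym_alt` for the letters `x ∘ τ ∘ g` and the set `R.image g⁻¹ ⊆ s` (`g ∈ SP s`), which
has `N` elements. The same for the alternating sums (`sum_SP_conj_sign`). So `u = 0`, and
`u 1 = (List.ofFn b).prod`.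
-/

set_option autoImplicit false

namespace Zel60

open scoped TensorProduct

private noncomputable def rgt (m : ℕ) (V : Type) [AddCommGroup V] [Module ℚ V] :
    Equiv.Perm (Fin m) →* Module.End ℚ (Equiv.Perm (Fin m) → V) where
  toFun g := LinearMap.funLeft ℚ V (fun τ => τ * g)
  map_one' := by
    ext f τ
    simp [LinearMap.funLeft_apply]
  map_mul' g h := by
    ext f τ
    simp [LinearMap.funLeft_apply, mul_assoc]

private theorem rgt_apply (m : ℕ) (V : Type) [AddCommGroup V] [Module ℚ V]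
    (g : Equiv.Perm (Fin m)) (f : Equiv.Perm (Fin m) → V) (τ : Equiv.Perm (Fin m)) :
    rgt m V g f τ = f (τ * g) := rfl

theorem unify {A : Type} [Ring A] [Algebra ℚ A] {H : Submodule ℚ A} {D i N : ℕ} (hN : 1 ≤ N)
    (hi : i < D) (hPP : PP H D (i + 1) N) : PP H D i ((N - 1) ^ 2 + 1) := by
  classical
  intro ξ hξ hξH m b hb s hs hblk
  have hex : ∀ r : Fin m, ∃ (x : A) (c : List A), x ∈ H ∧ c.length = D - (i + 1) ∧
      (∀ a ∈ c, a ∈ H) ∧
      (r ∈ s → b r = ξ.prod * (x ⊗ₜ[ℚ] (1 : GG)) * (c.prod ⊗ₜ[ℚ] (1 : GG))) := by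
    intro r
    by_cases hr : r ∈ s
    · obtain ⟨c', hlen, hcH, hbr⟩ := hblk r hr
      cases c' with
      | nil => simp only [List.length_nil] at hlen; omega
      | cons y c =>
        refine ⟨y, c, hcH y List.mem_cons_self, ?_, fun a ha => hcH a (List.mem_cons_of_mem _ ha),
          fun _ => ?_⟩
        · simp only [List.length_cons] at hlen; omega
        · rw [hbr, List.prod_cons, mul_assoc, Algebra.TensorProduct.tmul_mul_tmul, one_mul]
    · refine ⟨0, List.replicate (D - (i + 1)) 0, H.zero_mem, List.length_replicate, ?_,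
        fun h => absurd h hr⟩
      intro a ha
      rw [List.eq_of_mem_replicate ha]
      exact H.zero_mem
  choose x c hx hclen hcH hbr using hex
  let u : Equiv.Perm (Fin m) → A ⊗[ℚ] GG := fun τ => Phi ξ b s c (fun r => x (τ r))
  have hu1 : (List.ofFn b).prod = u 1 := by
    change _ = Phi ξ b s c (fun r => x r)
    rw [Phi]
    congr 2
    funext r
    split_ifs with hr
    · exact hbr r hr
    · rfl
  have himg : ∀ g ∈ SP s, ∀ R ⊆ s, R.image (g⁻¹ : Equiv.Perm (Fin m)) ⊆ s := by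
    intro g hg R hR y hy
    obtain ⟨r, hr, rfl⟩ := Finset.mem_image.1 hy
    by_contra hcon
    have h1 := (mem_SP s g).1 hg _ hcon
    have h2 : g ((g⁻¹ : Equiv.Perm (Fin m)) r) = r := by
      rw [← Equiv.Perm.mul_apply, mul_inv_cancel]; rfl
    rw [h2] at h1
    rw [← h1] at hcon
    exact hcon (hR hr)
  have hcard : ∀ (g : Equiv.Perm (Fin m)) (R : Finset (Fin m)), R.card = N →
      (R.image (g⁻¹ : Equiv.Perm (Fin m))).card = N := by
    intro g R hR
    rw [Finset.card_image_of_injective _ (g⁻¹).injective, hR]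
  have hu : u = 0 := by
    refine lemR (rgt m (A ⊗[ℚ] GG)) N N hN hN s ?_ u ?_ ?_
    · rw [← pow_two]; exact hs
    · intro g hg R hR hRc
      funext τ
      rw [Finset.sum_apply]
      have h1 : ∑ σ ∈ SP R, (rgt m (A ⊗[ℚ] GG)) σ ((rgt m (A ⊗[ℚ] GG)) g u) τ =
          ∑ σ ∈ SP R, u (τ * (σ * g)) := by
        refine Finset.sum_congr rfl (fun σ _ => ?_)
        rw [rgt_apply, rgt_apply, mul_assoc]
      rw [h1, sum_SP_conj R g (fun σ => u (τ * σ))]
      exact (sym_alt hPP hi ξ hξ hξH m b hb s c hclen hcH (fun r => x (τ (g r)))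
        (fun r => hx _) (R.image (g⁻¹ : Equiv.Perm (Fin m))) (himg g hg R hR) (hcard g R hRc)).1
    · intro g hg R hR hRc
      funext τ
      rw [Finset.sum_apply]
      have h1 : ∑ σ ∈ SP R, ((Equiv.Perm.sign σ : ℤ) •
          (rgt m (A ⊗[ℚ] GG)) σ ((rgt m (A ⊗[ℚ] GG)) g u)) τ =
          ∑ σ ∈ SP R, (Equiv.Perm.sign σ : ℤ) • u (τ * (σ * g)) := by
        refine Finset.sum_congr rfl (fun σ _ => ?_)
        rw [Pi.smul_apply, rgt_apply, rgt_apply, mul_assoc]
      rw [h1, sum_SP_conj_sign R g (fun σ => u (τ * σ))]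
      exact (sym_alt hPP hi ξ hξ hξH m b hb s c hclen hcH (fun r => x (τ (g r)))
        (fun r => hx _) (R.image (g⁻¹ : Equiv.Perm (Fin m))) (himg g hg R hR) (hcard g R hRc)).2
  rw [hu1, hu]
  rfl

end Zel60
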