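import Pool.Agent.Work.MP_b44cb1_al.Zel.Cover
import Pool.Agent.Work.MP_b44cb1_al.Zel.SandG
import Pool.Agent.Work.MP_b44cb1_al.Zel.Pig

/-!
# Zel/Wpow (S-M) : the last statement `PP H D D (k+1)`

`D, k` from `cover`. Let `ξ` be a list of `D` homogeneous letters of `H ⊗ G` (parity `e i` of the `i`-th
letter), `b`, `s` as in `PP`. For `r ∈ s` the block `b r` is `ξ.prod * (c.prod ⊗ 1)` with
`c.length = D - D = 0`, so `b r = ξ.prod`. By `cover` (with `ξ = List.ofFn ..`) this is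
`sum_{j<k} u j * ev (a j) p * v j`, and `ev (a j) p * x * ev (a j) p = 0` by `sandG`. Apply `pig`.
-/

set_option autoImplicit false

namespace Zel60

open scoped TensorProduct

theorem wpow {n : ℕ} {A : Type} [Ring A] [Algebra ℚ A] {H : Submodule ℚ A} {p : F} {M : ℕ}
    (hc : Core n H p M) : ∃ D k : ℕ, 1 ≤ D ∧ PP H D D (k + 1) := by
  obtain ⟨D, k, hD, hcov⟩ := cover hc
  refine ⟨D, k, hD, ?_⟩
  intro ξ hξ hhom m b _ s hs hblk
  subst hξ
  choose e he using fun i : Fin ξ.length => hhom ξ[i] (List.getElem_mem _)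
  obtain ⟨u, v, a, ha, hprod⟩ := hcov e (fun i => ξ[i]) he
  have hof : List.ofFn (fun i : Fin ξ.length => ξ[i]) = ξ := by
    simp
  rw [hof] at hprod
  refine pig k u (fun j => ev (a j) p) v (fun j x => sandG hc (a j) (ha j) x) m b s hs ?_
  intro r hr
  obtain ⟨c, hcl, _, hw⟩ := hblk r hr
  have hcn : c = [] := List.length_eq_zero_iff.mp (by omega)
  subst hcn
  rw [hw, hprod, List.prod_nil]
  have h1 : ((1 : A) ⊗ₜ[ℚ] (1 : GG)) = 1 := rfl
  rw [h1, mul_one]

end Zel60
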