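import Pool.Agent.Work.MP_b44cb1_al.Zel.TCore
import Pool.Agent.Work.MP_b44cb1_al.Zel.Wpow
import Pool.Agent.Work.MP_b44cb1_al.Zel.Unify

/-!
# Zel/Zelmanov (S-M) : every pair of index `n` is nilpotent of class `N(n)`

Induction on `n`; `n = 0` : `SN_zero`. Let `n ≥ 1` and `SN (n-1) N`, `1 ≤ N` (`SN.mono`). If no `SN n N'`
holds then `exists_core` gives `Core n H p M`, `wpow` gives `D, k` with `PP H D D (k+1)`; `unify`
(downward induction on `i ≤ D`) gives `PP H D 0 N0` for some `N0`. Take `ξ = []`, `m = N0`, `s = univ`,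
and for `l` a list of `N0 * D` elements of `H` cut into `N0` blocks of length `D`,
`b r = (block r).prod ⊗ 1` (homogeneous of parity 0: `HG_tmul`, `g_one`): the product `l.prod ⊗ 1` is 0,
so `l.prod = 0` (`tmul_one_injective`). Hence `Nil H (N0 * D)`, a contradiction to `core.notnil`.
-/

set_option autoImplicit false

namespace Zel60

open scoped TensorProduct

private theorem cut {A : Type} [Ring A] [Algebra ℚ A] (D : ℕ) : ∀ (N : ℕ) (l : List A),
    l.length = N * D →
    (List.ofFn (fun r : Fin N => ((l.drop ((r : ℕ) * D)).take D).prod ⊗ₜ[ℚ] (1 : GG))).prod =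
      l.prod ⊗ₜ[ℚ] (1 : GG) := by
  intro N
  induction N with
  | zero =>
    intro l hl
    rw [Nat.zero_mul, List.length_eq_zero_iff] at hl
    subst hl
    simp [Algebra.TensorProduct.one_def]
  | succ N ih =>
    intro l hl
    rw [List.ofFn_succ, List.prod_cons]
    have h1 := ih (l.drop D) (by rw [List.length_drop, hl, Nat.succ_mul]; omega)
    have h2 : (fun r : Fin N => ((l.drop (((r.succ : Fin (N + 1)) : ℕ) * D)).take D).prod ⊗ₜ[ℚ]
        (1 : GG)) =
        fun r : Fin N => (((l.drop D).drop ((r : ℕ) * D)).take D).prod ⊗ₜ[ℚ] (1 : GG) := by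
      funext r
      rw [List.drop_drop, Fin.val_succ, Nat.succ_mul, Nat.add_comm]
    rw [h2, h1, Fin.val_zero, Nat.zero_mul, List.drop_zero, Algebra.TensorProduct.tmul_mul_tmul,
      one_mul, ← List.prod_append, List.take_append_drop]

theorem zelmanov (n : ℕ) : ∃ N, SN n N := by
  induction n with
  | zero => exact ⟨0, SN_zero⟩
  | succ n ih =>
    obtain ⟨N0, hN0⟩ := ih
    by_contra hcon
    push Not at hcon
    have hS : SN (n + 1 - 1) (max N0 1) := by
      rw [Nat.add_sub_cancel]
      exact hN0.mono (le_max_left _ _)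
    obtain ⟨A, hA1, hA2, H, p, M, hc⟩ := exists_core (n := n + 1) (N := max N0 1) (by omega)
      (le_max_right _ _) hS hcon
    obtain ⟨D, k, hD, hPP⟩ := wpow hc
    have hdown : ∀ j, j ≤ D → ∃ N', 1 ≤ N' ∧ PP H D (D - j) N' := by
      intro j
      induction j with
      | zero =>
        intro _
        exact ⟨k + 1, by omega, hPP⟩
      | succ j ihj =>
        intro hj
        obtain ⟨N', hN', hP⟩ := ihj (by omega)
        refine ⟨(N' - 1) ^ 2 + 1, by omega, unify hN' (by omega) ?_⟩
        rw [show D - (j + 1) + 1 = D - j by omega]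
        exact hP
    obtain ⟨N', -, hP⟩ := hdown D le_rfl
    rw [Nat.sub_self] at hP
    apply hc.notnil (N' * D)
    intro l hl hlH
    apply tmul_one_injective
    rw [← cut D N' l hl]
    refine hP [] rfl (by simp) N' _ (fun r => ⟨0, HG_tmul Submodule.mem_top g_one⟩) Finset.univ
      (by simp) (fun r _ => ?_)
    refine ⟨(l.drop ((r : ℕ) * D)).take D, ?_, ?_, ?_⟩
    · rw [List.length_take, List.length_drop, hl, Nat.sub_zero, min_eq_left]
      have h1 : ((r : ℕ) + 1) * D ≤ N' * D := Nat.mul_le_mul_right D r.2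
      rw [Nat.succ_mul] at h1
      omega
    · intro a ha
      exact hlH a (List.mem_of_mem_drop (List.mem_of_mem_take ha))
    · rw [List.prod_nil, one_mul]

end Zel60
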